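import Mathlib

/-!
# FeaMeas: measurability of feasibility

The set of `(a, b)` such that the system `a i ⬝ᵥ x ≤ b i` (`i ∈ S`), `a i ⬝ᵥ x = b i` (`i ∈ T`) is
solvable is measurable: it is the union over `N` of the closed sets in which there is a solution
with `‖x‖ ≤ N`. General form: `exists_measurable`.
-/

set_option autoImplicit false

open MeasureTheory Set

namespace Pool.Agent.Lib.S3

/-- The projection of a closed set along a compact factor is closed. -/
theorem isClosed_exists_compact {Ω X : Type*} [TopologicalSpace Ω] [TopologicalSpace X]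
    {K : Set X} (hK : IsCompact K) {F : Set (Ω × X)} (hF : IsClosed F) :
    IsClosed {ω : Ω | ∃ x ∈ K, (ω, x) ∈ F} := by
  have : CompactSpace K := isCompact_iff_compactSpace.mp hK
  have h1 : IsClosed {p : Ω × K | (p.1, (p.2 : X)) ∈ F} :=
    hF.preimage (by fun_prop)
  have h2 : {ω : Ω | ∃ x ∈ K, (ω, x) ∈ F} = Prod.fst '' {p : Ω × K | (p.1, (p.2 : X)) ∈ F} := by
    ext ω
    constructor
    · rintro ⟨x, hx, h⟩
      exact ⟨(ω, ⟨x, hx⟩), h, rfl⟩
    · rintro ⟨⟨ω', x⟩, h, rfl⟩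
      exact ⟨x, x.2, h⟩
  rw [h2]
  exact isClosedMap_fst_of_compactSpace _ h1

/-- The projection of a closed set along a sigma compact factor is measurable. -/
theorem exists_measurable {Ω X : Type*} [TopologicalSpace Ω] [MeasurableSpace Ω]
    [OpensMeasurableSpace Ω] [TopologicalSpace X] [SigmaCompactSpace X]
    {F : Set (Ω × X)} (hF : IsClosed F) :
    MeasurableSet {ω : Ω | ∃ x, (ω, x) ∈ F} := by
  have h : {ω : Ω | ∃ x, (ω, x) ∈ F} =
      ⋃ N : ℕ, {ω : Ω | ∃ x ∈ compactCovering X N, (ω, x) ∈ F} := by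
    ext ω
    simp only [mem_ofPred_eq, mem_iUnion]
    constructor
    · rintro ⟨x, hx⟩
      obtain ⟨N, hN⟩ := exists_mem_compactCovering x
      exact ⟨N, x, hN, hx⟩
    · rintro ⟨N, x, _, hx⟩
      exact ⟨x, hx⟩
  rw [h]
  exact MeasurableSet.iUnion fun N =>
    (isClosed_exists_compact (isCompact_compactCovering X N) hF).measurableSet

/-- Solvability of a linear system with parameters is measurable. -/
theorem measurableSet_fea {Ω : Type*} [TopologicalSpace Ω] [MeasurableSpace Ω]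
    [OpensMeasurableSpace Ω] {ι : Type*} {n : ℕ} (a : Ω → ι → Fin n → ℝ) (b : Ω → ι → ℝ)
    (ha : ∀ i, Continuous fun ω => a ω i) (hb : ∀ i, Continuous fun ω => b ω i)
    (T S : Set ι) :
    MeasurableSet {ω : Ω | ∃ x : Fin n → ℝ,
      (∀ i ∈ T, a ω i ⬝ᵥ x = b ω i) ∧ ∀ i ∈ S, a ω i ⬝ᵥ x ≤ b ω i} := by
  have hd : ∀ i, Continuous fun p : Ω × (Fin n → ℝ) => a p.1 i ⬝ᵥ p.2 := by
    intro i
    unfold dotProduct
    refine continuous_finsetSum _ fun j _ => ?_
    exact ((continuous_apply j).comp ((ha i).comp continuous_fst)).mul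
      ((continuous_apply j).comp continuous_snd)
  have hF : IsClosed {p : Ω × (Fin n → ℝ) |
      (∀ i ∈ T, a p.1 i ⬝ᵥ p.2 = b p.1 i) ∧ ∀ i ∈ S, a p.1 i ⬝ᵥ p.2 ≤ b p.1 i} := by
    refine IsClosed.and ?_ ?_
    · rw [show {p : Ω × (Fin n → ℝ) | ∀ i ∈ T, a p.1 i ⬝ᵥ p.2 = b p.1 i} =
        ⋂ i ∈ T, {p : Ω × (Fin n → ℝ) | a p.1 i ⬝ᵥ p.2 = b p.1 i} by ext; simp]
      exact isClosed_biInter fun i _ => isClosed_eq (hd i) ((hb i).comp continuous_fst)
    · rw [show {p : Ω × (Fin n → ℝ) | ∀ i ∈ S, a p.1 i ⬝ᵥ p.2 ≤ b p.1 i} =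
        ⋂ i ∈ S, {p : Ω × (Fin n → ℝ) | a p.1 i ⬝ᵥ p.2 ≤ b p.1 i} by ext; simp]
      exact isClosed_biInter fun i _ => isClosed_le (hd i) ((hb i).comp continuous_fst)
  exact exists_measurable hF

/-- Feasibility of the frozen statement is measurable. -/
theorem measurableSet_feasible {m n : ℕ} (Abar : Fin m → Fin n → ℝ) (bbar : Fin m → ℝ) :
    MeasurableSet {ω : (Fin m → Fin n → ℝ) × (Fin m → ℝ) | ∃ x : Fin n → ℝ, ∀ i,
      (fun j => Abar i j + ω.1 i j) ⬝ᵥ x ≤ bbar i + ω.2 i} := by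
  have h := measurableSet_fea (Ω := (Fin m → Fin n → ℝ) × (Fin m → ℝ)) (ι := Fin m)
    (fun ω i j => Abar i j + ω.1 i j) (fun ω i => bbar i + ω.2 i)
    (fun i => by fun_prop) (fun i => by fun_prop) ∅ univ
  simpa using h

end Pool.Agent.Lib.S3
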