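import Pool.Agent.Lib.SHirsch.FInt
import Pool.Agent.Lib.S3.FeaMeas

/-!
# Assemble: the frozen statement S08587 from a bad set

`MM m n σ = 2 + m + n + ⌈1/σ⌉`. If outside a set `B` of measure at most
`MM ^ (C - log₂ n - 5)` times the probability of feasibility all pairs of vertices are joined by
walks of length at most `MM ^ C`, then the frozen statement holds (`assemble`).
-/

set_option autoImplicit false

open MeasureTheory Set
open scoped ENNReal

namespace Pool.Agent.Lib.S3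

open Pool.Agent.Lib.SHirsch

/-- The basic parameter. -/
noncomputable def MM (m n : ℕ) (σ : ℝ) : ℕ := 2 + m + n + ⌈1 / σ⌉₊

/-- The feasible noises. -/
def feas {m n : ℕ} (Abar : Fin m → Fin n → ℝ) (bbar : Fin m → ℝ) :
    Set ((Fin m → Fin n → ℝ) × (Fin m → ℝ)) :=
  {ω | ∃ x : Fin n → ℝ, ∀ i, (fun j => Abar i j + ω.1 i j) ⬝ᵥ x ≤ bbar i + ω.2 i}

theorem feas_measurable {m n : ℕ} (Abar : Fin m → Fin n → ℝ) (bbar : Fin m → ℝ) :
    MeasurableSet (feas Abar bbar) := measurableSet_feasible Abar bbar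

/-- Walks between all pairs of vertices bound the diameter. -/
theorem dm_le_of_reach {m n : ℕ} {a : Fin m → Fin n → ℝ} {b : Fin m → ℝ} (hG : GPos a b)
    (S : Finset (Fin m)) (K : ℕ)
    (h : ∀ u v : Fin n → ℝ, Vert a b ∅ S u → Vert a b ∅ S v → Reach a b ∅ S K u v) :
    dm (Pol a b ∅ S) ≤ (K : ℕ∞) := by
  have hvert : ∀ u ∈ Set.extremePoints ℝ (Pol a b ∅ S), Vert a b ∅ S u := by
    intro u hu
    refine ⟨hu.1, ?_⟩
    rw [Finset.empty_union]
    apply le_antisymm _ (extreme_tight hu)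
    refine le_trans (Finset.card_le_card ?_) (hG.al u)
    intro i hi
    rw [mem_tt] at hi ⊢
    exact ⟨Finset.mem_univ _, hi.2⟩
  have hwalk : ∀ r : ℕ, ∀ u v : Fin n → ℝ, Reach a b ∅ S r u v →
      ∀ (hu : u ∈ Set.extremePoints ℝ (Pol a b ∅ S)) (hv : v ∈ Set.extremePoints ℝ (Pol a b ∅ S)),
      ((SimpleGraph.fromRel (fun u v : Fin n → ℝ =>
        IsExtreme ℝ (Pol a b ∅ S) (segment ℝ u v))).induce
        (Set.extremePoints ℝ (Pol a b ∅ S))).edist ⟨u, hu⟩ ⟨v, hv⟩ ≤ (r : ℕ∞) := by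
    intro r
    induction r with
    | zero =>
      rintro u v ⟨-, rfl⟩ hu hv
      simp
    | succ r ih =>
      rintro u v ⟨z, h1, h2, h3⟩ hu hv
      have hzv := reach_vert h1
      have hz := vert_extreme hG hzv
      refine le_trans (SimpleGraph.edist_triangle (v := ⟨z, hz⟩)) ?_
      push_cast
      apply add_le_add (ih u z h1 hu hz)
      rcases h3 with rfl | h3
      · rw [SimpleGraph.edist_self]
        exact zero_le_one
      · apply le_of_eq
        rw [SimpleGraph.edist_eq_one_iff_adj]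
        rw [SimpleGraph.induce_adj, SimpleGraph.fromRel_adj]
        exact ⟨h3.1, Or.inl (segment_extreme hG hzv h2 h3)⟩
  unfold dm
  rw [SimpleGraph.ediam_le_iff]
  rintro ⟨u, hu⟩ ⟨v, hv⟩
  exact hwalk K u v (h u v (hvert u hu) (hvert v hv)) hu hv

/-- Almost sure general position. -/
theorem gpc_noise {m n : ℕ} (Abar : Fin m → Fin n → ℝ) (bbar : Fin m → ℝ)
    {σ : ℝ} (hσ : 0 < σ) :
    ∀ᵐ ω ∂(noise m n σ),
      GPc (Gr (fun i j => Abar i j + ω.1 i j) (fun i => bbar i + ω.2 i)) :=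
  (rows_law Abar bbar σ).quasiMeasurePreserving.ae (gp_ae Abar bbar hσ)

theorem gpos_noise {m n : ℕ} (hmn : n ≤ m) (Abar : Fin m → Fin n → ℝ) (bbar : Fin m → ℝ)
    {σ : ℝ} (hσ : 0 < σ) :
    ∀ᵐ ω ∂(noise m n σ),
      GPos (fun i j => Abar i j + ω.1 i j) (fun i => bbar i + ω.2 i) :=
  (gpc_noise Abar bbar hσ).mono fun _ h => gpos_of_gpc hmn h

private theorem kk_le (m n : ℕ) (σ : ℝ) (hn : 1 ≤ n) :
    4 * n * m ^ Nat.clog 2 (4 * n) ≤ MM m n σ ^ (Nat.log 2 n + 5) := by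
  have hM : m ≤ MM m n σ := by unfold MM; omega
  have hN : n ≤ MM m n σ := by unfold MM; omega
  have h1 : 1 ≤ MM m n σ := by unfold MM; omega
  by_cases hm : m = 0
  · subst hm
    have : 0 < Nat.clog 2 (4 * n) := Nat.clog_pos (by norm_num) (by omega)
    rw [zero_pow this.ne', mul_zero]
    exact Nat.zero_le _
  have h4 : 4 ≤ MM m n σ := by unfold MM; omega
  have hc : Nat.clog 2 (4 * n) ≤ Nat.log 2 n + 3 := by
    apply Nat.clog_le_of_le_pow
    have : n < 2 ^ (Nat.log 2 n + 1) := Nat.lt_pow_succ_log_self (by norm_num) n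
    calc 4 * n ≤ 4 * 2 ^ (Nat.log 2 n + 1) := Nat.mul_le_mul_left _ this.le
      _ = 2 ^ (Nat.log 2 n + 3) := by ring
  calc 4 * n * m ^ Nat.clog 2 (4 * n)
      ≤ MM m n σ * MM m n σ * MM m n σ ^ (Nat.log 2 n + 3) := by
        refine Nat.mul_le_mul (Nat.mul_le_mul h4 hN) ?_
        exact (Nat.pow_le_pow_left hM _).trans (Nat.pow_le_pow_right h1 hc)
    _ = MM m n σ ^ (Nat.log 2 n + 5) := by ring

/-- The integral from a bad set. -/
theorem int_of_bad {m n : ℕ} (hn : 1 ≤ n) (hmn : n ≤ m) (Abar : Fin m → Fin n → ℝ)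
    (bbar : Fin m → ℝ) {σ : ℝ} (hσ : 0 < σ) (C : ℕ)
    (B : Set ((Fin m → Fin n → ℝ) × (Fin m → ℝ)))
    (hgood : ∀ᵐ ω ∂(noise m n σ), ω ∈ feas Abar bbar → ω ∉ B →
      dm (Pol (fun i j => Abar i j + ω.1 i j) (fun i => bbar i + ω.2 i) ∅ Finset.univ) ≤
        ((MM m n σ ^ C : ℕ) : ℕ∞))
    (hbad : ((MM m n σ : ℕ) : ℝ≥0∞) ^ (Nat.log 2 n + 5) * noise m n σ B ≤
      ((MM m n σ : ℕ) : ℝ≥0∞) ^ C * noise m n σ (feas Abar bbar)) :
    ∫⁻ ω, ENat.toENNReal (dm (Pol (fun i j => Abar i j + ω.1 i j) (fun i => bbar i + ω.2 i)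
        ∅ Finset.univ)) ∂(noise m n σ) ≤
      2 * ((MM m n σ : ℕ) : ℝ≥0∞) ^ C * noise m n σ (feas Abar bbar) := by
  set B' := toMeasurable (noise m n σ) B with hB'
  have hB'm : MeasurableSet B' := measurableSet_toMeasurable _ _
  have hFm := feas_measurable Abar bbar
  set M : ℝ≥0∞ := ((MM m n σ : ℕ) : ℝ≥0∞) with hM
  calc ∫⁻ ω, ENat.toENNReal (dm (Pol (fun i j => Abar i j + ω.1 i j) (fun i => bbar i + ω.2 i)
        ∅ Finset.univ)) ∂(noise m n σ)
      ≤ ∫⁻ ω, ((feas Abar bbar).indicator (fun _ => M ^ C) ω +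
          B'.indicator (fun _ => M ^ (Nat.log 2 n + 5)) ω) ∂(noise m n σ) := by
        apply lintegral_mono_ae
        filter_upwards [gpc_noise Abar bbar hσ, hgood] with ω hG hg
        have hps := point_small hn hmn hG
        by_cases hf : ω ∈ feas Abar bbar
        · by_cases hb : ω ∈ B'
          · rw [Set.indicator_of_mem hb]
            refine le_trans ?_ le_add_self
            refine hps.trans ?_
            have h1 : ({ω : Option (Fin m) → Fin (n + 1) → ℝ | Fea Finset.univ ω}.indicator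
                (fun _ => (1 : ENNReal))
                (Gr (fun i j => Abar i j + ω.1 i j) (fun i => bbar i + ω.2 i))) ≤ 1 :=
              Set.indicator_le_self' (fun _ _ => zero_le_one) _
            refine (mul_le_mul_right h1 _).trans ?_
            rw [mul_one, hM]
            exact_mod_cast kk_le m n σ hn
          · rw [Set.indicator_of_mem hf]
            refine le_trans ?_ le_self_add
            have h2 := hg hf (fun h => hb (subset_toMeasurable _ _ h))
            have h3 := (ENat.toENNReal_mono h2)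
            refine h3.trans (le_of_eq ?_)
            rw [hM]
            push_cast
            rfl
        · have h0 : ω ∉ {ω : (Fin m → Fin n → ℝ) × (Fin m → ℝ) | ∃ x : Fin n → ℝ, ∀ i,
              (fun j => Abar i j + ω.1 i j) ⬝ᵥ x ≤ bbar i + ω.2 i} := hf
          have h1 : Gr (fun i j => Abar i j + ω.1 i j) (fun i => bbar i + ω.2 i) ∉
              {ω : Option (Fin m) → Fin (n + 1) → ℝ | Fea Finset.univ ω} :=
            fun h => h0 ((fea_iff hmn hG).1 h)
          rw [Set.indicator_of_notMem h1, mul_zero] at hps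
          exact hps.trans zero_le
    _ = M ^ C * noise m n σ (feas Abar bbar) + M ^ (Nat.log 2 n + 5) * noise m n σ B := by
        rw [lintegral_add_left (measurable_const.indicator hFm),
          lintegral_indicator_const hFm, lintegral_indicator_const hB'm, measure_toMeasurable]
    _ ≤ M ^ C * noise m n σ (feas Abar bbar) + M ^ C * noise m n σ (feas Abar bbar) := by
        gcongr
    _ = 2 * M ^ C * noise m n σ (feas Abar bbar) := by ring

/-- The frozen statement from a bad set. -/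
theorem assemble (C : ℕ)
    (H : ∀ m n : ℕ, 1 ≤ n → n ≤ m → ∀ σ : ℝ, 0 < σ →
      ∀ (Abar : Fin m → Fin n → ℝ) (bbar : Fin m → ℝ),
      ∑ i, ∑ j, Abar i j ^ 2 ≤ 1 → ∑ i, bbar i ^ 2 ≤ 1 →
      ∃ B : Set ((Fin m → Fin n → ℝ) × (Fin m → ℝ)),
        (∀ᵐ ω ∂(noise m n σ), ω ∈ feas Abar bbar → ω ∉ B →
          dm (Pol (fun i j => Abar i j + ω.1 i j) (fun i => bbar i + ω.2 i) ∅ Finset.univ) ≤
            ((MM m n σ ^ C : ℕ) : ℕ∞)) ∧
        ((MM m n σ : ℕ) : ℝ≥0∞) ^ (Nat.log 2 n + 5) * noise m n σ B ≤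
          ((MM m n σ : ℕ) : ℝ≥0∞) ^ C * noise m n σ (feas Abar bbar)) :
    ∃ C : ℝ, ∃ k : ℕ, ∀ m n : ℕ, ∀ σ : ℝ, 0 < σ →
    ∀ Abar : Fin m → Fin n → ℝ, ∀ bbar : Fin m → ℝ,
      ∑ i, ∑ j, Abar i j ^ 2 ≤ 1 → ∑ i, bbar i ^ 2 ≤ 1 →
      ∫⁻ ω : (Fin m → Fin n → ℝ) × (Fin m → ℝ),
          ENat.toENNReal
            (((SimpleGraph.fromRel (fun u v : Fin n → ℝ =>
                IsExtreme ℝ
                  {x : Fin n → ℝ | ∀ i, ∑ j, (Abar i j + ω.1 i j) * x j ≤ bbar i + ω.2 i}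
                  (segment ℝ u v))).induce
              (Set.extremePoints ℝ
                {x : Fin n → ℝ | ∀ i, ∑ j, (Abar i j + ω.1 i j) * x j ≤ bbar i + ω.2 i})).ediam)
        ∂((Measure.pi fun _ : Fin m => Measure.pi fun _ : Fin n =>
              ProbabilityTheory.gaussianReal 0 (σ ^ 2).toNNReal).prod
            (Measure.pi fun _ : Fin m => ProbabilityTheory.gaussianReal 0 (σ ^ 2).toNNReal))
      ≤ ENNReal.ofReal (C * (1 + (m : ℝ) + (n : ℝ) + 1 / σ) ^ k) *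
        ((Measure.pi fun _ : Fin m => Measure.pi fun _ : Fin n =>
              ProbabilityTheory.gaussianReal 0 (σ ^ 2).toNNReal).prod
            (Measure.pi fun _ : Fin m => ProbabilityTheory.gaussianReal 0 (σ ^ 2).toNNReal))
          {ω : (Fin m → Fin n → ℝ) × (Fin m → ℝ) |
            ∃ x : Fin n → ℝ, ∀ i, ∑ j, (Abar i j + ω.1 i j) * x j ≤ bbar i + ω.2 i} := by
  refine ⟨2 * 3 ^ C, C, ?_⟩
  intro m n σ hσ Abar bbar hA hb
  have key : ∫⁻ ω, ENat.toENNReal (dm (Pol (fun i j => Abar i j + ω.1 i j)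
        (fun i => bbar i + ω.2 i) ∅ Finset.univ)) ∂(noise m n σ) ≤
      2 * ((MM m n σ : ℕ) : ℝ≥0∞) ^ C * noise m n σ (feas Abar bbar) := by
    by_cases hz : m < n ∨ n = 0
    · have h0 : ∀ ω : (Fin m → Fin n → ℝ) × (Fin m → ℝ),
          ENat.toENNReal (dm (Pol (fun i j => Abar i j + ω.1 i j) (fun i => bbar i + ω.2 i)
            ∅ Finset.univ)) = 0 := by
        intro ω
        rw [dm_zero _ _ hz]
        simp
      rw [lintegral_congr h0]
      simp
    · rw [not_or, not_lt] at hz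
      have hn : 1 ≤ n := Nat.one_le_iff_ne_zero.mpr hz.2
      obtain ⟨B, h1, h2⟩ := H m n hn hz.1 σ hσ Abar bbar hA hb
      exact int_of_bad hn hz.1 Abar bbar hσ C B h1 h2
  have e : ∀ ω : (Fin m → Fin n → ℝ) × (Fin m → ℝ),
      ENat.toENNReal (dm (Pol (fun i j => Abar i j + ω.1 i j) (fun i => bbar i + ω.2 i)
        ∅ Finset.univ)) = ENat.toENNReal
            (((SimpleGraph.fromRel (fun u v : Fin n → ℝ =>
                IsExtreme ℝ
                  {x : Fin n → ℝ | ∀ i, ∑ j, (Abar i j + ω.1 i j) * x j ≤ bbar i + ω.2 i}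
                  (segment ℝ u v))).induce
              (Set.extremePoints ℝ
                {x : Fin n → ℝ | ∀ i, ∑ j, (Abar i j + ω.1 i j) * x j ≤ bbar i + ω.2 i})).ediam) := by
    intro ω
    have h : Pol (fun i j => Abar i j + ω.1 i j) (fun i => bbar i + ω.2 i) ∅ Finset.univ =
        {x : Fin n → ℝ | ∀ i, ∑ j, (Abar i j + ω.1 i j) * x j ≤ bbar i + ω.2 i} := by
      ext x
      simp [Pol, dotProduct]
    rw [h]
    rfl
  rw [lintegral_congr e] at key
  refine key.trans (mul_le_mul_left ?_ _)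
  have hs : 0 < 1 / σ := by positivity
  have hc : (⌈1 / σ⌉₊ : ℝ) < 1 / σ + 1 := Nat.ceil_lt_add_one hs.le
  have hMM : ((MM m n σ : ℕ) : ℝ) ≤ 3 * (1 + (m : ℝ) + (n : ℝ) + 1 / σ) := by
    unfold MM
    push_cast
    have h1 : (0 : ℝ) ≤ m := Nat.cast_nonneg _
    have h2 : (0 : ℝ) ≤ n := Nat.cast_nonneg _
    linarith
  have h3 : (2 : ℝ≥0∞) * ((MM m n σ : ℕ) : ℝ≥0∞) ^ C =
      ENNReal.ofReal (2 * ((MM m n σ : ℕ) : ℝ) ^ C) := by
    rw [ENNReal.ofReal_mul (by norm_num), ENNReal.ofReal_pow (Nat.cast_nonneg _),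
      ENNReal.ofReal_natCast, ENNReal.ofReal_ofNat]
  rw [h3]
  apply ENNReal.ofReal_le_ofReal
  rw [mul_assoc, ← mul_pow]
  have h4 : ((MM m n σ : ℕ) : ℝ) ^ C ≤ (3 * (1 + (m : ℝ) + (n : ℝ) + 1 / σ)) ^ C :=
    pow_le_pow_left₀ (Nat.cast_nonneg _) hMM C
  linarith

end Pool.Agent.Lib.S3
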