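import Mathlib

/-! Conic Caratheodory: a nonnegative combination of a finite family is a nonnegative combination
with linearly independent support inside the old support. -/

set_option autoImplicit false

open Module

namespace Pool.Agent.Lib.S3

variable {ι V : Type} [Fintype ι] [AddCommGroup V] [Module ℝ V]

/-- Conic Caratheodory. -/
theorem conic_carath (h : ι → V) (t : ι → ℝ) (ht : ∀ i, 0 ≤ t i) :
    ∃ t' : ι → ℝ, (∀ i, 0 ≤ t' i) ∧ (∀ i, t i = 0 → t' i = 0) ∧
      LinearIndependent ℝ (fun i : {i // t' i ≠ 0} => h i) ∧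
      ∑ i, t' i • h i = ∑ i, t i • h i := by
  classical
  induction hk : (Finset.univ.filter (fun i => t i ≠ 0)).card using Nat.strong_induction_on
    generalizing t with
  | _ k ih =>
    by_cases hli : LinearIndependent ℝ (fun i : {i // t i ≠ 0} => h i)
    · exact ⟨t, ht, fun i hi => hi, hli, rfl⟩
    · rw [Fintype.not_linearIndependent_iff] at hli
      obtain ⟨g, hg, ⟨i0, hi0⟩, hgi⟩ := hli
      -- extend by zero
      have key : ∃ G : ι → ℝ, (∀ i, t i = 0 → G i = 0) ∧ ∑ i, G i • h i = 0 ∧ ∃ i, 0 < G i := by
        let G0 : ι → ℝ := fun i => if hi : t i ≠ 0 then g ⟨i, hi⟩ else 0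
        have hG0 : ∀ i, t i = 0 → G0 i = 0 := by
          intro i hi
          simp [G0, hi]
        have hsum : ∑ i, G0 i • h i = 0 := by
          rw [← hg]
          have h1 : ∑ i, G0 i • h i = ∑ i ∈ Finset.univ.filter (fun i => t i ≠ 0), G0 i • h i := by
            symm
            apply Finset.sum_subset (Finset.filter_subset _ _)
            intro i _ hi
            have : t i = 0 := by
              by_contra hne
              exact hi (Finset.mem_filter.2 ⟨Finset.mem_univ _, hne⟩)
            rw [hG0 i this, zero_smul]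
          rw [h1]
          rw [Finset.sum_subtype (p := fun i => t i ≠ 0) _ (fun x => by simp)]
          apply Finset.sum_congr rfl
          intro i _
          simp [G0, i.2]
        have hne : G0 i0 ≠ 0 := by
          simp only [G0, dif_pos hi0]
          exact hgi
        rcases lt_or_gt_of_ne hne with hlt | hgt
        · refine ⟨fun i => - G0 i, fun i hi => by simp [hG0 i hi], ?_, ⟨i0, by simpa using hlt⟩⟩
          simp only [neg_smul, Finset.sum_neg_distrib, hsum, neg_zero]
        · exact ⟨G0, hG0, hsum, ⟨i0, hgt⟩⟩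
      obtain ⟨G, hG, hGs, ⟨i1, hi1⟩⟩ := key
      let S := Finset.univ.filter (fun i => 0 < G i)
      have hS : S.Nonempty := ⟨i1, Finset.mem_filter.2 ⟨Finset.mem_univ _, hi1⟩⟩
      obtain ⟨j, hjS, hjmin⟩ := Finset.exists_min_image S (fun i => t i / G i) hS
      have hjpos : 0 < G j := (Finset.mem_filter.1 hjS).2
      let t1 : ι → ℝ := fun i => t i - (t j / G j) * G i
      have hc : 0 ≤ t j / G j := div_nonneg (ht j) hjpos.le
      have ht1 : ∀ i, 0 ≤ t1 i := by
        intro i
        simp only [t1]
        by_cases hi : 0 < G i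
        · have := hjmin i (Finset.mem_filter.2 ⟨Finset.mem_univ _, hi⟩)
          rw [le_div_iff₀ hi] at this
          linarith
        · push Not at hi
          have := mul_nonpos_of_nonneg_of_nonpos hc hi
          have := ht i
          linarith
      have htj : t1 j = 0 := by
        simp only [t1]
        rw [div_mul_cancel₀ _ hjpos.ne']
        ring
      have hsub : ∀ i, t i = 0 → t1 i = 0 := by
        intro i hi
        simp [t1, hi, hG i hi]
      have htjne : t j ≠ 0 := by
        intro h0
        rw [hG j h0] at hjpos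
        exact lt_irrefl _ hjpos
      have hcard : (Finset.univ.filter (fun i => t1 i ≠ 0)).card < k := by
        rw [← hk]
        apply Finset.card_lt_card
        rw [Finset.ssubset_iff_of_subset]
        · exact ⟨j, Finset.mem_filter.2 ⟨Finset.mem_univ _, htjne⟩, by simp [htj]⟩
        · intro i hi
          rw [Finset.mem_filter] at hi ⊢
          exact ⟨hi.1, fun h0 => hi.2 (hsub i h0)⟩
      obtain ⟨t', h1, h2, h3, h4⟩ := ih _ hcard t1 ht1 rfl
      refine ⟨t', h1, fun i hi => h2 i (hsub i hi), h3, ?_⟩
      rw [h4]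
      simp only [t1, sub_smul, mul_smul, Finset.sum_sub_distrib, ← Finset.smul_sum, hGs, smul_zero,
        sub_zero]

/-- Conic Caratheodory with the bound on the support. -/
theorem conic_carath_card (h : ι → V) (t : ι → ℝ) (ht : ∀ i, 0 ≤ t i) :
    ∃ (t' : ι → ℝ) (Y : Finset ι), (∀ i, 0 ≤ t' i) ∧ (∀ i, i ∉ Y → t' i = 0) ∧
      (∀ i ∈ Y, t i ≠ 0) ∧
      Y.card ≤ finrank ℝ (Submodule.span ℝ (Set.range h)) ∧
      ∑ i, t' i • h i = ∑ i, t i • h i := by
  classical
  obtain ⟨t', h1, h2, h3, h4⟩ := conic_carath h t ht
  refine ⟨t', Finset.univ.filter (fun i => t' i ≠ 0), h1, ?_, ?_, ?_, h4⟩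
  · intro i hi
    by_contra h0
    exact hi (Finset.mem_filter.2 ⟨Finset.mem_univ _, h0⟩)
  · intro i hi h0
    exact (Finset.mem_filter.1 hi).2 (h2 i h0)
  · have hfin : FiniteDimensional ℝ (Submodule.span ℝ (Set.range h)) :=
      FiniteDimensional.span_of_finite ℝ (Set.finite_range h)
    let W := Submodule.span ℝ (Set.range h)
    let v : {i // t' i ≠ 0} → W := fun i => ⟨h i, Submodule.subset_span ⟨i, rfl⟩⟩
    have hv : LinearIndependent ℝ v := by
      apply LinearIndependent.of_comp W.subtype
      exact h3
    have := hv.fintype_card_le_finrank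
    rw [← Fintype.card_subtype]
    exact this

end Pool.Agent.Lib.S3
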