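import Mathlib

/-!
# Certificates for linear programs over a slice of a cone (MP_4a5c02_co)

Rows `ρ : ι → Fin (n + 1) → ℝ`, a functional `N`, an objective `Γ`, a set `T` of pinned rows.
The polytope is `ρ_o X ≥ 0`, `N X = 1`, `ρ_o X = 0` for `o ∈ T`. For a tuple `J` of `n` rows

* `XJ ρ N J` is the point with `N X = 1` at which the rows `J` vanish,
* `lam ρ N Γ J k` are the multipliers: `Γ = (Γ X) N + ∑ lam_k ρ_(J k)`,
* `Vtx ρ N J`: the matrix is nonsingular and all rows outside `J` are positive at `X`,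
* `Crt ρ N Γ T J`: moreover `T ⊆ J` and `lam_k > 0` outside `T`; then `X` is the unique minimiser.

Everything is a measurable function of the rows, because `X` and `lam` are read off the inverse
matrix.
-/

set_option autoImplicit false

open Matrix MeasureTheory

namespace Pool.Agent.Lib.S3.Cert

/-- The square matrix of the functional `N` and the rows `J`. -/
def AJ {ι : Type*} {n : ℕ} (ρ : ι → Fin (n + 1) → ℝ) (N : Fin (n + 1) → ℝ) (J : Fin n → ι) :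
    Matrix (Fin (n + 1)) (Fin (n + 1)) ℝ :=
  Matrix.of (Fin.cons N (fun k => ρ (J k)))

/-- The point with `N X = 1` at which the rows `J` vanish. -/
noncomputable def XJ {ι : Type*} {n : ℕ} (ρ : ι → Fin (n + 1) → ℝ) (N : Fin (n + 1) → ℝ)
    (J : Fin n → ι) : Fin (n + 1) → ℝ :=
  fun i => (AJ ρ N J)⁻¹ i 0

/-- The multiplier of the `k`-th row of `J` in `Γ`. -/
noncomputable def lam {ι : Type*} {n : ℕ} (ρ : ι → Fin (n + 1) → ℝ) (N Γ : Fin (n + 1) → ℝ)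
    (J : Fin n → ι) (k : Fin n) : ℝ :=
  (Γ ᵥ* (AJ ρ N J)⁻¹) k.succ

/-- The vertex with the tight rows `J` is simple. -/
structure Vtx {ι : Type*} {n : ℕ} (ρ : ι → Fin (n + 1) → ℝ) (N : Fin (n + 1) → ℝ)
    (J : Fin n → ι) : Prop where
  det : (AJ ρ N J).det ≠ 0
  pos : ∀ o, o ∉ Set.range J → 0 < ρ o ⬝ᵥ XJ ρ N J

/-- Certificate: `XJ` is the unique minimiser of `Γ` on the face `T`. -/
structure Crt {ι : Type*} {n : ℕ} (ρ : ι → Fin (n + 1) → ℝ) (N Γ : Fin (n + 1) → ℝ)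
    (T : Set ι) (J : Fin n → ι) : Prop extends Vtx ρ N J where
  sub : ∀ o ∈ T, o ∈ Set.range J
  lam : ∀ k, J k ∉ T → 0 < lam ρ N Γ J k

section
variable {ι : Type*} {n : ℕ} {ρ : ι → Fin (n + 1) → ℝ} {N Γ : Fin (n + 1) → ℝ} {J : Fin n → ι}
  {T : Set ι}

theorem AJ_zero : AJ ρ N J 0 = N := rfl

theorem AJ_succ (k : Fin n) : AJ ρ N J k.succ = ρ (J k) := rfl

theorem isUnit_of_det (h : (AJ ρ N J).det ≠ 0) : IsUnit (AJ ρ N J).det := isUnit_iff_ne_zero.mpr h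

/-- Characterisation of `XJ`. -/
theorem XJ_spec (h : (AJ ρ N J).det ≠ 0) : AJ ρ N J *ᵥ XJ ρ N J = Pi.single 0 1 := by
  have : XJ ρ N J = (AJ ρ N J)⁻¹ *ᵥ Pi.single 0 1 := by
    funext i
    simp [XJ, Matrix.mulVec_single]
  rw [this, Matrix.mulVec_mulVec, Matrix.mul_nonsing_inv _ (isUnit_of_det h), Matrix.one_mulVec]

theorem XJ_N (h : (AJ ρ N J).det ≠ 0) : N ⬝ᵥ XJ ρ N J = 1 := by
  have := congrFun (XJ_spec h) 0
  simpa [Matrix.mulVec, AJ_zero] using this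

theorem XJ_row (h : (AJ ρ N J).det ≠ 0) (k : Fin n) : ρ (J k) ⬝ᵥ XJ ρ N J = 0 := by
  have := congrFun (XJ_spec h) k.succ
  simpa [Matrix.mulVec, AJ_succ] using this

theorem XJ_unique (h : (AJ ρ N J).det ≠ 0) {Y : Fin (n + 1) → ℝ} (hN : N ⬝ᵥ Y = 1)
    (hJ : ∀ k, ρ (J k) ⬝ᵥ Y = 0) : Y = XJ ρ N J := by
  have hY : AJ ρ N J *ᵥ Y = Pi.single 0 1 := by
    funext i
    refine Fin.cases ?_ (fun k => ?_) i
    · simpa [Matrix.mulVec, AJ_zero] using hN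
    · simpa [Matrix.mulVec, AJ_succ] using hJ k
  have h1 : AJ ρ N J *ᵥ (Y - XJ ρ N J) = 0 := by
    rw [Matrix.mulVec_sub, hY, XJ_spec h, sub_self]
  have h2 := Matrix.eq_zero_of_mulVec_eq_zero h h1
  exact sub_eq_zero.mp h2

/-- The duality identity. -/
theorem dual (h : (AJ ρ N J).det ≠ 0) (Γ Y : Fin (n + 1) → ℝ) :
    Γ ⬝ᵥ Y = (Γ ⬝ᵥ XJ ρ N J) * (N ⬝ᵥ Y) + ∑ k, lam ρ N Γ J k * (ρ (J k) ⬝ᵥ Y) := by
  have h1 : (Γ ᵥ* (AJ ρ N J)⁻¹) ⬝ᵥ (AJ ρ N J *ᵥ Y) = Γ ⬝ᵥ Y := by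
    rw [Matrix.dotProduct_mulVec, Matrix.vecMul_vecMul, Matrix.nonsing_inv_mul _ (isUnit_of_det h),
      Matrix.vecMul_one]
  rw [← h1]
  have h2 : ∀ v : Fin (n + 1) → ℝ, v ⬝ᵥ (AJ ρ N J *ᵥ Y) =
      v 0 * (N ⬝ᵥ Y) + ∑ k : Fin n, v k.succ * (ρ (J k) ⬝ᵥ Y) := by
    intro v
    rw [dotProduct, Fin.sum_univ_succ]
    rfl
  rw [h2]
  rfl

/-- Vector form of the duality identity. -/
theorem dual_vec (h : (AJ ρ N J).det ≠ 0) (Γ : Fin (n + 1) → ℝ) :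
    Γ = (Γ ⬝ᵥ XJ ρ N J) • N + ∑ k, lam ρ N Γ J k • ρ (J k) := by
  refine dotProduct_eq _ _ fun Y => ?_
  rw [add_dotProduct, smul_dotProduct, sum_dotProduct, smul_eq_mul]
  simp only [smul_dotProduct, smul_eq_mul]
  exact dual h Γ Y

/-- The tuple of a nonsingular matrix is injective. -/
theorem inj_of_det (h : (AJ ρ N J).det ≠ 0) : Function.Injective J := by
  intro k l hkl
  by_contra hne
  refine h (Matrix.det_zero_of_row_eq (i := k.succ) (j := l.succ) ?_ ?_)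
  · exact fun h => hne (Fin.succ_injective _ h)
  · rw [AJ_succ, AJ_succ, hkl]

/-- The dual vector of the `k`-th row. -/
theorem exists_test (h : (AJ ρ N J).det ≠ 0) (k : Fin n) : ∃ Y : Fin (n + 1) → ℝ,
    N ⬝ᵥ Y = 0 ∧ ρ (J k) ⬝ᵥ Y = 1 ∧ (∀ l, l ≠ k → ρ (J l) ⬝ᵥ Y = 0) ∧
      ∀ Γ : Fin (n + 1) → ℝ, Γ ⬝ᵥ Y = lam ρ N Γ J k := by
  have hAY : AJ ρ N J *ᵥ ((AJ ρ N J)⁻¹ *ᵥ Pi.single k.succ 1) = Pi.single k.succ 1 := by
    rw [Matrix.mulVec_mulVec, Matrix.mul_nonsing_inv _ (isUnit_of_det h), Matrix.one_mulVec]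
  set Y : Fin (n + 1) → ℝ := (AJ ρ N J)⁻¹ *ᵥ Pi.single k.succ 1 with hY
  have hYN : N ⬝ᵥ Y = 0 := by
    have h1 := congrFun hAY 0
    rw [Pi.single_eq_of_ne (Fin.succ_ne_zero k).symm] at h1
    exact h1
  have hYk : ρ (J k) ⬝ᵥ Y = 1 := by
    have h1 := congrFun hAY k.succ
    rw [Pi.single_eq_same] at h1
    exact h1
  have hYl : ∀ l, l ≠ k → ρ (J l) ⬝ᵥ Y = 0 := by
    intro l hl
    have h1 := congrFun hAY l.succ
    rw [Pi.single_eq_of_ne (fun h => hl (Fin.succ_injective _ h))] at h1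
    exact h1
  refine ⟨Y, hYN, hYk, hYl, fun Γ => ?_⟩
  rw [dual h Γ Y, hYN, mul_zero, zero_add, Finset.sum_eq_single_of_mem k (Finset.mem_univ k),
    hYk, mul_one]
  intro l _ hl
  rw [hYl l hl, mul_zero]

/-- Multipliers are unique. -/
theorem lam_unique (h : (AJ ρ N J).det ≠ 0) {Γ : Fin (n + 1) → ℝ} {γ : ℝ} {μ : Fin n → ℝ}
    (hΓ : Γ = γ • N + ∑ k, μ k • ρ (J k)) (k : Fin n) : lam ρ N Γ J k = μ k := by
  obtain ⟨Y, h0, h1, h2, h3⟩ := exists_test h k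
  rw [← h3 Γ, hΓ, add_dotProduct, smul_dotProduct, h0, smul_zero, zero_add, sum_dotProduct,
    Finset.sum_eq_single_of_mem k (Finset.mem_univ k)]
  · rw [smul_dotProduct, h1, smul_eq_mul, mul_one]
  · intro l _ hl
    rw [smul_dotProduct, h2 l hl, smul_zero]

/-- All rows are nonnegative at a simple vertex. -/
theorem Vtx.nonneg (hc : Vtx ρ N J) (o : ι) : 0 ≤ ρ o ⬝ᵥ XJ ρ N J := by
  by_cases ho : o ∈ Set.range J
  · obtain ⟨k, rfl⟩ := ho
    exact (XJ_row hc.det k).ge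
  · exact (hc.pos o ho).le

/-- The tight rows at a simple vertex. -/
theorem Vtx.tight_iff (hc : Vtx ρ N J) (o : ι) : ρ o ⬝ᵥ XJ ρ N J = 0 ↔ o ∈ Set.range J := by
  constructor
  · intro h
    by_contra ho
    exact absurd h (hc.pos o ho).ne'
  · rintro ⟨k, rfl⟩
    exact XJ_row hc.det k

/-- The minimiser over the slice without the rows `D`. -/
theorem Crt.min (hc : Crt ρ N Γ T J) {D : Set ι} (hD : ∀ k, J k ∉ D) {Y : Fin (n + 1) → ℝ}
    (hN : N ⬝ᵥ Y = 1) (hY : ∀ o, o ∉ D → 0 ≤ ρ o ⬝ᵥ Y) (hT : ∀ o ∈ T, ρ o ⬝ᵥ Y = 0) :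
    Γ ⬝ᵥ XJ ρ N J ≤ Γ ⬝ᵥ Y ∧ (Γ ⬝ᵥ Y = Γ ⬝ᵥ XJ ρ N J → Y = XJ ρ N J) := by
  have hd := dual hc.det Γ Y
  rw [hN, mul_one] at hd
  have hnn : ∀ k, 0 ≤ Cert.lam ρ N Γ J k * (ρ (J k) ⬝ᵥ Y) := by
    intro k
    by_cases hk : J k ∈ T
    · rw [hT _ hk, mul_zero]
    · exact mul_nonneg (hc.lam k hk).le (hY _ (hD k))
  have hs : 0 ≤ ∑ k, Cert.lam ρ N Γ J k * (ρ (J k) ⬝ᵥ Y) := Finset.sum_nonneg fun k _ => hnn k
  refine ⟨by linarith, fun he => ?_⟩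
  have h0 : ∑ k, Cert.lam ρ N Γ J k * (ρ (J k) ⬝ᵥ Y) = 0 := by linarith
  refine XJ_unique hc.det hN fun k => ?_
  have hk0 := (Finset.sum_eq_zero_iff_of_nonneg fun k _ => hnn k).mp h0 k (Finset.mem_univ k)
  by_cases hk : J k ∈ T
  · exact hT _ hk
  · rcases mul_eq_zero.mp hk0 with h | h
    · exact absurd h (hc.lam k hk).ne'
    · exact h

end

/-- Two systems which differ only in rows `D` that are not tight: the minimisers coincide. -/
theorem same_point {ι : Type*} {n : ℕ} {ρ ρ' : ι → Fin (n + 1) → ℝ} {N Γ : Fin (n + 1) → ℝ}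
    {J J' : Fin n → ι} {T D : Set ι} (hc : Crt ρ N Γ T J) (hc' : Crt ρ' N Γ T J')
    (hρ : ∀ o, o ∉ D → ρ o = ρ' o) (hD : ∀ k, J k ∉ D) (hD' : ∀ k, J' k ∉ D) :
    XJ ρ N J = XJ ρ' N J' := by
  have hT : ∀ o ∈ T, o ∉ D := by
    intro o ho
    obtain ⟨k, rfl⟩ := hc.sub o ho
    exact hD k
  have hT0 : ∀ o ∈ T, ρ o ⬝ᵥ XJ ρ N J = 0 := by
    intro o ho
    obtain ⟨k, rfl⟩ := hc.sub o ho
    exact XJ_row hc.det k
  have hT0' : ∀ o ∈ T, ρ' o ⬝ᵥ XJ ρ' N J' = 0 := by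
    intro o ho
    obtain ⟨k, rfl⟩ := hc'.sub o ho
    exact XJ_row hc'.det k
  have h1 := hc.min (D := D) hD (Y := XJ ρ' N J') (XJ_N hc'.det)
    (fun o ho => by rw [hρ o ho]; exact hc'.nonneg o)
    (fun o ho => by rw [hρ o (hT o ho)]; exact hT0' o ho)
  have h2 := hc'.min (D := D) hD' (Y := XJ ρ N J) (XJ_N hc.det)
    (fun o ho => by rw [← hρ o ho]; exact hc.nonneg o)
    (fun o ho => by rw [← hρ o (hT o ho)]; exact hT0 o ho)
  exact (h1.2 (le_antisymm h2.1 h1.1)).symm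

/-- Two objectives which differ by a combination of rows that are tight at both minimisers: the
minimisers coincide and the multipliers move by the coefficients. -/
theorem same_point_shift {ι : Type*} {n : ℕ} {ρ : ι → Fin (n + 1) → ℝ}
    {N Γ Γ' : Fin (n + 1) → ℝ} {J J' : Fin n → ι} {T : Set ι} {D : Finset ι} {s : ι → ℝ}
    (hc : Crt ρ N Γ T J) (hc' : Crt ρ N Γ' T J') (hΓ : Γ' = Γ + ∑ o ∈ D, s o • ρ o)
    (hD : ∀ o ∈ D, o ∈ Set.range J) (hD' : ∀ o ∈ D, o ∈ Set.range J') :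
    XJ ρ N J = XJ ρ N J' ∧ ∀ k k' : Fin n, J k ∈ D → J' k' = J k →
      lam ρ N Γ' J' k' = lam ρ N Γ J k + s (J k) := by
  have hz : ∀ {Y : Fin (n + 1) → ℝ}, (∀ o ∈ D, ρ o ⬝ᵥ Y = 0) →
      Γ' ⬝ᵥ Y = Γ ⬝ᵥ Y := by
    intro Y hY
    rw [hΓ, add_dotProduct, sum_dotProduct, Finset.sum_eq_zero, add_zero]
    intro o ho
    rw [smul_dotProduct, hY o ho, smul_zero]
  have z1 : ∀ o ∈ D, ρ o ⬝ᵥ XJ ρ N J = 0 := fun o ho => (hc.tight_iff o).mpr (hD o ho)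
  have z2 : ∀ o ∈ D, ρ o ⬝ᵥ XJ ρ N J' = 0 := fun o ho => (hc'.tight_iff o).mpr (hD' o ho)
  have h1 := hc.min (D := ∅) (fun k => by simp) (Y := XJ ρ N J') (XJ_N hc'.det)
    (fun o _ => hc'.nonneg o) (fun o ho => (hc'.tight_iff o).mpr (hc'.sub o ho))
  have h2 := hc'.min (D := ∅) (fun k => by simp) (Y := XJ ρ N J) (XJ_N hc.det)
    (fun o _ => hc.nonneg o) (fun o ho => (hc.tight_iff o).mpr (hc.sub o ho))
  rw [hz z1, hz z2] at h2
  have hX : XJ ρ N J = XJ ρ N J' := (h1.2 (le_antisymm h2.1 h1.1)).symm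
  refine ⟨hX, fun k k' hk hkk => ?_⟩
  have hJ'J : ∀ l, J' l ∈ Set.range J := by
    intro l
    rw [← hc.tight_iff, hX]
    exact XJ_row hc'.det l
  obtain ⟨Y, y0, y1, y2, y3⟩ := exists_test hc.det k
  have hYo : ∀ o ∈ Set.range J, o ≠ J k → ρ o ⬝ᵥ Y = 0 := by
    rintro o ⟨l, rfl⟩ hl
    exact y2 l fun h => hl (by rw [h])
  have d2 := dual hc'.det Γ' Y
  rw [y0, mul_zero, zero_add, Finset.sum_eq_single_of_mem k' (Finset.mem_univ k'), hkk, y1,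
    mul_one] at d2
  · rw [← d2, hΓ, add_dotProduct, y3 Γ, sum_dotProduct, Finset.sum_eq_single_of_mem (J k) hk,
      smul_dotProduct, y1, smul_eq_mul, mul_one]
    intro o ho hne
    rw [smul_dotProduct, hYo o (hD o ho) hne, smul_zero]
  · intro l _ hl
    rw [hYo _ (hJ'J l) (fun h => hl (inj_of_det hc'.det (h.trans hkk.symm))), mul_zero]

/-- Raising rows (by nonnegative multiples of a row) keeps simple vertices at which they are
positive. -/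
theorem vtx_of_raise {ι : Type*} {n : ℕ} {ρ ρ' : ι → Fin (n + 1) → ℝ} {N : Fin (n + 1) → ℝ}
    {J : Fin n → ι} {D : Set ι} {a : ι} {t : ι → ℝ} (hρ : ∀ o, o ∉ D → ρ o = ρ' o)
    (hd : ∀ o ∈ D, ρ o = ρ' o + t o • ρ' a) (ht : ∀ o ∈ D, 0 ≤ t o)
    (hc' : Vtx ρ' N J) (hD : ∀ k, J k ∉ D) : Vtx ρ N J ∧ XJ ρ N J = XJ ρ' N J := by
  have hA : AJ ρ N J = AJ ρ' N J := by
    unfold AJ
    congr 2
    funext k
    exact hρ _ (hD k)
  have hX : XJ ρ N J = XJ ρ' N J := by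
    unfold XJ
    rw [hA]
  refine ⟨⟨by rw [hA]; exact hc'.det, fun o ho => ?_⟩, hX⟩
  rw [hX]
  by_cases hoD : o ∈ D
  · rw [hd o hoD, add_dotProduct, smul_dotProduct]
    have h1 := hc'.pos o ho
    have h2 := mul_nonneg (ht o hoD) (hc'.nonneg a)
    rw [smul_eq_mul]
    linarith
  · rw [hρ o hoD]
    exact hc'.pos o ho

/-- Rows which change only by multiples of a pinned row `a`, with `N` and `Γ` changing only by
multiples of that row: the certificate is transported, with the same point and the same multipliers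
outside `a`. -/
theorem transport {ι : Type*} {n : ℕ} {ρ ρ' : ι → Fin (n + 1) → ℝ}
    {N N' Γ Γ' : Fin (n + 1) → ℝ} {J : Fin n → ι} {T : Set ι} {a : ι} {t : ι → ℝ} {e f : ℝ}
    (ha : a ∈ T) (hρa : ρ' a = ρ a) (hρ : ∀ o, ρ' o = ρ o + t o • ρ a)
    (hN : N' = N + e • ρ a) (hΓ : Γ' = Γ + f • ρ a) (hc : Crt ρ N Γ T J) :
    Crt ρ' N' Γ' T J ∧ XJ ρ' N' J = XJ ρ N J ∧
      ∀ k, J k ≠ a → lam ρ' N' Γ' J k = lam ρ N Γ J k := by
  obtain ⟨ka, hka⟩ := hc.sub a ha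
  set X := XJ ρ N J with hX
  have hXa : ρ a ⬝ᵥ X = 0 := by rw [← hka]; exact XJ_row hc.det ka
  have hX' : ∀ o, ρ' o ⬝ᵥ X = ρ o ⬝ᵥ X := by
    intro o
    rw [hρ, add_dotProduct, smul_dotProduct, hXa, smul_zero, add_zero]
  have hdet : (AJ ρ' N' J).det ≠ 0 := by
    intro h0
    obtain ⟨Y, hY0, hY⟩ := Matrix.exists_mulVec_eq_zero_iff.mpr h0
    refine hY0 ?_
    have e0 : N' ⬝ᵥ Y = 0 := by simpa [Matrix.mulVec, AJ_zero] using congrFun hY 0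
    have ek : ∀ k, ρ' (J k) ⬝ᵥ Y = 0 := fun k => by
      simpa [Matrix.mulVec, AJ_succ] using congrFun hY k.succ
    have ea : ρ a ⬝ᵥ Y = 0 := by rw [← hρa, ← hka]; exact ek ka
    refine Matrix.eq_zero_of_mulVec_eq_zero hc.det ?_
    funext i
    refine Fin.cases ?_ (fun k => ?_) i
    · change N ⬝ᵥ Y = 0
      rw [hN, add_dotProduct, smul_dotProduct, ea, smul_zero, add_zero] at e0
      exact e0
    · change ρ (J k) ⬝ᵥ Y = 0
      have := ek k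
      rw [hρ, add_dotProduct, smul_dotProduct, ea, smul_zero, add_zero] at this
      exact this
  have hXX : XJ ρ' N' J = X := by
    refine (XJ_unique hdet ?_ fun k => ?_).symm
    · rw [hN, add_dotProduct, smul_dotProduct, hXa, smul_zero, add_zero]
      exact XJ_N hc.det
    · rw [hX']
      exact XJ_row hc.det k
  have hlam : ∀ k, J k ≠ a → lam ρ' N' Γ' J k = lam ρ N Γ J k := by
    intro k hk
    -- the test vector of `k` for the new system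
    obtain ⟨Y, y0, y1, y2, y3⟩ := exists_test hdet k
    have hkka : ka ≠ k := fun h => hk (by rw [← h, hka])
    have ea : ρ a ⬝ᵥ Y = 0 := by rw [← hρa, ← hka]; exact y2 ka hkka
    have eY : ∀ o, ρ' o ⬝ᵥ Y = ρ o ⬝ᵥ Y := by
      intro o
      rw [hρ, add_dotProduct, smul_dotProduct, ea, smul_zero, add_zero]
    have eN : N ⬝ᵥ Y = 0 := by
      rw [hN, add_dotProduct, smul_dotProduct, ea, smul_zero, add_zero] at y0
      exact y0
    have d := dual hc.det Γ Y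
    rw [eN, mul_zero, zero_add, Finset.sum_eq_single_of_mem k (Finset.mem_univ k)] at d
    · rw [← y3 Γ', hΓ, add_dotProduct, smul_dotProduct, ea, smul_zero, add_zero, d, ← eY, y1,
        mul_one]
    · intro l _ hl
      rw [← eY, y2 l hl, mul_zero]
  refine ⟨⟨⟨hdet, fun o ho => ?_⟩, hc.sub, fun k hk => ?_⟩, hXX, hlam⟩
  · rw [hXX, hX']
    exact hc.pos o ho
  · rw [hlam k fun h => hk (h ▸ ha)]
    exact hc.lam k hk

end Pool.Agent.Lib.S3.Cert
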