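import Pool.Agent.Lib.S3.Cert

/-!
# Certificates are measurable (MP_4a5c02_co)

`ρ`, `N`, `Γ` are measurable functions of `ω`.
-/

set_option autoImplicit false

open Matrix MeasureTheory

namespace Pool.Agent.Lib.S3.Cert

variable {Ω : Type*} [MeasurableSpace Ω]

/-- Determinants of matrices with measurable entries. -/
theorem measurable_det_entries {d : ℕ} {A : Ω → Matrix (Fin d) (Fin d) ℝ}
    (h : ∀ i k, Measurable fun ω => A ω i k) : Measurable fun ω => (A ω).det := by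
  simp only [Matrix.det_apply]
  refine Finset.measurable_sum _ fun p _ => ?_
  have : Measurable fun ω => ∏ i, A ω (p i) i := Finset.measurable_prod _ fun i _ => h _ _
  exact this.const_smul _

/-- Entries of the inverse of a matrix with measurable entries. -/
theorem measurable_inv_entries {d : ℕ} {A : Ω → Matrix (Fin d) (Fin d) ℝ}
    (h : ∀ i k, Measurable fun ω => A ω i k) (i k : Fin d) :
    Measurable fun ω => (A ω)⁻¹ i k := by
  have e : (fun ω => (A ω)⁻¹ i k) = fun ω => ((A ω).det)⁻¹ * (A ω).adjugate i k := by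
    funext ω
    rw [Matrix.inv_def, Ring.inverse_eq_inv', Matrix.smul_apply, smul_eq_mul]
  rw [e]
  refine (measurable_det_entries h).inv.mul ?_
  simp only [Matrix.adjugate_apply]
  refine measurable_det_entries fun a b => ?_
  by_cases ha : a = k
  · subst ha
    simp only [Matrix.updateRow_self]
    exact measurable_const
  · simp only [Matrix.updateRow_ne ha]
    exact h a b

variable {ι : Type*} {n : ℕ} {ρ : Ω → ι → Fin (n + 1) → ℝ} {N Γ : Ω → Fin (n + 1) → ℝ}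

theorem measurable_dot {d : ℕ} {u v : Ω → Fin d → ℝ} (hu : ∀ k, Measurable fun ω => u ω k)
    (hv : ∀ k, Measurable fun ω => v ω k) : Measurable fun ω => u ω ⬝ᵥ v ω := by
  unfold dotProduct
  exact Finset.measurable_sum _ fun k _ => (hu k).mul (hv k)

theorem measurable_AJ (hρ : ∀ o k, Measurable fun ω => ρ ω o k)
    (hN : ∀ k, Measurable fun ω => N ω k) (J : Fin n → ι) (i k : Fin (n + 1)) :
    Measurable fun ω => AJ (ρ ω) (N ω) J i k := by
  refine Fin.cases ?_ (fun l => ?_) i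
  · exact hN k
  · exact hρ (J l) k

theorem measurable_det (hρ : ∀ o k, Measurable fun ω => ρ ω o k)
    (hN : ∀ k, Measurable fun ω => N ω k) (J : Fin n → ι) :
    Measurable fun ω => (AJ (ρ ω) (N ω) J).det :=
  measurable_det_entries (measurable_AJ hρ hN J)

theorem measurable_XJ (hρ : ∀ o k, Measurable fun ω => ρ ω o k)
    (hN : ∀ k, Measurable fun ω => N ω k) (J : Fin n → ι) (i : Fin (n + 1)) :
    Measurable fun ω => XJ (ρ ω) (N ω) J i :=
  measurable_inv_entries (measurable_AJ hρ hN J) i 0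

theorem measurable_val (hρ : ∀ o k, Measurable fun ω => ρ ω o k)
    (hN : ∀ k, Measurable fun ω => N ω k) (J : Fin n → ι) (o : ι) :
    Measurable fun ω => ρ ω o ⬝ᵥ XJ (ρ ω) (N ω) J :=
  measurable_dot (hρ o) (measurable_XJ hρ hN J)

theorem measurable_lam (hρ : ∀ o k, Measurable fun ω => ρ ω o k)
    (hN : ∀ k, Measurable fun ω => N ω k) (hΓ : ∀ k, Measurable fun ω => Γ ω k)
    (J : Fin n → ι) (k : Fin n) :
    Measurable fun ω => lam (ρ ω) (N ω) (Γ ω) J k := by
  unfold lam vecMul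
  exact measurable_dot hΓ fun l => measurable_inv_entries (measurable_AJ hρ hN J) l k.succ

variable [Finite ι]

theorem measurableSet_vtx (hρ : ∀ o k, Measurable fun ω => ρ ω o k)
    (hN : ∀ k, Measurable fun ω => N ω k) (J : Fin n → ι) :
    MeasurableSet {ω | Vtx (ρ ω) (N ω) J} := by
  have h : {ω | Vtx (ρ ω) (N ω) J} =
      {ω | (AJ (ρ ω) (N ω) J).det ≠ 0} ∩
        ⋂ o : ι, ⋂ _ : o ∉ Set.range J, {ω | 0 < ρ ω o ⬝ᵥ XJ (ρ ω) (N ω) J} := by
    ext ω
    simp only [Set.mem_ofPred_eq, Set.mem_inter_iff, Set.mem_iInter]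
    exact ⟨fun h => ⟨h.det, h.pos⟩, fun h => ⟨h.1, h.2⟩⟩
  rw [h]
  refine MeasurableSet.inter ?_ ?_
  · exact (measurable_det hρ hN J) (measurableSet_singleton 0).compl
  · exact MeasurableSet.iInter fun o => MeasurableSet.iInter fun _ =>
      measurableSet_lt measurable_const (measurable_val hρ hN J o)

theorem measurableSet_crt (hρ : ∀ o k, Measurable fun ω => ρ ω o k)
    (hN : ∀ k, Measurable fun ω => N ω k) (hΓ : ∀ k, Measurable fun ω => Γ ω k)
    (T : Set ι) (J : Fin n → ι) : MeasurableSet {ω | Crt (ρ ω) (N ω) (Γ ω) T J} := by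
  by_cases hs : ∀ o ∈ T, o ∈ Set.range J
  · have h : {ω | Crt (ρ ω) (N ω) (Γ ω) T J} = {ω | Vtx (ρ ω) (N ω) J} ∩
          ⋂ k : Fin n, ⋂ _ : J k ∉ T, {ω | 0 < lam (ρ ω) (N ω) (Γ ω) J k} := by
      ext ω
      simp only [Set.mem_ofPred_eq, Set.mem_inter_iff, Set.mem_iInter]
      exact ⟨fun h => ⟨h.toVtx, h.lam⟩, fun h => ⟨h.1, hs, h.2⟩⟩
    rw [h]
    exact (measurableSet_vtx hρ hN J).inter
      (MeasurableSet.iInter fun k => MeasurableSet.iInter fun _ =>
        measurableSet_lt measurable_const (measurable_lam hρ hN hΓ J k))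
  · have h : {ω | Crt (ρ ω) (N ω) (Γ ω) T J} = ∅ := by
      ext ω
      simp only [Set.mem_ofPred_eq, Set.mem_empty_iff_false, iff_false]
      exact fun h => hs h.sub
    rw [h]
    exact MeasurableSet.empty

/-- Heavy window event: at the minimiser on the face `T` the rows `D` are positive and at most
`ε` times the row `a`. -/
def Heavy (ρ : ι → Fin (n + 1) → ℝ) (N Γ : Fin (n + 1) → ℝ) (T : Set ι) (a : ι) (D : Finset ι)
    (ε : ℝ) (J : Fin n → ι) : Prop :=
  Crt ρ N Γ T J ∧ ∀ o ∈ D, 0 < ρ o ⬝ᵥ XJ ρ N J ∧ ρ o ⬝ᵥ XJ ρ N J ≤ ε * (ρ a ⬝ᵥ XJ ρ N J)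

/-- Light event: at the minimiser on the face `T` the rows `D` are tight with multipliers at
most `τ`. -/
def Light (ρ : ι → Fin (n + 1) → ℝ) (N Γ : Fin (n + 1) → ℝ) (T : Set ι) (D : Finset ι)
    (τ : ℝ) (J : Fin n → ι) : Prop :=
  Crt ρ N Γ T J ∧ ∀ o ∈ D, o ∉ T ∧ ∃ k, J k = o ∧ lam ρ N Γ J k ≤ τ

theorem measurableSet_heavy (hρ : ∀ o k, Measurable fun ω => ρ ω o k)
    (hN : ∀ k, Measurable fun ω => N ω k) (hΓ : ∀ k, Measurable fun ω => Γ ω k)
    (T : Set ι) (a : ι) (D : Finset ι) (ε : ℝ) :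
    MeasurableSet {ω | ∃ J : Fin n → ι, Heavy (ρ ω) (N ω) (Γ ω) T a D ε J} := by
  have h : {ω | ∃ J : Fin n → ι, Heavy (ρ ω) (N ω) (Γ ω) T a D ε J} =
      ⋃ J : Fin n → ι, ({ω | Crt (ρ ω) (N ω) (Γ ω) T J} ∩
        ⋂ o : ι, ⋂ _ : o ∈ D, ({ω | 0 < ρ ω o ⬝ᵥ XJ (ρ ω) (N ω) J} ∩
          {ω | ρ ω o ⬝ᵥ XJ (ρ ω) (N ω) J ≤ ε * (ρ ω a ⬝ᵥ XJ (ρ ω) (N ω) J)})) := by
    ext ω
    simp [Heavy]
  rw [h]
  have : Countable (Fin n → ι) := inferInstance
  refine MeasurableSet.iUnion fun J => (measurableSet_crt hρ hN hΓ T J).inter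
    (MeasurableSet.iInter fun o => MeasurableSet.iInter fun _ => ?_)
  exact (measurableSet_lt measurable_const (measurable_val hρ hN J o)).inter
    (measurableSet_le (measurable_val hρ hN J o) ((measurable_val hρ hN J a).const_mul ε))

theorem measurableSet_light (hρ : ∀ o k, Measurable fun ω => ρ ω o k)
    (hN : ∀ k, Measurable fun ω => N ω k) (hΓ : ∀ k, Measurable fun ω => Γ ω k)
    (T : Set ι) (D : Finset ι) (τ : ℝ) :
    MeasurableSet {ω | ∃ J : Fin n → ι, Light (ρ ω) (N ω) (Γ ω) T D τ J} := by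
  by_cases hs : ∀ o ∈ D, o ∉ T
  · have h : {ω | ∃ J : Fin n → ι, Light (ρ ω) (N ω) (Γ ω) T D τ J} =
        ⋃ J : Fin n → ι, ({ω | Crt (ρ ω) (N ω) (Γ ω) T J} ∩
          ⋂ o : ι, ⋂ _ : o ∈ D, ⋃ k : Fin n, ⋃ _ : J k = o,
            {ω | lam (ρ ω) (N ω) (Γ ω) J k ≤ τ}) := by
      ext ω
      simp only [Light, Set.mem_ofPred_eq, Set.mem_iUnion, Set.mem_inter_iff, Set.mem_iInter,
        exists_prop]
      exact ⟨fun ⟨J, h1, h2⟩ => ⟨J, h1, fun o ho => (h2 o ho).2⟩,
        fun ⟨J, h1, h2⟩ => ⟨J, h1, fun o ho => ⟨hs o ho, h2 o ho⟩⟩⟩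
    rw [h]
    have : Countable (Fin n → ι) := inferInstance
    exact MeasurableSet.iUnion fun J => (measurableSet_crt hρ hN hΓ T J).inter
      (MeasurableSet.iInter fun o => MeasurableSet.iInter fun _ => MeasurableSet.iUnion fun k =>
        MeasurableSet.iUnion fun _ =>
          measurableSet_le (measurable_lam hρ hN hΓ J k) measurable_const)
  · have h : {ω | ∃ J : Fin n → ι, Light (ρ ω) (N ω) (Γ ω) T D τ J} = ∅ := by
      ext ω
      simp only [Set.mem_ofPred_eq, Set.mem_empty_iff_false, iff_false]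
      rintro ⟨J, hJ⟩
      exact hs fun o ho => (hJ.2 o ho).1
    rw [h]
    exact MeasurableSet.empty

end Pool.Agent.Lib.S3.Cert
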