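import Pool.Agent.Lib.S3.Cert

/-!
# Confinement of the multipliers under a shift of the objective (MP_4a5c02_co)

`Cert.conf_shift`: two certificates on the same face `T` whose objectives differ by
`∑ s_o ρ_o` (`o ∈ D`, rows tight at both points, not pinned) and by a functional `z` which is a
multiple of `N` on the face (a combination of `N` and of pinned rows): the points coincide and the
multipliers of the rows of `D` differ by `s_o`.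
-/

set_option autoImplicit false

open Matrix MeasureTheory

namespace Pool.Agent.Lib.S3.Cert

theorem conf_shift {ι : Type*} {n : ℕ} {ρ : ι → Fin (n + 1) → ℝ}
    {N Γ Γ' z : Fin (n + 1) → ℝ} {J J' : Fin n → ι} {T : Set ι} {D : Finset ι} {s : ι → ℝ} {e : ℝ}
    (hc : Crt ρ N Γ T J) (hc' : Crt ρ N Γ' T J')
    (hz : ∀ Y : Fin (n + 1) → ℝ, (∀ o ∈ T, ρ o ⬝ᵥ Y = 0) → z ⬝ᵥ Y = e * (N ⬝ᵥ Y))
    (hΓ : Γ' = Γ + ∑ o ∈ D, s o • ρ o + z) (hDT : ∀ o ∈ D, o ∉ T)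
    (hD : ∀ o ∈ D, o ∈ Set.range J) (hD' : ∀ o ∈ D, o ∈ Set.range J') :
    XJ ρ N J = XJ ρ N J' ∧ ∀ k k' : Fin n, J k ∈ D → J' k' = J k →
      lam ρ N Γ' J' k' = lam ρ N Γ J k + s (J k) := by
  have hval : ∀ {Y : Fin (n + 1) → ℝ}, N ⬝ᵥ Y = 1 → (∀ o ∈ T, ρ o ⬝ᵥ Y = 0) →
      (∀ o ∈ D, ρ o ⬝ᵥ Y = 0) → Γ' ⬝ᵥ Y = Γ ⬝ᵥ Y + e := by
    intro Y hN hT hY
    rw [hΓ, add_dotProduct, add_dotProduct, sum_dotProduct, Finset.sum_eq_zero, add_zero,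
      hz Y hT, hN, mul_one]
    intro o ho
    rw [smul_dotProduct, hY o ho, smul_zero]
  have z1 : ∀ o ∈ D, ρ o ⬝ᵥ XJ ρ N J = 0 := fun o ho => (hc.tight_iff o).mpr (hD o ho)
  have z2 : ∀ o ∈ D, ρ o ⬝ᵥ XJ ρ N J' = 0 := fun o ho => (hc'.tight_iff o).mpr (hD' o ho)
  have t1 : ∀ o ∈ T, ρ o ⬝ᵥ XJ ρ N J = 0 := fun o ho => (hc.tight_iff o).mpr (hc.sub o ho)
  have t2 : ∀ o ∈ T, ρ o ⬝ᵥ XJ ρ N J' = 0 := fun o ho => (hc'.tight_iff o).mpr (hc'.sub o ho)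
  have h1 := hc.min (D := ∅) (fun k => by simp) (Y := XJ ρ N J') (XJ_N hc'.det)
    (fun o _ => hc'.nonneg o) t2
  have h2 := hc'.min (D := ∅) (fun k => by simp) (Y := XJ ρ N J) (XJ_N hc.det)
    (fun o _ => hc.nonneg o) t1
  rw [hval (XJ_N hc.det) t1 z1, hval (XJ_N hc'.det) t2 z2] at h2
  have hX : XJ ρ N J = XJ ρ N J' := by
    refine (h1.2 ?_).symm
    linarith [h1.1, h2.1]
  refine ⟨hX, fun k k' hk hkk => ?_⟩
  have hJ'J : ∀ l, J' l ∈ Set.range J := by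
    intro l
    rw [← hc.tight_iff, hX]
    exact XJ_row hc'.det l
  obtain ⟨Y, y0, y1, y2, y3⟩ := exists_test hc.det k
  have hYo : ∀ o ∈ Set.range J, o ≠ J k → ρ o ⬝ᵥ Y = 0 := by
    rintro o ⟨l, rfl⟩ hl
    exact y2 l fun h => hl (by rw [h])
  have hzY : z ⬝ᵥ Y = 0 := by
    rw [hz Y fun o ho => hYo o (hc.sub o ho) fun h => hDT (J k) hk (h ▸ ho), y0, mul_zero]
  have d2 := dual hc'.det Γ' Y
  rw [y0, mul_zero, zero_add, Finset.sum_eq_single_of_mem k' (Finset.mem_univ k'), hkk, y1,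
    mul_one] at d2
  · rw [← d2, hΓ, add_dotProduct, add_dotProduct, hzY, add_zero, y3 Γ, sum_dotProduct,
      Finset.sum_eq_single_of_mem (J k) hk, smul_dotProduct, y1, smul_eq_mul, mul_one]
    intro o ho hne
    rw [smul_dotProduct, hYo o (hD o ho) hne, smul_zero]
  · intro l _ hl
    rw [hYo _ (hJ'J l) (fun h => hl (inj_of_det hc'.det (h.trans hkk.symm))), mul_zero]

/-- The certificate for an objective changed by a multiple of `N` on the face: same point, same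
multipliers off the face. -/
theorem crt_add {ι : Type*} {n : ℕ} {ρ : ι → Fin (n + 1) → ℝ}
    {N Γ Γ' z : Fin (n + 1) → ℝ} {J : Fin n → ι} {T : Set ι} {e : ℝ}
    (hc : Crt ρ N Γ T J)
    (hz : ∀ Y : Fin (n + 1) → ℝ, (∀ o ∈ T, ρ o ⬝ᵥ Y = 0) → z ⬝ᵥ Y = e * (N ⬝ᵥ Y))
    (hΓ : Γ' = Γ + z) :
    Crt ρ N Γ' T J ∧ ∀ k, J k ∉ T → lam ρ N Γ' J k = lam ρ N Γ J k := by
  have hlam : ∀ k, J k ∉ T → lam ρ N Γ' J k = lam ρ N Γ J k := by
    intro k hk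
    obtain ⟨Y, y0, y1, y2, y3⟩ := exists_test hc.det k
    rw [← y3 Γ', ← y3 Γ, hΓ, add_dotProduct]
    have hzY : z ⬝ᵥ Y = 0 := by
      rw [hz Y ?_, y0, mul_zero]
      intro o ho
      obtain ⟨l, rfl⟩ := hc.sub o ho
      exact y2 l fun h => hk (h ▸ ho)
    rw [hzY, add_zero]
  exact ⟨⟨hc.toVtx, hc.sub, fun k hk => by rw [hlam k hk]; exact hc.lam k hk⟩, hlam⟩

end Pool.Agent.Lib.S3.Cert
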