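import Pool.Agent.Lib.S3.WeakRows
import Pool.Agent.Lib.S3.Carath

/-! Protected sets of columns and deep points of faces.

At a vertex `u` with natural coordinates `s : J → ℝ` (the slacks of the tight rows) every other row
has slack `β r + ∑ j, c r j * s j`. There is a small set `Y` of coordinates such that every face
`s j = 0 (j ∉ A)` with `Y ⊆ A` has a point at which all its other slacks are large. -/

set_option autoImplicit false

open Module

namespace Pool.Agent.Lib.S3

/-- Maximal determinant bases, with a set of indices. -/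
theorem exists_maxdet_set {J V : Type} [Fintype J] [AddCommGroup V] [Module ℝ V] (h : J → V) :
    ∃ Y : Finset J, Y.card ≤ finrank ℝ (Submodule.span ℝ (Set.range h)) ∧
      ∀ i, ∃ α : J → ℝ, (∀ j, |α j| ≤ 1) ∧ (∀ j, j ∉ Y → α j = 0) ∧ h i = ∑ j, α j • h j := by
  classical
  obtain ⟨r, E, hli, hE⟩ := exists_maxdet h
  have hinj : Function.Injective E := by
    intro k l hkl
    have : (h ∘ E) k = (h ∘ E) l := by simp [hkl]
    exact hli.injective this
  refine ⟨Finset.univ.image E, ?_, ?_⟩
  · have hfin : FiniteDimensional ℝ (Submodule.span ℝ (Set.range h)) :=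
      FiniteDimensional.span_of_finite ℝ (Set.finite_range h)
    let W := Submodule.span ℝ (Set.range h)
    let v : Fin r → W := fun k => ⟨h (E k), Submodule.subset_span ⟨E k, rfl⟩⟩
    have hv : LinearIndependent ℝ v := by
      apply LinearIndependent.of_comp W.subtype
      exact hli
    have h1 := hv.fintype_card_le_finrank
    rw [Finset.card_image_of_injective _ hinj, Finset.card_univ]
    exact h1
  · intro i
    obtain ⟨α, hα, hαi⟩ := hE i
    let x : J → ℝ := fun j => ∑ k, if E k = j then α k else 0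
    have hx : ∀ k, x (E k) = α k := by
      intro k
      simp only [x]
      rw [Finset.sum_eq_single k]
      · simp
      · intro l _ hl
        rw [if_neg]
        exact fun h => hl (hinj h)
      · intro h
        exact absurd (Finset.mem_univ k) h
    have hx0 : ∀ j, j ∉ Finset.univ.image E → x j = 0 := by
      intro j hj
      simp only [x]
      apply Finset.sum_eq_zero
      intro k _
      rw [if_neg]
      intro hk
      exact hj (Finset.mem_image.2 ⟨k, Finset.mem_univ _, hk⟩)
    refine ⟨x, ?_, hx0, ?_⟩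
    · intro j
      by_cases hj : j ∈ Finset.univ.image E
      · obtain ⟨k, _, hk⟩ := Finset.mem_image.1 hj
        rw [← hk, hx]
        exact hα k
      · rw [hx0 j hj, abs_zero]
        exact zero_le_one
    · rw [hαi]
      have h1 : ∑ j, x j • h j = ∑ j ∈ Finset.univ.image E, x j • h j := by
        symm
        apply Finset.sum_subset (Finset.subset_univ _)
        intro j _ hj
        rw [hx0 j hj, zero_smul]
      rw [h1, Finset.sum_image (fun k _ l _ h => hinj h)]
      apply Finset.sum_congr rfl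
      intro k _
      rw [hx]

/-- The protected set of columns. -/
theorem protected_set {J V : Type} [Fintype J] [DecidableEq J] [AddCommGroup V] [Module ℝ V]
    (h : J → V) (s : J → ℝ) (ρ : ℝ) (hρ : 0 < ρ) (hs : ∀ j, ρ ≤ s j) :
    ∃ Y : Finset J, Y.card ≤ 2 * finrank ℝ (Submodule.span ℝ (Set.range h)) ∧
      ∀ A : Finset J, Y ⊆ A → ∃ t : J → ℝ, (∀ j, j ∉ A → t j = 0) ∧
        (∀ j ∈ A, ρ / (4 * (Fintype.card J : ℝ)) ≤ t j) ∧
        ∑ j, t j • h j = ∑ j, s j • h j := by
  classical
  obtain ⟨Y1, hY1, hα⟩ := exists_maxdet_set h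
  choose α hα1 hα0 hαh using hα
  have hu : ∀ j, 0 ≤ s j - (if j ∈ Y1 then ρ / 2 else 0) := by
    intro j
    have := hs j
    by_cases hj : j ∈ Y1
    · rw [if_pos hj]; linarith
    · rw [if_neg hj]; linarith
  obtain ⟨t', Y2, ht'0, ht'Y, _, hY2, ht's⟩ :=
    conic_carath_card h (fun j => s j - (if j ∈ Y1 then ρ / 2 else 0)) hu
  refine ⟨Y1 ∪ Y2, ?_, ?_⟩
  · have := Finset.card_union_le Y1 Y2
    omega
  intro A hA
  have hA1 : Y1 ⊆ A := fun x hx => hA (Finset.mem_union_left _ hx)
  have hA2 : Y2 ⊆ A := fun x hx => hA (Finset.mem_union_right _ hx)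
  obtain ⟨ε, hεdef⟩ : ∃ ε : ℝ, ε = ρ / (4 * (Fintype.card J : ℝ)) := ⟨_, rfl⟩
  have hε0 : 0 ≤ ε := by
    rw [hεdef]
    positivity
  let t : J → ℝ := fun j => t' j + (if j ∈ Y1 then ρ / 2 else 0) +
    (if j ∈ A \ Y1 then ε else 0) - ε * ∑ i ∈ A \ Y1, α i j
  refine ⟨t, ?_, ?_, ?_⟩
  · intro j hj
    have h1 : j ∉ Y1 := fun h => hj (hA1 h)
    have h2 : j ∉ Y2 := fun h => hj (hA2 h)
    have h3 : j ∉ A \ Y1 := fun h => hj (Finset.mem_sdiff.1 h).1
    have h4 : ∑ i ∈ A \ Y1, α i j = 0 := Finset.sum_eq_zero (fun i _ => hα0 i j h1)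
    simp only [t]
    rw [ht'Y j h2, if_neg h1, if_neg h3, h4]
    ring
  · intro j hj
    rw [← hεdef]
    have hcard : 0 < (Fintype.card J : ℝ) := by
      have : 0 < Fintype.card J := Fintype.card_pos_iff.2 ⟨j⟩
      exact_mod_cast this
    have ht'j := ht'0 j
    by_cases h1 : j ∈ Y1
    · have h3 : j ∉ A \ Y1 := fun h => (Finset.mem_sdiff.1 h).2 h1
      have h4 : ∑ i ∈ A \ Y1, α i j ≤ (Fintype.card J : ℝ) := by
        calc ∑ i ∈ A \ Y1, α i j ≤ ∑ i ∈ A \ Y1, (1 : ℝ) :=
              Finset.sum_le_sum (fun i _ => le_trans (le_abs_self _) (hα1 i j))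
          _ = ((A \ Y1).card : ℝ) := by simp
          _ ≤ (Fintype.card J : ℝ) := by exact_mod_cast Finset.card_le_univ _
      have h5 : ε * ∑ i ∈ A \ Y1, α i j ≤ ρ / 4 := by
        calc ε * ∑ i ∈ A \ Y1, α i j ≤ ε * (Fintype.card J : ℝ) :=
              mul_le_mul_of_nonneg_left h4 hε0
          _ = ρ / 4 := by
              rw [hεdef]
              field_simp
      have h6 : ε ≤ ρ / 4 := by
        rw [hεdef]
        apply div_le_div_of_nonneg_left hρ.le (by norm_num)
        have : (1 : ℝ) ≤ (Fintype.card J : ℝ) := by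
          have : 0 < Fintype.card J := Fintype.card_pos_iff.2 ⟨j⟩
          exact_mod_cast this
        linarith
      simp only [t]
      rw [if_pos h1, if_neg h3]
      linarith
    · have h3 : j ∈ A \ Y1 := Finset.mem_sdiff.2 ⟨hj, h1⟩
      have h4 : ∑ i ∈ A \ Y1, α i j = 0 := Finset.sum_eq_zero (fun i _ => hα0 i j h1)
      simp only [t]
      rw [if_neg h1, if_pos h3, h4]
      linarith
  · have h1 : ∑ j, t j • h j = ∑ j, t' j • h j + ∑ j, (if j ∈ Y1 then ρ / 2 else 0) • h j +
        (∑ j, (if j ∈ A \ Y1 then ε else 0) • h j - ∑ j, (ε * ∑ i ∈ A \ Y1, α i j) • h j) := by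
      rw [← Finset.sum_sub_distrib, ← Finset.sum_add_distrib, ← Finset.sum_add_distrib]
      apply Finset.sum_congr rfl
      intro j _
      simp only [t]
      module
    have h2 : ∑ j, (if j ∈ A \ Y1 then ε else 0) • h j = ε • ∑ i ∈ A \ Y1, h i := by
      rw [Finset.smul_sum]
      rw [← Finset.sum_subset (Finset.subset_univ (A \ Y1))]
      · apply Finset.sum_congr rfl
        intro j hj
        rw [if_pos hj]
      · intro j _ hj
        rw [if_neg hj, zero_smul]
    have h3 : ∑ j, (ε * ∑ i ∈ A \ Y1, α i j) • h j = ε • ∑ i ∈ A \ Y1, h i := by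
      have h4 : ∀ j, (ε * ∑ i ∈ A \ Y1, α i j) • h j = ε • ∑ i ∈ A \ Y1, α i j • h j := by
        intro j
        rw [mul_smul, Finset.sum_smul]
      rw [Finset.sum_congr rfl (fun j _ => h4 j), ← Finset.smul_sum, Finset.sum_comm]
      congr 1
      apply Finset.sum_congr rfl
      intro i _
      exact (hαh i).symm
    rw [h1, h2, h3, sub_self, add_zero, ht's, ← Finset.sum_add_distrib]
    apply Finset.sum_congr rfl
    intro j _
    module

/-- Deep points of the faces, dictionary form. -/
theorem deep_dict {ι J : Type} [Fintype J] [DecidableEq J] [DecidableEq ι]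
    (β : ι → ℝ) (c : ι → J → ℝ) (D W : Finset ι) (X : J → ℝ) (ρ η K B θ : ℝ)
    (hβ : ∀ r, 0 ≤ β r) (hD : ∀ r, r ∉ D → η ≤ β r)
    (hW : ∀ r, ∃ (α : ι → ℝ) (κ : J → ℝ), (∀ j, |κ j| ≤ K) ∧
      ∀ j, c r j = ∑ w ∈ W, α w * c w j + κ j)
    (hρ : 0 < ρ) (hK : 0 ≤ K) (hX : ∀ j, ρ ≤ X j) (hXB : ∑ j, X j ≤ B)
    (hXr : ∀ r, ρ ≤ β r + ∑ j, c r j * X j) (hθ0 : 0 < θ) (hθ1 : θ ≤ 1 / 2)
    (hθ : θ * (2 * K * B) ≤ η / 2) :
    ∃ Y : Finset J, Y.card ≤ 2 * ((D ∪ W).card + 1) ∧
      ∀ A : Finset J, Y ⊆ A → ∃ p : J → ℝ, (∀ j, j ∉ A → p j = 0) ∧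
        (∀ j ∈ A, θ * ρ / (4 * (Fintype.card J : ℝ)) ≤ p j) ∧
        (∀ r, θ * ρ ≤ β r + ∑ j, c r j * p j) ∧ ∑ j, p j = θ * ∑ j, X j := by
  classical
  let h : J → ((D ∪ W : Finset ι) → ℝ) × ℝ := fun j => (fun r => c r j, 1)
  obtain ⟨Y, hY, hA⟩ := protected_set h X ρ hρ hX
  refine ⟨Y, ?_, ?_⟩
  · have h1 : finrank ℝ (Submodule.span ℝ (Set.range h)) ≤
        finrank ℝ (((D ∪ W : Finset ι) → ℝ) × ℝ) := Submodule.finrank_le _
    have h2 : finrank ℝ (((D ∪ W : Finset ι) → ℝ) × ℝ) = (D ∪ W).card + 1 := by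
      rw [Module.finrank_prod, Module.finrank_self, Module.finrank_fintype_fun_eq_card,
        Fintype.card_coe]
    omega
  intro A hYA
  obtain ⟨t, ht0, htA, hts⟩ := hA A hYA
  have hrow : ∀ r ∈ D ∪ W, ∑ j, c r j * t j = ∑ j, c r j * X j := by
    intro r hr
    have h1 := congrArg (fun v => v.1 ⟨r, hr⟩) hts
    simp only [Prod.fst_sum, Finset.sum_apply, Prod.smul_fst, Pi.smul_apply, smul_eq_mul, h] at h1
    rw [Finset.sum_congr rfl (fun j _ => mul_comm (c r j) (t j)),
      Finset.sum_congr rfl (fun j _ => mul_comm (c r j) (X j))]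
    exact h1
  have hsum : ∑ j, t j = ∑ j, X j := by
    have h1 := congrArg (fun v => v.2) hts
    simpa [h, Prod.snd_sum] using h1
  have htnn : ∀ j, 0 ≤ t j := by
    intro j
    by_cases hj : j ∈ A
    · refine le_trans ?_ (htA j hj)
      positivity
    · rw [ht0 j hj]
  have hXnn : ∀ j, 0 ≤ X j := fun j => le_trans hρ.le (hX j)
  refine ⟨fun j => θ * t j, ?_, ?_, ?_, ?_⟩
  · intro j hj
    simp only [ht0 j hj, mul_zero]
  · intro j hj
    have h1 := mul_le_mul_of_nonneg_left (htA j hj) hθ0.le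
    calc θ * ρ / (4 * (Fintype.card J : ℝ)) = θ * (ρ / (4 * (Fintype.card J : ℝ))) := by ring
      _ ≤ _ := h1
  · intro r
    have e1 : ∑ j, c r j * (θ * t j) = θ * ∑ j, c r j * t j := by
      rw [Finset.mul_sum]
      apply Finset.sum_congr rfl
      intro j _
      ring
    simp only
    rw [e1]
    by_cases hr : r ∈ D ∪ W
    · rw [hrow r hr]
      have h1 := hXr r
      have h2 := hβ r
      nlinarith [mul_le_mul_of_nonneg_left h1 hθ0.le,
        mul_nonneg (by linarith : (0 : ℝ) ≤ 1 - θ) h2]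
    · have hrD : r ∉ D := fun h => hr (Finset.mem_union_left _ h)
      have h1 := hXr r
      have h2 := hD r hrD
      obtain ⟨α, κ, hκ, hc⟩ := hW r
      have h3 : ∑ j, c r j * t j = ∑ j, c r j * X j + ∑ j, κ j * (t j - X j) := by
        have h4 : ∑ j, c r j * (t j - X j) = ∑ j, κ j * (t j - X j) := by
          have h5 : ∀ j, c r j * (t j - X j) =
              ∑ w ∈ W, α w * (c w j * (t j - X j)) + κ j * (t j - X j) := by
            intro j
            rw [hc j, add_mul, Finset.sum_mul]
            congr 1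
            apply Finset.sum_congr rfl
            intro w _
            ring
          rw [Finset.sum_congr rfl (fun j _ => h5 j), Finset.sum_add_distrib, Finset.sum_comm]
          have h6 : ∑ w ∈ W, ∑ j, α w * (c w j * (t j - X j)) = 0 := by
            apply Finset.sum_eq_zero
            intro w hw
            rw [← Finset.mul_sum]
            have h7 : ∑ j, c w j * (t j - X j) = 0 := by
              simp only [mul_sub, Finset.sum_sub_distrib]
              rw [hrow w (Finset.mem_union_right _ hw), sub_self]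
            rw [h7, mul_zero]
          rw [h6, zero_add]
        rw [← h4, ← Finset.sum_add_distrib]
        apply Finset.sum_congr rfl
        intro j _
        ring
      have h8 : -(2 * K * B) ≤ ∑ j, κ j * (t j - X j) := by
        have h9 : ∀ j, -(K * (t j + X j)) ≤ κ j * (t j - X j) := by
          intro j
          have h10 : |κ j * (t j - X j)| ≤ K * (t j + X j) := by
            rw [abs_mul]
            apply mul_le_mul (hκ j) _ (abs_nonneg _) hK
            rw [abs_le]
            constructor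
            · linarith [htnn j, hXnn j]
            · linarith [htnn j, hXnn j]
          exact (abs_le.1 h10).1
        have h11 : -(K * ∑ j, (t j + X j)) ≤ ∑ j, κ j * (t j - X j) := by
          rw [Finset.mul_sum, ← Finset.sum_neg_distrib]
          exact Finset.sum_le_sum (fun j _ => h9 j)
        have h12 : K * ∑ j, (t j + X j) ≤ 2 * K * B := by
          rw [Finset.sum_add_distrib, hsum]
          nlinarith
        linarith
      rw [h3]
      have h13 : θ * (-(2 * K * B)) ≤ θ * ∑ j, κ j * (t j - X j) :=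
        mul_le_mul_of_nonneg_left h8 hθ0.le
      have h14 : θ * ρ ≤ θ * (β r + ∑ j, c r j * X j) := mul_le_mul_of_nonneg_left h1 hθ0.le
      have h15 : (1 / 2 : ℝ) * β r ≤ (1 - θ) * β r :=
        mul_le_mul_of_nonneg_right (by linarith) (hβ r)
      nlinarith
  · rw [← Finset.mul_sum, hsum]

end Pool.Agent.Lib.S3
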