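import Pool.Agent.Lib.S3.Deep

/-! Deep points of the faces through a vertex, for rows in `ℝ^d` with a set `T0` of equality rows
(for instance the row of the chart). -/

set_option autoImplicit false

open Module

namespace Pool.Agent.Lib.S3

/-- Dual basis of `d` independent rows of `ℝ^d`. -/
theorem exists_dual {d : ℕ} (v : Fin d → Fin d → ℝ) (hdet : (Matrix.of v).det ≠ 0) :
    ∃ w : Fin d → Fin d → ℝ, (∀ k l, v k ⬝ᵥ w l = if k = l then 1 else 0) ∧
      ∀ x : Fin d → ℝ, x = ∑ k, (v k ⬝ᵥ x) • w k := by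
  classical
  let M : Matrix (Fin d) (Fin d) ℝ := Matrix.of v
  have hunit : IsUnit M.det := isUnit_iff_ne_zero.2 hdet
  have h1 : M * M⁻¹ = 1 := Matrix.mul_nonsing_inv M hunit
  have h2 : M⁻¹ * M = 1 := Matrix.nonsing_inv_mul M hunit
  refine ⟨fun l k => M⁻¹ k l, ?_, ?_⟩
  · intro k l
    have h3 := congrFun (congrFun h1 k) l
    rw [Matrix.mul_apply, Matrix.one_apply] at h3
    exact h3
  · intro x
    have h3 : M⁻¹.mulVec (M.mulVec x) = x := by
      rw [Matrix.mulVec_mulVec, h2, Matrix.one_mulVec]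
    funext i
    have h4 := congrFun h3 i
    rw [← h4]
    simp only [Matrix.mulVec, dotProduct, Finset.sum_apply, Pi.smul_apply, smul_eq_mul]
    apply Finset.sum_congr rfl
    intro k _
    rw [mul_comm]
    rfl

/-- Deep points of all faces which contain the protected rows. -/
theorem deep_face {ι : Type} [Fintype ι] [DecidableEq ι] {d : ℕ} (a : ι → Fin d → ℝ) (b : ι → ℝ)
    (T0 D W : Finset ι) (e : Fin d → ι) (hdet : (Matrix.of (fun k => a (e k))).det ≠ 0)
    (hT0 : ∀ r ∈ T0, ∃ k, e k = r) (u X : Fin d → ℝ) (ρ η K B θ : ℝ)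
    (hu : ∀ k, a (e k) ⬝ᵥ u = b (e k)) (hfeas : ∀ r, a r ⬝ᵥ u ≤ b r)
    (hD : ∀ r, r ∉ D → (∀ k, e k ≠ r) → η ≤ b r - a r ⬝ᵥ u)
    (hWe : ∀ w ∈ W, ∀ k, e k ≠ w)
    (hW : ∀ r, ∃ (α : ι → ℝ) (κ : Fin d → ℝ), (∀ j, |κ j| ≤ K) ∧
      a r = ∑ w ∈ W, α w • a w + ∑ j, κ j • a (e j))
    (hXT : ∀ r ∈ T0, a r ⬝ᵥ X = b r) (hX : ∀ r, r ∉ T0 → ρ ≤ b r - a r ⬝ᵥ X)
    (hXB : ∑ k, (b (e k) - a (e k) ⬝ᵥ X) ≤ B)
    (hρ : 0 < ρ) (hK : 0 ≤ K) (hθ0 : 0 < θ) (hθ1 : θ ≤ 1 / 2) (hθ : θ * (2 * K * B) ≤ η / 2) :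
    ∃ Y : Finset ι, (∀ y ∈ Y, y ∉ T0 ∧ ∃ k, e k = y) ∧ Y.card ≤ 2 * ((D ∪ W).card + 1) ∧
      ∀ A : Finset ι, Y ⊆ A → ∃ p : Fin d → ℝ, (∀ r ∈ T0, a r ⬝ᵥ p = b r) ∧
        (∀ k, e k ∉ A → a (e k) ⬝ᵥ p = b (e k)) ∧
        (∀ k, e k ∉ T0 → e k ∈ A → θ * ρ / (4 * (d : ℝ)) ≤ b (e k) - a (e k) ⬝ᵥ p) ∧
        (∀ r, (∀ k, e k ≠ r) → θ * ρ ≤ b r - a r ⬝ᵥ p) ∧
        ∑ k, (b (e k) - a (e k) ⬝ᵥ p) ≤ B := by
  classical
  obtain ⟨v, hv1, hv2⟩ := exists_dual (fun k => a (e k)) hdet
  have hinj : Function.Injective e := by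
    intro k l hkl
    by_contra hkl'
    exact hdet (Matrix.det_zero_of_row_eq hkl' (by
      show a (e k) = a (e l)
      rw [hkl]))
  let J : Type := {k : Fin d // e k ∉ T0}
  let ι' : Type := {r : ι // ∀ k, e k ≠ r}
  let β : ι' → ℝ := fun r => b r - a r ⬝ᵥ u
  let c : ι' → J → ℝ := fun r j => a r ⬝ᵥ v j
  let D' : Finset ι' := Finset.univ.filter (fun r => (r : ι) ∈ D)
  let W' : Finset ι' := Finset.univ.filter (fun r => (r : ι) ∈ W)
  let X' : J → ℝ := fun j => b (e j) - a (e j) ⬝ᵥ X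
  -- sums over J
  have hsumJ : ∀ f : Fin d → ℝ, (∀ k, e k ∈ T0 → f k = 0) → ∑ k, f k = ∑ j : J, f j := by
    intro f hf
    have h1 : ∑ k, f k = ∑ k ∈ Finset.univ.filter (fun k => e k ∉ T0), f k := by
      symm
      apply Finset.sum_subset (Finset.subset_univ _)
      intro k _ hk
      apply hf
      by_contra h
      exact hk (Finset.mem_filter.2 ⟨Finset.mem_univ _, h⟩)
    rw [h1]
    exact Finset.sum_subtype _ (fun x => by simp) f
  have hcardJ : (Fintype.card J : ℝ) ≤ (d : ℝ) := by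
    have : Fintype.card J ≤ Fintype.card (Fin d) := Fintype.card_subtype_le _
    rw [Fintype.card_fin] at this
    exact_mod_cast this
  -- the point with natural coordinates s
  have hpt : ∀ s : J → ℝ, ∀ x : Fin d → ℝ, x = u - ∑ j : J, s j • v j →
      (∀ r, a r ⬝ᵥ x = a r ⬝ᵥ u - ∑ j : J, s j * (a r ⬝ᵥ v j)) := by
    intro s x hx r
    rw [hx, dotProduct_sub, dotProduct_sum]
    congr 1
    apply Finset.sum_congr rfl
    intro j _
    rw [dotProduct_smul, smul_eq_mul]
  have hpte : ∀ s : J → ℝ, ∀ k, ∑ j : J, s j * (a (e k) ⬝ᵥ v j) =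
      if h : e k ∉ T0 then s ⟨k, h⟩ else 0 := by
    intro s k
    simp only [hv1]
    by_cases h : e k ∉ T0
    · rw [dif_pos h, Finset.sum_eq_single (⟨k, h⟩ : J)]
      · simp
      · intro j _ hj
        rw [if_neg, mul_zero]
        intro hkj
        exact hj (Subtype.ext hkj.symm)
      · intro h'
        exact absurd (Finset.mem_univ _) h'
    · rw [dif_neg h]
      apply Finset.sum_eq_zero
      intro j _
      rw [if_neg, mul_zero]
      intro hkj
      apply h
      rw [hkj]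
      exact j.2
  have hXpt : X = u - ∑ j : J, X' j • v j := by
    have h1 := hv2 (u - X)
    have h2 : ∑ k, (a (e k) ⬝ᵥ (u - X)) • v k = ∑ j : J, X' j • v j := by
      have h3 : ∀ k, (a (e k) ⬝ᵥ (u - X)) • v k = (b (e k) - a (e k) ⬝ᵥ X) • v k := by
        intro k
        rw [dotProduct_sub, hu]
      rw [Finset.sum_congr rfl (fun k _ => h3 k)]
      have h4 : ∑ k, (b (e k) - a (e k) ⬝ᵥ X) • v k =
          ∑ k ∈ Finset.univ.filter (fun k => e k ∉ T0), (b (e k) - a (e k) ⬝ᵥ X) • v k := by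
        symm
        apply Finset.sum_subset (Finset.subset_univ _)
        intro k _ hk
        have : e k ∈ T0 := by
          by_contra h
          exact hk (Finset.mem_filter.2 ⟨Finset.mem_univ _, h⟩)
        rw [hXT _ this, sub_self, zero_smul]
      rw [h4]
      exact Finset.sum_subtype _ (fun x => by simp) (fun k => (b (e k) - a (e k) ⬝ᵥ X) • v k)
    rw [← h2, ← h1]
    abel
  have hslack : ∀ s : J → ℝ, ∀ x : Fin d → ℝ, x = u - ∑ j : J, s j • v j →
      ∀ r : ι', b r - a r ⬝ᵥ x = β r + ∑ j, c r j * s j := by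
    intro s x hx r
    rw [hpt s x hx r]
    simp only [β, c]
    have h1 : ∑ j : J, s j * (a (r : ι) ⬝ᵥ v j) = ∑ j : J, (a (r : ι) ⬝ᵥ v j) * s j :=
      Finset.sum_congr rfl (fun j _ => mul_comm _ _)
    rw [h1]
    ring
  have key := deep_dict β c D' W' X' ρ η K B θ
    (by
      intro r
      simp only [β]
      linarith [hfeas r])
    (by
      intro r hr
      apply hD r _ r.2
      intro h
      exact hr (Finset.mem_filter.2 ⟨Finset.mem_univ _, h⟩))
    (by
      intro r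
      obtain ⟨α, κ, hκ, har⟩ := hW r
      refine ⟨fun w => α w, fun j => κ j, fun j => hκ j, ?_⟩
      intro j
      simp only [c]
      have h1 : a (r : ι) ⬝ᵥ v j = ∑ w ∈ W, α w * (a w ⬝ᵥ v j) + κ j := by
        conv_lhs => rw [har]
        rw [add_dotProduct, sum_dotProduct, sum_dotProduct]
        congr 1
        · apply Finset.sum_congr rfl
          intro w _
          rw [smul_dotProduct, smul_eq_mul]
        · rw [Finset.sum_eq_single (j : Fin d)]
          · rw [smul_dotProduct, hv1, if_pos rfl, smul_eq_mul, mul_one]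
          · intro k _ hk
            rw [smul_dotProduct, hv1, if_neg hk, smul_zero]
          · intro h
            exact absurd (Finset.mem_univ _) h
      rw [h1]
      congr 1
      have h2 : W = W'.image (fun w : ι' => (w : ι)) := by
        ext w
        constructor
        · intro hw
          exact Finset.mem_image.2 ⟨⟨w, hWe w hw⟩,
            Finset.mem_filter.2 ⟨Finset.mem_univ _, hw⟩, rfl⟩
        · intro hw
          obtain ⟨w', hw', hww⟩ := Finset.mem_image.1 hw
          rw [← hww]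
          exact (Finset.mem_filter.1 hw').2
      rw [h2, Finset.sum_image (fun _ _ _ _ h => Subtype.ext h)])
    hρ hK
    (by
      intro j
      exact hX _ j.2)
    (by
      rw [← hsumJ (fun k => b (e k) - a (e k) ⬝ᵥ X) (by
        intro k hk
        rw [hXT _ hk, sub_self])]
      exact hXB)
    (by
      intro r
      rw [← hslack X' X hXpt r]
      apply hX
      intro hr
      obtain ⟨k, hk⟩ := hT0 _ hr
      exact r.2 k hk)
    hθ0 hθ1 hθ
  obtain ⟨Y', hY'card, hA⟩ := key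
  have hcard2 : (D' ∪ W').card ≤ (D ∪ W).card := by
    have h1 : ((D' ∪ W').image (fun w : ι' => (w : ι))).card = (D' ∪ W').card :=
      Finset.card_image_of_injective _ (fun _ _ h => Subtype.ext h)
    rw [← h1]
    apply Finset.card_le_card
    intro w hw
    obtain ⟨w', hw', hww⟩ := Finset.mem_image.1 hw
    rw [← hww]
    rcases Finset.mem_union.1 hw' with h | h
    · exact Finset.mem_union_left _ (Finset.mem_filter.1 h).2
    · exact Finset.mem_union_right _ (Finset.mem_filter.1 h).2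
  refine ⟨Y'.image (fun j : J => e j), ?_, ?_, ?_⟩
  · intro y hy
    obtain ⟨j, _, hj⟩ := Finset.mem_image.1 hy
    exact ⟨hj ▸ j.2, ⟨j, hj⟩⟩
  · refine le_trans Finset.card_image_le (le_trans hY'card ?_)
    omega
  · intro A hYA
    obtain ⟨s, hs0, hsA, hsr, hssum⟩ := hA (Finset.univ.filter (fun j : J => e j ∈ A)) (by
      intro j hj
      exact Finset.mem_filter.2 ⟨Finset.mem_univ _, hYA (Finset.mem_image.2 ⟨j, hj, rfl⟩)⟩)
    obtain ⟨p, hp⟩ : ∃ p : Fin d → ℝ, p = u - ∑ j : J, s j • v j := ⟨_, rfl⟩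
    have hpe : ∀ k, b (e k) - a (e k) ⬝ᵥ p = if h : e k ∉ T0 then s ⟨k, h⟩ else 0 := by
      intro k
      rw [hpt s p hp, hpte, hu]
      ring
    refine ⟨p, ?_, ?_, ?_, ?_, ?_⟩
    · intro r hr
      obtain ⟨k, hk⟩ := hT0 r hr
      have h1 := hpe k
      rw [dif_neg (by rw [hk]; exact not_not.2 hr), hk] at h1
      linarith
    · intro k hk
      have h1 := hpe k
      by_cases h : e k ∉ T0
      · rw [dif_pos h, hs0 _ (by
          intro h2
          exact hk (Finset.mem_filter.1 h2).2)] at h1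
        linarith
      · rw [dif_neg h] at h1
        linarith
    · intro k hkT hkA
      rw [hpe k, dif_pos hkT]
      have h1 := hsA ⟨k, hkT⟩ (Finset.mem_filter.2 ⟨Finset.mem_univ _, hkA⟩)
      refine le_trans ?_ h1
      have hJpos : 0 < (Fintype.card J : ℝ) := by
        have : 0 < Fintype.card J := Fintype.card_pos_iff.2 ⟨⟨k, hkT⟩⟩
        exact_mod_cast this
      apply div_le_div_of_nonneg_left (by positivity) (by positivity)
      linarith
    · intro r hr
      have h1 := hsr ⟨r, hr⟩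
      rw [← hslack s p hp ⟨r, hr⟩] at h1
      exact h1
    · have h1 : ∑ k, (b (e k) - a (e k) ⬝ᵥ p) = ∑ j : J, s j := by
        rw [hsumJ (fun k => b (e k) - a (e k) ⬝ᵥ p) (by
          intro k hk
          rw [hpe k, dif_neg (not_not.2 hk)])]
        apply Finset.sum_congr rfl
        intro j _
        rw [hpe j, dif_pos j.2]
      rw [h1, hssum]
      have h2 : ∑ j, X' j = ∑ k, (b (e k) - a (e k) ⬝ᵥ X) := by
        rw [hsumJ (fun k => b (e k) - a (e k) ⬝ᵥ X) (by
          intro k hk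
          rw [hXT _ hk, sub_self])]
      have h3 : 0 ≤ ∑ j, X' j := Finset.sum_nonneg (fun j _ => le_trans hρ.le (hX _ j.2))
      rw [← h2] at hXB
      nlinarith

end Pool.Agent.Lib.S3
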