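import Pool.Agent.Lib.S3.Geo.ChartN

/-! The determinant of the chart row and the homogenised tight rows of a vertex. -/

set_option autoImplicit false

namespace Pool.Agent.Lib.S3

open Matrix Geo

/-- If all rows but the first vanish at `(1, u)`, the determinant is the first value times the
determinant of the remaining block. -/
theorem det_cons_hom {n : ℕ} (N : Fin (n + 1) → ℝ) (R : Fin n → Fin (n + 1) → ℝ)
    (u : Fin n → ℝ) (hR : ∀ k, R k ⬝ᵥ (Fin.cons 1 u : Fin (n + 1) → ℝ) = 0) :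
    (Matrix.of (Fin.cons N R : Fin (n + 1) → Fin (n + 1) → ℝ)).det =
      (N ⬝ᵥ (Fin.cons 1 u : Fin (n + 1) → ℝ)) *
        (Matrix.of (fun k j => R k (Fin.succ j)) : Matrix (Fin n) (Fin n) ℝ).det := by
  classical
  let M : Matrix (Fin (n + 1)) (Fin (n + 1)) ℝ :=
    Matrix.of (Fin.cons N R : Fin (n + 1) → Fin (n + 1) → ℝ)
  let h : Fin (n + 1) → ℝ := Fin.cons 1 u
  have h1 := Matrix.det_updateCol_sum M 0 h
  have h0 : h 0 = 1 := rfl
  rw [h0, one_smul] at h1
  have hcol : ∀ k, ∑ i, h i • M k i =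
      (Fin.cons (N ⬝ᵥ h) (fun _ => 0) : Fin (n + 1) → ℝ) k := by
    intro k
    have h2 : ∑ i, h i • M k i = M k ⬝ᵥ h := by
      simp only [dotProduct, smul_eq_mul]
      exact Finset.sum_congr rfl (fun i _ => mul_comm _ _)
    rw [h2]
    refine Fin.cases ?_ (fun k => ?_) k
    · rfl
    · exact hR k
  have h3 : (fun k => ∑ i, h i • M k i) =
      (Fin.cons (N ⬝ᵥ h) (fun _ => 0) : Fin (n + 1) → ℝ) := funext hcol
  rw [h3] at h1
  rw [← h1, Matrix.det_succ_column_zero, Finset.sum_eq_single 0]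
  · simp only [Fin.val_zero, pow_zero, one_mul, Matrix.updateCol_self, Fin.cons_zero]
    congr 2
  · intro k _ hk
    obtain ⟨k', hk'⟩ := Fin.exists_succ_eq.2 hk
    rw [← hk', Matrix.updateCol_self, Fin.cons_succ, mul_zero, zero_mul]
  · intro h
    exact absurd (Finset.mem_univ _) h

/-- The chart determinant at a vertex of the affine polyhedron. -/
theorem det_chart {m n : ℕ} (a : Fin m → Fin n → ℝ) (b : Fin m → ℝ) (N : Fin (n + 1) → ℝ)
    (J : Fin n → Fin m) (u : Fin n → ℝ) (hu : ∀ k, a (J k) ⬝ᵥ u = b (J k)) :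
    (Matrix.of (Fin.cons N (fun k => SHirsch.Gr a b (some (J k))) :
      Fin (n + 1) → Fin (n + 1) → ℝ)).det =
      (N ⬝ᵥ hom u) * (Matrix.of (fun k => a (J k))).det := by
  have h := det_cons_hom N (fun k => SHirsch.Gr a b (some (J k))) u (by
    intro k
    have h1 := gr_some a b (J k) (Fin.cons 1 u)
    rw [h1]
    simp only [Fin.cons_zero, Fin.cons_succ, mul_one]
    rw [hu k, sub_self])
  rw [h]
  rfl

end Pool.Agent.Lib.S3
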