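import Pool.Agent.Lib.S3.Hazard
import Pool.Agent.Lib.S3.Assemble

/-!
# NearCount: few near tight rows at all vertices, relative to feasibility

`near_count`: the probability that some vertex (extreme ray `y` of the homogenised cone, also at
infinity) has `k` rows with `0 < slack ≤ η |y|` is at most `2 M ^ (n + k) (15 M ^ 2 η) ^ k` times
the probability of feasibility.
-/

set_option autoImplicit false

open MeasureTheory Set
open scoped ENNReal

namespace Pool.Agent.Lib.S3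

open Pool.Agent.Lib.SHirsch

private theorem near_piece {ι : Type} [Fintype ι] [DecidableEq ι] {n : ℕ}
    (ν : ι → Measure (Fin (n + 1) → ℝ)) [∀ i, IsProbabilityMeasure (ν i)] (D : Finset ι)
    (c : ℝ≥0∞) (hc : c ≠ ⊤) (η : ℝ)
    (hL : ∀ i ∈ D, ∀ y : Fin (n + 1) → ℝ, y ≠ 0 →
      ν i {v | -(η * nrm y) ≤ v ⬝ᵥ y ∧ v ⬝ᵥ y ≤ 0} ≤ c * ν i {v | v ⬝ᵥ y ≤ 0})
    (α : (Fin n → ι) × Bool) (hα : ∀ k, α.1 k ∉ D) :
    (Measure.pi ν) {ω | RayIn ∅ α ω ∧ ∀ i ∈ D, -(η * nrm (ray ω α)) ≤ ω i ⬝ᵥ ray ω α} ≤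
      c ^ D.card * (Measure.pi ν) {ω | RayIn ∅ α ω} := by
  classical
  have hrm := ray_measurable (n := n) α
  have hrc : ∀ ω ω' : ι → Fin (n + 1) → ℝ, (∀ i ∉ D, ω i = ω' i) → ray ω α = ray ω' α :=
    fun ω ω' h => ray_congr α (fun k => h _ (hα k))
  set E : Set (ι → Fin (n + 1) → ℝ) :=
    {ω | ray ω α ≠ 0 ∧ ∀ i ∈ Dᶜ, ω i ⬝ᵥ ray ω α ≤ 0} with hE
  have hEm : MeasurableSet E := by
    have h1 : MeasurableSet {ω : ι → Fin (n + 1) → ℝ | ray ω α ≠ 0} :=
      (hrm (measurableSet_singleton 0)).compl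
    have h4 : {ω : ι → Fin (n + 1) → ℝ | ∀ i ∈ Dᶜ, ω i ⬝ᵥ ray ω α ≤ 0} =
        ⋂ i ∈ Dᶜ, {ω : ι → Fin (n + 1) → ℝ | ω i ⬝ᵥ ray ω α ≤ 0} := by
      ext ω
      simp only [Set.mem_ofPred_eq, Set.mem_iInter]
    have h3 : MeasurableSet {ω : ι → Fin (n + 1) → ℝ | ∀ i ∈ Dᶜ, ω i ⬝ᵥ ray ω α ≤ 0} := by
      rw [h4]
      exact Finset.measurableSet_biInter _ (fun i _ =>
        measurableSet_le (dot_measurable (measurable_pi_apply i) hrm) measurable_const)
    exact h1.inter h3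
  have hED : ∀ ω ω' : ι → Fin (n + 1) → ℝ, (∀ i ∉ D, ω i = ω' i) → (ω ∈ E ↔ ω' ∈ E) := by
    intro ω ω' h
    simp only [hE, Set.mem_ofPred_eq]
    rw [hrc ω ω' h]
    refine and_congr_right fun _ => ?_
    refine forall_congr' fun i => ?_
    refine imp_congr_right fun hi => ?_
    rw [h i (Finset.mem_compl.1 hi)]
  have hdm : Measurable (fun p : (ι → Fin (n + 1) → ℝ) × (Fin (n + 1) → ℝ) =>
      p.2 ⬝ᵥ ray p.1 α) := dot_measurable measurable_snd (hrm.comp measurable_fst)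
  have hnm : Measurable (fun p : (ι → Fin (n + 1) → ℝ) × (Fin (n + 1) → ℝ) =>
      -(η * nrm (ray p.1 α))) :=
    ((nrm_measurable (hrm.comp measurable_fst)).const_mul η).neg
  obtain ⟨H, hH⟩ : ∃ H : Set ((ι → Fin (n + 1) → ℝ) × (Fin (n + 1) → ℝ)),
      H = {p | -(η * nrm (ray p.1 α)) ≤ p.2 ⬝ᵥ ray p.1 α ∧ p.2 ⬝ᵥ ray p.1 α ≤ 0} := ⟨_, rfl⟩
  obtain ⟨G, hG⟩ : ∃ G : Set ((ι → Fin (n + 1) → ℝ) × (Fin (n + 1) → ℝ)),
      G = {p | p.2 ⬝ᵥ ray p.1 α ≤ 0} := ⟨_, rfl⟩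
  have hHm : MeasurableSet H := by
    rw [hH]
    exact (measurableSet_le hnm hdm).inter (measurableSet_le hdm measurable_const)
  have hGm : MeasurableSet G := by
    rw [hG]
    exact measurableSet_le hdm measurable_const
  have memH : ∀ ω v, (ω, v) ∈ H ↔
      -(η * nrm (ray ω α)) ≤ v ⬝ᵥ ray ω α ∧ v ⬝ᵥ ray ω α ≤ 0 := by
    intro ω v
    rw [hH]
    exact Iff.rfl
  have memG : ∀ ω v, (ω, v) ∈ G ↔ v ⬝ᵥ ray ω α ≤ 0 := by
    intro ω v
    rw [hG]
    exact Iff.rfl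
  have key := cond_events ν D E hEm hED (fun _ => H) (fun _ => G) (fun _ => hHm) (fun _ => hGm)
    (by
      intro i v ω ω' h
      rw [memH, memH, hrc ω ω' h])
    (by
      intro i v ω ω' h
      rw [memG, memG, hrc ω ω' h])
    c hc (by
      intro i hi ω hω
      simp only [memH, memG]
      exact hL i hi _ hω.1)
  simp only [memH, memG] at key
  refine (measure_mono ?_).trans (key.trans (mul_le_mul_right (measure_mono ?_) _))
  · rintro ω ⟨h1, h2⟩
    refine ⟨⟨h1.2.1, fun i _ => h1.2.2 i (by simp)⟩, fun i hi => ⟨h2 i hi, h1.2.2 i (by simp)⟩⟩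
  · rintro ω ⟨h1, h2⟩
    refine ⟨fun k => Finset.notMem_empty _, h1.1, ?_⟩
    intro i _
    by_cases hi : i ∈ D
    · exact h2 i hi
    · exact h1.2 i (Finset.mem_compl.2 hi)

/-- `n` rows in general position are linearly independent. -/
private theorem li_of_gpc {ι : Type} [Fintype ι] [DecidableEq ι] {n : ℕ}
    {ω : ι → Fin (n + 1) → ℝ} (hω : GPc ω) (hc : n + 1 ≤ Fintype.card ι) {I : Fin n → ι}
    (hI : Function.Injective I) : LinearIndependent ℝ (fun k => ω (I k)) := by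
  have : ∃ i0 : ι, i0 ∉ Finset.univ.image I := by
    by_contra hcon
    push Not at hcon
    have h2 : (Finset.univ : Finset ι).card ≤ (Finset.univ.image I).card :=
      Finset.card_le_card (fun i _ => hcon i)
    have h3 := Finset.card_image_le (s := (Finset.univ : Finset (Fin n))) (f := I)
    rw [Finset.card_univ] at h2
    rw [Finset.card_univ, Fintype.card_fin] at h3
    omega
  obtain ⟨i0, hi0⟩ := this
  have hinj : Function.Injective (Fin.cons i0 I : Fin (n + 1) → ι) := by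
    rw [Fin.cons_injective_iff]
    refine ⟨?_, hI⟩
    rintro ⟨k, hk⟩
    exact hi0 (Finset.mem_image.2 ⟨k, Finset.mem_univ _, hk⟩)
  have hdet := hω _ hinj
  have hli := Matrix.linearIndependent_rows_of_det_ne_zero hdet
  have h2 := hli.comp Fin.succ (Fin.succ_injective n)
  exact h2

/-- A vector of the cone with `n` tight rows is a positive multiple of a ray through these rows. -/
theorem exists_ray_of_tight {ι : Type} [Fintype ι] [DecidableEq ι] {n : ℕ}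
    {ω : ι → Fin (n + 1) → ℝ} (hω : GPc ω) (hc : n + 1 ≤ Fintype.card ι)
    {y : Fin (n + 1) → ℝ} (hy0 : y ≠ 0) (T : Finset ι) (hT : n ≤ T.card)
    (hTy : ∀ i ∈ T, ω i ⬝ᵥ y = 0) :
    ∃ (α : (Fin n → ι) × Bool) (c : ℝ), (∀ k, α.1 k ∈ T) ∧ 0 < c ∧ y = c • ray ω α := by
  have hcard : Fintype.card (Fin n) ≤ Fintype.card T := by simpa using hT
  obtain ⟨J⟩ := Function.Embedding.nonempty_of_card_le hcard
  have hinj : Function.Injective (fun k => (J k : ι)) := fun a b hab => J.injective (Subtype.ext hab)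
  have hli := li_of_gpc hω hc hinj
  obtain ⟨c, hcy⟩ := cv_line hli (q := y) (fun k => hTy _ (J k).2)
  have hc0 : c ≠ 0 := by
    rintro rfl
    exact hy0 (by rw [hcy, zero_smul])
  rcases lt_or_gt_of_ne hc0 with h | h
  · refine ⟨((fun k => (J k : ι)), false), -c, fun k => (J k).2, by linarith, ?_⟩
    unfold ray
    rw [hcy]
    simp
  · refine ⟨((fun k => (J k : ι)), true), c, fun k => (J k).2, h, ?_⟩
    unfold ray
    rw [hcy]
    simp

/-- The near tight count for independent rows with the hazard bound on `L`. -/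
theorem near_count_gen {ι : Type} [Fintype ι] [DecidableEq ι] {n : ℕ}
    (ν : ι → Measure (Fin (n + 1) → ℝ)) [∀ i, IsProbabilityMeasure (ν i)] (L : Finset ι)
    (hcard : n + 1 ≤ Fintype.card ι) (hGP : ∀ᵐ ω ∂(Measure.pi ν), GPc ω)
    (c : ℝ≥0∞) (hc : c ≠ ⊤) (η : ℝ)
    (hL : ∀ i ∈ L, ∀ y : Fin (n + 1) → ℝ, y ≠ 0 →
      ν i {v | -(η * nrm y) ≤ v ⬝ᵥ y ∧ v ⬝ᵥ y ≤ 0} ≤ c * ν i {v | v ⬝ᵥ y ≤ 0}) (k : ℕ) :
    (Measure.pi ν) {ω | ∃ y : Fin (n + 1) → ℝ, y ≠ 0 ∧ (∀ i, ω i ⬝ᵥ y ≤ 0) ∧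
        (∃ T : Finset ι, n ≤ T.card ∧ ∀ i ∈ T, ω i ⬝ᵥ y = 0) ∧
        ∃ D ⊆ L, D.card = k ∧ ∀ i ∈ D, -(η * nrm y) ≤ ω i ⬝ᵥ y ∧ ω i ⬝ᵥ y < 0} ≤
      2 * (Fintype.card ι : ℝ≥0∞) ^ (n + k) * c ^ k *
        (Measure.pi ν) {ω | Fea (Finset.univ : Finset ι) ω} := by
  classical
  set μ := Measure.pi ν with hμ
  set Ev : ((Fin n → ι) × Bool) → Finset ι → Set (ι → Fin (n + 1) → ℝ) := fun α D =>
    {ω | RayIn ∅ α ω ∧ ∀ i ∈ D, -(η * nrm (ray ω α)) ≤ ω i ⬝ᵥ ray ω α} with hEv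
  have hcover : μ {ω | ∃ y : Fin (n + 1) → ℝ, y ≠ 0 ∧ (∀ i, ω i ⬝ᵥ y ≤ 0) ∧
        (∃ T : Finset ι, n ≤ T.card ∧ ∀ i ∈ T, ω i ⬝ᵥ y = 0) ∧
        ∃ D ⊆ L, D.card = k ∧ ∀ i ∈ D, -(η * nrm y) ≤ ω i ⬝ᵥ y ∧ ω i ⬝ᵥ y < 0} ≤
      μ (⋃ α ∈ (Finset.univ : Finset ((Fin n → ι) × Bool)),
        ⋃ D ∈ (L.powersetCard k).filter (fun D => ∀ k, α.1 k ∉ D), Ev α D) := by
    apply measure_mono_ae
    filter_upwards [hGP] with ω hω
    rintro ⟨y, hy0, hyc, ⟨T, hT, hTy⟩, D, hDL, hDk, hD⟩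
    obtain ⟨α, s, hαT, hs, hys⟩ := exists_ray_of_tight hω hcard hy0 T hT hTy
    refine Set.mem_iUnion₂.2 ⟨α, Finset.mem_univ _, Set.mem_iUnion₂.2 ⟨D, ?_, ?_⟩⟩
    · rw [Finset.mem_filter, Finset.mem_powersetCard]
      refine ⟨⟨hDL, hDk⟩, ?_⟩
      intro j hj
      have h1 := (hD _ hj).2
      have h2 := hTy _ (hαT j)
      linarith
    · have hdot : ∀ v : Fin (n + 1) → ℝ, v ⬝ᵥ y = s * (v ⬝ᵥ ray ω α) := by
        intro v
        rw [hys, dotProduct_smul, smul_eq_mul]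
      have hnrm : nrm y = s * nrm (ray ω α) := by
        unfold nrm
        rw [hys, smul_dotProduct, dotProduct_smul, smul_eq_mul, smul_eq_mul, ← mul_assoc,
          Real.sqrt_mul (mul_self_nonneg s), Real.sqrt_mul_self hs.le]
      refine ⟨⟨fun j => Finset.notMem_empty _, ?_, ?_⟩, ?_⟩
      · intro h
        apply hy0
        rw [hys, h, smul_zero]
      · intro i _
        have h1 := hyc i
        rw [hdot] at h1
        by_contra hcon
        rw [not_le] at hcon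
        have := mul_pos hs hcon
        linarith
      · intro i hi
        have h1 := (hD i hi).1
        rw [hdot, hnrm] at h1
        by_contra hcon
        rw [not_le] at hcon
        have := mul_lt_mul_of_pos_left hcon hs
        linarith
  refine hcover.trans ?_
  refine (measure_biUnion_finset_le _ _).trans ?_
  have hF : ∀ α : (Fin n → ι) × Bool, μ {ω | RayIn ∅ α ω} ≤
      μ {ω | Fea (Finset.univ : Finset ι) ω} := by
    intro α
    apply measure_mono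
    rintro ω ⟨_, h1, h2⟩
    refine ⟨ray ω α, ?_, h1⟩
    rw [Finset.compl_empty] at h2
    exact h2
  have hα : ∀ α : (Fin n → ι) × Bool,
      μ (⋃ D ∈ (L.powersetCard k).filter (fun D => ∀ k, α.1 k ∉ D), Ev α D) ≤
        (Fintype.card ι : ℝ≥0∞) ^ k * (c ^ k * μ {ω | Fea (Finset.univ : Finset ι) ω}) := by
    intro α
    refine (measure_biUnion_finset_le _ _).trans ?_
    have h1 : ∀ D ∈ (L.powersetCard k).filter (fun D => ∀ k, α.1 k ∉ D),
        μ (Ev α D) ≤ c ^ k * μ {ω | Fea (Finset.univ : Finset ι) ω} := by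
      intro D hD
      rw [Finset.mem_filter, Finset.mem_powersetCard] at hD
      have h2 := near_piece ν D c hc η (fun i hi => hL i (hD.1.1 hi)) α hD.2
      rw [hD.1.2] at h2
      exact h2.trans (mul_le_mul_right (hF α) _)
    refine (Finset.sum_le_card_nsmul _ _ _ h1).trans ?_
    rw [nsmul_eq_mul]
    apply mul_le_mul_left
    have h3 : ((L.powersetCard k).filter (fun D => ∀ k, α.1 k ∉ D)).card ≤
        Fintype.card ι ^ k := by
      refine (Finset.card_filter_le _ _).trans ?_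
      rw [Finset.card_powersetCard]
      exact (Nat.choose_le_pow _ _).trans (Nat.pow_le_pow_left (Finset.card_le_univ L) k)
    calc (((L.powersetCard k).filter (fun D => ∀ k, α.1 k ∉ D)).card : ℝ≥0∞)
        ≤ ((Fintype.card ι ^ k : ℕ) : ℝ≥0∞) := by exact_mod_cast h3
      _ = _ := by push_cast; rfl
  refine (Finset.sum_le_card_nsmul _ _ _ (fun α _ => hα α)).trans ?_
  rw [nsmul_eq_mul]
  have h5 : ((Finset.univ : Finset ((Fin n → ι) × Bool)).card : ℝ≥0∞) =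
      2 * (Fintype.card ι : ℝ≥0∞) ^ n := by
    rw [Finset.card_univ, Fintype.card_prod, Fintype.card_fun, Fintype.card_fin,
      Fintype.card_bool]
    push_cast
    ring
  rw [h5]
  apply le_of_eq
  ring

/-- The near tight count at all vertices of the homogenised polyhedron. -/
theorem near_count {m n : ℕ} (hmn : n ≤ m) (Abar : Fin m → Fin n → ℝ) (bbar : Fin m → ℝ)
    {σ : ℝ} (hσ : 0 < σ) (hA : ∑ i, ∑ j, Abar i j ^ 2 ≤ 1) (hb : ∑ i, bbar i ^ 2 ≤ 1)
    (k : ℕ) {η : ℝ} (hη : 0 ≤ η) :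
    noise m n σ {ω | ∃ y : Fin (n + 1) → ℝ, y ≠ 0 ∧
        (∀ o, Gr (fun i j => Abar i j + ω.1 i j) (fun i => bbar i + ω.2 i) o ⬝ᵥ y ≤ 0) ∧
        (∃ T : Finset (Option (Fin m)), n ≤ T.card ∧ ∀ o ∈ T,
          Gr (fun i j => Abar i j + ω.1 i j) (fun i => bbar i + ω.2 i) o ⬝ᵥ y = 0) ∧
        ∃ D : Finset (Fin m), D.card = k ∧ ∀ i ∈ D,
          -(η * nrm y) ≤
            Gr (fun i j => Abar i j + ω.1 i j) (fun i => bbar i + ω.2 i) (some i) ⬝ᵥ y ∧
          Gr (fun i j => Abar i j + ω.1 i j) (fun i => bbar i + ω.2 i) (some i) ⬝ᵥ y < 0} ≤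
      2 * ((MM m n σ : ℕ) : ℝ≥0∞) ^ (n + k) *
        ENNReal.ofReal (15 * (MM m n σ : ℝ) ^ 2 * η) ^ k * noise m n σ (feas Abar bbar) := by
  classical
  set M : ℝ := (MM m n σ : ℝ) with hM
  have hM1 : 1 ≤ M := by
    rw [hM]
    have : 1 ≤ MM m n σ := by unfold MM; omega
    exact_mod_cast this
  have hMs : 1 / σ ≤ M := by
    refine (Nat.le_ceil (1 / σ)).trans ?_
    rw [hM]
    have : ⌈1 / σ⌉₊ ≤ MM m n σ := by unfold MM; omega
    exact_mod_cast this
  have hs : 0 < 1 / σ := by positivity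
  -- the hazard bound of the rows
  have hrow : ∀ i : Fin m, ∀ y : Fin (n + 1) → ℝ, y ≠ 0 →
      rowLaw Abar bbar σ (some i) {v | -(η * nrm y) ≤ v ⬝ᵥ y ∧ v ⬝ᵥ y ≤ 0} ≤
        ENNReal.ofReal (15 * M ^ 2 * η) * rowLaw Abar bbar σ (some i) {v | v ⬝ᵥ y ≤ 0} := by
    intro i y hy
    have hmean : ∑ j, (Fin.cons (-(bbar i)) (Abar i) : Fin (n + 1) → ℝ) j ^ 2 ≤ 2 ^ 2 := by
      rw [Fin.sum_univ_succ]
      simp only [Fin.cons_zero, Fin.cons_succ, neg_sq]
      have h1 : bbar i ^ 2 ≤ 1 :=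
        (Finset.single_le_sum (f := fun i => bbar i ^ 2) (fun i _ => sq_nonneg _)
          (Finset.mem_univ i)).trans hb
      have h2 : ∑ j, Abar i j ^ 2 ≤ 1 :=
        (Finset.single_le_sum (f := fun i => ∑ j, Abar i j ^ 2)
          (fun i _ => Finset.sum_nonneg fun j _ => sq_nonneg _) (Finset.mem_univ i)).trans hA
      linarith
    refine (row_hazard _ hσ (by norm_num) hmean y hy hη).trans (mul_le_mul_left ?_ _)
    apply ENNReal.ofReal_le_ofReal
    have e1 : 2 * 2 / σ ^ 2 = 4 * (1 / σ) ^ 2 := by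
      field_simp
      norm_num
    rw [e1]
    have h3 : (1 / σ) ^ 2 ≤ M ^ 2 := pow_le_pow_left₀ hs.le hMs 2
    have h4 : M ≤ M ^ 2 := by nlinarith
    have h5 : 1 / σ + 4 * (1 / σ) ^ 2 ≤ 5 * M ^ 2 := by linarith
    calc 3 * η * (1 / σ + 4 * (1 / σ) ^ 2) ≤ 3 * η * (5 * M ^ 2) :=
          mul_le_mul_of_nonneg_left h5 (by positivity)
      _ = 15 * M ^ 2 * η := by ring
  have hcard : n + 1 ≤ Fintype.card (Option (Fin m)) := by
    rw [Fintype.card_option, Fintype.card_fin]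
    omega
  have key := near_count_gen (n := n) (rowLaw Abar bbar σ)
    ((Finset.univ : Finset (Fin m)).map Function.Embedding.some) hcard (gp_ae Abar bbar hσ)
    (ENNReal.ofReal (15 * M ^ 2 * η)) ENNReal.ofReal_ne_top η (by
      intro o ho
      rw [Finset.mem_map] at ho
      obtain ⟨i, _, rfl⟩ := ho
      exact hrow i) k
  have hcast : (Fintype.card (Option (Fin m)) : ℝ≥0∞) ≤ ((MM m n σ : ℕ) : ℝ≥0∞) := by
    rw [Fintype.card_option, Fintype.card_fin]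
    have : m + 1 ≤ MM m n σ := by unfold MM; omega
    exact_mod_cast this
  have hfea : (Measure.pi (rowLaw Abar bbar σ))
      {ω | Fea (Finset.univ : Finset (Option (Fin m))) ω} ≤ noise m n σ (feas Abar bbar) :=
    fea_measure hmn Abar bbar hσ
  refine le_trans ?_ ((key.trans (mul_le_mul_right hfea _)).trans ?_)
  · have hpre := Measure.le_map_apply (μ := noise m n σ)
      (rows_law Abar bbar σ).measurable.aemeasurable
      {ω : Option (Fin m) → Fin (n + 1) → ℝ | ∃ y : Fin (n + 1) → ℝ, y ≠ 0 ∧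
        (∀ i, ω i ⬝ᵥ y ≤ 0) ∧
        (∃ T : Finset (Option (Fin m)), n ≤ T.card ∧ ∀ i ∈ T, ω i ⬝ᵥ y = 0) ∧
        ∃ D ⊆ (Finset.univ : Finset (Fin m)).map Function.Embedding.some, D.card = k ∧
          ∀ i ∈ D, -(η * nrm y) ≤ ω i ⬝ᵥ y ∧ ω i ⬝ᵥ y < 0}
    rw [(rows_law Abar bbar σ).map_eq] at hpre
    refine le_trans (measure_mono ?_) hpre
    rintro ω ⟨y, h1, h2, h3, D, hDk, hD⟩
    refine ⟨y, h1, h2, h3, D.map Function.Embedding.some, ?_, ?_, ?_⟩
    · exact Finset.map_subset_map.2 (Finset.subset_univ _)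
    · rw [Finset.card_map, hDk]
    · intro o ho
      rw [Finset.mem_map] at ho
      obtain ⟨i, hi, rfl⟩ := ho
      exact hD i hi
  · gcongr

end Pool.Agent.Lib.S3
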