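import Pool.Agent.Lib.S3.DetRelRows
import Pool.Agent.Lib.S3.NearCount
import Pool.Agent.Lib.S3.Geo.ChartN

/-!
# S3 / DetGood: the determinant `det (N, rows of a vertex)` is not small, relative to feasibility

`det_small`: the volume of the rows of a feasible vertex of the polyhedron.
`det_good`: `|det (N, ρ_I)| > w₀ η ε` for all vertices of the polyhedron (chart vertices off
infinity), all chart rows `N = chN a b w` with weights `≥ w₀`.
`det_good_pow`: the same with powers of `MM`.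
-/

set_option autoImplicit false

open MeasureTheory ProbabilityTheory
open scoped ENNReal NNReal

namespace Pool.Agent.Lib.S3.DetRel

open Pool.Agent.Lib.S3 Pool.Agent.Lib.SHirsch

/-- A nonzero cross product comes from linearly independent rows. -/
theorem li_of_cv_ne {n : ℕ} {g : Fin n → Fin (n + 1) → ℝ} (h : cv g ≠ 0) :
    LinearIndependent ℝ g := by
  obtain ⟨j, hj⟩ := Function.ne_iff.1 h
  have hdet : (Matrix.of (Fin.cons (Pi.single j (1 : ℝ)) g : Fin (n + 1) → Fin (n + 1) → ℝ)).det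
      ≠ 0 := hj
  have hli := Matrix.linearIndependent_rows_of_det_ne_zero hdet
  exact hli.comp Fin.succ (Fin.succ_injective n)

/-- The event that the line of the rows `J` lies in the cone, up to sign. -/
def FJ {ι : Type} {n : ℕ} (J : Fin n → ι) : Set (ι → Fin (n + 1) → ℝ) :=
  {ω | cv (fun k => ω (J k)) ≠ 0 ∧
    ((∀ i, ω i ⬝ᵥ cv (fun k => ω (J k)) ≤ 0) ∨ (∀ i, 0 ≤ ω i ⬝ᵥ cv (fun k => ω (J k))))}

theorem FJ_measurable {ι : Type} [Fintype ι] {n : ℕ} (J : Fin n → ι) :
    MeasurableSet (FJ (n := n) J) := by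
  have hc := cv_measurable (n := n) J
  have h1 : MeasurableSet {ω : ι → Fin (n + 1) → ℝ | cv (fun k => ω (J k)) ≠ 0} :=
    (hc (measurableSet_singleton 0)).compl
  have h2 : MeasurableSet {ω : ι → Fin (n + 1) → ℝ | ∀ i, ω i ⬝ᵥ cv (fun k => ω (J k)) ≤ 0} := by
    rw [Set.ofPred_forall]
    exact MeasurableSet.iInter fun i =>
      measurableSet_le (dot_measurable (measurable_pi_apply i) hc) measurable_const
  have h3 : MeasurableSet {ω : ι → Fin (n + 1) → ℝ | ∀ i, 0 ≤ ω i ⬝ᵥ cv (fun k => ω (J k))} := by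
    rw [Set.ofPred_forall]
    exact MeasurableSet.iInter fun i =>
      measurableSet_le measurable_const (dot_measurable (measurable_pi_apply i) hc)
  exact h1.inter (h2.union h3)

theorem FJ_inv {ι : Type} {n : ℕ} (J : Fin n → ι) (ω ω' : ι → Fin (n + 1) → ℝ)
    (h : ∀ i, i ∉ Set.range J → ω i = ω' i) (y : Fin (n + 1) → ℝ) (hy : y 0 = 1)
    (h1 : ∀ k, ω (J k) ⬝ᵥ y = 0) (h2 : ∀ k, ω' (J k) ⬝ᵥ y = 0)
    (hc : cv (fun k => ω (J k)) ≠ 0) (hc' : cv (fun k => ω' (J k)) ≠ 0) (hω : ω ∈ FJ J) :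
    ω' ∈ FJ J := by
  obtain ⟨d, hd⟩ := cv_line (li_of_cv_ne hc) h1
  obtain ⟨d', hd'⟩ := cv_line (li_of_cv_ne hc') h2
  have hy0 : y ≠ 0 := by
    intro h0
    rw [h0] at hy
    simp at hy
  have hdn : d ≠ 0 := by
    rintro rfl
    exact hy0 (by rw [hd, zero_smul])
  have hdn' : d' ≠ 0 := by
    rintro rfl
    exact hy0 (by rw [hd', zero_smul])
  -- the cross products are proportional
  have hcc : cv (fun k => ω' (J k)) = (d / d') • cv (fun k => ω (J k)) := by
    have h3 : d' • cv (fun k => ω' (J k)) = d • cv (fun k => ω (J k)) := by rw [← hd', ← hd]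
    rw [div_eq_inv_mul, mul_smul, ← h3, smul_smul, inv_mul_cancel₀ hdn', one_smul]
  have hdot : ∀ i, ω' i ⬝ᵥ cv (fun k => ω' (J k)) =
      (d / d') * (ω i ⬝ᵥ cv (fun k => ω (J k))) := by
    intro i
    by_cases hi : i ∈ Set.range J
    · obtain ⟨k, rfl⟩ := hi
      rw [cv_orth (fun k => ω' (J k)) k, cv_orth (fun k => ω (J k)) k, mul_zero]
    · rw [hcc, dotProduct_smul, smul_eq_mul, h i hi]
  refine ⟨hc', ?_⟩
  rcases lt_or_gt_of_ne (div_ne_zero hdn hdn') with hs | hs
  · rcases hω.2 with hneg | hpos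
    · right
      intro i
      rw [hdot]
      exact mul_nonneg_of_nonpos_of_nonpos hs.le (hneg i)
    · left
      intro i
      rw [hdot]
      exact mul_nonpos_of_nonpos_of_nonneg hs.le (hpos i)
  · rcases hω.2 with hneg | hpos
    · left
      intro i
      rw [hdot]
      exact mul_nonpos_of_nonneg_of_nonpos hs.le (hneg i)
    · right
      intro i
      rw [hdot]
      exact mul_nonneg hs.le (hpos i)

theorem FJ_sub_fea {ι : Type} [Fintype ι] {n : ℕ} (J : Fin n → ι) :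
    FJ (n := n) J ⊆ {ω | Fea (Finset.univ : Finset ι) ω} := by
  rintro ω ⟨hc, h | h⟩
  · exact ⟨_, fun i _ => h i, hc⟩
  · refine ⟨-cv (fun k => ω (J k)), fun i _ => ?_, neg_ne_zero.2 hc⟩
    rw [dotProduct_neg]
    exact neg_nonpos.2 (h i)

/-- The volume of the rows of a vertex of the polyhedron, relative to feasibility. -/
theorem det_small {m n : ℕ} (hmn : n ≤ m) (Abar : Fin m → Fin n → ℝ) (bbar : Fin m → ℝ)
    {σ ε : ℝ} (hσ : 0 < σ) (hε : 0 ≤ ε) :
    noise m n σ {ω | ∃ J : Fin n → Fin m, Function.Injective J ∧ ∃ y : Fin (n + 1) → ℝ, y ≠ 0 ∧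
        (∀ o, Gr (fun i j => Abar i j + ω.1 i j) (fun i => bbar i + ω.2 i) o ⬝ᵥ y ≤ 0) ∧
        (∀ k, Gr (fun i j => Abar i j + ω.1 i j) (fun i => bbar i + ω.2 i) (some (J k)) ⬝ᵥ y
          = 0) ∧
        nrm (cv (fun k => Gr (fun i j => Abar i j + ω.1 i j) (fun i => bbar i + ω.2 i)
          (some (J k)))) ≤ ε} ≤
      ((MM m n σ : ℕ) : ℝ≥0∞) ^ n * ENNReal.ofReal (8 * ε * (9 / σ) ^ n) *
        noise m n σ (feas Abar bbar) := by
  classical
  set Φ : (Fin m → Fin n → ℝ) × (Fin m → ℝ) → Option (Fin m) → Fin (n + 1) → ℝ := fun ω =>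
    Gr (fun i j => Abar i j + ω.1 i j) (fun i => bbar i + ω.2 i) with hΦ
  have hΦmp : MeasurePreserving Φ (noise m n σ) (Measure.pi (rowLaw Abar bbar σ)) :=
    rows_law Abar bbar σ
  set Ev : (Fin n → Fin m) → Set (Option (Fin m) → Fin (n + 1) → ℝ) := fun J =>
    FJ (fun k => some (J k)) ∩ {ω | nrm (cv (fun k => ω (some (J k)))) ≤ ε} with hEv
  have hEvm : ∀ J, MeasurableSet (Ev J) := fun J =>
    (FJ_measurable _).inter (measurableSet_le (nrm_measurable (cv_measurable _)) measurable_const)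
  have hcover : noise m n σ {ω | ∃ J : Fin n → Fin m, Function.Injective J ∧
      ∃ y : Fin (n + 1) → ℝ, y ≠ 0 ∧ (∀ o, Φ ω o ⬝ᵥ y ≤ 0) ∧
        (∀ k, Φ ω (some (J k)) ⬝ᵥ y = 0) ∧ nrm (cv (fun k => Φ ω (some (J k)))) ≤ ε} ≤
      noise m n σ (⋃ J ∈ (Finset.univ.filter Function.Injective : Finset (Fin n → Fin m)),
        Φ ⁻¹' (Ev J)) := by
    apply measure_mono_ae
    filter_upwards [gpc_noise Abar bbar hσ] with ω hω
    rintro ⟨J, hJ, y, hy0, hyc, hyt, hn⟩
    refine Set.mem_iUnion₂.2 ⟨J, by simpa using hJ, ?_⟩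
    -- the rows are independent
    have hli : LinearIndependent ℝ (fun k => Φ ω (some (J k))) := by
      have hinj : Function.Injective (Fin.cons none (fun k => some (J k)) :
          Fin (n + 1) → Option (Fin m)) := by
        rw [Fin.cons_injective_iff]
        exact ⟨by simp, fun k l hkl => hJ (by simpa using hkl)⟩
      exact (Matrix.linearIndependent_rows_of_det_ne_zero (hω _ hinj)).comp Fin.succ
        (Fin.succ_injective n)
    obtain ⟨d, hd⟩ := cv_line hli hyt
    have hcv := cv_ne_zero hli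
    have hdn : d ≠ 0 := by
      rintro rfl
      exact hy0 (by rw [hd, zero_smul])
    refine ⟨⟨hcv, ?_⟩, hn⟩
    have hdot : ∀ o, Φ ω o ⬝ᵥ y = d * (Φ ω o ⬝ᵥ cv (fun k => Φ ω (some (J k)))) := by
      intro o
      conv_lhs => rw [hd]
      rw [dotProduct_smul, smul_eq_mul]
    rcases lt_or_gt_of_ne hdn with hs | hs
    · right
      intro o
      have h1 := hyc o
      rw [hdot] at h1
      exact nonneg_of_mul_nonpos_right h1 hs
    · left
      intro o
      have h1 := hyc o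
      rw [hdot] at h1
      exact nonpos_of_mul_nonpos_right h1 hs
  refine hcover.trans ((measure_biUnion_finset_le _ _).trans ?_)
  have hone : ∀ J ∈ (Finset.univ.filter Function.Injective : Finset (Fin n → Fin m)),
      noise m n σ (Φ ⁻¹' (Ev J)) ≤
        ENNReal.ofReal (8 * ε * (9 / σ) ^ n) * noise m n σ (feas Abar bbar) := by
    intro J hJ
    have hJ' : Function.Injective (fun k => (some (J k) : Option (Fin m))) := by
      intro k l hkl
      exact (Finset.mem_filter.1 hJ).2 (by simpa using hkl)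
    rw [hΦmp.measure_preimage (hEvm J).nullMeasurableSet]
    have key := det_rel (rowLaw Abar bbar σ) hJ'
      (fun k => (Fin.cons (-(bbar (J k))) (Abar (J k)) : Fin (n + 1) → ℝ)) hσ hε
      (fun k => rfl) (FJ (fun k => some (J k))) (FJ_measurable _)
      (fun ω ω' h y hy h1 h2 h3 h4 h5 => FJ_inv _ ω ω' h y hy h1 h2 h3 h4 h5)
    refine key.trans (mul_le_mul_right ?_ _)
    exact (measure_mono (FJ_sub_fea _)).trans (fea_measure hmn Abar bbar hσ)
  refine (Finset.sum_le_card_nsmul _ _ _ hone).trans ?_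
  rw [nsmul_eq_mul]
  have h1 : (Finset.univ.filter Function.Injective : Finset (Fin n → Fin m)).card ≤
      MM m n σ ^ n := by
    refine (Finset.card_filter_le _ _).trans ?_
    rw [Finset.card_univ, Fintype.card_fun, Fintype.card_fin, Fintype.card_fin]
    exact Nat.pow_le_pow_left (by unfold MM; omega) n
  have h2 : (((Finset.univ.filter Function.Injective : Finset (Fin n → Fin m)).card : ℕ) : ℝ≥0∞) ≤
      ((MM m n σ : ℕ) : ℝ≥0∞) ^ n := by exact_mod_cast h1
  rw [mul_assoc (((MM m n σ : ℕ) : ℝ≥0∞) ^ n)]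
  exact mul_le_mul_left h2 _

/-- **The determinant `det (N, ρ_I)` at the vertices of the polyhedron.** -/
theorem det_good {m n : ℕ} (hmn : n + 1 ≤ m) (Abar : Fin m → Fin n → ℝ) (bbar : Fin m → ℝ)
    {σ ε η : ℝ} (hσ : 0 < σ) (hA : ∑ i, ∑ j, Abar i j ^ 2 ≤ 1) (hb : ∑ i, bbar i ^ 2 ≤ 1)
    (hε : 0 ≤ ε) (hη : 0 ≤ η) :
    noise m n σ {ω | ∃ y : Fin (n + 1) → ℝ, 0 < y 0 ∧
        (∀ o, Gr (fun i j => Abar i j + ω.1 i j) (fun i => bbar i + ω.2 i) o ⬝ᵥ y ≤ 0) ∧
        ∃ J : Fin n → Option (Fin m), Function.Injective J ∧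
        (∀ k, Gr (fun i j => Abar i j + ω.1 i j) (fun i => bbar i + ω.2 i) (J k) ⬝ᵥ y = 0) ∧
        ∃ (w0 : ℝ) (w : Option (Fin m) → ℝ), 0 < w0 ∧ (∀ o, w0 ≤ w o) ∧
        |(Matrix.of (Fin.cons
          (Geo.chN (fun i j => Abar i j + ω.1 i j) (fun i => bbar i + ω.2 i) w)
          (fun k => Gr (fun i j => Abar i j + ω.1 i j) (fun i => bbar i + ω.2 i) (J k)) :
            Fin (n + 1) → Fin (n + 1) → ℝ)).det| ≤ w0 * η * ε} ≤
      (((MM m n σ : ℕ) : ℝ≥0∞) ^ n * ENNReal.ofReal (8 * ε * (9 / σ) ^ n) +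
        2 * ((MM m n σ : ℕ) : ℝ≥0∞) ^ (n + 1) * ENNReal.ofReal (15 * (MM m n σ : ℝ) ^ 2 * η)) *
        noise m n σ (feas Abar bbar) := by
  classical
  have hE1 := det_small (by omega) Abar bbar hσ hε
  have hE2 := near_count (by omega) Abar bbar hσ hA hb 1 hη
  rw [pow_one] at hE2
  rw [add_mul]
  refine le_trans ?_ (add_le_add hE1 hE2)
  refine le_trans (measure_mono_ae ?_) (measure_union_le _ _)
  filter_upwards [gpc_noise Abar bbar hσ] with ω hω
  rintro ⟨y, hy0, hyc, J, hJ, hyt, w0, w, hw0, hw, hdet⟩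
  change _ ∨ _
  by_contra hcon
  rw [not_or] at hcon
  obtain ⟨hc1, hc2⟩ := hcon
  set a : Fin m → Fin n → ℝ := fun i j => Abar i j + ω.1 i j with ha
  set b : Fin m → ℝ := fun i => bbar i + ω.2 i with hbdef
  have hyne : y ≠ 0 := by
    intro h0
    rw [h0] at hy0
    simp at hy0
  -- no row of `J` is the row at infinity
  have hJs : ∀ k, ∃ i : Fin m, J k = some i := by
    intro k
    cases hJk : J k with
    | none =>
      exfalso
      have h1 := hyt k
      rw [hJk, Geo.gr_none] at h1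
      linarith
    | some i => exact ⟨i, rfl⟩
  choose J' hJ' using hJs
  have hJ'inj : Function.Injective J' := by
    intro k l hkl
    apply hJ
    rw [hJ' k, hJ' l, hkl]
  -- the rows are independent
  have hli : LinearIndependent ℝ (fun k => Gr a b (J k)) := by
    have hinj : Function.Injective (Fin.cons none J : Fin (n + 1) → Option (Fin m)) := by
      rw [Fin.cons_injective_iff]
      refine ⟨?_, hJ⟩
      rintro ⟨k, hk⟩
      rw [hJ' k] at hk
      exact absurd hk (by simp)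
    exact (Matrix.linearIndependent_rows_of_det_ne_zero (hω _ hinj)).comp Fin.succ
      (Fin.succ_injective n)
  obtain ⟨d, hd⟩ := cv_line hli hyt
  have hdn : d ≠ 0 := by
    rintro rfl
    exact hyne (by rw [hd, zero_smul])
  -- the volume is large
  have hvol : ε < nrm (cv (fun k => Gr a b (J k))) := by
    by_contra hle
    rw [not_lt] at hle
    apply hc1
    refine ⟨J', hJ'inj, y, hyne, hyc, fun k => ?_, ?_⟩
    · have := hyt k
      rw [hJ' k] at this
      exact this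
    · have h2 : (fun k => Gr a b (some (J' k))) = fun k => Gr a b (J k) := by
        funext k
        rw [hJ' k]
      rw [h2]
      exact hle
  -- a row outside
  obtain ⟨i0, hi0⟩ : ∃ i0 : Fin m, i0 ∉ Finset.univ.image J' := by
    by_contra hall
    push Not at hall
    have h2 : (Finset.univ : Finset (Fin m)).card ≤ (Finset.univ.image J').card :=
      Finset.card_le_card (fun i _ => hall i)
    have h3 := Finset.card_image_le (s := (Finset.univ : Finset (Fin n))) (f := J')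
    rw [Finset.card_univ, Fintype.card_fin] at h2
    rw [Finset.card_univ, Fintype.card_fin] at h3
    omega
  have hi0t : Gr a b (some i0) ⬝ᵥ y < 0 := by
    refine lt_of_le_of_ne (hyc _) ?_
    intro h0
    have hinj : Function.Injective (Fin.cons (some i0) J : Fin (n + 1) → Option (Fin m)) := by
      rw [Fin.cons_injective_iff]
      refine ⟨?_, hJ⟩
      rintro ⟨k, hk⟩
      rw [hJ' k] at hk
      exact hi0 (Finset.mem_image.2 ⟨k, Finset.mem_univ _, by simpa using hk⟩)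
    refine hω _ hinj ?_
    rw [← Matrix.exists_mulVec_eq_zero_iff]
    refine ⟨y, hyne, ?_⟩
    funext k
    refine Fin.cases ?_ (fun k => ?_) k
    · exact h0
    · exact hyt k
  have hslack : η * nrm y < -(Gr a b (some i0) ⬝ᵥ y) := by
    by_contra hle
    rw [not_lt] at hle
    apply hc2
    refine ⟨y, hyne, hyc, ⟨Finset.univ.image J, ?_, ?_⟩, {i0}, Finset.card_singleton _, ?_⟩
    · rw [Finset.card_image_of_injective _ hJ, Finset.card_univ, Fintype.card_fin]
    · intro o ho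
      obtain ⟨k, -, rfl⟩ := Finset.mem_image.1 ho
      exact hyt k
    · intro i hi
      rw [Finset.mem_singleton] at hi
      subst hi
      exact ⟨by linarith, hi0t⟩
  -- the chart row at `y`
  have hN : w0 * (η * nrm y) < Geo.chN a b w ⬝ᵥ y := by
    rw [Geo.chN_dot]
    have hnn : ∀ o ∈ (Finset.univ : Finset (Option (Fin m))), 0 ≤ w o * -(Gr a b o ⬝ᵥ y) :=
      fun o _ => mul_nonneg (hw0.le.trans (hw o)) (neg_nonneg.2 (hyc o))
    refine lt_of_lt_of_le ?_ (Finset.single_le_sum hnn (Finset.mem_univ (some i0)))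
    calc w0 * (η * nrm y) < w0 * -(Gr a b (some i0) ⬝ᵥ y) := mul_lt_mul_of_pos_left hslack hw0
      _ ≤ w (some i0) * -(Gr a b (some i0) ⬝ᵥ y) :=
          mul_le_mul_of_nonneg_right (hw _) (by linarith)
  -- conclusion
  have hy1 : nrm y = |d| * nrm (cv (fun k => Gr a b (J k))) := by
    conv_lhs => rw [hd]
    unfold nrm
    rw [smul_dotProduct, dotProduct_smul, smul_eq_mul, smul_eq_mul, ← mul_assoc,
      Real.sqrt_mul (mul_self_nonneg d), ← pow_two, Real.sqrt_sq_eq_abs]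
  have hN2 : Geo.chN a b w ⬝ᵥ y = d * (Geo.chN a b w ⬝ᵥ cv (fun k => Gr a b (J k))) := by
    conv_lhs => rw [hd]
    rw [dotProduct_smul, smul_eq_mul]
  have hd0 : 0 < |d| := abs_pos.2 hdn
  have hfin : w0 * η * nrm (cv (fun k => Gr a b (J k))) <
      |Geo.chN a b w ⬝ᵥ cv (fun k => Gr a b (J k))| := by
    have h1 : w0 * (η * nrm y) < |d| * |Geo.chN a b w ⬝ᵥ cv (fun k => Gr a b (J k))| := by
      rw [← abs_mul, ← hN2]
      exact lt_of_lt_of_le hN (le_abs_self _)
    rw [hy1] at h1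
    have h2 : |d| * (w0 * η * nrm (cv (fun k => Gr a b (J k)))) <
        |d| * |Geo.chN a b w ⬝ᵥ cv (fun k => Gr a b (J k))| := by
      calc _ = w0 * (η * (|d| * nrm (cv (fun k => Gr a b (J k))))) := by ring
        _ < _ := h1
    exact lt_of_mul_lt_mul_left h2 hd0.le
  rw [cv_dot] at hfin
  have h3 : w0 * η * ε ≤ w0 * η * nrm (cv (fun k => Gr a b (J k))) :=
    mul_le_mul_of_nonneg_left hvol.le (mul_nonneg hw0.le hη)
  have hfin' : w0 * η * ε < |(Matrix.of (Fin.cons (Geo.chN a b w) (fun k => Gr a b (J k)) :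
      Fin (n + 1) → Fin (n + 1) → ℝ)).det| := lt_of_le_of_lt h3 hfin
  exact absurd hdet (not_le.2 hfin')

/-- The same with powers of `MM`. -/
theorem det_good_pow {m n : ℕ} (hn : 1 ≤ n) (hmn : n + 1 ≤ m) (Abar : Fin m → Fin n → ℝ)
    (bbar : Fin m → ℝ) {σ : ℝ} (hσ : 0 < σ) (hA : ∑ i, ∑ j, Abar i j ^ 2 ≤ 1)
    (hb : ∑ i, bbar i ^ 2 ≤ 1) (h : ℕ) :
    noise m n σ {ω | ∃ y : Fin (n + 1) → ℝ, 0 < y 0 ∧
        (∀ o, Gr (fun i j => Abar i j + ω.1 i j) (fun i => bbar i + ω.2 i) o ⬝ᵥ y ≤ 0) ∧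
        ∃ J : Fin n → Option (Fin m), Function.Injective J ∧
        (∀ k, Gr (fun i j => Abar i j + ω.1 i j) (fun i => bbar i + ω.2 i) (J k) ⬝ᵥ y = 0) ∧
        ∃ (w0 : ℝ) (w : Option (Fin m) → ℝ), 0 < w0 ∧ (∀ o, w0 ≤ w o) ∧
        |(Matrix.of (Fin.cons
          (Geo.chN (fun i j => Abar i j + ω.1 i j) (fun i => bbar i + ω.2 i) w)
          (fun k => Gr (fun i j => Abar i j + ω.1 i j) (fun i => bbar i + ω.2 i) (J k)) :
            Fin (n + 1) → Fin (n + 1) → ℝ)).det| ≤
          w0 * (1 / (MM m n σ : ℝ)) ^ (5 * n + 2 * h + 8)} ≤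
      ENNReal.ofReal ((1 / (MM m n σ : ℝ)) ^ h) * noise m n σ (feas Abar bbar) := by
  set M : ℝ := (MM m n σ : ℝ) with hM
  have hceil : 1 ≤ ⌈1 / σ⌉₊ := Nat.one_le_ceil_iff.2 (by positivity)
  have hM6 : (6 : ℝ) ≤ M := by
    rw [hM]
    have : 6 ≤ MM m n σ := by unfold MM; omega
    exact_mod_cast this
  have hM0 : 0 < M := by linarith
  have hMs : 1 / σ ≤ M := by
    refine (Nat.le_ceil (1 / σ)).trans ?_
    rw [hM]
    have : ⌈1 / σ⌉₊ ≤ MM m n σ := by unfold MM; omega
    exact_mod_cast this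
  have hsM : 1 / M ≤ σ := by
    rw [div_le_iff₀ hM0]
    rw [div_le_iff₀ hσ] at hMs
    linarith
  set q : ℝ := 1 / M with hq
  have hq0 : 0 < q := by positivity
  have hqM : M * q = 1 := by rw [hq]; field_simp
  set ε : ℝ := (σ / 9) ^ n * q ^ (n + h) / 16 with hε
  set η : ℝ := q ^ (n + 3 + h) / 60 with hη
  have hε0 : 0 ≤ ε := by positivity
  have hη0 : 0 ≤ η := by positivity
  -- the threshold
  have hthr : q ^ (5 * n + 2 * h + 8) ≤ η * ε := by
    have h1 : q ^ 3 ≤ σ / 9 := by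
      have h2 : q ^ 2 ≤ 1 / 9 := by
        rw [hq, one_div, inv_pow, one_div]
        exact inv_anti₀ (by norm_num) (by nlinarith)
      calc q ^ 3 = q * q ^ 2 := by ring
        _ ≤ σ * (1 / 9) := mul_le_mul hsM h2 (by positivity) hσ.le
        _ = σ / 9 := by ring
    have h3 : q ^ (3 * n) ≤ (σ / 9) ^ n := by
      rw [pow_mul]
      exact pow_le_pow_left₀ (by positivity) h1 n
    have h4 : q ^ 2 ≤ 1 / 16 := by
      rw [hq, one_div, inv_pow, one_div]
      exact inv_anti₀ (by norm_num) (by nlinarith)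
    have h5 : q ^ 3 ≤ 1 / 60 := by
      rw [hq, one_div, inv_pow, one_div]
      refine inv_anti₀ (by norm_num) ?_
      calc (60 : ℝ) ≤ 6 ^ 3 := by norm_num
        _ ≤ M ^ 3 := pow_le_pow_left₀ (by norm_num) hM6 3
    calc q ^ (5 * n + 2 * h + 8) =
          (q ^ (n + 3 + h) * q ^ 3) * ((q ^ (3 * n) * q ^ (n + h)) * q ^ 2) := by ring
      _ ≤ (q ^ (n + 3 + h) * (1 / 60)) * (((σ / 9) ^ n * q ^ (n + h)) * (1 / 16)) := by
          gcongr
      _ = η * ε := by rw [hε, hη]; ring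
  have hmain := det_good hmn Abar bbar hσ hA hb hε0 hη0
  refine le_trans (measure_mono ?_) (hmain.trans ?_)
  · rintro ω ⟨y, h1, h2, J, h3, h4, w0, w, h5, h6, h7⟩
    refine ⟨y, h1, h2, J, h3, h4, w0, w, h5, h6, h7.trans ?_⟩
    rw [mul_assoc]
    exact mul_le_mul_of_nonneg_left hthr h5.le
  · refine mul_le_mul_left ?_ _
    have hMn : ∀ k : ℕ, ((MM m n σ : ℕ) : ℝ≥0∞) ^ k = ENNReal.ofReal (M ^ k) := by
      intro k
      rw [ENNReal.ofReal_pow hM0.le, hM, ENNReal.ofReal_natCast]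
    rw [hMn, hMn, ← ENNReal.ofReal_mul (by positivity), show (2 : ℝ≥0∞) = ENNReal.ofReal 2 by simp,
      ← ENNReal.ofReal_mul (by norm_num), ← ENNReal.ofReal_mul (by positivity),
      ← ENNReal.ofReal_add (by positivity) (by positivity)]
    refine ENNReal.ofReal_le_ofReal ?_
    have hMq : ∀ k : ℕ, M ^ k * q ^ k = 1 := by
      intro k
      rw [← mul_pow, hqM, one_pow]
    have hσn : (σ / 9) ^ n * (9 / σ) ^ n = 1 := by
      rw [← mul_pow]
      have : σ / 9 * (9 / σ) = 1 := by field_simp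
      rw [this, one_pow]
    have e1 : M ^ n * (8 * ε * (9 / σ) ^ n) = q ^ h / 2 := by
      calc M ^ n * (8 * ε * (9 / σ) ^ n) =
            (M ^ n * q ^ n) * ((σ / 9) ^ n * (9 / σ) ^ n) * (q ^ h / 2) := by rw [hε]; ring
        _ = q ^ h / 2 := by rw [hMq, hσn]; ring
    have e2 : 2 * M ^ (n + 1) * (15 * M ^ 2 * η) = q ^ h / 2 := by
      calc 2 * M ^ (n + 1) * (15 * M ^ 2 * η) =
            (M ^ (n + 3) * q ^ (n + 3)) * (q ^ h / 2) := by rw [hη]; ring
        _ = q ^ h / 2 := by rw [hMq]; ring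
    rw [e1, e2]
    linarith

end Pool.Agent.Lib.S3.DetRel
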