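import Pool.Agent.Lib.S3.RMGauss
import Pool.Agent.Lib.SHirsch.Pay

/-!
# S3 / DetRel: the volume of `n` Gaussian rows, relative to any event of their common point

`A x = b` with `n` Gaussian rows `(A, b)` in `ℝ^(n+1)` (arbitrary centres, standard deviation `σ`).
The `n`-dimensional volume of the rows is `|det A| * √(1 + x ⬝ᵥ x)`.  It is bounded from below by
`ε` outside an event of relative measure `8 * ε * (9/σ)^n`, relative to every event of `x`.
-/

set_option autoImplicit false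

open MeasureTheory ProbabilityTheory
open scoped ENNReal NNReal

namespace Pool.Agent.Lib.S3.DetRel

open Pool.Agent.Lib.S3 Pool.Agent.Lib.SHirsch

/-! ### Products -/

theorem lintegral_pi_prod {ι : Type*} [Fintype ι] {X : ι → Type*} [∀ i, MeasurableSpace (X i)]
    (μ : ∀ i, Measure (X i)) [∀ i, IsProbabilityMeasure (μ i)] (f : ∀ i, X i → ℝ≥0∞)
    (hf : ∀ i, Measurable (f i)) :
    ∫⁻ x, ∏ i, f i (x i) ∂(Measure.pi μ) = ∏ i, ∫⁻ x, f i x ∂(μ i) := by
  have h1 := lintegral_prod_eq_prod_lintegral_of_indepFun Finset.univ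
    (fun i (ω : ∀ i, X i) => f i (ω i)) (iIndepFun_pi (X := f) (μ := μ)
      (fun i => (hf i).aemeasurable)) (fun i => (hf i).comp (measurable_pi_apply i))
  rw [h1]
  refine Finset.prod_congr rfl fun i _ => ?_
  exact (measurePreserving_eval μ i).lintegral_comp (hf i)

theorem pi_withDensity' {ι : Type*} [Fintype ι] {X : ι → Type*} [∀ i, MeasurableSpace (X i)]
    (μ : ∀ i, Measure (X i)) [∀ i, IsProbabilityMeasure (μ i)] (f : ∀ i, X i → ℝ≥0∞)
    (hf : ∀ i, Measurable (f i)) [∀ i, SigmaFinite ((μ i).withDensity (f i))] :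
    Measure.pi (fun i => (μ i).withDensity (f i)) =
      (Measure.pi μ).withDensity (fun x => ∏ i, f i (x i)) := by
  refine Measure.pi_eq fun s hs => ?_
  have hm : Measurable (fun x : ∀ i, X i => ∏ i, f i (x i)) :=
    Finset.measurable_prod _ fun i _ => (hf i).comp (measurable_pi_apply i)
  rw [withDensity_apply _ (MeasurableSet.univ_pi hs), ← lintegral_indicator
    (MeasurableSet.univ_pi hs)]
  have h1 : ∀ x : ∀ i, X i, (Set.univ.pi s).indicator (fun x => ∏ i, f i (x i)) x =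
      ∏ i, (s i).indicator (f i) (x i) := by
    intro x
    by_cases hx : x ∈ Set.univ.pi s
    · rw [Set.indicator_of_mem hx]
      refine Finset.prod_congr rfl fun j _ => ?_
      rw [Set.indicator_of_mem (hx j (Set.mem_univ j))]
    · rw [Set.indicator_of_notMem hx]
      obtain ⟨j, hj⟩ : ∃ j, x j ∉ s j := by
        by_contra hcon
        push Not at hcon
        exact hx fun j _ => hcon j
      rw [Finset.prod_eq_zero (Finset.mem_univ j) (Set.indicator_of_notMem hj _)]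
  rw [lintegral_congr h1, lintegral_pi_prod μ _ fun i => (hf i).indicator (hs i)]
  refine Finset.prod_congr rfl fun j _ => ?_
  rw [withDensity_apply _ (hs j), lintegral_indicator (hs j)]

theorem pi_smul' {ι : Type*} [Fintype ι] {X : ι → Type*} [∀ i, MeasurableSpace (X i)]
    (μ : ∀ i, Measure (X i)) [∀ i, SigmaFinite (μ i)] (κ : ι → ℝ≥0∞)
    [∀ i, SigmaFinite (κ i • μ i)] :
    Measure.pi (fun i => κ i • μ i) = (∏ i, κ i) • Measure.pi μ := by
  refine Measure.pi_eq fun s hs => ?_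
  rw [Measure.smul_apply, Measure.pi_pi, smul_eq_mul, ← Finset.prod_mul_distrib]
  refine Finset.prod_congr rfl fun j _ => ?_
  rw [Measure.smul_apply, smul_eq_mul]

/-! ### The conditional law of a row given the common point -/

/-- The factor `(1 + s)^(1/2)`. -/
noncomputable def rr (s : ℝ) : ℝ := Real.sqrt (1 + s)

/-- The symmetric matrix `(1 + x xᵀ)^(-1/2)`, as a function. -/
noncomputable def vf {n : ℕ} (x y : Fin n → ℝ) : Fin n → ℝ :=
  y - ((x ⬝ᵥ y) / (rr (x ⬝ᵥ x) * (rr (x ⬝ᵥ x) + 1))) • x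

theorem dot_self_nonneg' {n : ℕ} (x : Fin n → ℝ) : 0 ≤ x ⬝ᵥ x := by
  simp only [dotProduct]
  exact Finset.sum_nonneg fun i _ => mul_self_nonneg _

theorem rr_sq {n : ℕ} (x : Fin n → ℝ) : rr (x ⬝ᵥ x) ^ 2 = 1 + x ⬝ᵥ x :=
  Real.sq_sqrt (by have := dot_self_nonneg' x; linarith)

theorem one_le_rr {n : ℕ} (x : Fin n → ℝ) : 1 ≤ rr (x ⬝ᵥ x) := by
  unfold rr
  rw [Real.one_le_sqrt]
  have := dot_self_nonneg' x
  linarith

/-- `x · (V y) = (x · y) / r`. -/
theorem dot_vf {n : ℕ} (x y : Fin n → ℝ) : x ⬝ᵥ vf x y = (x ⬝ᵥ y) / rr (x ⬝ᵥ x) := by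
  have h1 := one_le_rr x
  have h2 := rr_sq x
  unfold vf
  rw [dotProduct_sub, dotProduct_smul, smul_eq_mul]
  have h3 : x ⬝ᵥ x = rr (x ⬝ᵥ x) ^ 2 - 1 := by linarith
  have h4 : x ⬝ᵥ y / (rr (x ⬝ᵥ x) * (rr (x ⬝ᵥ x) + 1)) * (x ⬝ᵥ x) =
      x ⬝ᵥ y / (rr (x ⬝ᵥ x) * (rr (x ⬝ᵥ x) + 1)) * (rr (x ⬝ᵥ x) ^ 2 - 1) := by rw [← h3]
  rw [h4]
  have h5 : rr (x ⬝ᵥ x) ≠ 0 := by linarith
  have h6 : rr (x ⬝ᵥ x) + 1 ≠ 0 := by linarith
  field_simp
  ring

/-- `V` is symmetric. -/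
theorem vf_symm {n : ℕ} (x y z : Fin n → ℝ) : z ⬝ᵥ vf x y = vf x z ⬝ᵥ y := by
  unfold vf
  rw [dotProduct_sub, sub_dotProduct, dotProduct_smul, smul_dotProduct, smul_eq_mul, smul_eq_mul,
    dotProduct_comm z x]
  ring

/-- Completing the square. -/
theorem square {n : ℕ} (x y a : Fin n → ℝ) (β : ℝ) :
    (vf x y - a) ⬝ᵥ (vf x y - a) + (vf x y ⬝ᵥ x - β) ^ 2 =
      (y - vf x (a + β • x)) ⬝ᵥ (y - vf x (a + β • x)) +
        (a ⬝ᵥ a + β ^ 2 - vf x (a + β • x) ⬝ᵥ vf x (a + β • x)) := by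
  have h1 := one_le_rr x
  have h2 := rr_sq x
  have h5 : rr (x ⬝ᵥ x) ≠ 0 := by linarith
  have h6 : rr (x ⬝ᵥ x) + 1 ≠ 0 := by linarith
  have hx : x ⬝ᵥ x = rr (x ⬝ᵥ x) ^ 2 - 1 := by linarith
  -- `|V y|² + (x · V y)² = |y|²`
  have hk : vf x y ⬝ᵥ vf x y + (vf x y ⬝ᵥ x) ^ 2 = y ⬝ᵥ y := by
    rw [dotProduct_comm (vf x y) x, dot_vf]
    have e1 : vf x y ⬝ᵥ vf x y = y ⬝ᵥ y -
        2 * ((x ⬝ᵥ y) / (rr (x ⬝ᵥ x) * (rr (x ⬝ᵥ x) + 1))) * (x ⬝ᵥ y) +
        ((x ⬝ᵥ y) / (rr (x ⬝ᵥ x) * (rr (x ⬝ᵥ x) + 1))) ^ 2 * (x ⬝ᵥ x) := by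
      unfold vf
      rw [dotProduct_sub, sub_dotProduct, sub_dotProduct, dotProduct_smul, dotProduct_smul,
        smul_dotProduct, smul_dotProduct, smul_eq_mul, smul_eq_mul, smul_eq_mul, smul_eq_mul,
        dotProduct_comm y x]
      ring
    rw [e1]
    have e2 : ((x ⬝ᵥ y) / (rr (x ⬝ᵥ x) * (rr (x ⬝ᵥ x) + 1))) ^ 2 * (x ⬝ᵥ x) =
        ((x ⬝ᵥ y) / (rr (x ⬝ᵥ x) * (rr (x ⬝ᵥ x) + 1))) ^ 2 * (rr (x ⬝ᵥ x) ^ 2 - 1) := by
      rw [← hx]
    rw [e2]
    field_simp
    ring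
  have hl : (vf x y - a) ⬝ᵥ (vf x y - a) + (vf x y ⬝ᵥ x - β) ^ 2 =
      (vf x y ⬝ᵥ vf x y + (vf x y ⬝ᵥ x) ^ 2) - 2 * ((a + β • x) ⬝ᵥ vf x y) + (a ⬝ᵥ a + β ^ 2) := by
    rw [sub_dotProduct, dotProduct_sub, dotProduct_sub, add_dotProduct, smul_dotProduct,
      smul_eq_mul, dotProduct_comm (vf x y) a, dotProduct_comm (vf x y) x]
    ring
  rw [hl, hk, vf_symm, sub_dotProduct, dotProduct_sub, dotProduct_sub,
    dotProduct_comm y (vf x (a + β • x))]
  ring

/-- The matrix of `vf x`. -/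
noncomputable def vm {n : ℕ} (x : Fin n → ℝ) : Matrix (Fin n) (Fin n) ℝ :=
  1 + Matrix.vecMulVec (-(1 / (rr (x ⬝ᵥ x) * (rr (x ⬝ᵥ x) + 1))) • x) x

theorem vm_mulVec {n : ℕ} (x y : Fin n → ℝ) : (vm x).mulVec y = vf x y := by
  unfold vm vf
  rw [Matrix.add_mulVec, Matrix.one_mulVec]
  funext j
  simp only [Pi.add_apply, Pi.sub_apply, Pi.smul_apply, smul_eq_mul, Matrix.mulVec,
    Matrix.vecMulVec_apply, dotProduct]
  simp_rw [mul_assoc, ← Finset.mul_sum]
  ring

theorem vm_det {n : ℕ} (x : Fin n → ℝ) : (vm x).det = 1 / rr (x ⬝ᵥ x) := by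
  have h1 := one_le_rr x
  have h2 := rr_sq x
  unfold vm
  rw [Matrix.vecMulVec_eq Unit, Matrix.det_one_add_replicateCol_mul_replicateRow,
    dotProduct_smul, smul_eq_mul]
  have h3 : x ⬝ᵥ x = rr (x ⬝ᵥ x) ^ 2 - 1 := by linarith
  have h4 : -(1 / (rr (x ⬝ᵥ x) * (rr (x ⬝ᵥ x) + 1))) * (x ⬝ᵥ x) =
      -(1 / (rr (x ⬝ᵥ x) * (rr (x ⬝ᵥ x) + 1))) * (rr (x ⬝ᵥ x) ^ 2 - 1) := by rw [← h3]
  rw [h4]
  have h5 : rr (x ⬝ᵥ x) ≠ 0 := by linarith
  have h6 : rr (x ⬝ᵥ x) + 1 ≠ 0 := by linarith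
  field_simp
  ring

/-- Lebesgue measure is a multiple of its image under an invertible matrix. -/
theorem volume_eq_smul_map {n : ℕ} {M : Matrix (Fin n) (Fin n) ℝ} (hM : M.det ≠ 0) :
    (volume : Measure (Fin n → ℝ)) =
      ENNReal.ofReal |M.det| • Measure.map (fun y => M.mulVec y) volume := by
  have h := Real.map_matrix_volume_pi_eq_smul_volume_pi hM
  have h2 : (Matrix.toLin' M : (Fin n → ℝ) → (Fin n → ℝ)) = fun y => M.mulVec y := by
    funext y; exact Matrix.toLin'_apply M y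
  rw [h2] at h
  rw [h, smul_smul, ← ENNReal.ofReal_mul (abs_nonneg _), ← abs_mul, mul_inv_cancel₀ hM, abs_one,
    ENNReal.ofReal_one, one_smul]

theorem measurable_mulVec {n : ℕ} (M : Matrix (Fin n) (Fin n) ℝ) :
    Measurable (fun y : Fin n → ℝ => M.mulVec y) := by
  refine measurable_pi_lambda _ fun i => ?_
  simp only [Matrix.mulVec, dotProduct]
  exact Finset.measurable_sum _ fun j _ => (measurable_pi_apply j).const_mul _

/-- Change of variables for an invertible matrix. -/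
theorem lintegral_mulVec {n : ℕ} {M : Matrix (Fin n) (Fin n) ℝ} (hM : M.det ≠ 0)
    {g : (Fin n → ℝ) → ℝ≥0∞} (hg : Measurable g) :
    ∫⁻ y, g y = ENNReal.ofReal |M.det| * ∫⁻ y, g (M.mulVec y) := by
  conv_lhs => rw [volume_eq_smul_map hM]
  rw [lintegral_smul_measure, lintegral_map hg (measurable_mulVec M), smul_eq_mul]

/-- The product Gaussian density. -/
noncomputable def gd {n : ℕ} (a : Fin n → ℝ) (v : ℝ≥0) (y : Fin n → ℝ) : ℝ :=
  ∏ j, gaussianPDFReal (a j) v (y j)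

theorem gd_eq {n : ℕ} (a : Fin n → ℝ) (v : ℝ≥0) (y : Fin n → ℝ) :
    gd a v y = (Real.sqrt (2 * Real.pi * v))⁻¹ ^ n *
      Real.exp (-((y - a) ⬝ᵥ (y - a)) / (2 * v)) := by
  unfold gd gaussianPDFReal
  rw [Finset.prod_mul_distrib, Finset.prod_const, Finset.card_univ, Fintype.card_fin,
    ← Real.exp_sum]
  congr 2
  rw [← Finset.sum_div, Finset.sum_neg_distrib]
  congr 2
  simp only [dotProduct, Pi.sub_apply]
  exact Finset.sum_congr rfl fun j _ => by ring

theorem gd_nonneg {n : ℕ} (a : Fin n → ℝ) (v : ℝ≥0) (y : Fin n → ℝ) : 0 ≤ gd a v y :=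
  Finset.prod_nonneg fun _ _ => gaussianPDFReal_nonneg _ _ _

theorem gd_measurable {n : ℕ} (a : Fin n → ℝ) (v : ℝ≥0) : Measurable (gd a v) :=
  Finset.measurable_prod _ fun j _ =>
    (measurable_gaussianPDFReal (a j) v).comp (measurable_pi_apply j)

/-- The constant of `row_density`. -/
noncomputable def kc {n : ℕ} (a : Fin n → ℝ) (β : ℝ) (v : ℝ≥0) (x : Fin n → ℝ) : ℝ :=
  (Real.sqrt (2 * Real.pi * v))⁻¹ *
    Real.exp (-(a ⬝ᵥ a + β ^ 2 - vf x (a + β • x) ⬝ᵥ vf x (a + β • x)) / (2 * v))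

theorem kc_nonneg {n : ℕ} (a : Fin n → ℝ) (β : ℝ) (v : ℝ≥0) (x : Fin n → ℝ) :
    0 ≤ kc a β v x := by
  unfold kc; positivity

/-- The density of a row at `V y`, given the point. -/
theorem row_density {n : ℕ} (a : Fin n → ℝ) (β : ℝ) (v : ℝ≥0) (x y : Fin n → ℝ) :
    gd a v (vf x y) * gaussianPDFReal β v (vf x y ⬝ᵥ x) =
      kc a β v x * gd (vf x (a + β • x)) v y := by
  rw [gd_eq, gd_eq]
  unfold kc gaussianPDFReal
  have h := square x y a β
  have e : Real.exp (-((vf x y - a) ⬝ᵥ (vf x y - a)) / (2 * v)) *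
      Real.exp (-(vf x y ⬝ᵥ x - β) ^ 2 / (2 * v)) =
      Real.exp (-(a ⬝ᵥ a + β ^ 2 - vf x (a + β • x) ⬝ᵥ vf x (a + β • x)) / (2 * v)) *
      Real.exp (-((y - vf x (a + β • x)) ⬝ᵥ (y - vf x (a + β • x))) / (2 * v)) := by
    rw [← Real.exp_add, ← Real.exp_add, ← add_div, ← add_div]
    congr 2
    linarith
  calc _ = (Real.sqrt (2 * Real.pi * v))⁻¹ ^ n * (Real.sqrt (2 * Real.pi * v))⁻¹ *
        (Real.exp (-((vf x y - a) ⬝ᵥ (vf x y - a)) / (2 * v)) *
      Real.exp (-(vf x y ⬝ᵥ x - β) ^ 2 / (2 * v))) := by ring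
    _ = _ := by rw [e]; ring

/-- The law of a row. -/
noncomputable def rl {n : ℕ} (a : Fin n → ℝ) (v : ℝ≥0) : Measure (Fin n → ℝ) :=
  Measure.pi fun j => gaussianReal (a j) v

instance {n : ℕ} (a : Fin n → ℝ) (v : ℝ≥0) : IsProbabilityMeasure (rl a v) := by
  unfold rl; infer_instance

theorem rl_eq {n : ℕ} (a : Fin n → ℝ) {v : ℝ≥0} (hv : v ≠ 0) :
    rl a v = (volume : Measure (Fin n → ℝ)).withDensity (fun y => ENNReal.ofReal (gd a v y)) :=
  Pay.pi_gauss_withDensity a (fun _ => v) (fun _ => hv)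

theorem measurable_dot_right {n : ℕ} (x : Fin n → ℝ) :
    Measurable (fun y : Fin n → ℝ => y ⬝ᵥ x) := by
  simp only [dotProduct]
  exact Finset.measurable_sum _ fun j _ => (measurable_pi_apply j).mul_const _

/-- The law of a row weighted by the density of its right-hand side at `a ⬝ᵥ x`. -/
theorem row_law {n : ℕ} (a : Fin n → ℝ) (β : ℝ) {v : ℝ≥0} (hv : v ≠ 0) (x : Fin n → ℝ) :
    (rl a v).withDensity (fun y => gaussianPDF β v (y ⬝ᵥ x)) =
      ENNReal.ofReal (|(vm x).det| * kc a β v x) •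
        Measure.map (fun y => (vm x).mulVec y) (rl (vf x (a + β • x)) v) := by
  have hdet : (vm x).det ≠ 0 := by
    rw [vm_det]
    have := one_le_rr x
    positivity
  have hf : Measurable (fun y : Fin n → ℝ => gaussianPDF β v (y ⬝ᵥ x)) :=
    (measurable_gaussianPDF β v).comp (measurable_dot_right x)
  have hg : ∀ c : Fin n → ℝ, Measurable (fun y => ENNReal.ofReal (gd c v y)) := fun c =>
    ENNReal.measurable_ofReal.comp (gd_measurable c v)
  ext s hs
  rw [withDensity_apply _ hs, rl_eq a hv, setLIntegral_withDensity_eq_setLIntegral_mul _ (hg a) hf hs,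
    ← lintegral_indicator hs, lintegral_mulVec hdet (((hg a).mul hf).indicator hs),
    Measure.smul_apply, Measure.map_apply (measurable_mulVec _) hs, rl_eq _ hv,
    withDensity_apply _ (measurable_mulVec _ hs), ← lintegral_indicator (measurable_mulVec _ hs),
    smul_eq_mul, ENNReal.ofReal_mul (abs_nonneg _), mul_assoc, ← lintegral_const_mul _
      ((hg _).indicator (measurable_mulVec _ hs))]
  congr 1
  refine lintegral_congr fun y => ?_
  by_cases hy : (vm x).mulVec y ∈ s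
  · rw [Set.indicator_of_mem hy, Set.indicator_of_mem (show y ∈ (fun y => (vm x).mulVec y) ⁻¹' s
      from hy), Pi.mul_apply, gaussianPDF, ← ENNReal.ofReal_mul (gd_nonneg _ _ _),
      ← ENNReal.ofReal_mul (kc_nonneg _ _ _ _), vm_mulVec, row_density]
  · rw [Set.indicator_of_notMem hy, Set.indicator_of_notMem (show y ∉ (fun y =>
      (vm x).mulVec y) ⁻¹' s from hy), mul_zero]

/-- The law of a matrix with Gaussian rows. -/
noncomputable def ml {n : ℕ} (A0 : Fin n → Fin n → ℝ) (v : ℝ≥0) : Measure (Fin n → Fin n → ℝ) :=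
  Measure.pi fun i => rl (A0 i) v

instance {n : ℕ} (A0 : Fin n → Fin n → ℝ) (v : ℝ≥0) : IsProbabilityMeasure (ml A0 v) := by
  unfold ml; infer_instance

/-- The constant of the matrix law. -/
noncomputable def mc {n : ℕ} (A0 : Fin n → Fin n → ℝ) (b0 : Fin n → ℝ) (v : ℝ≥0)
    (x : Fin n → ℝ) : ℝ≥0∞ :=
  ∏ i, ENNReal.ofReal (|(vm x).det| * kc (A0 i) (b0 i) v x)

theorem mat_law {n : ℕ} (A0 : Fin n → Fin n → ℝ) (b0 : Fin n → ℝ) {v : ℝ≥0} (hv : v ≠ 0)
    (x : Fin n → ℝ) :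
    (ml A0 v).withDensity (fun A => ∏ i, gaussianPDF (b0 i) v (A i ⬝ᵥ x)) =
      mc A0 b0 v x •
        Measure.map (fun Y i => (vm x).mulVec (Y i)) (ml (fun i => vf x (A0 i + b0 i • x)) v) := by
  have hf : ∀ i, Measurable (fun y : Fin n → ℝ => gaussianPDF (b0 i) v (y ⬝ᵥ x)) := fun i =>
    (measurable_gaussianPDF (b0 i) v).comp (measurable_dot_right x)
  have : ∀ i, SigmaFinite ((rl (A0 i) v).withDensity (fun y => gaussianPDF (b0 i) v (y ⬝ᵥ x))) :=
    fun i => SigmaFinite.withDensity_of_ne_top (Filter.Eventually.of_forall fun y =>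
      ENNReal.ofReal_ne_top)
  have : ∀ i, IsProbabilityMeasure (Measure.map (fun y => (vm x).mulVec y)
      (rl (vf x (A0 i + b0 i • x)) v)) := fun i =>
    Measure.isProbabilityMeasure_map (measurable_mulVec _).aemeasurable
  have : ∀ i, SigmaFinite (ENNReal.ofReal (|(vm x).det| * kc (A0 i) (b0 i) v x) •
      Measure.map (fun y => (vm x).mulVec y) (rl (vf x (A0 i + b0 i • x)) v)) := by
    intro i
    rw [← row_law (A0 i) (b0 i) hv x]
    infer_instance
  have h1 := pi_withDensity' (fun i => rl (A0 i) v)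
    (fun i y => gaussianPDF (b0 i) v (y ⬝ᵥ x)) hf
  unfold ml
  rw [← h1]
  simp_rw [fun i => row_law (A0 i) (b0 i) hv x]
  rw [pi_smul']
  unfold mc
  congr 1
  exact (Measure.pi_map_pi (μ := fun i => rl (vf x (A0 i + b0 i • x)) v)
    (f := fun _ y => (vm x).mulVec y) (fun i => (measurable_mulVec _).aemeasurable)).symm

/-! ### The first moment of the determinant -/

theorem measurable_det {n : ℕ} : Measurable (fun A : Fin n → Fin n → ℝ => (Matrix.of A).det) :=
  det_meas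

theorem nh_moment {n : ℕ} (A0 : Fin n → Fin n → ℝ) {σ : ℝ} (hσ : 0 < σ) :
    ∫⁻ A, nh (Matrix.of A).det ∂(ml A0 (σ ^ 2).toNNReal) ≤
      ENNReal.ofReal (3 / Real.sqrt σ) ^ n := by
  have hs : 0 < Real.sqrt σ := Real.sqrt_pos.2 hσ
  have hK : ENNReal.ofReal (3 / Real.sqrt σ) ≠ 0 := by
    rw [Ne, ENNReal.ofReal_eq_zero, not_le]
    positivity
  exact det_moment hK n (fun i j => gaussianReal (A0 i j) (σ ^ 2).toNNReal)
    (fun i j => SB_gauss (A0 i j) hσ)

/-- A Gaussian matrix is almost surely invertible. -/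
theorem det_ne_zero_ae {n : ℕ} (A0 : Fin n → Fin n → ℝ) {σ : ℝ} (hσ : 0 < σ) :
    ∀ᵐ A ∂(ml A0 (σ ^ 2).toNNReal), (Matrix.of A).det ≠ 0 := by
  have h := nh_moment A0 hσ
  have h2 : ∫⁻ A, nh (Matrix.of A).det ∂(ml A0 (σ ^ 2).toNNReal) ≠ ∞ :=
    ne_top_of_le_ne_top (ENNReal.pow_ne_top ENNReal.ofReal_ne_top) h
  filter_upwards [ae_lt_top (nh_measurable.comp measurable_det) h2] with A hA h0
  rw [Function.comp_apply, h0, nh_zero] at hA
  exact lt_irrefl _ hA

theorem one_le_young {L y : ℝ} (hL : 0 < L) :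
    1 ≤ ENNReal.ofReal (1 / L) * ENNReal.ofReal |y| + ENNReal.ofReal (Real.sqrt L) * nh y := by
  rcases le_or_gt L |y| with h | h
  · refine le_trans ?_ le_self_add
    rw [← ENNReal.ofReal_mul (by positivity), ← ENNReal.ofReal_one]
    refine ENNReal.ofReal_le_ofReal ?_
    rw [one_div, inv_mul_eq_div, le_div_iff₀ hL, one_mul]
    exact h
  · refine le_trans ?_ le_add_self
    have h1 : nh L ≤ nh y := nh_anti (by rw [abs_of_pos hL]; exact h.le)
    refine le_trans ?_ (mul_le_mul_right h1 _)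
    unfold nh
    rw [abs_of_pos hL, ENNReal.ofReal_rpow_of_pos hL, ← ENNReal.ofReal_mul (Real.sqrt_nonneg _),
      ← ENNReal.ofReal_one]
    refine ENNReal.ofReal_le_ofReal ?_
    rw [Real.rpow_neg hL.le, ← Real.sqrt_eq_rpow, mul_inv_cancel₀ (Real.sqrt_pos.2 hL).ne']

/-- The lower bound of the first moment. -/
theorem det_lower {n : ℕ} (A0 : Fin n → Fin n → ℝ) {σ : ℝ} (hσ : 0 < σ) :
    1 ≤ ENNReal.ofReal (8 * (9 / σ) ^ n) *
      ∫⁻ A, ENNReal.ofReal |(Matrix.of A).det| ∂(ml A0 (σ ^ 2).toNNReal) := by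
  have hs : 0 < Real.sqrt σ := Real.sqrt_pos.2 hσ
  set κ : ℝ := (3 / Real.sqrt σ) ^ n with hκ_def
  have hκ : 0 < κ := by positivity
  have hκ2 : κ ^ 2 = (9 / σ) ^ n := by
    rw [hκ_def, ← pow_mul, mul_comm n 2, pow_mul, div_pow, Real.sq_sqrt hσ.le]
    norm_num
  set L : ℝ := 1 / (4 * κ ^ 2) with hL_def
  have hL : 0 < L := by positivity
  have hsL : Real.sqrt L = 1 / (2 * κ) := by
    rw [hL_def, show (1 : ℝ) / (4 * κ ^ 2) = (1 / (2 * κ)) ^ 2 by field_simp; norm_num,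
      Real.sqrt_sq (by positivity)]
  set μ := ml A0 (σ ^ 2).toNNReal with hμ
  set I1 := ∫⁻ A, ENNReal.ofReal |(Matrix.of A).det| ∂μ with hI1
  have hm1 : Measurable (fun A : Fin n → Fin n → ℝ => ENNReal.ofReal |(Matrix.of A).det|) :=
    ENNReal.measurable_ofReal.comp measurable_det.abs
  have hm2 : Measurable (fun A : Fin n → Fin n → ℝ => nh (Matrix.of A).det) :=
    nh_measurable.comp measurable_det
  have h1 : (1 : ℝ≥0∞) ≤ ENNReal.ofReal (1 / L) * I1 +
      ENNReal.ofReal (Real.sqrt L) * ∫⁻ A, nh (Matrix.of A).det ∂μ := by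
    calc (1 : ℝ≥0∞) = ∫⁻ _, 1 ∂μ := by rw [lintegral_const, measure_univ, mul_one]
      _ ≤ ∫⁻ A, (ENNReal.ofReal (1 / L) * ENNReal.ofReal |(Matrix.of A).det| +
            ENNReal.ofReal (Real.sqrt L) * nh (Matrix.of A).det) ∂μ :=
          lintegral_mono fun A => one_le_young hL
      _ = _ := by
          rw [lintegral_add_left (hm1.const_mul _), lintegral_const_mul _ hm1,
            lintegral_const_mul _ hm2]
  have h2 : ENNReal.ofReal (Real.sqrt L) * ∫⁻ A, nh (Matrix.of A).det ∂μ ≤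
      ENNReal.ofReal (1 / 2) := by
    refine (mul_le_mul_right (nh_moment A0 hσ) _).trans ?_
    rw [← ENNReal.ofReal_pow (by positivity), ← hκ_def, ← ENNReal.ofReal_mul (Real.sqrt_nonneg _),
      hsL]
    refine ENNReal.ofReal_le_ofReal (le_of_eq ?_)
    field_simp
  have h3 : ENNReal.ofReal (1 / 2) ≤ ENNReal.ofReal (1 / L) * I1 := by
    have h4 : (1 : ℝ≥0∞) ≤ ENNReal.ofReal (1 / L) * I1 + ENNReal.ofReal (1 / 2) :=
      h1.trans (by gcongr)
    have h5 : (1 : ℝ≥0∞) = ENNReal.ofReal (1 / 2) + ENNReal.ofReal (1 / 2) := by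
      rw [← ENNReal.ofReal_add (by norm_num) (by norm_num), ← ENNReal.ofReal_one]
      norm_num
    rw [h5] at h4
    exact (ENNReal.add_le_add_iff_right ENNReal.ofReal_ne_top).1 h4
  calc (1 : ℝ≥0∞) = ENNReal.ofReal 2 * ENNReal.ofReal (1 / 2) := by
        rw [← ENNReal.ofReal_mul (by norm_num), ← ENNReal.ofReal_one]
        norm_num
    _ ≤ ENNReal.ofReal 2 * (ENNReal.ofReal (1 / L) * I1) := by gcongr
    _ = ENNReal.ofReal (8 * (9 / σ) ^ n) * I1 := by
        rw [← mul_assoc, ← ENNReal.ofReal_mul (by norm_num)]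
        congr 2
        rw [hL_def, ← hκ2]
        field_simp
        norm_num

/-! ### The inequality for a fixed point -/

/-- The density of the right-hand sides `A x`. -/
noncomputable def wt {n : ℕ} (b0 : Fin n → ℝ) (v : ℝ≥0) (x : Fin n → ℝ)
    (A : Fin n → Fin n → ℝ) : ℝ≥0∞ := ∏ i, gaussianPDF (b0 i) v (A i ⬝ᵥ x)

theorem measurable_wt {n : ℕ} (b0 : Fin n → ℝ) (v : ℝ≥0) (x : Fin n → ℝ) :
    Measurable (wt b0 v x) :=
  Finset.measurable_prod _ fun i _ => (measurable_gaussianPDF (b0 i) v).comp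
    ((measurable_dot_right x).comp (measurable_pi_apply i))

theorem det_rows {n : ℕ} (x : Fin n → ℝ) (Y : Fin n → Fin n → ℝ) :
    (Matrix.of (fun i => (vm x).mulVec (Y i))).det = (Matrix.of Y).det * (1 / rr (x ⬝ᵥ x)) := by
  have h : (Matrix.of (fun i => (vm x).mulVec (Y i))) = Matrix.of Y * (vm x).transpose := by
    ext i j
    simp only [Matrix.of_apply, Matrix.mul_apply, Matrix.transpose_apply, Matrix.mulVec,
      dotProduct]
    exact Finset.sum_congr rfl fun k _ => mul_comm _ _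
  rw [h, Matrix.det_mul, Matrix.det_transpose, vm_det]

theorem fixed_point {n : ℕ} (A0 : Fin n → Fin n → ℝ) (b0 : Fin n → ℝ) {σ ε : ℝ} (hσ : 0 < σ)
    (hε : 0 ≤ ε) (x : Fin n → ℝ) :
    ∫⁻ A, wt b0 (σ ^ 2).toNNReal x A * (ENNReal.ofReal |(Matrix.of A).det| *
        (if |(Matrix.of A).det| * rr (x ⬝ᵥ x) ≤ ε then 1 else 0)) ∂(ml A0 (σ ^ 2).toNNReal) ≤
      ENNReal.ofReal (8 * ε * (9 / σ) ^ n) *
      ∫⁻ A, wt b0 (σ ^ 2).toNNReal x A * ENNReal.ofReal |(Matrix.of A).det|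
        ∂(ml A0 (σ ^ 2).toNNReal) := by
  have hv : (σ ^ 2).toNNReal ≠ 0 := by
    rw [Ne, Real.toNNReal_eq_zero, not_le]; positivity
  set v := (σ ^ 2).toNNReal with hv_def
  have hr := one_le_rr x
  have hr0 : 0 < rr (x ⬝ᵥ x) := by linarith
  have hW := mat_law A0 b0 hv x
  have hWm : Measurable (wt b0 v x) := measurable_wt b0 v x
  have hm1 : Measurable (fun A : Fin n → Fin n → ℝ => ENNReal.ofReal |(Matrix.of A).det|) :=
    ENNReal.measurable_ofReal.comp measurable_det.abs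
  have hV : Measurable (fun (Y : Fin n → Fin n → ℝ) i => (vm x).mulVec (Y i)) :=
    measurable_pi_lambda _ fun i => (measurable_mulVec _).comp (measurable_pi_apply i)
  -- the total mass
  have htot : ∫⁻ A, wt b0 v x A ∂(ml A0 v) = mc A0 b0 v x := by
    have h := congrArg (fun μ : Measure (Fin n → Fin n → ℝ) => μ Set.univ) hW
    simp only [withDensity_apply _ MeasurableSet.univ, Measure.restrict_univ,
      Measure.smul_apply, smul_eq_mul, Measure.map_apply hV MeasurableSet.univ, Set.preimage_univ,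
      measure_univ, mul_one] at h
    exact h
  -- the weighted determinant
  have hdet : ∫⁻ A, wt b0 v x A * ENNReal.ofReal |(Matrix.of A).det| ∂(ml A0 v) =
      mc A0 b0 v x * (ENNReal.ofReal (1 / rr (x ⬝ᵥ x)) *
        ∫⁻ Y, ENNReal.ofReal |(Matrix.of Y).det| ∂(ml (fun i => vf x (A0 i + b0 i • x)) v)) := by
    have h1 : ∫⁻ A, wt b0 v x A * ENNReal.ofReal |(Matrix.of A).det| ∂(ml A0 v) =
        ∫⁻ A, ENNReal.ofReal |(Matrix.of A).det| ∂((ml A0 v).withDensity (wt b0 v x)) := by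
      rw [lintegral_withDensity_eq_lintegral_mul _ hWm hm1]
      rfl
    rw [h1]
    have h2 : (ml A0 v).withDensity (wt b0 v x) = _ := hW
    rw [h2, lintegral_smul_measure, smul_eq_mul, lintegral_map hm1 hV]
    congr 1
    rw [← lintegral_const_mul _ hm1]
    refine lintegral_congr fun Y => ?_
    rw [det_rows, abs_mul, abs_of_pos (show (0 : ℝ) < 1 / rr (x ⬝ᵥ x) by positivity), mul_comm,
      ENNReal.ofReal_mul (by positivity)]
  rw [hdet]
  have hlow := det_lower (fun i => vf x (A0 i + b0 i • x)) hσ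
  rw [← hv_def] at hlow
  set D := ∫⁻ Y, ENNReal.ofReal |(Matrix.of Y).det| ∂(ml (fun i => vf x (A0 i + b0 i • x)) v)
    with hD
  calc ∫⁻ A, wt b0 v x A * (ENNReal.ofReal |(Matrix.of A).det| *
        (if |(Matrix.of A).det| * rr (x ⬝ᵥ x) ≤ ε then 1 else 0)) ∂(ml A0 v)
      ≤ ∫⁻ A, wt b0 v x A * ENNReal.ofReal (ε / rr (x ⬝ᵥ x)) ∂(ml A0 v) := by
        refine lintegral_mono fun A => ?_
        refine mul_le_mul_right ?_ _
        by_cases h : |(Matrix.of A).det| * rr (x ⬝ᵥ x) ≤ ε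
        · rw [if_pos h, mul_one]
          exact ENNReal.ofReal_le_ofReal ((le_div_iff₀ hr0).2 h)
        · rw [if_neg h, mul_zero]
          exact zero_le
    _ = mc A0 b0 v x * ENNReal.ofReal (ε / rr (x ⬝ᵥ x)) := by
        rw [lintegral_mul_const _ hWm, htot]
    _ = mc A0 b0 v x * ENNReal.ofReal (ε / rr (x ⬝ᵥ x)) * 1 := by rw [mul_one]
    _ ≤ mc A0 b0 v x * ENNReal.ofReal (ε / rr (x ⬝ᵥ x)) *
          (ENNReal.ofReal (8 * (9 / σ) ^ n) * D) := by gcongr
    _ = ENNReal.ofReal (8 * ε * (9 / σ) ^ n) *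
          (mc A0 b0 v x * (ENNReal.ofReal (1 / rr (x ⬝ᵥ x)) * D)) := by
        rw [show ε / rr (x ⬝ᵥ x) = ε * (1 / rr (x ⬝ᵥ x)) by ring, ENNReal.ofReal_mul hε,
          show 8 * ε * (9 / σ) ^ n = ε * (8 * (9 / σ) ^ n) by ring, ENNReal.ofReal_mul hε]
        ring

/-! ### The joint law -/

theorem measurable_mulVec_joint {n : ℕ} :
    Measurable (fun p : (Fin n → Fin n → ℝ) × (Fin n → ℝ) => (Matrix.of p.1).mulVec p.2) := by
  refine measurable_pi_lambda _ fun i => ?_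
  simp only [Matrix.mulVec, dotProduct, Matrix.of_apply]
  refine Finset.measurable_sum _ fun j _ => Measurable.mul ?_ ?_
  · exact (measurable_pi_apply j).comp ((measurable_pi_apply i).comp measurable_fst)
  · exact (measurable_pi_apply j).comp measurable_snd

theorem measurable_wt_joint {n : ℕ} (b0 : Fin n → ℝ) (v : ℝ≥0) :
    Measurable (fun p : (Fin n → Fin n → ℝ) × (Fin n → ℝ) => wt b0 v p.2 p.1) := by
  unfold wt
  refine Finset.measurable_prod _ fun i _ => (measurable_gaussianPDF (b0 i) v).comp ?_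
  exact (measurable_pi_apply i).comp measurable_mulVec_joint

/-- Integration over `(A, b)` through the common point `x`, `b = A x`. -/
theorem prod_formula {n : ℕ} (A0 : Fin n → Fin n → ℝ) (b0 : Fin n → ℝ) {σ : ℝ} (hσ : 0 < σ)
    (G : (Fin n → Fin n → ℝ) × (Fin n → ℝ) → ℝ≥0∞) (hG : Measurable G) :
    ∫⁻ p, G p ∂((ml A0 (σ ^ 2).toNNReal).prod (rl b0 (σ ^ 2).toNNReal)) =
      ∫⁻ x : Fin n → ℝ, ∫⁻ A, wt b0 (σ ^ 2).toNNReal x A * (ENNReal.ofReal |(Matrix.of A).det| *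
        G (A, (Matrix.of A).mulVec x)) ∂(ml A0 (σ ^ 2).toNNReal) := by
  have hv : (σ ^ 2).toNNReal ≠ 0 := by
    rw [Ne, Real.toNNReal_eq_zero, not_le]; positivity
  have hae := det_ne_zero_ae A0 hσ
  set v := (σ ^ 2).toNNReal with hv_def
  rw [lintegral_prod _ hG.aemeasurable]
  have h1 : ∀ᵐ A ∂(ml A0 v), ∫⁻ b, G (A, b) ∂(rl b0 v) =
      ∫⁻ x : Fin n → ℝ, wt b0 v x A * (ENNReal.ofReal |(Matrix.of A).det| *
        G (A, (Matrix.of A).mulVec x)) := by
    filter_upwards [hae] with A hA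
    have hgm : Measurable (fun b => ENNReal.ofReal (gd b0 v b)) :=
      ENNReal.measurable_ofReal.comp (gd_measurable b0 v)
    have hGA : Measurable (fun b => G (A, b)) := hG.comp measurable_prodMk_left
    rw [rl_eq b0 hv, lintegral_withDensity_eq_lintegral_mul _ hgm hGA,
      lintegral_mulVec (M := Matrix.of A) hA (hgm.mul hGA)]
    have hcm : Measurable (fun x : Fin n → ℝ => ((fun b => ENNReal.ofReal (gd b0 v b)) *
        fun b => G (A, b)) ((Matrix.of A).mulVec x)) :=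
      (hgm.mul hGA).comp (measurable_mulVec _)
    rw [← lintegral_const_mul _ hcm]
    refine lintegral_congr fun x => ?_
    have h2 : ENNReal.ofReal (gd b0 v ((Matrix.of A).mulVec x)) = wt b0 v x A := by
      unfold gd wt gaussianPDF
      rw [ENNReal.ofReal_prod_of_nonneg (fun j _ => gaussianPDFReal_nonneg _ _ _)]
      rfl
    rw [Pi.mul_apply, h2]
    ring
  rw [lintegral_congr_ae h1]
  refine lintegral_lintegral_swap ?_
  refine Measurable.aemeasurable ?_
  refine (measurable_wt_joint b0 v).mul (Measurable.mul ?_ ?_)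
  · exact ENNReal.measurable_ofReal.comp (measurable_det.comp measurable_fst).abs
  · exact hG.comp (measurable_fst.prodMk measurable_mulVec_joint)

/-- The volume of the rows is large, relative to every event of the common point. -/
theorem vol_rel {n : ℕ} (A0 : Fin n → Fin n → ℝ) (b0 : Fin n → ℝ) {σ ε : ℝ} (hσ : 0 < σ)
    (hε : 0 ≤ ε) (G G' : (Fin n → Fin n → ℝ) × (Fin n → ℝ) → ℝ≥0∞) (hG : Measurable G)
    (hG' : Measurable G') (Q : (Fin n → ℝ) → ℝ≥0∞)
    (h : ∀ A x, (Matrix.of A).det ≠ 0 → G (A, (Matrix.of A).mulVec x) ≤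
      (if |(Matrix.of A).det| * rr (x ⬝ᵥ x) ≤ ε then 1 else 0) * Q x)
    (h' : ∀ A x, (Matrix.of A).det ≠ 0 → Q x ≤ G' (A, (Matrix.of A).mulVec x)) :
    ∫⁻ p, G p ∂((ml A0 (σ ^ 2).toNNReal).prod (rl b0 (σ ^ 2).toNNReal)) ≤
      ENNReal.ofReal (8 * ε * (9 / σ) ^ n) *
        ∫⁻ p, G' p ∂((ml A0 (σ ^ 2).toNNReal).prod (rl b0 (σ ^ 2).toNNReal)) := by
  rw [prod_formula A0 b0 hσ G hG, prod_formula A0 b0 hσ G' hG']
  have hae := det_ne_zero_ae A0 hσ
  set v := (σ ^ 2).toNNReal with hv_def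
  have hmeas' : Measurable (fun x : Fin n → ℝ => ∫⁻ A, wt b0 v x A *
      (ENNReal.ofReal |(Matrix.of A).det| * G' (A, (Matrix.of A).mulVec x)) ∂(ml A0 v)) := by
    have hj : Measurable (fun p : (Fin n → ℝ) × (Fin n → Fin n → ℝ) => wt b0 v p.1 p.2 *
      (ENNReal.ofReal |(Matrix.of p.2).det| * G' (p.2, (Matrix.of p.2).mulVec p.1))) := by
      refine ((measurable_wt_joint b0 v).comp measurable_swap).mul (Measurable.mul ?_ ?_)
      · exact ENNReal.measurable_ofReal.comp (measurable_det.comp measurable_snd).abs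
      · exact hG'.comp (measurable_snd.prodMk (measurable_mulVec_joint.comp measurable_swap))
    exact hj.lintegral_prod_right'
  rw [← lintegral_const_mul _ hmeas']
  refine lintegral_mono fun x => ?_
  have hwm : Measurable (fun A => wt b0 v x A * ENNReal.ofReal |(Matrix.of A).det|) :=
    (measurable_wt b0 v x).mul (ENNReal.measurable_ofReal.comp measurable_det.abs)
  have hwm2 : Measurable (fun A => wt b0 v x A * (ENNReal.ofReal |(Matrix.of A).det| *
        (if |(Matrix.of A).det| * rr (x ⬝ᵥ x) ≤ ε then 1 else 0))) := by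
    refine (measurable_wt b0 v x).mul (Measurable.mul
      (ENNReal.measurable_ofReal.comp measurable_det.abs) ?_)
    refine Measurable.ite ?_ measurable_const measurable_const
    exact measurableSet_le (measurable_det.abs.mul_const _) measurable_const
  calc ∫⁻ A, wt b0 v x A * (ENNReal.ofReal |(Matrix.of A).det| *
        G (A, (Matrix.of A).mulVec x)) ∂(ml A0 v)
      ≤ ∫⁻ A, (wt b0 v x A * (ENNReal.ofReal |(Matrix.of A).det| *
        (if |(Matrix.of A).det| * rr (x ⬝ᵥ x) ≤ ε then 1 else 0))) * Q x ∂(ml A0 v) := by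
        refine lintegral_mono_ae ?_
        filter_upwards [hae] with A hA
        calc wt b0 v x A * (ENNReal.ofReal |(Matrix.of A).det| * G (A, (Matrix.of A).mulVec x))
            ≤ wt b0 v x A * (ENNReal.ofReal |(Matrix.of A).det| *
              ((if |(Matrix.of A).det| * rr (x ⬝ᵥ x) ≤ ε then 1 else 0) * Q x)) := by
              gcongr
              exact h A x hA
          _ = _ := by ring
    _ = (∫⁻ A, wt b0 v x A * (ENNReal.ofReal |(Matrix.of A).det| *
        (if |(Matrix.of A).det| * rr (x ⬝ᵥ x) ≤ ε then 1 else 0)) ∂(ml A0 v)) * Q x := by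
        rw [lintegral_mul_const _ hwm2]
    _ ≤ (ENNReal.ofReal (8 * ε * (9 / σ) ^ n) *
          ∫⁻ A, wt b0 v x A * ENNReal.ofReal |(Matrix.of A).det| ∂(ml A0 v)) * Q x := by
        gcongr
        exact fixed_point A0 b0 hσ hε x
    _ = ENNReal.ofReal (8 * ε * (9 / σ) ^ n) *
          ∫⁻ A, wt b0 v x A * ENNReal.ofReal |(Matrix.of A).det| * Q x ∂(ml A0 v) := by
        rw [mul_assoc, lintegral_mul_const _ hwm]
    _ ≤ ENNReal.ofReal (8 * ε * (9 / σ) ^ n) *
          ∫⁻ A, wt b0 v x A * (ENNReal.ofReal |(Matrix.of A).det| *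
            G' (A, (Matrix.of A).mulVec x)) ∂(ml A0 v) := by
        refine mul_le_mul_right (lintegral_mono_ae ?_) _
        filter_upwards [hae] with A hA
        rw [mul_assoc]
        gcongr
        exact h' A x hA

end Pool.Agent.Lib.S3.DetRel
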