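import Pool.Agent.Lib.S3.DetRel
import Pool.Agent.Lib.SHirsch.RCv

/-!
# S3 / DetRelRows: `vol_rel` for rows in `ℝ^(n+1)` and any number of other rows

`F` an event which depends on the rows `J 0, .., J (n-1)` only through their common line.  Then
`P (F, vol ≤ ε) ≤ 8 ε (9/σ)^n P F`, `vol = nrm (cv (rows J))` the `n`-volume of the rows.
-/

set_option autoImplicit false

open MeasureTheory ProbabilityTheory
open scoped ENNReal NNReal

namespace Pool.Agent.Lib.S3.DetRel

open Pool.Agent.Lib.S3 Pool.Agent.Lib.SHirsch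

/-- The zeroth coordinate of the cross product. -/
theorem cv_zero {n : ℕ} (A : Fin n → Fin n → ℝ) (β : Fin n → ℝ) :
    cv (fun k => (Fin.cons (β k) (A k) : Fin (n + 1) → ℝ)) 0 = (Matrix.of A).det := by
  unfold cv
  rw [Matrix.det_succ_row_zero, Fin.sum_univ_succ]
  have h0 : ∑ j : Fin n, (-1) ^ ((j.succ : Fin (n + 1)) : ℕ) *
      (Matrix.of (Fin.cons (Pi.single 0 (1 : ℝ))
        (fun k => (Fin.cons (β k) (A k) : Fin (n + 1) → ℝ)) : Fin (n + 1) → Fin (n + 1) → ℝ)) 0
          j.succ * (Matrix.submatrix (Matrix.of (Fin.cons (Pi.single 0 (1 : ℝ))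
        (fun k => (Fin.cons (β k) (A k) : Fin (n + 1) → ℝ)) : Fin (n + 1) → Fin (n + 1) → ℝ))
          Fin.succ (Fin.succAbove j.succ)).det = 0 := by
    refine Finset.sum_eq_zero fun j _ => ?_
    have : (Matrix.of (Fin.cons (Pi.single 0 (1 : ℝ))
        (fun k => (Fin.cons (β k) (A k) : Fin (n + 1) → ℝ)) : Fin (n + 1) → Fin (n + 1) → ℝ)) 0
          j.succ = 0 := by
      rw [Matrix.of_apply, Fin.cons_zero, Pi.single_eq_of_ne (Fin.succ_ne_zero j)]
    rw [this]
    ring
  rw [h0, add_zero]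
  have h1 : (Matrix.of (Fin.cons (Pi.single 0 (1 : ℝ))
        (fun k => (Fin.cons (β k) (A k) : Fin (n + 1) → ℝ)) : Fin (n + 1) → Fin (n + 1) → ℝ)) 0
          0 = 1 := by
    rw [Matrix.of_apply, Fin.cons_zero, Pi.single_eq_same]
  rw [h1]
  simp only [Fin.val_zero, pow_zero, one_mul]
  congr 1

/-- The norm of the cross product of the rows `(A x, A)`. -/
theorem nrm_cv {n : ℕ} (A : Fin n → Fin n → ℝ) (x : Fin n → ℝ) (hA : (Matrix.of A).det ≠ 0) :
    nrm (cv (fun k => (Fin.cons ((Matrix.of A).mulVec x k) (A k) : Fin (n + 1) → ℝ))) =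
      |(Matrix.of A).det| * rr (x ⬝ᵥ x) := by
  set g : Fin n → Fin (n + 1) → ℝ :=
    fun k => (Fin.cons ((Matrix.of A).mulVec x k) (A k) : Fin (n + 1) → ℝ) with hg
  have hcv0 : cv g 0 = (Matrix.of A).det := cv_zero A _
  have hli : LinearIndependent ℝ g := by
    have hA' : LinearIndependent ℝ A := Matrix.linearIndependent_rows_of_det_ne_zero hA
    rw [Fintype.linearIndependent_iff] at hA' ⊢
    intro c hc
    refine hA' c ?_
    funext j
    have := congrFun hc j.succ
    simpa [hg, Finset.sum_apply] using this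
  have hy : ∀ k, g k ⬝ᵥ (Fin.cons (-1) x : Fin (n + 1) → ℝ) = 0 := by
    intro k
    simp [hg, dotProduct, Fin.sum_univ_succ, Matrix.mulVec]
  obtain ⟨c, hc⟩ := cv_line hli hy
  have hc0 : -1 = c * (Matrix.of A).det := by
    have := congrFun hc 0
    rw [Fin.cons_zero, Pi.smul_apply, smul_eq_mul, hcv0] at this
    exact this
  have hcv : cv g = (-(Matrix.of A).det) • (Fin.cons (-1) x : Fin (n + 1) → ℝ) := by
    rw [hc, smul_smul]
    have : -(Matrix.of A).det * c = 1 := by linarith
    rw [this, one_smul]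
  rw [hcv]
  unfold nrm rr
  have h2 : ((-(Matrix.of A).det) • (Fin.cons (-1) x : Fin (n + 1) → ℝ)) ⬝ᵥ
      ((-(Matrix.of A).det) • (Fin.cons (-1) x : Fin (n + 1) → ℝ)) =
      (Matrix.of A).det ^ 2 * (1 + x ⬝ᵥ x) := by
    rw [smul_dotProduct, dotProduct_smul, smul_eq_mul, smul_eq_mul]
    simp only [dotProduct, Fin.sum_univ_succ, Fin.cons_zero, Fin.cons_succ]
    ring
  rw [h2, Real.sqrt_mul (sq_nonneg _), Real.sqrt_sq_eq_abs]

/-- The law of `n` rows in `ℝ^(n+1)`. -/
theorem rows_split {n : ℕ} (c : Fin n → Fin (n + 1) → ℝ) (v : ℝ≥0) :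
    MeasurePreserving
      (fun p : (Fin n → Fin n → ℝ) × (Fin n → ℝ) =>
        fun k => (Fin.cons (p.2 k) (p.1 k) : Fin (n + 1) → ℝ))
      ((ml (fun k j => c k j.succ) v).prod (rl (fun k => c k 0) v))
      (Measure.pi fun k => Measure.pi fun j => gaussianReal (c k j) v) := by
  have hmeas : Measurable (fun p : (Fin n → Fin n → ℝ) × (Fin n → ℝ) =>
        fun k => (Fin.cons (p.2 k) (p.1 k) : Fin (n + 1) → ℝ)) := by
    refine measurable_pi_lambda _ fun k => measurable_pi_lambda _ fun j => ?_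
    refine Fin.cases ?_ (fun j => ?_) j
    · simp only [Fin.cons_zero]
      exact (measurable_pi_apply k).comp measurable_snd
    · simp only [Fin.cons_succ]
      exact (measurable_pi_apply j).comp ((measurable_pi_apply k).comp measurable_fst)
  have hone : ∀ k, Measure.map (fun q : (Fin n → ℝ) × ℝ => (Fin.cons q.2 q.1 : Fin (n + 1) → ℝ))
      ((rl (fun j => c k j.succ) v).prod (gaussianReal (c k 0) v)) =
      Measure.pi fun j => gaussianReal (c k j) v := by
    intro k
    have hm1 : Measurable (fun q : (Fin n → ℝ) × ℝ => (Fin.cons q.2 q.1 : Fin (n + 1) → ℝ)) := by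
      refine measurable_pi_lambda _ fun j => ?_
      refine Fin.cases ?_ (fun j => ?_) j
      · simp only [Fin.cons_zero]
        exact measurable_snd
      · simp only [Fin.cons_succ]
        exact (measurable_pi_apply j).comp measurable_fst
    refine (Measure.pi_eq fun t ht => ?_).symm
    rw [Measure.map_apply hm1 (MeasurableSet.univ_pi ht)]
    have hpre : (fun q : (Fin n → ℝ) × ℝ => (Fin.cons q.2 q.1 : Fin (n + 1) → ℝ)) ⁻¹'
        Set.univ.pi t = (Set.univ.pi fun j : Fin n => t j.succ) ×ˢ t 0 := by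
      ext q
      simp only [Set.mem_preimage, Set.mem_univ_pi, Set.mem_prod]
      constructor
      · intro h
        exact ⟨fun j => by simpa using h j.succ, by simpa using h 0⟩
      · rintro ⟨h1, h2⟩ j
        refine Fin.cases ?_ (fun j => ?_) j
        · simpa using h2
        · simpa using h1 j
    rw [hpre, Measure.prod_prod]
    unfold rl
    rw [Measure.pi_pi, Fin.prod_univ_succ, mul_comm]
  have hm1 : Measurable (fun q : (Fin n → ℝ) × ℝ => (Fin.cons q.2 q.1 : Fin (n + 1) → ℝ)) := by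
    refine measurable_pi_lambda _ fun j => ?_
    refine Fin.cases ?_ (fun j => ?_) j
    · simp only [Fin.cons_zero]
      exact measurable_snd
    · simp only [Fin.cons_succ]
      exact (measurable_pi_apply j).comp measurable_fst
  have harr := (measurePreserving_arrowProdEquivProdArrow (Fin n → ℝ) ℝ (Fin n)
    (fun k => rl (fun j => c k j.succ) v) (fun k => gaussianReal (c k 0) v)).symm
  have hall := measurePreserving_pi
    (fun k : Fin n => (rl (fun j => c k j.succ) v).prod (gaussianReal (c k 0) v))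
    (fun k : Fin n => Measure.pi fun j => gaussianReal (c k j) v)
    (f := fun _ q => (Fin.cons q.2 q.1 : Fin (n + 1) → ℝ)) (fun k => ⟨hm1, hone k⟩)
  have hcomp := hall.comp harr
  have heq : (fun p : (Fin n → Fin n → ℝ) × (Fin n → ℝ) =>
        fun k => (Fin.cons (p.2 k) (p.1 k) : Fin (n + 1) → ℝ)) =
      (fun (a : Fin n → (Fin n → ℝ) × ℝ) (i : Fin n) =>
        (Fin.cons (a i).2 (a i).1 : Fin (n + 1) → ℝ)) ∘
        (MeasurableEquiv.arrowProdEquivProdArrow (Fin n → ℝ) ℝ (Fin n)).symm := rfl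
  exact ⟨hmeas, by rw [heq]; exact hcomp.map_eq⟩

/-! ### Assembling rows -/

open Classical in
/-- The family with rows `g` at the indices `J` and `o` elsewhere. -/
noncomputable def asm {ι V : Type*} {n : ℕ} {J : Fin n → ι} (hJ : Function.Injective J)
    (g : Fin n → V) (o : {i : ι // i ∉ Set.range J} → V) : ι → V := fun i =>
  if h : i ∈ Set.range J then g ((Equiv.ofInjective J hJ).symm ⟨i, h⟩) else o ⟨i, h⟩

theorem asm_in {ι V : Type*} {n : ℕ} {J : Fin n → ι} (hJ : Function.Injective J)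
    (g : Fin n → V) (o : {i : ι // i ∉ Set.range J} → V) (k : Fin n) : asm hJ g o (J k) = g k := by
  unfold asm
  rw [dif_pos ⟨k, rfl⟩]
  congr 1
  rw [Equiv.symm_apply_eq]
  rfl

theorem asm_out {ι V : Type*} {n : ℕ} {J : Fin n → ι} (hJ : Function.Injective J)
    (g : Fin n → V) (o : {i : ι // i ∉ Set.range J} → V) {i : ι} (hi : i ∉ Set.range J) :
    asm hJ g o i = o ⟨i, hi⟩ := by
  unfold asm
  rw [dif_neg hi]

theorem measurable_asm {ι V : Type*} [MeasurableSpace V] {n : ℕ} {J : Fin n → ι}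
    (hJ : Function.Injective J) :
    Measurable (fun p : (Fin n → V) × ({i : ι // i ∉ Set.range J} → V) => asm hJ p.1 p.2) := by
  refine measurable_pi_lambda _ fun i => ?_
  by_cases hi : i ∈ Set.range J
  · obtain ⟨k, rfl⟩ := hi
    simp_rw [asm_in]
    exact (measurable_pi_apply k).comp measurable_fst
  · simp_rw [fun p : (Fin n → V) × ({i : ι // i ∉ Set.range J} → V) => asm_out hJ p.1 p.2 hi]
    exact (measurable_pi_apply (⟨i, hi⟩ : {i : ι // i ∉ Set.range J})).comp measurable_snd

open Classical in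
theorem asm_mp {ι V : Type*} [Fintype ι] [MeasurableSpace V] {n : ℕ} {J : Fin n → ι}
    (hJ : Function.Injective J) (ν : ι → Measure V) [∀ i, IsProbabilityMeasure (ν i)] :
    MeasurePreserving
      (fun p : (Fin n → V) × ({i : ι // i ∉ Set.range J} → V) => asm hJ p.1 p.2)
      ((Measure.pi fun k => ν (J k)).prod
        (Measure.pi fun i : {i : ι // i ∉ Set.range J} => ν i)) (Measure.pi ν) := by
  refine ⟨measurable_asm hJ, (Measure.pi_eq fun s hs => ?_).symm⟩
  rw [Measure.map_apply (measurable_asm hJ) (MeasurableSet.univ_pi hs)]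
  have hpre : (fun p : (Fin n → V) × ({i : ι // i ∉ Set.range J} → V) => asm hJ p.1 p.2) ⁻¹'
      Set.univ.pi s = (Set.univ.pi fun k => s (J k)) ×ˢ
        (Set.univ.pi fun i : {i : ι // i ∉ Set.range J} => s i) := by
    ext p
    simp only [Set.mem_preimage, Set.mem_univ_pi, Set.mem_prod]
    constructor
    · intro h
      refine ⟨fun k => ?_, fun i => ?_⟩
      · have := h (J k)
        rwa [asm_in] at this
      · have := h i
        rwa [asm_out hJ _ _ i.2] at this
    · rintro ⟨h1, h2⟩ i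
      by_cases hi : i ∈ Set.range J
      · obtain ⟨k, rfl⟩ := hi
        rw [asm_in]
        exact h1 k
      · rw [asm_out hJ _ _ hi]
        exact h2 ⟨i, hi⟩
  rw [hpre, Measure.prod_prod, Measure.pi_pi, Measure.pi_pi,
    ← Fintype.prod_subtype_mul_prod_subtype (fun i => i ∈ Set.range J) (fun i => ν i (s i))]
  congr 1
  refine (Fintype.prod_equiv (Equiv.ofInjective J hJ) (fun k => ν (J k) (s (J k)))
    (fun i : Set.range J => ν i (s i)) (fun k => rfl)).trans ?_
  convert rfl

/-- **The volume of the rows `J` relative to any event `F` which depends on the rows `J` only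
through their common line.** -/
theorem det_rel {ι : Type*} [Fintype ι] {n : ℕ} (ν : ι → Measure (Fin (n + 1) → ℝ))
    [∀ i, IsProbabilityMeasure (ν i)] {J : Fin n → ι} (hJ : Function.Injective J)
    (c : Fin n → Fin (n + 1) → ℝ) {σ ε : ℝ} (hσ : 0 < σ) (hε : 0 ≤ ε)
    (hν : ∀ k, ν (J k) = Measure.pi fun j => gaussianReal (c k j) (σ ^ 2).toNNReal)
    (F : Set (ι → Fin (n + 1) → ℝ)) (hF : MeasurableSet F)
    (hinv : ∀ ω ω' : ι → Fin (n + 1) → ℝ, (∀ i, i ∉ Set.range J → ω i = ω' i) →
      ∀ y : Fin (n + 1) → ℝ, y 0 = 1 → (∀ k, ω (J k) ⬝ᵥ y = 0) → (∀ k, ω' (J k) ⬝ᵥ y = 0) →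
      cv (fun k => ω (J k)) ≠ 0 → cv (fun k => ω' (J k)) ≠ 0 → ω ∈ F → ω' ∈ F) :
    Measure.pi ν (F ∩ {ω | nrm (cv (fun k => ω (J k))) ≤ ε}) ≤
      ENNReal.ofReal (8 * ε * (9 / σ) ^ n) * Measure.pi ν F := by
  set v := (σ ^ 2).toNNReal with hv
  have hcvm : Measurable (fun g : Fin n → Fin (n + 1) → ℝ => nrm (cv g)) := by
    have h1 : Measurable (fun g : Fin n → Fin (n + 1) → ℝ => cv g) :=
      cv_measurable (fun k : Fin n => k)
    unfold nrm
    refine (Measurable.sqrt ?_)
    simp only [dotProduct]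
    exact Finset.measurable_sum _ fun j _ =>
      ((measurable_pi_apply j).comp h1).mul ((measurable_pi_apply j).comp h1)
  have hE : MeasurableSet (F ∩ {ω : ι → Fin (n + 1) → ℝ | nrm (cv (fun k => ω (J k))) ≤ ε}) := by
    refine hF.inter (measurableSet_le ?_ measurable_const)
    exact hcvm.comp (measurable_pi_lambda _ fun k => measurable_pi_apply (J k))
  have hasm := asm_mp hJ ν
  rw [← hasm.measure_preimage hE.nullMeasurableSet, ← hasm.measure_preimage hF.nullMeasurableSet,
    Measure.prod_apply_symm (hasm.measurable hE), Measure.prod_apply_symm (hasm.measurable hF)]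
  have hFm : Measurable (fun o : {i : ι // i ∉ Set.range J} → Fin (n + 1) → ℝ =>
      (Measure.pi fun k => ν (J k)) ((fun g => (g, o)) ⁻¹' ((fun p : (Fin n → Fin (n + 1) → ℝ) ×
        ({i : ι // i ∉ Set.range J} → Fin (n + 1) → ℝ) => asm hJ p.1 p.2) ⁻¹' F))) :=
    measurable_measure_prodMk_right (hasm.measurable hF)
  rw [← lintegral_const_mul _ hFm]
  refine lintegral_mono fun o => ?_
  have hrows := rows_split c v
  have hνJ : (Measure.pi fun k => ν (J k)) =
      Measure.pi fun k => Measure.pi fun j => gaussianReal (c k j) v := by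
    congr 1
    funext k
    exact hν k
  rw [hνJ]
  have hm1 : Measurable (fun g : Fin n → Fin (n + 1) → ℝ => asm hJ g o) :=
    (measurable_asm hJ).comp measurable_prodMk_right
  have hS1 : MeasurableSet ((fun g : Fin n → Fin (n + 1) → ℝ => asm hJ g o) ⁻¹'
      (F ∩ {ω | nrm (cv (fun k => ω (J k))) ≤ ε})) := hm1 hE
  have hS2 : MeasurableSet ((fun g : Fin n → Fin (n + 1) → ℝ => asm hJ g o) ⁻¹' F) := hm1 hF
  change (Measure.pi fun k => Measure.pi fun j => gaussianReal (c k j) v)
      ((fun g : Fin n → Fin (n + 1) → ℝ => asm hJ g o) ⁻¹'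
        (F ∩ {ω | nrm (cv (fun k => ω (J k))) ≤ ε})) ≤ ENNReal.ofReal (8 * ε * (9 / σ) ^ n) *
      (Measure.pi fun k => Measure.pi fun j => gaussianReal (c k j) v)
      ((fun g : Fin n → Fin (n + 1) → ℝ => asm hJ g o) ⁻¹' F)
  rw [← hrows.measure_preimage hS1.nullMeasurableSet,
    ← hrows.measure_preimage hS2.nullMeasurableSet,
    ← lintegral_indicator_one (hrows.measurable hS1),
    ← lintegral_indicator_one (hrows.measurable hS2)]
  classical
  refine vol_rel (fun k j => c k j.succ) (fun k => c k 0) hσ hε _ _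
    (measurable_one.indicator (hrows.measurable hS1))
    (measurable_one.indicator (hrows.measurable hS2))
    (fun x => if ∀ A : Fin n → Fin n → ℝ, (Matrix.of A).det ≠ 0 →
      asm hJ (fun k => (Fin.cons ((Matrix.of A).mulVec x k) (A k) : Fin (n + 1) → ℝ)) o ∈ F
      then 1 else 0) ?_ ?_
  · intro A x hA
    by_cases hmem : (A, (Matrix.of A).mulVec x) ∈
        (fun p : (Fin n → Fin n → ℝ) × (Fin n → ℝ) =>
          fun k => (Fin.cons (p.2 k) (p.1 k) : Fin (n + 1) → ℝ)) ⁻¹'
        ((fun g : Fin n → Fin (n + 1) → ℝ => asm hJ g o) ⁻¹'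
          (F ∩ {ω | nrm (cv (fun k => ω (J k))) ≤ ε}))
    · rw [Set.indicator_of_mem hmem]
      obtain ⟨hF1, hN1⟩ := hmem
      have hN2 : |(Matrix.of A).det| * rr (x ⬝ᵥ x) ≤ ε := by
        rw [← nrm_cv A x hA]
        have h2 : nrm (cv (fun k => asm hJ (fun k => (Fin.cons ((Matrix.of A).mulVec x k) (A k) :
          Fin (n + 1) → ℝ)) o (J k))) ≤ ε := hN1
        simp_rw [asm_in] at h2
        exact h2
      have hQ : ∀ A' : Fin n → Fin n → ℝ, (Matrix.of A').det ≠ 0 →
          asm hJ (fun k => (Fin.cons ((Matrix.of A').mulVec x k) (A' k) : Fin (n + 1) → ℝ)) o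
            ∈ F := by
        intro A' hA'
        have hy : ∀ B : Fin n → Fin n → ℝ, ∀ k,
            (Fin.cons ((Matrix.of B).mulVec x k) (B k) : Fin (n + 1) → ℝ) ⬝ᵥ
              (Fin.cons 1 (-x) : Fin (n + 1) → ℝ) = 0 := by
          intro B k
          simp [dotProduct, Fin.sum_univ_succ, Matrix.mulVec]
        have hcv0 : ∀ B : Fin n → Fin n → ℝ, (Matrix.of B).det ≠ 0 →
            cv (fun k => (Fin.cons ((Matrix.of B).mulVec x k) (B k) : Fin (n + 1) → ℝ)) ≠ 0 := by
          intro B hB h0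
          have h1 := cv_zero B ((Matrix.of B).mulVec x)
          rw [h0] at h1
          exact hB h1.symm
        refine hinv _ _ (fun i hi => ?_) (Fin.cons 1 (-x)) (by rw [Fin.cons_zero])
          (fun k => ?_) (fun k => ?_) ?_ ?_ hF1
        · change asm hJ _ o i = asm hJ _ o i
          rw [asm_out hJ _ _ hi, asm_out hJ _ _ hi]
        · change asm hJ _ o (J k) ⬝ᵥ _ = 0
          rw [asm_in]
          exact hy A k
        · rw [asm_in]
          exact hy A' k
        · change cv (fun k => asm hJ _ o (J k)) ≠ 0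
          simp_rw [asm_in]
          exact hcv0 A hA
        · simp_rw [asm_in]
          exact hcv0 A' hA'
      rw [if_pos hN2, if_pos hQ, Pi.one_apply, one_mul]
    · rw [Set.indicator_of_notMem hmem]
      exact zero_le
  · intro A x hA
    by_cases hQ : ∀ A : Fin n → Fin n → ℝ, (Matrix.of A).det ≠ 0 →
      asm hJ (fun k => (Fin.cons ((Matrix.of A).mulVec x k) (A k) : Fin (n + 1) → ℝ)) o ∈ F
    · rw [if_pos hQ, Set.indicator_of_mem]
      · exact le_rfl
      · exact hQ A hA
    · rw [if_neg hQ]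
      exact zero_le

end Pool.Agent.Lib.S3.DetRel
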