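import Pool.Agent.Lib.SHirsch.PayLaw
import Pool.Agent.Lib.S3.Assemble

/-!
# Elim: elimination of the coins

`elim_prod`: from a bad set of a product `Ω × C` to a bad set of `Ω`, with no loss.
`elim_mea`: the same from the law `mea` of rows and coins to the noise of the problem.
`assemble_mea`: the frozen statement from a bad set of rows and coins.
-/

set_option autoImplicit false

open MeasureTheory ProbabilityTheory Set
open scoped ENNReal NNReal

namespace Pool.Agent.Lib.S3

open Pool.Agent.Lib.SHirsch Pool.Agent.Lib.SHirsch.Pay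

/-- Elimination of the second factor. -/
theorem elim_prod {Ω C : Type*} [MeasurableSpace Ω] [MeasurableSpace C] (μ : Measure Ω)
    [SFinite μ] (κ : Measure C) [IsProbabilityMeasure κ] (Bad : Set (Ω × C)) (P : Ω → Prop)
    (hP : ∀ᵐ p ∂(μ.prod κ), p ∉ Bad → P p.1) :
    ∃ B : Set Ω, MeasurableSet B ∧ μ B ≤ (μ.prod κ) Bad ∧ ∀ᵐ ω ∂μ, ω ∉ B → P ω := by
  set Bd := toMeasurable (μ.prod κ) Bad with hBd
  have hBm : MeasurableSet Bd := measurableSet_toMeasurable _ _
  have hm : Measurable fun ω => κ (Prod.mk ω ⁻¹' Bd) := measurable_measure_prodMk_left hBm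
  refine ⟨{ω | 1 ≤ κ (Prod.mk ω ⁻¹' Bd)}, measurableSet_le measurable_const hm, ?_, ?_⟩
  · have h1 := mul_meas_ge_le_lintegral (μ := μ) hm 1
    rw [one_mul] at h1
    refine h1.trans ?_
    rw [← Measure.prod_apply hBm, measure_toMeasurable]
  · have hP' : ∀ᵐ p ∂(μ.prod κ), p ∉ Bd → P p.1 := by
      filter_upwards [hP] with p hp h
      exact hp fun hb => h (subset_toMeasurable _ _ hb)
    have h2 := Measure.ae_ae_of_ae_prod hP'
    filter_upwards [h2] with ω hω hnot
    by_contra hcon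
    apply hnot
    have h3 : ∀ᵐ c ∂κ, c ∈ Prod.mk ω ⁻¹' Bd := by
      filter_upwards [hω] with c hc
      by_contra hn
      exact hcon (hc hn)
    have h4 : κ (Prod.mk ω ⁻¹' Bd) = 1 := by
      rw [← measure_univ (μ := κ)]
      apply measure_congr
      filter_upwards [h3] with c hc
      exact propext ⟨fun _ => trivial, fun _ => hc⟩
    exact h4.ge

/-- Elimination of the coins. -/
theorem elim_mea {m n : ℕ} {K : Type*} [Fintype K] (Abar : Fin m → Fin n → ℝ)
    (bbar : Fin m → ℝ) (σ : ℝ) (cK : K → ℝ) (vK : K → ℝ≥0)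
    (Bad : Set ((Fin m × Fin (n + 1)) ⊕ K → ℝ))
    (P : (Fin m → Fin n → ℝ) × (Fin m → ℝ) → Prop)
    (hP : ∀ᵐ w ∂(mea Abar bbar σ cK vK), w ∉ Bad →
      P ((fun i j => sysA w i j - Abar i j : Fin m → Fin n → ℝ),
          (fun i => sysB w i - bbar i : Fin m → ℝ))) :
    ∃ B : Set ((Fin m → Fin n → ℝ) × (Fin m → ℝ)), MeasurableSet B ∧
      noise m n σ B ≤ mea Abar bbar σ cK vK Bad ∧ ∀ᵐ ω ∂(noise m n σ), ω ∉ B → P ω := by
  set μR : Measure (Fin m × Fin (n + 1) → ℝ) := Measure.pi fun p =>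
    gaussianReal ((Fin.cons (-(bbar p.1)) (Abar p.1) : Fin (n + 1) → ℝ) p.2) (σ ^ 2).toNNReal
    with hμR
  set μK : Measure (K → ℝ) := Measure.pi fun k => gaussianReal (cK k) (vK k) with hμK
  have hjoin : MeasurePreserving
      (fun q : (Fin m × Fin (n + 1) → ℝ) × (K → ℝ) =>
        (Sum.elim q.1 q.2 : (Fin m × Fin (n + 1)) ⊕ K → ℝ))
      (μR.prod μK) (mea Abar bbar σ cK vK) := by
    have h1 := pi_sum (fun p : Fin m × Fin (n + 1) =>
      gaussianReal ((Fin.cons (-(bbar p.1)) (Abar p.1) : Fin (n + 1) → ℝ) p.2) (σ ^ 2).toNNReal)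
      (fun k => gaussianReal (cK k) (vK k))
    have h2 : (Sum.elim (fun p : Fin m × Fin (n + 1) =>
        gaussianReal ((Fin.cons (-(bbar p.1)) (Abar p.1) : Fin (n + 1) → ℝ) p.2)
          (σ ^ 2).toNNReal) (fun k => gaussianReal (cK k) (vK k)) :
        (Fin m × Fin (n + 1)) ⊕ K → Measure ℝ) =
        fun i => gaussianReal (cen Abar bbar cK i) (var (m := m) (n := n) σ vK i) := by
      funext i
      cases i <;> rfl
    rw [h2] at h1
    exact h1
  let backR : (Fin m × Fin (n + 1) → ℝ) → (Fin m → Fin n → ℝ) × (Fin m → ℝ) := fun r =>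
    ((fun i j => r (i, j.succ) - Abar i j), (fun i => -r (i, 0) - bbar i))
  let fwd : (Fin m → Fin n → ℝ) × (Fin m → ℝ) → (Fin m × Fin (n + 1) → ℝ) := fun ω p =>
    (Fin.cons (-(bbar p.1 + ω.2 p.1)) (fun j => Abar p.1 j + ω.1 p.1 j) : Fin (n + 1) → ℝ) p.2
  have hbm : Measurable backR := by
    change Measurable fun r : Fin m × Fin (n + 1) → ℝ =>
      ((fun i j => r (i, j.succ) - Abar i j : Fin m → Fin n → ℝ),
        (fun i => -r (i, 0) - bbar i : Fin m → ℝ))
    fun_prop
  have hfm : Measurable fwd := by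
    refine measurable_pi_lambda _ fun p => ?_
    obtain ⟨i, j⟩ := p
    refine Fin.cases ?_ (fun j => ?_) j
    · change Measurable fun ω : (Fin m → Fin n → ℝ) × (Fin m → ℝ) => -(bbar i + ω.2 i)
      fun_prop
    · change Measurable fun ω : (Fin m → Fin n → ℝ) × (Fin m → ℝ) => Abar i j + ω.1 i j
      fun_prop
  have hfb : ∀ r, fwd (backR r) = r := by
    intro r
    funext p
    obtain ⟨i, j⟩ := p
    refine Fin.cases ?_ (fun j => ?_) j
    · change -(bbar i + (-r (i, 0) - bbar i)) = r (i, 0)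
      ring
    · change Abar i j + (r (i, j.succ) - Abar i j) = r (i, j.succ)
      ring
  have hbf : ∀ ω, backR (fwd ω) = ω := by
    intro ω
    apply Prod.ext
    · funext i j
      change Abar i j + ω.1 i j - Abar i j = ω.1 i j
      ring
    · funext i
      change -(-(bbar i + ω.2 i)) - bbar i = ω.2 i
      ring
  -- `backR` preserves the measures
  have hback := (rows_back Abar bbar σ cK vK).comp hjoin
  have hbackR : μR.map backR = noise m n σ := by
    have h1 : (μR.prod μK).map Prod.fst = μR := Measure.fst_prod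
    rw [← h1, Measure.map_map hbm measurable_fst]
    exact hback.map_eq
  have hfwd : MeasurePreserving fwd (noise m n σ) μR := by
    refine ⟨hfm, ?_⟩
    rw [← hbackR, Measure.map_map hfm hbm]
    have : fwd ∘ backR = id := funext hfb
    rw [this, Measure.map_id]
  -- the bad set of the rows
  have hP' := hjoin.quasiMeasurePreserving.ae hP
  obtain ⟨B, hBm, hB, hBP⟩ := elim_prod μR μK
    ((fun q : (Fin m × Fin (n + 1) → ℝ) × (K → ℝ) =>
        (Sum.elim q.1 q.2 : (Fin m × Fin (n + 1)) ⊕ K → ℝ)) ⁻¹' toMeasurable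
          (mea Abar bbar σ cK vK) Bad) (fun r => P (backR r)) (by
      filter_upwards [hP'] with q hq hnot
      exact hq fun hb => hnot (subset_toMeasurable _ _ hb))
  refine ⟨fwd ⁻¹' B, hfm hBm, ?_, ?_⟩
  · rw [hfwd.measure_preimage hBm.nullMeasurableSet]
    refine hB.trans ?_
    rw [hjoin.measure_preimage (measurableSet_toMeasurable _ _).nullMeasurableSet,
      measure_toMeasurable]
  · filter_upwards [hfwd.quasiMeasurePreserving.ae hBP] with ω hω hnot
    have := hω hnot
    rwa [hbf] at this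

/-- The feasible set of the product measure. -/
theorem mea_fea {m n : ℕ} {K : Type*} [Fintype K] (Abar : Fin m → Fin n → ℝ)
    (bbar : Fin m → ℝ) (σ : ℝ) (cK : K → ℝ) (vK : K → ℝ≥0) :
    mea Abar bbar σ cK vK (fea (m := m) (n := n) (K := K)) = noise m n σ (feas Abar bbar) := by
  rw [← (rows_back Abar bbar σ cK vK).measure_preimage
    (feas_measurable Abar bbar).nullMeasurableSet]
  congr 1
  ext w
  simp only [fea, feas, Set.mem_ofPred_eq, Set.mem_preimage]
  simp

/-- The frozen statement from a bad set of rows and coins. -/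
theorem assemble_mea (C : ℕ)
    (H : ∀ m n : ℕ, 1 ≤ n → n ≤ m → ∀ σ : ℝ, 0 < σ →
      ∀ (Abar : Fin m → Fin n → ℝ) (bbar : Fin m → ℝ),
      ∑ i, ∑ j, Abar i j ^ 2 ≤ 1 → ∑ i, bbar i ^ 2 ≤ 1 →
      ∃ (K : Type) (_ : Fintype K) (cK : K → ℝ) (vK : K → ℝ≥0)
        (Bad : Set ((Fin m × Fin (n + 1)) ⊕ K → ℝ)),
        (∀ᵐ w ∂(mea Abar bbar σ cK vK), w ∈ fea (m := m) (n := n) (K := K) → w ∉ Bad →
          dm (Pol (sysA w) (sysB w) ∅ Finset.univ) ≤ ((MM m n σ ^ C : ℕ) : ℕ∞)) ∧
        ((MM m n σ : ℕ) : ℝ≥0∞) ^ (Nat.log 2 n + 5) * mea Abar bbar σ cK vK Bad ≤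
          ((MM m n σ : ℕ) : ℝ≥0∞) ^ C *
            mea Abar bbar σ cK vK (fea (m := m) (n := n) (K := K))) :
    ∃ C : ℝ, ∃ k : ℕ, ∀ m n : ℕ, ∀ σ : ℝ, 0 < σ →
    ∀ Abar : Fin m → Fin n → ℝ, ∀ bbar : Fin m → ℝ,
      ∑ i, ∑ j, Abar i j ^ 2 ≤ 1 → ∑ i, bbar i ^ 2 ≤ 1 →
      ∫⁻ ω : (Fin m → Fin n → ℝ) × (Fin m → ℝ),
          ENat.toENNReal
            (((SimpleGraph.fromRel (fun u v : Fin n → ℝ =>
                IsExtreme ℝ
                  {x : Fin n → ℝ | ∀ i, ∑ j, (Abar i j + ω.1 i j) * x j ≤ bbar i + ω.2 i}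
                  (segment ℝ u v))).induce
              (Set.extremePoints ℝ
                {x : Fin n → ℝ | ∀ i, ∑ j, (Abar i j + ω.1 i j) * x j ≤ bbar i + ω.2 i})).ediam)
        ∂((Measure.pi fun _ : Fin m => Measure.pi fun _ : Fin n =>
              ProbabilityTheory.gaussianReal 0 (σ ^ 2).toNNReal).prod
            (Measure.pi fun _ : Fin m => ProbabilityTheory.gaussianReal 0 (σ ^ 2).toNNReal))
      ≤ ENNReal.ofReal (C * (1 + (m : ℝ) + (n : ℝ) + 1 / σ) ^ k) *
        ((Measure.pi fun _ : Fin m => Measure.pi fun _ : Fin n =>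
              ProbabilityTheory.gaussianReal 0 (σ ^ 2).toNNReal).prod
            (Measure.pi fun _ : Fin m => ProbabilityTheory.gaussianReal 0 (σ ^ 2).toNNReal))
          {ω : (Fin m → Fin n → ℝ) × (Fin m → ℝ) |
            ∃ x : Fin n → ℝ, ∀ i, ∑ j, (Abar i j + ω.1 i j) * x j ≤ bbar i + ω.2 i} := by
  apply assemble C
  intro m n hn hmn σ hσ Abar bbar hA hb
  obtain ⟨K, hK, cK, vK, Bad, h1, h2⟩ := H m n hn hmn σ hσ Abar bbar hA hb
  obtain ⟨B, -, hB, hBP⟩ := elim_mea Abar bbar σ cK vK Bad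
    (fun ω => ω ∈ feas Abar bbar →
      dm (Pol (fun i j => Abar i j + ω.1 i j) (fun i => bbar i + ω.2 i) ∅ Finset.univ) ≤
        ((MM m n σ ^ C : ℕ) : ℕ∞)) (by
      filter_upwards [h1] with w hw hnot hf
      have e1 : (fun i j => Abar i j + (sysA w i j - Abar i j)) = sysA w := by
        funext i j
        ring
      have e2 : (fun i => bbar i + (sysB w i - bbar i)) = sysB w := by
        funext i
        ring
      have hf' : w ∈ fea (m := m) (n := n) (K := K) := by
        simp only [fea, feas, Set.mem_ofPred_eq] at hf ⊢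
        simpa using hf
      have := hw hf' hnot
      simp only [e1, e2]
      exact this)
  refine ⟨B, ?_, ?_⟩
  · filter_upwards [hBP] with ω hω hf hnot
    exact hω hnot hf
  · refine (mul_le_mul_right hB _).trans (h2.trans (le_of_eq ?_))
    rw [mea_fea]

end Pool.Agent.Lib.S3
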