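import Mathlib

/-!
# Measurability of existential events (countable unions of closed sets)

`FS A`: the set `A` is a countable union of closed sets. The class contains the sets given by
`≤`, `<`, `=` between continuous functions, it is closed under finite intersections, countable
unions and under PROJECTION along a sigma compact factor (`FS.exists`). So every event of the form
`∃ X lam, (finitely many equations, weak and strict inequalities)` is measurable.
-/

set_option autoImplicit false

open MeasureTheory Set

namespace Pool.Agent.Lib.S3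

/-- Countable union of closed sets. -/
def FS {α : Type*} [TopologicalSpace α] (A : Set α) : Prop :=
  ∃ C : ℕ → Set α, (∀ k, IsClosed (C k)) ∧ A = ⋃ k, C k

namespace FS

variable {α β : Type*} [TopologicalSpace α] [TopologicalSpace β]

theorem measurableSet [MeasurableSpace α] [OpensMeasurableSpace α] {A : Set α} (h : FS A) :
    MeasurableSet A := by
  obtain ⟨C, hC, rfl⟩ := h
  exact MeasurableSet.iUnion fun k => (hC k).measurableSet

theorem of_closed {A : Set α} (h : IsClosed A) : FS A :=
  ⟨fun _ => A, fun _ => h, (iUnion_const A).symm⟩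

theorem iUnion {κ : Type*} [Countable κ] {A : κ → Set α} (h : ∀ k, FS (A k)) :
    FS (⋃ k, A k) := by
  choose C hC hA using h
  obtain hκ | hκ := isEmpty_or_nonempty κ
  · rw [iUnion_of_empty]
    exact of_closed isClosed_empty
  obtain ⟨f, hf⟩ := exists_surjective_nat (κ × ℕ)
  refine ⟨fun k => C (f k).1 (f k).2, fun k => hC _ _, ?_⟩
  ext x
  simp only [mem_iUnion]
  constructor
  · rintro ⟨k, hk⟩
    rw [hA k, mem_iUnion] at hk
    obtain ⟨j, hj⟩ := hk
    obtain ⟨l, hl⟩ := hf (k, j)
    exact ⟨l, by rw [hl]; exact hj⟩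
  · rintro ⟨k, hk⟩
    exact ⟨(f k).1, by rw [hA, mem_iUnion]; exact ⟨_, hk⟩⟩

theorem union {A B : Set α} (hA : FS A) (hB : FS B) : FS (A ∪ B) := by
  rw [union_eq_iUnion]
  exact iUnion fun b => by cases b <;> assumption

theorem inter {A B : Set α} (hA : FS A) (hB : FS B) : FS (A ∩ B) := by
  obtain ⟨C, hC, rfl⟩ := hA
  obtain ⟨D, hD, rfl⟩ := hB
  have : (⋃ k, C k) ∩ ⋃ k, D k = ⋃ p : ℕ × ℕ, C p.1 ∩ D p.2 := by
    ext x
    simp only [mem_inter_iff, mem_iUnion, Prod.exists]
    constructor
    · rintro ⟨⟨i, hi⟩, j, hj⟩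
      exact ⟨i, j, hi, hj⟩
    · rintro ⟨i, j, hi, hj⟩
      exact ⟨⟨i, hi⟩, j, hj⟩
  rw [this]
  exact iUnion fun p => of_closed ((hC _).inter (hD _))

theorem univ : FS (Set.univ : Set α) := of_closed isClosed_univ

theorem empty : FS (∅ : Set α) := of_closed isClosed_empty

/-- A constant condition. -/
theorem const (p : Prop) : FS {_x : α | p} := by
  by_cases h : p
  · simp only [h]
    exact univ
  · simp only [h]
    exact empty

theorem and {p q : α → Prop} (hp : FS {x | p x}) (hq : FS {x | q x}) : FS {x | p x ∧ q x} :=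
  inter hp hq

theorem or {p q : α → Prop} (hp : FS {x | p x}) (hq : FS {x | q x}) : FS {x | p x ∨ q x} :=
  union hp hq

/-- A condition under a constant premise. -/
theorem imp {p : Prop} {q : α → Prop} (hq : p → FS {x | q x}) : FS {x | p → q x} := by
  by_cases h : p
  · simpa only [h, forall_true_left] using hq h
  · simp only [h, IsEmpty.forall_iff]
    exact univ

/-- A premise under a constant condition. -/
theorem cand {p : Prop} {q : α → Prop} (hq : p → FS {x | q x}) : FS {x | p ∧ q x} := by
  by_cases h : p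
  · simpa only [h, true_and] using hq h
  · simp only [h, false_and]
    exact empty

/-- Universal quantifier over a finite type. -/
theorem all {κ : Type*} [Finite κ] {p : κ → α → Prop} (h : ∀ k, FS {x | p k x}) :
    FS {x | ∀ k, p k x} := by
  classical
  have := Fintype.ofFinite κ
  have key : ∀ s : Finset κ, FS {x | ∀ k ∈ s, p k x} := by
    intro s
    induction s using Finset.induction_on with
    | empty =>
      simp only [Finset.notMem_empty, false_imp_iff, implies_true]
      exact univ
    | insert a s _ ih =>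
      have : {x | ∀ k ∈ insert a s, p k x} = {x | p a x} ∩ {x | ∀ k ∈ s, p k x} := by
        ext x
        simp only [Finset.mem_insert, forall_eq_or_imp, mem_inter_iff, mem_ofPred_eq]
      rw [this]
      exact inter (h a) ih
  have := key Finset.univ
  simpa only [Finset.mem_univ, forall_true_left] using this

/-- Bounded universal quantifier. -/
theorem ball {κ : Type*} {s : Finset κ} {p : κ → α → Prop} (h : ∀ k ∈ s, FS {x | p k x}) :
    FS {x | ∀ k ∈ s, p k x} := by
  classical
  have : {x | ∀ k ∈ s, p k x} = {x | ∀ k : s, p k x} := by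
    ext x
    simp only [mem_ofPred_eq, Subtype.forall]
  rw [this]
  exact all fun k => h k k.2

/-- Existential quantifier over a countable type. -/
theorem ex {κ : Type*} [Countable κ] {p : κ → α → Prop} (h : ∀ k, FS {x | p k x}) :
    FS {x | ∃ k, p k x} := by
  have : {x | ∃ k, p k x} = ⋃ k, {x | p k x} := by
    ext x
    simp only [mem_ofPred_eq, mem_iUnion]
  rw [this]
  exact iUnion h

/-- Bounded existential quantifier. -/
theorem bex {κ : Type*} {s : Finset κ} {p : κ → α → Prop} (h : ∀ k ∈ s, FS {x | p k x}) :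
    FS {x | ∃ k ∈ s, p k x} := by
  classical
  have : {x | ∃ k ∈ s, p k x} = {x | ∃ k : s, p k x} := by
    ext x
    simp only [mem_ofPred_eq, Subtype.exists, exists_prop]
  rw [this]
  exact ex fun k => h k k.2

theorem le {f g : α → ℝ} (hf : Continuous f) (hg : Continuous g) : FS {x | f x ≤ g x} :=
  of_closed (isClosed_le hf hg)

theorem eq {f g : α → ℝ} (hf : Continuous f) (hg : Continuous g) : FS {x | f x = g x} :=
  of_closed (isClosed_eq hf hg)

/-- Equality of continuous vectors. -/
theorem eqv {γ : Type*} [TopologicalSpace γ] [T2Space γ] {f g : α → γ} (hf : Continuous f)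
    (hg : Continuous g) : FS {x | f x = g x} :=
  of_closed (isClosed_eq hf hg)

theorem lt {f g : α → ℝ} (hf : Continuous f) (hg : Continuous g) : FS {x | f x < g x} := by
  refine ⟨fun k => {x | f x + 1 / ((k : ℝ) + 1) ≤ g x}, fun k =>
    isClosed_le (hf.add continuous_const) hg, ?_⟩
  ext x
  simp only [mem_ofPred_eq, mem_iUnion]
  constructor
  · intro h
    obtain ⟨k, hk⟩ := exists_nat_one_div_lt (sub_pos.2 h)
    exact ⟨k, by linarith⟩
  · rintro ⟨k, hk⟩
    have : (0 : ℝ) < 1 / ((k : ℝ) + 1) := by positivity
    linarith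

theorem ne {f g : α → ℝ} (hf : Continuous f) (hg : Continuous g) : FS {x | f x ≠ g x} := by
  have : {x | f x ≠ g x} = {x | f x < g x} ∪ {x | g x < f x} := by
    ext x
    simp only [mem_ofPred_eq, mem_union]
    constructor
    · exact fun h => lt_or_gt_of_ne h
    · rintro (h | h)
      · exact h.ne
      · exact h.ne'
  rw [this]
  exact union (lt hf hg) (lt hg hf)

/-- Preimages under continuous maps. -/
theorem preimage {A : Set β} (h : FS A) {f : α → β} (hf : Continuous f) : FS (f ⁻¹' A) := by
  obtain ⟨C, hC, rfl⟩ := h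
  rw [preimage_iUnion]
  exact ⟨_, fun k => (hC k).preimage hf, rfl⟩

/-- The projection along a sigma compact factor. -/
theorem exists_fst [SigmaCompactSpace β] {A : Set (α × β)} (h : FS A) :
    FS {x : α | ∃ y, (x, y) ∈ A} := by
  obtain ⟨C, hC, rfl⟩ := h
  have h1 : {x : α | ∃ y, (x, y) ∈ ⋃ k, C k} =
      ⋃ p : ℕ × ℕ, {x : α | ∃ y ∈ compactCovering β p.1, (x, y) ∈ C p.2} := by
    ext x
    simp only [mem_ofPred_eq, mem_iUnion, Prod.exists]
    constructor
    · rintro ⟨y, k, hk⟩
      obtain ⟨N, hN⟩ := exists_mem_compactCovering y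
      exact ⟨N, k, y, hN, hk⟩
    · rintro ⟨N, k, y, _, hk⟩
      exact ⟨y, k, hk⟩
  rw [h1]
  refine iUnion fun p => of_closed ?_
  have hK : IsCompact (compactCovering β p.1) := isCompact_compactCovering β p.1
  have : CompactSpace (compactCovering β p.1) := isCompact_iff_compactSpace.mp hK
  have h2 : IsClosed {q : α × (compactCovering β p.1) | (q.1, (q.2 : β)) ∈ C p.2} :=
    (hC p.2).preimage (by fun_prop)
  have h3 : {x : α | ∃ y ∈ compactCovering β p.1, (x, y) ∈ C p.2} =
      Prod.fst '' {q : α × (compactCovering β p.1) | (q.1, (q.2 : β)) ∈ C p.2} := by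
    ext x
    constructor
    · rintro ⟨y, hy, h⟩
      exact ⟨(x, ⟨y, hy⟩), h, rfl⟩
    · rintro ⟨⟨x', y⟩, h, rfl⟩
      exact ⟨y, y.2, h⟩
  rw [h3]
  exact isClosedMap_fst_of_compactSpace _ h2

/-- Existential quantifier over a sigma compact space (for instance `Fin n → ℝ`, `ι → ℝ`, `ℝ`). -/
theorem exi [SigmaCompactSpace β] {p : α → β → Prop} (h : FS {q : α × β | p q.1 q.2}) :
    FS {x | ∃ y, p x y} :=
  exists_fst h

end FS

end Pool.Agent.Lib.S3
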