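import Pool.Agent.Lib.S3.Assemble

/-!
# ScaleOne: it is enough to treat `σ ≤ 1` (MP_4a5c02_co)

`assemble_le_one`: the statement `assemble` with the hypothesis only for `0 < σ ≤ 1`. For `σ > 1` the
system is divided by `σ`.
-/

set_option autoImplicit false

open MeasureTheory Set
open scoped ENNReal

namespace Pool.Agent.Lib.S3

open Pool.Agent.Lib.SHirsch

/-- Division of the noise by `σ`. -/
noncomputable def dvd (m n : ℕ) (σ : ℝ) (ω : (Fin m → Fin n → ℝ) × (Fin m → ℝ)) :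
    (Fin m → Fin n → ℝ) × (Fin m → ℝ) :=
  (fun i j => σ⁻¹ * ω.1 i j, fun i => σ⁻¹ * ω.2 i)

theorem dvd_preserving (m n : ℕ) {σ : ℝ} (hσ : 0 < σ) :
    MeasurePreserving (dvd m n σ) (noise m n σ) (noise m n 1) := by
  have h1 : MeasurePreserving (fun x : ℝ => σ⁻¹ * x)
      (ProbabilityTheory.gaussianReal 0 (σ ^ 2).toNNReal)
      (ProbabilityTheory.gaussianReal 0 ((1 : ℝ) ^ 2).toNNReal) := by
    refine ⟨by fun_prop, ?_⟩
    rw [ProbabilityTheory.gaussianReal_map_const_mul, mul_zero]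
    congr 1
    rw [← NNReal.coe_inj]
    push_cast
    rw [Real.coe_toNNReal _ (by positivity), Real.coe_toNNReal _ (by positivity)]
    field_simp
  unfold noise
  refine MeasurePreserving.prod
    (f := fun ω : Fin m → Fin n → ℝ => fun i j => σ⁻¹ * ω i j)
    (g := fun ω : Fin m → ℝ => fun i => σ⁻¹ * ω i) ?_ ?_
  · exact measurePreserving_pi _ _ (f := fun _ (v : Fin n → ℝ) j => σ⁻¹ * v j)
      fun _ => measurePreserving_pi _ _ fun _ => h1
  · exact measurePreserving_pi _ _ fun _ => h1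

theorem dvd_emb (m n : ℕ) {σ : ℝ} (hσ : 0 < σ) : MeasurableEmbedding (dvd m n σ) := by
  have hm : ∀ c : ℝ, Measurable (fun ω : (Fin m → Fin n → ℝ) × (Fin m → ℝ) =>
      ((fun i j => c * ω.1 i j, fun i => c * ω.2 i) : (Fin m → Fin n → ℝ) × (Fin m → ℝ))) := by
    intro c
    refine Measurable.prodMk ?_ ?_
    · refine measurable_pi_lambda _ fun i => measurable_pi_lambda _ fun j => ?_
      fun_prop
    · refine measurable_pi_lambda _ fun i => ?_
      fun_prop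
  let E : ((Fin m → Fin n → ℝ) × (Fin m → ℝ)) ≃ᵐ ((Fin m → Fin n → ℝ) × (Fin m → ℝ)) :=
    { toFun := dvd m n σ
      invFun := fun ω => (fun i j => σ * ω.1 i j, fun i => σ * ω.2 i)
      left_inv := by
        intro ω
        unfold dvd
        refine Prod.ext ?_ ?_
        · funext i j
          change σ * (σ⁻¹ * ω.1 i j) = ω.1 i j
          field_simp
        · funext i
          change σ * (σ⁻¹ * ω.2 i) = ω.2 i
          field_simp
      right_inv := by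
        intro ω
        unfold dvd
        refine Prod.ext ?_ ?_
        · funext i j
          change σ⁻¹ * (σ * ω.1 i j) = ω.1 i j
          field_simp
        · funext i
          change σ⁻¹ * (σ * ω.2 i) = ω.2 i
          field_simp
      measurable_toFun := hm _
      measurable_invFun := hm _ }
  exact E.measurableEmbedding

theorem mm_one (m n : ℕ) {σ : ℝ} (hσ : 1 < σ) : MM m n σ = MM m n 1 := by
  unfold MM
  have h1 : ⌈1 / σ⌉₊ = 1 := by
    rw [Nat.ceil_eq_iff (by norm_num)]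
    constructor
    · have : (0 : ℝ) < 1 / σ := by positivity
      simpa using this
    · have : 1 / σ ≤ 1 := by
        rw [div_le_one (by positivity)]
        exact hσ.le
      simpa using this
  have h2 : ⌈(1 : ℝ) / 1⌉₊ = 1 := by norm_num
  rw [h1, h2]

theorem scale_ineq {m n : ℕ} {σ : ℝ} (hσ : 0 < σ) (Abar : Fin m → Fin n → ℝ)
    (bbar : Fin m → ℝ) (ω : (Fin m → Fin n → ℝ) × (Fin m → ℝ)) (x : Fin n → ℝ) (i : Fin m) :
    (fun j => σ⁻¹ * Abar i j + (dvd m n σ ω).1 i j) ⬝ᵥ x ≤ σ⁻¹ * bbar i + (dvd m n σ ω).2 i ↔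
      (fun j => Abar i j + ω.1 i j) ⬝ᵥ x ≤ bbar i + ω.2 i := by
  have e1 : (fun j => σ⁻¹ * Abar i j + (dvd m n σ ω).1 i j) ⬝ᵥ x =
      σ⁻¹ * ((fun j => Abar i j + ω.1 i j) ⬝ᵥ x) := by
    unfold dvd dotProduct
    rw [Finset.mul_sum]
    exact Finset.sum_congr rfl fun j _ => by ring
  have e2 : σ⁻¹ * bbar i + (dvd m n σ ω).2 i = σ⁻¹ * (bbar i + ω.2 i) := by
    unfold dvd; ring
  rw [e1, e2]
  exact mul_le_mul_iff_right₀ (by positivity)

/-- The reduction to `σ ≤ 1`. -/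
theorem assemble_le_one (C : ℕ)
    (H : ∀ m n : ℕ, 1 ≤ n → n ≤ m → ∀ σ : ℝ, 0 < σ → σ ≤ 1 →
      ∀ (Abar : Fin m → Fin n → ℝ) (bbar : Fin m → ℝ),
      ∑ i, ∑ j, Abar i j ^ 2 ≤ 1 → ∑ i, bbar i ^ 2 ≤ 1 →
      ∃ B : Set ((Fin m → Fin n → ℝ) × (Fin m → ℝ)),
        (∀ᵐ ω ∂(noise m n σ), ω ∈ feas Abar bbar → ω ∉ B →
          dm (Pol (fun i j => Abar i j + ω.1 i j) (fun i => bbar i + ω.2 i) ∅ Finset.univ) ≤
            ((MM m n σ ^ C : ℕ) : ℕ∞)) ∧
        ((MM m n σ : ℕ) : ℝ≥0∞) ^ (Nat.log 2 n + 5) * noise m n σ B ≤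
          ((MM m n σ : ℕ) : ℝ≥0∞) ^ C * noise m n σ (feas Abar bbar)) :
    ∃ C : ℝ, ∃ k : ℕ, ∀ m n : ℕ, ∀ σ : ℝ, 0 < σ →
    ∀ Abar : Fin m → Fin n → ℝ, ∀ bbar : Fin m → ℝ,
      ∑ i, ∑ j, Abar i j ^ 2 ≤ 1 → ∑ i, bbar i ^ 2 ≤ 1 →
      ∫⁻ ω : (Fin m → Fin n → ℝ) × (Fin m → ℝ),
          ENat.toENNReal
            (((SimpleGraph.fromRel (fun u v : Fin n → ℝ =>
                IsExtreme ℝ
                  {x : Fin n → ℝ | ∀ i, ∑ j, (Abar i j + ω.1 i j) * x j ≤ bbar i + ω.2 i}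
                  (segment ℝ u v))).induce
              (Set.extremePoints ℝ
                {x : Fin n → ℝ | ∀ i, ∑ j, (Abar i j + ω.1 i j) * x j ≤ bbar i + ω.2 i})).ediam)
        ∂((Measure.pi fun _ : Fin m => Measure.pi fun _ : Fin n =>
              ProbabilityTheory.gaussianReal 0 (σ ^ 2).toNNReal).prod
            (Measure.pi fun _ : Fin m => ProbabilityTheory.gaussianReal 0 (σ ^ 2).toNNReal))
      ≤ ENNReal.ofReal (C * (1 + (m : ℝ) + (n : ℝ) + 1 / σ) ^ k) *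
        ((Measure.pi fun _ : Fin m => Measure.pi fun _ : Fin n =>
              ProbabilityTheory.gaussianReal 0 (σ ^ 2).toNNReal).prod
            (Measure.pi fun _ : Fin m => ProbabilityTheory.gaussianReal 0 (σ ^ 2).toNNReal))
          {ω : (Fin m → Fin n → ℝ) × (Fin m → ℝ) |
            ∃ x : Fin n → ℝ, ∀ i, ∑ j, (Abar i j + ω.1 i j) * x j ≤ bbar i + ω.2 i} := by
  refine assemble C ?_
  intro m n hn hmn σ hσ Abar bbar hA hb
  rcases le_or_gt σ 1 with h1 | h1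
  · exact H m n hn hmn σ hσ h1 Abar bbar hA hb
  have hinv : σ⁻¹ ^ 2 ≤ 1 := by
    have : σ⁻¹ ≤ 1 := inv_le_one_of_one_le₀ h1.le
    have h0 : 0 ≤ σ⁻¹ := by positivity
    nlinarith
  have hA' : ∑ i, ∑ j, (σ⁻¹ * Abar i j) ^ 2 ≤ 1 := by
    have : ∑ i, ∑ j, (σ⁻¹ * Abar i j) ^ 2 = σ⁻¹ ^ 2 * ∑ i, ∑ j, Abar i j ^ 2 := by
      simp_rw [mul_pow, Finset.mul_sum]
    rw [this]
    have h2 : 0 ≤ ∑ i, ∑ j, Abar i j ^ 2 :=
      Finset.sum_nonneg fun _ _ => Finset.sum_nonneg fun _ _ => sq_nonneg _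
    nlinarith
  have hb' : ∑ i, (σ⁻¹ * bbar i) ^ 2 ≤ 1 := by
    have : ∑ i, (σ⁻¹ * bbar i) ^ 2 = σ⁻¹ ^ 2 * ∑ i, bbar i ^ 2 := by
      simp_rw [mul_pow, Finset.mul_sum]
    rw [this]
    have h2 : 0 ≤ ∑ i, bbar i ^ 2 := Finset.sum_nonneg fun _ _ => sq_nonneg _
    nlinarith
  obtain ⟨B, hB1, hB2⟩ := H m n hn hmn 1 one_pos le_rfl (fun i j => σ⁻¹ * Abar i j)
    (fun i => σ⁻¹ * bbar i) hA' hb'
  have hmp := dvd_preserving m n hσ
  refine ⟨dvd m n σ ⁻¹' B, ?_, ?_⟩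
  · filter_upwards [hmp.quasiMeasurePreserving.ae hB1] with ω hω hf hnB
    have hf' : dvd m n σ ω ∈ feas (fun i j => σ⁻¹ * Abar i j) (fun i => σ⁻¹ * bbar i) := by
      obtain ⟨x, hx⟩ := hf
      exact ⟨x, fun i => (scale_ineq hσ Abar bbar ω x i).2 (hx i)⟩
    have h2 := hω hf' hnB
    rw [mm_one m n h1]
    have h3 : Pol (fun i j => σ⁻¹ * Abar i j + (dvd m n σ ω).1 i j)
        (fun i => σ⁻¹ * bbar i + (dvd m n σ ω).2 i) ∅ Finset.univ =
        Pol (fun i j => Abar i j + ω.1 i j) (fun i => bbar i + ω.2 i) ∅ Finset.univ := by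
      ext x
      unfold Pol
      constructor
      · rintro ⟨_, hx⟩
        exact ⟨fun i hi => absurd hi (Finset.notMem_empty i),
          fun i hi => (scale_ineq hσ Abar bbar ω x i).1 (hx i hi)⟩
      · rintro ⟨_, hx⟩
        exact ⟨fun i hi => absurd hi (Finset.notMem_empty i),
          fun i hi => (scale_ineq hσ Abar bbar ω x i).2 (hx i hi)⟩
    rw [← h3]
    exact h2
  · rw [mm_one m n h1, hmp.measure_preimage_emb (dvd_emb m n hσ)]
    have h4 : feas Abar bbar = dvd m n σ ⁻¹'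
        feas (fun i j => σ⁻¹ * Abar i j) (fun i => σ⁻¹ * bbar i) := by
      ext ω
      constructor
      · rintro ⟨x, hx⟩
        exact ⟨x, fun i => (scale_ineq hσ Abar bbar ω x i).2 (hx i)⟩
      · rintro ⟨x, hx⟩
        exact ⟨x, fun i => (scale_ineq hσ Abar bbar ω x i).1 (hx i)⟩
    rw [h4, hmp.measure_preimage_emb (dvd_emb m n hσ)]
    exact hB2

end Pool.Agent.Lib.S3
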