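import Pool.Agent.Lib.S3.Machine

/-!
# Numerics of the recursive union bound (smoothed Hirsch, MP_4a5c02_co)

`fac_le`: if `A ≤ M ^ (-P)`, `B ≤ M ^ Q` and `s + r + (j + w) + Q w ≤ P (j - w)`, then
`M ^ s * fac A B j w ≤ M ^ (-r)` (written without inverses). Counting of the lists of rows.
-/

set_option autoImplicit false

open MeasureTheory Set
open scoped ENNReal

namespace Pool.Agent.Lib.S3.Mach

/-- The factor of the union bound is a small power of `M`. -/
theorem fac_le (M : ℝ≥0∞) (hM : 2 ≤ M) (A B : ℝ≥0∞) (P Q s r j w : ℕ)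
    (hA : A * M ^ P ≤ 1) (hB : B ≤ M ^ Q) (h : s + r + (j + w) + Q * w ≤ P * (j - w)) :
    M ^ s * fac A B j w * M ^ r ≤ 1 := by
  unfold fac
  have hM1 : 1 ≤ M := le_trans (by norm_num) hM
  calc M ^ s * (2 ^ (j + w) * B ^ w * A ^ (j - w)) * M ^ r
      ≤ M ^ s * (M ^ (j + w) * (M ^ Q) ^ w * A ^ (j - w)) * M ^ r := by
        refine mul_le_mul' (mul_le_mul' le_rfl (mul_le_mul' (mul_le_mul' ?_ ?_) le_rfl)) le_rfl
        · exact pow_le_pow_left' hM _
        · exact pow_le_pow_left' hB _
    _ = M ^ (s + r + (j + w) + Q * w) * A ^ (j - w) := by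
        rw [← pow_mul]
        ring
    _ ≤ M ^ (P * (j - w)) * A ^ (j - w) := mul_le_mul' (pow_le_pow_right₀ hM1 h) le_rfl
    _ = (A * M ^ P) ^ (j - w) := by rw [pow_mul, ← mul_pow, mul_comm]
    _ ≤ 1 := pow_le_one' hA _

/-- Lists of length `c` over a finite type, as a finset. -/
def listsLen (ι : Type*) [Fintype ι] [DecidableEq ι] (c : ℕ) : Finset (List ι) :=
  (Finset.univ : Finset (Fin c → ι)).image List.ofFn

theorem mem_listsLen {ι : Type*} [Fintype ι] [DecidableEq ι] {c : ℕ} {W : List ι} :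
    W ∈ listsLen ι c ↔ W.length = c := by
  unfold listsLen
  rw [Finset.mem_image]
  constructor
  · rintro ⟨f, -, rfl⟩
    exact List.length_ofFn
  · rintro rfl
    exact ⟨fun i => W.get i, Finset.mem_univ _, List.ofFn_get W⟩

theorem card_listsLen_le (ι : Type*) [Fintype ι] [DecidableEq ι] (c : ℕ) :
    (listsLen ι c).card ≤ Fintype.card ι ^ c := by
  unfold listsLen
  refine Finset.card_image_le.trans ?_
  rw [Finset.card_univ, Fintype.card_fun, Fintype.card_fin]

/-- Lists of length at most `c`. -/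
def listsLe (ι : Type*) [Fintype ι] [DecidableEq ι] (c : ℕ) : Finset (List ι) :=
  (Finset.range (c + 1)).biUnion (listsLen ι)

theorem mem_listsLe {ι : Type*} [Fintype ι] [DecidableEq ι] {c : ℕ} {W : List ι} :
    W ∈ listsLe ι c ↔ W.length ≤ c := by
  unfold listsLe
  rw [Finset.mem_biUnion]
  constructor
  · rintro ⟨a, ha, hW⟩
    rw [mem_listsLen] at hW
    rw [Finset.mem_range] at ha
    omega
  · intro h
    exact ⟨W.length, Finset.mem_range.2 (by omega), mem_listsLen.2 rfl⟩

/-- The number of the subsets of size `q` of a finite type is at most `card ^ q`. -/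
theorem card_powersetCard_le (ι : Type*) [Fintype ι] [DecidableEq ι] (q : ℕ) :
    ((Finset.univ : Finset ι).powersetCard q).card ≤ Fintype.card ι ^ q := by
  rw [Finset.card_powersetCard, Finset.card_univ]
  exact Nat.choose_le_pow _ _

/-- A product of sizes. -/
theorem cast_prod_le (M : ℕ) {a b : ℕ} {x y : ℕ} (hx : a ≤ M ^ x) (hy : b ≤ M ^ y) :
    a * b ≤ M ^ (x + y) := by
  rw [pow_add]
  exact Nat.mul_le_mul hx hy

end Pool.Agent.Lib.S3.Mach
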