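import Pool.Agent.Lib.S3.PointsN

/-! The structure at a vertex of the chart with all bounds as powers of one number `M`. -/

set_option autoImplicit false

namespace Pool.Agent.Lib.S3

theorem factorial_le_pow (n : ℕ) (M : ℝ) (hn : (n : ℝ) ≤ M) :
    (n.factorial : ℝ) ≤ M ^ n := by
  have h1 : (n.factorial : ℝ) ≤ (n : ℝ) ^ n := by exact_mod_cast Nat.factorial_le_pow n
  exact le_trans h1 (pow_le_pow_left₀ (by positivity) hn n)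

/-- Protected columns and deep points at a vertex `u` of the chart, in powers of `M`.

`c`: size of the rows, `C0`: determinant, `c10`: weakness level, `cη`: near tight level, `cγ`: depth
of the fat point, `w`: number of weak rows. -/
theorem points_pow {κ : Type} [Fintype κ] [DecidableEq κ] {n : ℕ}
    (ρ : κ → Fin (n + 1) → ℝ) (N : Fin (n + 1) → ℝ) (J : Fin n → κ) (u X : Fin (n + 1) → ℝ)
    (D : Finset κ) (M : ℝ) (c C0 c10 cη cγ w : ℕ) (hM : 2 ≤ M) (hnM : (n : ℝ) + 1 ≤ M)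
    (hw : (c + 1) * (n + 1) + C0 * n < c10 * (w + 1))
    (hρ : ∀ r j, |ρ r j| ≤ M ^ c) (hN : ∀ j, |N j| ≤ M ^ c)
    (hdet : (M ^ (C0 * n))⁻¹ ≤
      |(Matrix.of (Fin.cons N (fun k => ρ (J k)) : Fin (n + 1) → Fin (n + 1) → ℝ)).det|)
    (hNu : N ⬝ᵥ u = 1) (hu : ∀ k, ρ (J k) ⬝ᵥ u = 0) (hfu : ∀ r, 0 ≤ ρ r ⬝ᵥ u)
    (hD : ∀ r, r ∉ D → (∀ k, J k ≠ r) → (M ^ cη)⁻¹ ≤ ρ r ⬝ᵥ u)
    (hNX : N ⬝ᵥ X = 1) (hX : ∀ r, (M ^ cγ)⁻¹ ≤ ρ r ⬝ᵥ X) (hXB : ∑ k, ρ (J k) ⬝ᵥ X ≤ 1) :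
    ∃ Y : Finset κ, (∀ y ∈ Y, ∃ k, J k = y) ∧ Y.card ≤ 2 * (D.card + w + 1) ∧
      ∀ A : Finset κ, Y ⊆ A → ∃ p : Fin (n + 1) → ℝ, N ⬝ᵥ p = 1 ∧ (∀ r, 0 ≤ ρ r ⬝ᵥ p) ∧
        (∀ k, J k ∉ A → ρ (J k) ⬝ᵥ p = 0) ∧
        (∀ k, J k ∈ A → (M ^ (c10 + cη + cγ + 5))⁻¹ ≤ ρ (J k) ⬝ᵥ p) ∧
        (∀ r, (∀ k, J k ≠ r) → (M ^ (c10 + cη + cγ + 5))⁻¹ ≤ ρ r ⬝ᵥ p) ∧
        ∑ k, ρ (J k) ⬝ᵥ p ≤ 1 := by
  classical
  have hM0 : 0 < M := by linarith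
  have hM1 : 1 ≤ M := by linarith
  obtain ⟨θ, hθ⟩ : ∃ θ : ℝ, θ = (M ^ (cη + c10 + 2))⁻¹ := ⟨_, rfl⟩
  have hθ0 : 0 < θ := by rw [hθ]; positivity
  have hM2 : (4 : ℝ) ≤ M ^ 2 := by nlinarith
  have h4 : 4 * θ ≤ (M ^ cη)⁻¹ * (M ^ c10)⁻¹ := by
    rw [hθ, pow_add, pow_add, mul_inv, mul_inv]
    have h1 : 4 * (M ^ 2)⁻¹ ≤ 1 := by
      rw [mul_inv_le_iff₀ (by positivity)]
      linarith
    have h2 : 0 ≤ (M ^ cη)⁻¹ * (M ^ c10)⁻¹ := by positivity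
    nlinarith
  have hθ1 : θ ≤ 1 / 2 := by
    have h1 : (M ^ cη)⁻¹ * (M ^ c10)⁻¹ ≤ 1 := by
      rw [← mul_inv]
      apply inv_le_one_of_one_le₀
      exact one_le_mul_of_one_le_of_one_le (one_le_pow₀ hM1) (one_le_pow₀ hM1)
    linarith
  have hdet' : ((n + 1).factorial : ℝ) * (M ^ c) ^ (n + 1) * ((M ^ c10)⁻¹) ^ (w + 1) <
      |(Matrix.of (Fin.cons N (fun k => ρ (J k)) : Fin (n + 1) → Fin (n + 1) → ℝ)).det| := by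
    refine lt_of_lt_of_le ?_ hdet
    have h1 : ((n + 1).factorial : ℝ) ≤ M ^ (n + 1) := by
      apply factorial_le_pow (n + 1) M
      push_cast
      exact hnM
    have h2 : ((n + 1).factorial : ℝ) * (M ^ c) ^ (n + 1) ≤ M ^ ((c + 1) * (n + 1)) := by
      have h3 : M ^ ((c + 1) * (n + 1)) = M ^ (n + 1) * (M ^ c) ^ (n + 1) := by
        rw [← pow_mul, ← pow_add]
        congr 1
        ring
      rw [h3]
      exact mul_le_mul_of_nonneg_right h1 (by positivity)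
    have h5 : ((M ^ c10)⁻¹) ^ (w + 1) = (M ^ (c10 * (w + 1)))⁻¹ := by
      rw [inv_pow, ← pow_mul]
    rw [h5]
    have h6 : ((n + 1).factorial : ℝ) * (M ^ c) ^ (n + 1) * (M ^ (c10 * (w + 1)))⁻¹ ≤
        M ^ ((c + 1) * (n + 1)) * (M ^ (c10 * (w + 1)))⁻¹ :=
      mul_le_mul_of_nonneg_right h2 (by positivity)
    refine lt_of_le_of_lt h6 ?_
    rw [← div_eq_mul_inv, div_lt_iff₀ (by positivity), ← div_eq_inv_mul, lt_div_iff₀ (by positivity),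
      ← pow_add]
    exact pow_lt_pow_right₀ (by linarith) hw
  obtain ⟨Y, hY1, hY2, hY3⟩ := points_N ρ N J u X D (M ^ c) (M ^ c10)⁻¹ (M ^ cγ)⁻¹ (M ^ cη)⁻¹ θ w
    (by positivity) hρ hN (by positivity) (inv_le_one_of_one_le₀ (one_le_pow₀ hM1)) hdet'
    hNu hu hfu hD hNX (by positivity) hX hXB hθ0 hθ1 h4
  refine ⟨Y, hY1, hY2, ?_⟩
  intro A hA
  obtain ⟨p, hp1, hp2, hp3, hp4, hp5⟩ := hY3 A hA
  have hb1 : (M ^ (c10 + cη + cγ + 5))⁻¹ ≤ θ * (M ^ cγ)⁻¹ / (4 * ((n : ℝ) + 1)) := by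
    rw [hθ, le_div_iff₀ (by positivity)]
    have h1 : M ^ (c10 + cη + cγ + 5) = M ^ (cη + c10 + 2) * M ^ cγ * M ^ 3 := by
      rw [← pow_add, ← pow_add]
      congr 1
      ring
    rw [h1, mul_inv, mul_inv]
    have h2 : (M ^ 3)⁻¹ * (4 * ((n : ℝ) + 1)) ≤ 1 := by
      rw [inv_mul_le_iff₀ (by positivity), mul_one]
      calc 4 * ((n : ℝ) + 1) ≤ M ^ 2 * M :=
            mul_le_mul hM2 hnM (by positivity) (by positivity)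
        _ = M ^ 3 := by ring
    have h3 : 0 ≤ (M ^ (cη + c10 + 2))⁻¹ * (M ^ cγ)⁻¹ := by positivity
    calc (M ^ (cη + c10 + 2))⁻¹ * (M ^ cγ)⁻¹ * (M ^ 3)⁻¹ * (4 * ((n : ℝ) + 1))
        = (M ^ (cη + c10 + 2))⁻¹ * (M ^ cγ)⁻¹ * ((M ^ 3)⁻¹ * (4 * ((n : ℝ) + 1))) := by ring
      _ ≤ (M ^ (cη + c10 + 2))⁻¹ * (M ^ cγ)⁻¹ * 1 := mul_le_mul_of_nonneg_left h2 h3
      _ = _ := mul_one _
  have hb2 : (M ^ (c10 + cη + cγ + 5))⁻¹ ≤ θ * (M ^ cγ)⁻¹ := by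
    rw [hθ, ← mul_inv, ← pow_add]
    apply inv_anti₀ (by positivity)
    apply pow_le_pow_right₀ hM1
    omega
  have hp4' : ∀ r, (∀ k, J k ≠ r) → (M ^ (c10 + cη + cγ + 5))⁻¹ ≤ ρ r ⬝ᵥ p :=
    fun r hr => le_trans hb2 (hp4 r hr)
  have hp3' : ∀ k, J k ∈ A → (M ^ (c10 + cη + cγ + 5))⁻¹ ≤ ρ (J k) ⬝ᵥ p :=
    fun k hk => le_trans hb1 (hp3 k hk)
  have hpos : (0 : ℝ) ≤ (M ^ (c10 + cη + cγ + 5))⁻¹ := by positivity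
  refine ⟨p, hp1, ?_, hp2, hp3', hp4', hp5⟩
  intro r
  by_cases hr : ∃ k, J k = r
  · obtain ⟨k, hk⟩ := hr
    by_cases hkA : J k ∈ A
    · rw [← hk]
      exact le_trans hpos (hp3' k hkA)
    · rw [← hk, hp2 k hkA]
  · push Not at hr
    exact le_trans hpos (hp4' r hr)

end Pool.Agent.Lib.S3
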