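import Pool.Agent.Lib.S3.WallN
import Pool.Agent.Lib.S3.PointsPow

/-! The wall budget in powers of `M`, and the list form of the wall count. -/

set_option autoImplicit false

namespace Pool.Agent.Lib.S3

variable {κ : Type} {n : ℕ}

/-- A chain of walls on top of the boosted list `B`: each element is not representable by the rows
`I`, `B` and the elements below it. -/
def WChN [DecidableEq κ] (ρ : κ → Fin (n + 1) → ℝ) (N : Fin (n + 1) → ℝ) (c : ℝ)
    (I R : Finset κ) (B : List κ) : List κ → Prop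
  | [] => True
  | r :: W => ¬ RepN ρ N c (I ∪ (W ++ B).toFinset) R (ρ r) ∧ WChN ρ N c I R B W

/-- A chain of walls multiplies the potential. -/
theorem MD_wch [DecidableEq κ] (ρ : κ → Fin (n + 1) → ℝ) (N : Fin (n + 1) → ℝ) (c : ℝ)
    (hc : 0 ≤ c) (I R : Finset κ) (B : List κ) (W : List κ) (h : WChN ρ N c I R B W) :
    c ^ W.length * MD ρ N (I ∪ B.toFinset) ≤ MD ρ N (I ∪ (W ++ B).toFinset) := by
  induction W with
  | nil => simp
  | cons r W ih =>
    obtain ⟨h1, h2⟩ := h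
    have h3 := MD_wall ρ N c hc (I ∪ (W ++ B).toFinset) R (I ∪ ((r :: W) ++ B).toFinset) r
      (by
        intro x hx
        rcases Finset.mem_union.1 hx with hx | hx
        · exact Finset.mem_union_left _ hx
        · apply Finset.mem_union_right
          rw [List.mem_toFinset] at hx ⊢
          exact List.mem_cons_of_mem _ hx)
      (by
        apply Finset.mem_union_right
        rw [List.mem_toFinset]
        exact List.mem_cons_self)
      h1
    calc c ^ (r :: W).length * MD ρ N (I ∪ B.toFinset)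
        = c * (c ^ W.length * MD ρ N (I ∪ B.toFinset)) := by
          rw [List.length_cons, pow_succ]; ring
      _ ≤ c * MD ρ N (I ∪ (W ++ B).toFinset) := mul_le_mul_of_nonneg_left (ih h2) hc
      _ ≤ _ := h3

/-- The wall budget: if the potential has grown by `(M ^ cw) ^ k` then `k` is bounded. -/
theorem wall_budget (ρ : κ → Fin (n + 1) → ℝ) (N : Fin (n + 1) → ℝ) (S0 S : Finset κ) (M : ℝ)
    (c C0 cw k : ℕ) (hM : 2 ≤ M) (hnM : (n : ℝ) + 1 ≤ M)
    (hρ : ∀ r ∈ S, ∀ j, |ρ r j| ≤ M ^ c) (hN : ∀ j, |N j| ≤ M ^ c) (J : Fin n → κ)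
    (hJ : ∀ i, J i ∈ S0)
    (hdet : (M ^ (C0 * n))⁻¹ ≤
      |(Matrix.of (Fin.cons N (fun k => ρ (J k)) : Fin (n + 1) → Fin (n + 1) → ℝ)).det|)
    (hk : (M ^ cw) ^ k * MD ρ N S0 ≤ MD ρ N S) :
    cw * k ≤ (c + 1) * (n + 1) + C0 * n := by
  have hM0 : 0 < M := by linarith
  have hM1 : 1 ≤ M := by linarith
  have h1 := le_MD ρ N S0 J hJ
  have h2 := MD_le ρ N S (M ^ c) (by positivity) hρ hN
  have h3 : ((n + 1).factorial : ℝ) ≤ M ^ (n + 1) := by
    apply factorial_le_pow (n + 1) M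
    push_cast
    exact hnM
  have h4 : (M ^ cw) ^ k * (M ^ (C0 * n))⁻¹ ≤ M ^ (n + 1) * (M ^ c) ^ (n + 1) := by
    calc (M ^ cw) ^ k * (M ^ (C0 * n))⁻¹ ≤ (M ^ cw) ^ k * MD ρ N S0 :=
          mul_le_mul_of_nonneg_left (le_trans hdet h1) (by positivity)
      _ ≤ MD ρ N S := hk
      _ ≤ ((n + 1).factorial : ℝ) * (M ^ c) ^ (n + 1) := h2
      _ ≤ M ^ (n + 1) * (M ^ c) ^ (n + 1) := mul_le_mul_of_nonneg_right h3 (by positivity)
  rw [← div_eq_mul_inv, div_le_iff₀ (by positivity), ← pow_mul, ← pow_mul, ← pow_add, ← pow_add]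
    at h4
  have h5 := (pow_le_pow_iff_right₀ (by linarith : (1 : ℝ) < M)).1 h4
  have h6 : n + 1 + c * (n + 1) + C0 * n = (c + 1) * (n + 1) + C0 * n := by ring
  omega

end Pool.Agent.Lib.S3
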