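import Mathlib

/-!
# Machines: a recursive union bound (smoothed Hirsch, MP_4a5c02_co)

A machine has finitely many labelled moves at every state and an event for every move. Moves of
weight `0` are *paid* (their event can be integrated out), the total weight of the other moves is
bounded. `BadU M j w S` is the set of `ω` for which `j` moves of total weight at most `w` can be
made from the state `S`, all of their events being true. `bad_bound` is the union bound.
-/

set_option autoImplicit false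

open MeasureTheory Set
open scoped ENNReal

namespace Pool.Agent.Lib.S3.Mach

/-- A machine: labels available at a state, the next state, the event and the weight of a move. -/
structure Machine (Ω St Lab : Type*) where
  labs : St → Finset Lab
  step : St → Lab → St
  ev : St → Lab → Set Ω
  wt : Lab → ℕ

variable {Ω St Lab : Type*}

/-- `j` moves of total weight at most `w` can be made from `S`, with all their events true. -/
def BadU (M : Machine Ω St Lab) : ℕ → ℕ → St → Set Ω
  | 0, _, _ => univ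
  | j + 1, w, S => {ω | ∃ l ∈ M.labs S, M.wt l ≤ w ∧ ω ∈ M.ev S l ∧
      ω ∈ BadU M j (w - M.wt l) (M.step S l)}

theorem BadU_zero (M : Machine Ω St Lab) (w : ℕ) (S : St) : BadU M 0 w S = univ := rfl

theorem mem_BadU_succ (M : Machine Ω St Lab) (j w : ℕ) (S : St) (ω : Ω) :
    ω ∈ BadU M (j + 1) w S ↔ ∃ l ∈ M.labs S, M.wt l ≤ w ∧ ω ∈ M.ev S l ∧
      ω ∈ BadU M j (w - M.wt l) (M.step S l) := Iff.rfl

/-- More allowed weight, larger set. -/
theorem BadU_mono (M : Machine Ω St Lab) (j : ℕ) : ∀ (w w' : ℕ) (S : St), w ≤ w' →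
    BadU M j w S ⊆ BadU M j w' S := by
  induction j with
  | zero => intro w w' S _; exact subset_rfl
  | succ j ih =>
    rintro w w' S h ω ⟨l, hl, hw, he, hb⟩
    exact ⟨l, hl, hw.trans h, he, ih _ _ _ (Nat.sub_le_sub_right h _) hb⟩

/-- Fewer moves, larger set. -/
theorem BadU_anti (M : Machine Ω St Lab) (j : ℕ) : ∀ (w : ℕ) (S : St),
    BadU M (j + 1) w S ⊆ BadU M j w S := by
  induction j with
  | zero => intro w S ω _; trivial
  | succ j ih =>
    rintro w S ω ⟨l, hl, hw, he, hb⟩
    exact ⟨l, hl, hw, he, ih _ _ hb⟩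

/-- The deterministic side: an invariant which always allows one more move puts `ω` in `BadU`. -/
theorem bad_of_inv (M : Machine Ω St Lab) (ω : Ω) (P : ℕ → ℕ → St → Prop)
    (h : ∀ j w S, P (j + 1) w S → ∃ l ∈ M.labs S, M.wt l ≤ w ∧ ω ∈ M.ev S l ∧
      P j (w - M.wt l) (M.step S l)) :
    ∀ j w S, P j w S → ω ∈ BadU M j w S := by
  intro j
  induction j with
  | zero => intro w S _; trivial
  | succ j ih =>
    intro w S hP
    obtain ⟨l, hl, hw, he, hP'⟩ := h j w S hP
    exact ⟨l, hl, hw, he, ih _ _ hP'⟩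

/-- Measurability. -/
theorem bad_measurable [MeasurableSpace Ω] (M : Machine Ω St Lab) (ok : St → Prop)
    (hok : ∀ S l, ok S → l ∈ M.labs S → ok (M.step S l))
    (hev : ∀ S l, ok S → l ∈ M.labs S → MeasurableSet (M.ev S l)) (j : ℕ) :
    ∀ (w : ℕ) (S : St), ok S → MeasurableSet (BadU M j w S) := by
  induction j with
  | zero => intro w S _; exact MeasurableSet.univ
  | succ j ih =>
    intro w S hS
    have h : BadU M (j + 1) w S = ⋃ l ∈ M.labs S, {ω | M.wt l ≤ w ∧ ω ∈ M.ev S l ∧
        ω ∈ BadU M j (w - M.wt l) (M.step S l)} := by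
      ext ω
      simp only [mem_BadU_succ, mem_iUnion, mem_ofPred_eq, exists_prop]
    rw [h]
    refine Finset.measurableSet_biUnion _ fun l hl => ?_
    by_cases hw : M.wt l ≤ w
    · have : {ω | M.wt l ≤ w ∧ ω ∈ M.ev S l ∧ ω ∈ BadU M j (w - M.wt l) (M.step S l)} =
          M.ev S l ∩ BadU M j (w - M.wt l) (M.step S l) := by
        ext ω; simp [hw]
      rw [this]
      exact (hev S l hS hl).inter (ih _ _ (hok S l hS hl))
    · have : {ω | M.wt l ≤ w ∧ ω ∈ M.ev S l ∧ ω ∈ BadU M j (w - M.wt l) (M.step S l)} = ∅ := by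
        ext ω; simp [hw]
      rw [this]
      exact MeasurableSet.empty

/-- Invariance: a map which preserves all events at the states with `q` (a property kept by the
moves) preserves `BadU` from such states. -/
theorem bad_inv (M : Machine Ω St Lab) (T : Ω → Ω) (q : St → Prop)
    (hq : ∀ S l, q S → l ∈ M.labs S → q (M.step S l))
    (hev : ∀ S l, q S → l ∈ M.labs S → ∀ ω, ω ∈ M.ev S l → T ω ∈ M.ev S l) (j : ℕ) :
    ∀ (w : ℕ) (S : St), q S → ∀ ω, ω ∈ BadU M j w S → T ω ∈ BadU M j w S := by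
  induction j with
  | zero => intro w S _ ω _; trivial
  | succ j ih =>
    rintro w S hS ω ⟨l, hl, hw, he, hb⟩
    exact ⟨l, hl, hw, hev S l hS hl ω he, ih _ _ (hq S l hS hl) ω hb⟩

/-- The same for two-sided invariance. -/
theorem bad_inv_iff (M : Machine Ω St Lab) (T : Ω → Ω) (q : St → Prop)
    (hq : ∀ S l, q S → l ∈ M.labs S → q (M.step S l))
    (hev : ∀ S l, q S → l ∈ M.labs S → ∀ ω, (T ω ∈ M.ev S l ↔ ω ∈ M.ev S l)) (j : ℕ) :
    ∀ (w : ℕ) (S : St), q S → ∀ ω, (T ω ∈ BadU M j w S ↔ ω ∈ BadU M j w S) := by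
  induction j with
  | zero => intro w S _ ω; exact Iff.rfl
  | succ j ih =>
    intro w S hS ω
    rw [mem_BadU_succ, mem_BadU_succ]
    refine exists_congr fun l => and_congr_right fun hl => and_congr_right fun _ => ?_
    rw [hev S l hS hl ω, ih _ _ (hq S l hS hl) ω]

/-- The factor of the union bound. -/
noncomputable def fac (A B : ℝ≥0∞) (j w : ℕ) : ℝ≥0∞ := 2 ^ (j + w) * B ^ w * A ^ (j - w)

/-- One step of the recursion for the factor. -/
theorem fac_step {A B : ℝ≥0∞} (hA : A ≤ 1) (j w : ℕ) :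
    A * fac A B j w + ∑ c ∈ Finset.range w, B ^ (c + 1) * fac A B j (w - (c + 1)) ≤
      fac A B (j + 1) w := by
  have h1 : A * fac A B j w ≤ 2 ^ (j + w) * B ^ w * A ^ (j + 1 - w) := by
    unfold fac
    calc A * (2 ^ (j + w) * B ^ w * A ^ (j - w)) = 2 ^ (j + w) * B ^ w * A ^ ((j - w) + 1) := by
          ring
      _ ≤ _ := mul_le_mul' le_rfl (pow_le_pow_right_of_le_one' hA (by omega))
  have hterm : ∀ c ∈ Finset.range w, B ^ (c + 1) * fac A B j (w - (c + 1)) ≤
      B ^ w * A ^ (j + 1 - w) * 2 ^ (j + (w - 1 - c)) := by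
    intro c hc
    rw [Finset.mem_range] at hc
    unfold fac
    have e1 : B ^ w = B ^ (c + 1) * B ^ (w - (c + 1)) := by
      rw [← pow_add]
      congr 1
      omega
    have e2 : j + (w - (c + 1)) = j + (w - 1 - c) := by omega
    calc B ^ (c + 1) * (2 ^ (j + (w - (c + 1))) * B ^ (w - (c + 1)) * A ^ (j - (w - (c + 1))))
        = B ^ (c + 1) * B ^ (w - (c + 1)) * A ^ (j - (w - (c + 1))) * 2 ^ (j + (w - 1 - c)) := by
          rw [e2]; ring
      _ ≤ B ^ w * A ^ (j + 1 - w) * 2 ^ (j + (w - 1 - c)) := by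
          rw [e1]
          exact mul_le_mul' (mul_le_mul' le_rfl
            (pow_le_pow_right_of_le_one' hA (by omega))) le_rfl
  have hgeo : ∀ v : ℕ, ∑ c ∈ Finset.range v, (2 : ℝ≥0∞) ^ (j + (v - 1 - c)) ≤ 2 ^ (j + v) := by
    intro v
    have h0 : ∑ c ∈ Finset.range v, (2 : ℝ≥0∞) ^ (j + (v - 1 - c)) =
        ∑ c ∈ Finset.range v, (2 : ℝ≥0∞) ^ (j + c) :=
      Finset.sum_range_reflect (fun c => (2 : ℝ≥0∞) ^ (j + c)) v
    rw [h0]
    clear h0
    induction v with
    | zero => simp
    | succ v ih =>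
      rw [Finset.sum_range_succ]
      calc _ ≤ (2 : ℝ≥0∞) ^ (j + v) + 2 ^ (j + v) := add_le_add ih le_rfl
        _ = 2 ^ (j + (v + 1)) := by ring
  have h2 : ∑ c ∈ Finset.range w, B ^ (c + 1) * fac A B j (w - (c + 1)) ≤
      2 ^ (j + w) * B ^ w * A ^ (j + 1 - w) := by
    calc ∑ c ∈ Finset.range w, B ^ (c + 1) * fac A B j (w - (c + 1))
        ≤ ∑ c ∈ Finset.range w, B ^ w * A ^ (j + 1 - w) * 2 ^ (j + (w - 1 - c)) :=
          Finset.sum_le_sum hterm
      _ = B ^ w * A ^ (j + 1 - w) * ∑ c ∈ Finset.range w, 2 ^ (j + (w - 1 - c)) := by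
          rw [Finset.mul_sum]
      _ ≤ B ^ w * A ^ (j + 1 - w) * 2 ^ (j + w) := mul_le_mul' le_rfl (hgeo w)
      _ = _ := by ring
  calc A * fac A B j w + ∑ c ∈ Finset.range w, B ^ (c + 1) * fac A B j (w - (c + 1))
      ≤ 2 ^ (j + w) * B ^ w * A ^ (j + 1 - w) + 2 ^ (j + w) * B ^ w * A ^ (j + 1 - w) :=
        add_le_add h1 h2
    _ = fac A B (j + 1) w := by unfold fac; ring

/-- **The recursive union bound**, with boxes up to the index `K`. `G k` are increasing boxes, `A`
bounds the total cost of the paid moves at every state, and there are at most `B ^ c` moves of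
weight `c ≥ 1`. -/
theorem bad_bound_le [MeasurableSpace Ω] (μ : Measure Ω) (M : Machine Ω St Lab) (ok : St → Prop)
    (hok : ∀ S l, ok S → l ∈ M.labs S → ok (M.step S l))
    (G : ℕ → Set Ω) (hG : ∀ k, G k ⊆ G (k + 1)) (A B : ℝ≥0∞) (hA1 : A ≤ 1) (hB1 : 1 ≤ B)
    (cost : St → Lab → ℝ≥0∞) (K : ℕ)
    (hpay : ∀ (k : ℕ) (S : St) (l : Lab), ok S → l ∈ M.labs S → M.wt l = 0 → ∀ j w,
      k + 1 + j ≤ K →
      μ (M.ev S l ∩ BadU M j w (M.step S l) ∩ G k) ≤
        cost S l * μ (BadU M j w (M.step S l) ∩ G (k + 1)))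
    (hA : ∀ S, ok S → ∑ l ∈ (M.labs S).filter (fun l => M.wt l = 0), cost S l ≤ A)
    (hB : ∀ S, ok S → ∀ c, (((M.labs S).filter (fun l => M.wt l = c + 1)).card : ℝ≥0∞) ≤
      B ^ (c + 1))
    (j : ℕ) : ∀ (w k : ℕ) (S : St), ok S → k + j ≤ K →
      μ (BadU M j w S ∩ G k) ≤ fac A B j w * μ (G (k + j)) := by
  classical
  induction j with
  | zero =>
    intro w k S _ _
    rw [BadU_zero, univ_inter]
    have : (1 : ℝ≥0∞) ≤ fac A B 0 w := by
      unfold fac
      have h2 : (1 : ℝ≥0∞) ≤ 2 ^ (0 + w) := one_le_pow_of_one_le' (by norm_num) _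
      have h3 : (1 : ℝ≥0∞) ≤ B ^ w := one_le_pow_of_one_le' hB1 w
      simpa using mul_le_mul' h2 h3
    calc μ (G k) = 1 * μ (G (k + 0)) := by rw [one_mul, add_zero]
      _ ≤ _ := mul_le_mul' this le_rfl
  | succ j ih =>
    intro w k S hS hkK
    -- split the labels
    set P := (M.labs S).filter (fun l => M.wt l = 0) with hP
    have hsub : BadU M (j + 1) w S ∩ G k ⊆
        (⋃ l ∈ P, M.ev S l ∩ BadU M j w (M.step S l) ∩ G k) ∪
        (⋃ c ∈ Finset.range w, ⋃ l ∈ (M.labs S).filter (fun l => M.wt l = c + 1),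
          BadU M j (w - (c + 1)) (M.step S l) ∩ G k) := by
      rintro ω ⟨⟨l, hl, hw, he, hb⟩, hk⟩
      by_cases h0 : M.wt l = 0
      · left
        simp only [mem_iUnion]
        refine ⟨l, by rw [hP, Finset.mem_filter]; exact ⟨hl, h0⟩, ⟨he, ?_⟩, hk⟩
        rw [h0, Nat.sub_zero] at hb
        exact hb
      · right
        simp only [mem_iUnion]
        refine ⟨M.wt l - 1, Finset.mem_range.2 (by omega), l, ?_, ?_, hk⟩
        · rw [Finset.mem_filter]
          exact ⟨hl, by omega⟩
        · rwa [show M.wt l - 1 + 1 = M.wt l by omega]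
    have hp : μ (⋃ l ∈ P, M.ev S l ∩ BadU M j w (M.step S l) ∩ G k) ≤
        A * fac A B j w * μ (G (k + (j + 1))) := by
      calc μ (⋃ l ∈ P, M.ev S l ∩ BadU M j w (M.step S l) ∩ G k)
          ≤ ∑ l ∈ P, μ (M.ev S l ∩ BadU M j w (M.step S l) ∩ G k) :=
            measure_biUnion_finset_le _ _
        _ ≤ ∑ l ∈ P, cost S l * (fac A B j w * μ (G (k + (j + 1)))) := by
            refine Finset.sum_le_sum fun l hl => ?_
            rw [hP, Finset.mem_filter] at hl
            refine (hpay k S l hS hl.1 hl.2 j w (by omega)).trans (mul_le_mul' le_rfl ?_)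
            have := ih w (k + 1) (M.step S l) (hok S l hS hl.1) (by omega)
            rwa [show k + 1 + j = k + (j + 1) by ring] at this
        _ = (∑ l ∈ P, cost S l) * (fac A B j w * μ (G (k + (j + 1)))) := by
            rw [Finset.sum_mul]
        _ ≤ A * (fac A B j w * μ (G (k + (j + 1)))) := mul_le_mul' (hA S hS) le_rfl
        _ = _ := by ring
    have hw' : μ (⋃ c ∈ Finset.range w, ⋃ l ∈ (M.labs S).filter (fun l => M.wt l = c + 1),
          BadU M j (w - (c + 1)) (M.step S l) ∩ G k) ≤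
        (∑ c ∈ Finset.range w, B ^ (c + 1) * fac A B j (w - (c + 1))) *
          μ (G (k + (j + 1))) := by
      calc μ (⋃ c ∈ Finset.range w, ⋃ l ∈ (M.labs S).filter (fun l => M.wt l = c + 1),
            BadU M j (w - (c + 1)) (M.step S l) ∩ G k)
          ≤ ∑ c ∈ Finset.range w, μ (⋃ l ∈ (M.labs S).filter (fun l => M.wt l = c + 1),
            BadU M j (w - (c + 1)) (M.step S l) ∩ G k) := measure_biUnion_finset_le _ _
        _ ≤ ∑ c ∈ Finset.range w,
              B ^ (c + 1) * fac A B j (w - (c + 1)) * μ (G (k + (j + 1))) := by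
            refine Finset.sum_le_sum fun c _ => ?_
            calc μ (⋃ l ∈ (M.labs S).filter (fun l => M.wt l = c + 1),
                  BadU M j (w - (c + 1)) (M.step S l) ∩ G k)
                ≤ ∑ l ∈ (M.labs S).filter (fun l => M.wt l = c + 1),
                  μ (BadU M j (w - (c + 1)) (M.step S l) ∩ G k) :=
                  measure_biUnion_finset_le _ _
              _ ≤ ∑ l ∈ (M.labs S).filter (fun l => M.wt l = c + 1),
                  fac A B j (w - (c + 1)) * μ (G (k + (j + 1))) := by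
                  refine Finset.sum_le_sum fun l hl => ?_
                  rw [Finset.mem_filter] at hl
                  refine (ih (w - (c + 1)) k (M.step S l) (hok S l hS hl.1) (by omega)).trans ?_
                  exact mul_le_mul' le_rfl (measure_mono (hG (k + j)))
              _ = (((M.labs S).filter (fun l => M.wt l = c + 1)).card : ℝ≥0∞) *
                  (fac A B j (w - (c + 1)) * μ (G (k + (j + 1)))) := by
                  rw [Finset.sum_const, nsmul_eq_mul]
              _ ≤ B ^ (c + 1) * (fac A B j (w - (c + 1)) * μ (G (k + (j + 1)))) :=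
                  mul_le_mul' (hB S hS c) le_rfl
              _ = _ := by ring
        _ = _ := by rw [Finset.sum_mul]
    calc μ (BadU M (j + 1) w S ∩ G k) ≤ _ := measure_mono hsub
      _ ≤ _ := measure_union_le _ _
      _ ≤ A * fac A B j w * μ (G (k + (j + 1))) +
          (∑ c ∈ Finset.range w, B ^ (c + 1) * fac A B j (w - (c + 1))) *
          μ (G (k + (j + 1))) := add_le_add hp hw'
      _ = (A * fac A B j w + ∑ c ∈ Finset.range w, B ^ (c + 1) * fac A B j (w - (c + 1))) *
          μ (G (k + (j + 1))) := by ring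
      _ ≤ _ := mul_le_mul' (fac_step hA1 j w) le_rfl

/-- **The recursive union bound.** `G k` are increasing boxes, `A` bounds the total cost of the
paid moves at every state, and there are at most `B ^ c` moves of weight `c ≥ 1`. -/
theorem bad_bound [MeasurableSpace Ω] (μ : Measure Ω) (M : Machine Ω St Lab) (ok : St → Prop)
    (hok : ∀ S l, ok S → l ∈ M.labs S → ok (M.step S l))
    (G : ℕ → Set Ω) (hG : ∀ k, G k ⊆ G (k + 1)) (A B : ℝ≥0∞) (hA1 : A ≤ 1) (hB1 : 1 ≤ B)
    (cost : St → Lab → ℝ≥0∞)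
    (hpay : ∀ (k : ℕ) (S : St) (l : Lab), ok S → l ∈ M.labs S → M.wt l = 0 → ∀ j w,
      μ (M.ev S l ∩ BadU M j w (M.step S l) ∩ G k) ≤
        cost S l * μ (BadU M j w (M.step S l) ∩ G (k + 1)))
    (hA : ∀ S, ok S → ∑ l ∈ (M.labs S).filter (fun l => M.wt l = 0), cost S l ≤ A)
    (hB : ∀ S, ok S → ∀ c, (((M.labs S).filter (fun l => M.wt l = c + 1)).card : ℝ≥0∞) ≤
      B ^ (c + 1))
    (j : ℕ) (w k : ℕ) (S : St) (hS : ok S) :
    μ (BadU M j w S ∩ G k) ≤ fac A B j w * μ (G (k + j)) :=
  bad_bound_le μ M ok hok G hG A B hA1 hB1 cost (k + j)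
    (fun k S l h1 h2 h3 j w _ => hpay k S l h1 h2 h3 j w) hA hB j w k S hS le_rfl

end Pool.Agent.Lib.S3.Mach
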