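import Mathlib
import Pool.Agent.Lib.SHirsch.Pay

/-!
# Generic coins (smoothed Hirsch, MP_4a5c02_co)

* `ae_affine_ne`: a non constant affine function of independent Gaussian coins is a.e. nonzero.
* `ae_notMem`: an affine combination `v0 + ∑ x i • w i` leaves a proper subspace almost surely, if
  some `w i` is outside.
* `measurableSet_li`, `measurableSet_notMem_span`: linear independence is a measurable condition.
* `ae_pi_of_slice`: an almost sure event in a product of probability measures may be checked after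
  resampling some of the coordinates.
-/

set_option autoImplicit false

open MeasureTheory ProbabilityTheory
open scoped ENNReal NNReal

namespace Pool.Agent.Lib.S3

/-- A product of nondegenerate Gaussians is absolutely continuous. -/
theorem pi_gauss_ac {ι : Type*} [Fintype ι] (c : ι → ℝ) (v : ι → ℝ≥0) (hv : ∀ i, v i ≠ 0) :
    (Measure.pi fun i => gaussianReal (c i) (v i)) ≪ (volume : Measure (ι → ℝ)) := by
  rw [SHirsch.Pay.pi_gauss_withDensity c v hv]
  exact withDensity_absolutelyContinuous _ _

/-- An affine non constant function of independent Gaussian coins is a.e. nonzero. -/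
theorem ae_affine_ne {ι : Type*} [Fintype ι] (c : ι → ℝ) (v : ι → ℝ≥0) (hv : ∀ i, v i ≠ 0)
    (a : ι → ℝ) (ha : a ≠ 0) (b : ℝ) :
    ∀ᵐ x ∂(Measure.pi fun i => gaussianReal (c i) (v i)), b + ∑ i, a i * x i ≠ 0 := by
  refine (pi_gauss_ac c v hv).ae_le ?_
  classical
  let f : (ι → ℝ) →ₗ[ℝ] ℝ := ∑ i, a i • LinearMap.proj i
  have hf : ∀ x, f x = ∑ i, a i * x i := by
    intro x
    simp [f, LinearMap.sum_apply]
  let s : AffineSubspace ℝ (ι → ℝ) :=
    AffineSubspace.comap f.toAffineMap (AffineSubspace.mk' (-b) ⊥)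
  have hs : ∀ x, x ∈ s ↔ b + ∑ i, a i * x i = 0 := by
    intro x
    simp only [s, AffineSubspace.mem_comap, LinearMap.coe_toAffineMap, AffineSubspace.mem_mk',
      vsub_eq_sub, Submodule.mem_bot, hf]
    constructor <;> intro h <;> linarith
  have hne : s ≠ ⊤ := by
    intro htop
    obtain ⟨i, hi⟩ : ∃ i, a i ≠ 0 := by
      by_contra hcon
      push Not at hcon
      exact ha (funext hcon)
    have h0 : (0 : ι → ℝ) ∈ s := by rw [htop]; exact AffineSubspace.mem_top _ _ _
    have h1 : (Pi.single i (1 : ℝ) : ι → ℝ) ∈ s := by rw [htop]; exact AffineSubspace.mem_top _ _ _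
    rw [hs] at h0 h1
    have e0 : ∑ j, a j * (0 : ι → ℝ) j = 0 := by simp
    have e1 : ∑ j, a j * (Pi.single i (1 : ℝ) : ι → ℝ) j = a i := by
      rw [Finset.sum_eq_single i]
      · simp
      · intro j _ hj; simp [hj]
      · intro h; exact absurd (Finset.mem_univ i) h
    rw [e0] at h0
    rw [e1] at h1
    exact hi (by linarith)
  have hz := Measure.addHaar_affineSubspace (volume : Measure (ι → ℝ)) s hne
  change ∀ᵐ x ∂(volume : Measure (ι → ℝ)), b + ∑ i, a i * x i ≠ 0
  rw [ae_iff]
  refine measure_mono_null ?_ hz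
  intro x hx
  simp only [Set.mem_ofPred_eq, not_not] at hx
  exact (hs x).2 hx

/-- An affine combination with Gaussian coins leaves a subspace if some direction is outside. -/
theorem ae_notMem {ι V : Type*} [Fintype ι] [AddCommGroup V] [Module ℝ V]
    (c : ι → ℝ) (v : ι → ℝ≥0) (hv : ∀ i, v i ≠ 0) (w : ι → V) (v0 : V) (K : Submodule ℝ V)
    (h : ∃ i, w i ∉ K) :
    ∀ᵐ x ∂(Measure.pi fun i => gaussianReal (c i) (v i)), v0 + ∑ i, x i • w i ∉ K := by
  obtain ⟨i, hi⟩ := h
  obtain ⟨f, hf, hK⟩ := Submodule.exists_dual_map_eq_bot_of_notMem hi inferInstance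
  have hK' : ∀ y ∈ K, f y = 0 := by
    intro y hy
    have : f y ∈ K.map f := Submodule.mem_map_of_mem hy
    rw [hK] at this
    simpa using this
  have hne : (fun j => f (w j)) ≠ 0 := fun hcon => hf (congrFun hcon i)
  filter_upwards [ae_affine_ne c v hv (fun j => f (w j)) hne (f v0)] with x hx hmem
  apply hx
  have := hK' _ hmem
  rw [map_add, map_sum] at this
  rw [← this]
  congr 1
  refine Finset.sum_congr rfl fun j _ => ?_
  rw [map_smul, smul_eq_mul, mul_comm]

/-- Linear independence of measurable vectors is a measurable condition. -/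
theorem measurableSet_li {Ω κ : Type*} [MeasurableSpace Ω] [Fintype κ] {d : ℕ}
    (f : Ω → κ → Fin d → ℝ) (hf : ∀ k j, Measurable fun ω => f ω k j) :
    MeasurableSet {ω | LinearIndependent ℝ (f ω)} := by
  have hm : Measurable f := measurable_pi_lambda _ fun k => measurable_pi_lambda _ fun j => hf k j
  exact hm (isOpen_setOfPred_linearIndependent (𝕜 := ℝ) (E := Fin d → ℝ) (ι := κ)).measurableSet

/-- An almost sure event may be checked after resampling the coordinates in `M`. -/
theorem ae_pi_of_slice {κ : Type*} [Fintype κ] (μ : κ → Measure ℝ)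
    [∀ i, IsProbabilityMeasure (μ i)] (M : κ → Prop) [DecidablePred M] (s : Set (κ → ℝ))
    (hs : MeasurableSet s)
    (h : ∀ᵐ ω ∂(Measure.pi μ), ∀ᵐ x ∂(Measure.pi fun i : {i // M i} => μ i),
      (fun i => if h : M i then x ⟨i, h⟩ else ω i) ∈ s) :
    ∀ᵐ ω ∂(Measure.pi μ), ω ∈ s := by
  classical
  have he := measurePreserving_piEquivPiSubtypeProd (fun i => μ i) M
  set e := MeasurableEquiv.piEquivPiSubtypeProd (fun _ : κ => ℝ) M with he_def
  have hs' : MeasurableSet (e.symm ⁻¹' s) := e.symm.measurable hs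
  -- the slice condition as a condition on the second coordinate
  let P : ({i : κ // ¬ M i} → ℝ) → Prop := fun y =>
    ∀ᵐ x ∂(Measure.pi fun i : {i // M i} => μ i), e.symm (x, y) ∈ s
  have hP : MeasurableSet {y | P y} := by
    have h1 := measurable_measure_prodMk_right (μ := Measure.pi fun i : {i // M i} => μ i)
      hs'.compl
    have : {y | P y} = (fun y => (Measure.pi fun i : {i // M i} => μ i)
        ((fun x => (x, y)) ⁻¹' (e.symm ⁻¹' s)ᶜ)) ⁻¹' {0} := by
      ext y
      simp only [P, Set.mem_ofPred_eq, ae_iff, Set.mem_preimage, Set.mem_singleton_iff]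
      rfl
    rw [this]
    exact h1 (measurableSet_singleton 0)
  have hglue : ∀ (x : {i : κ // M i} → ℝ) (ω : κ → ℝ),
      (fun i => if h : M i then x ⟨i, h⟩ else ω i) = e.symm (x, (e ω).2) := by
    intro x ω
    funext i
    by_cases hi : M i
    · simp [he_def, MeasurableEquiv.piEquivPiSubtypeProd, Equiv.piEquivPiSubtypeProd, hi]
    · simp [he_def, MeasurableEquiv.piEquivPiSubtypeProd, Equiv.piEquivPiSubtypeProd, hi]
  have h2 : ∀ᵐ ω ∂(Measure.pi μ), P (e ω).2 := by
    filter_upwards [h] with ω hω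
    filter_upwards [hω] with x hx
    rw [hglue] at hx
    exact hx
  have h3 : ∀ᵐ z ∂((Measure.pi fun i : {i // M i} => μ i).prod
      (Measure.pi fun i : {i // ¬ M i} => μ i)), P z.2 := by
    rw [← he.map_eq]
    exact (ae_map_iff he.measurable.aemeasurable (measurable_snd hP)).2 h2
  have h4 : ∀ᵐ y ∂(Measure.pi fun i : {i // ¬ M i} => μ i), P y := by
    have hsnd : MeasurePreserving (Prod.snd : (({i : κ // M i} → ℝ) × ({i : κ // ¬ M i} → ℝ)) → _)
        ((Measure.pi fun i : {i // M i} => μ i).prod (Measure.pi fun i : {i // ¬ M i} => μ i))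
        (Measure.pi fun i : {i // ¬ M i} => μ i) := measurePreserving_snd
    rw [← hsnd.map_eq]
    exact (ae_map_iff hsnd.measurable.aemeasurable hP).2 h3
  have h5 : ∀ᵐ z ∂((Measure.pi fun i : {i // M i} => μ i).prod
      (Measure.pi fun i : {i // ¬ M i} => μ i)), z ∈ e.symm ⁻¹' s := by
    have hsw : MeasurableSet (Prod.swap ⁻¹' (e.symm ⁻¹' s) :
        Set (({i : κ // ¬ M i} → ℝ) × ({i : κ // M i} → ℝ))) := measurable_swap hs'
    have h6 : ∀ᵐ z ∂((Measure.pi fun i : {i // ¬ M i} => μ i).prod
        (Measure.pi fun i : {i // M i} => μ i)), z ∈ Prod.swap ⁻¹' (e.symm ⁻¹' s) := by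
      rw [Measure.ae_prod_mem_iff_ae_ae_mem hsw]
      exact h4
    rw [← Measure.prod_swap]
    exact (ae_map_iff measurable_swap.aemeasurable hs').2 h6
  rw [← he.map_eq] at h5
  filter_upwards [(ae_map_iff he.measurable.aemeasurable hs').1 h5] with ω hω
  have : e.symm (e ω) ∈ s := hω
  rwa [e.symm_apply_apply] at this

end Pool.Agent.Lib.S3
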