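import Pool.Agent.Lib.S3.Gen
import Pool.Agent.Lib.S3.Geo.ChartN

/-!
# Genericity of rows and objectives (smoothed Hirsch, MP_4a5c02_co)

* `GenObj a P c`: the objective `c` is in the span of no `n - 1` rows containing the rows `P`;
* `mult_ne_zero`, `mult_pos`, `opt_unique_gen`: consequences for linear programs in which the rows
  `P` are equality rows;
* `ae_genObj`: an objective which is affine in Gaussian coins whose directions, together with the
  rows `P`, span the space, is generic almost surely;
* `ae_rows`: rows depending on separate Gaussian coordinates are in general position;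
* `gp_chart`: the chart rows are in general position if the chart row is generic.
-/

set_option autoImplicit false

open MeasureTheory ProbabilityTheory
open scoped ENNReal NNReal

namespace Pool.Agent.Lib.S3

open Geo

/-- `c` is in the span of no `n - 1` rows containing the rows `P`. -/
def GenObj {ι : Type} {n : ℕ} (a : ι → Fin n → ℝ) (P : Finset ι) (c : Fin n → ℝ) : Prop :=
  ∀ J : Finset ι, P ⊆ J → J.card + 1 = n → c ∉ Submodule.span ℝ (a '' (J : Set ι))

theorem GenObj.mono {ι : Type} {n : ℕ} {a : ι → Fin n → ℝ} {P Q : Finset ι} {c : Fin n → ℝ}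
    (h : GenObj a P c) (hPQ : P ⊆ Q) : GenObj a Q c := fun J hJ hc => h J (hPQ.trans hJ) hc

section Det

variable {ι : Type} [Fintype ι] [DecidableEq ι] {n : ℕ}

omit [Fintype ι] in
/-- A generic objective has nonzero multipliers off `P`. -/
theorem mult_ne_zero {a : ι → Fin n → ℝ} {P I : Finset ι} {c : Fin n → ℝ} (hg : GenObj a P c)
    (hI : I.card = n) (hPI : P ⊆ I) {l : ι → ℝ} (h : IsMult a I c l) {i : ι} (hi : i ∈ I)
    (hiP : i ∉ P) : l i ≠ 0 := by
  intro h0
  have hc : c = ∑ j ∈ I.erase i, l j • a j := by
    have h1 : c = ∑ j ∈ I, l j • a j := h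
    rw [← Finset.add_sum_erase I _ hi, h0, zero_smul, zero_add] at h1
    exact h1
  refine hg (I.erase i) (fun j hj => Finset.mem_erase.2 ⟨fun hji => hiP (hji ▸ hj), hPI hj⟩)
    (by rw [Finset.card_erase_add_one hi, hI]) ?_
  rw [hc]
  exact Submodule.sum_mem _ fun j hj => Submodule.smul_mem _ _
    (Submodule.subset_span ⟨j, Finset.mem_coe.2 hj, rfl⟩)

/-- The equality rows are tight. -/
theorem eq_sub_tt {a : ι → Fin n → ℝ} {b : ι → ℝ} {T S : Finset ι} {x : Fin n → ℝ}
    (hx : x ∈ Pol a b T S) : T ⊆ tt a b (T ∪ S) x := fun i hi =>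
  mem_tt.2 ⟨Finset.mem_union_left _ hi, hx.1 i hi⟩

/-- The multipliers of a generic objective at its optimal vertex are positive off `T`. -/
theorem mult_pos {a : ι → Fin n → ℝ} {b : ι → ℝ} {T0 : Finset ι} (hG : GP a b T0)
    {T S : Finset ι} (hT0 : T0 ⊆ T) {c : Fin n → ℝ} (hg : GenObj a T c) {x : Fin n → ℝ}
    (hx : Vert a b T S x) (hopt : IsOpt a b T S c x) {l : ι → ℝ}
    (h : IsMult a (tt a b (T ∪ S) x) c l) {i : ι} (hi : i ∈ tt a b (T ∪ S) x) (hiT : i ∉ T) :
    0 < l i :=
  lt_of_le_of_ne (mult_nonneg hG hT0 hx hopt h hi hiT)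
    (mult_ne_zero hg hx.2 (eq_sub_tt hx.1) h hi hiT).symm

/-- The optimum of a generic objective is unique. -/
theorem opt_unique_gen {a : ι → Fin n → ℝ} {b : ι → ℝ} {T0 : Finset ι} (hG : GP a b T0)
    {T S : Finset ι} (hT0 : T0 ⊆ T) {c : Fin n → ℝ} (hg : GenObj a T c) {x z : Fin n → ℝ}
    (hx : Vert a b T S x) (hopt : IsOpt a b T S c x) (hz : IsOpt a b T S c z) : z = x := by
  obtain ⟨l, hl⟩ := exists_mult hG hx.2 c
  exact opt_unique hG hx hl (fun i hi hiT => mult_pos hG hT0 hg hx hopt hl hi hiT) hz

/-- The optimum of a generic objective is a vertex. -/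
theorem opt_vert_gen {a : ι → Fin n → ℝ} {b : ι → ℝ} {T0 : Finset ι} (hG : GP a b T0)
    {T S : Finset ι} (hT0 : T0 ⊆ T) (hbd : Bornology.IsBounded (Pol a b T S)) {c : Fin n → ℝ}
    (hg : GenObj a T c) {z : Fin n → ℝ} (hz : IsOpt a b T S c z) : Vert a b T S z := by
  obtain ⟨x, hx, hxo⟩ := exists_opt hG hT0 ⟨z, hz.1⟩ hbd c
  rw [opt_unique_gen hG hT0 hg hx hxo hz]
  exact hx

omit [DecidableEq ι] in
/-- Rows and a generic row. -/
theorem li_of_genObj {a : ι → Fin n → ℝ} {c : Fin n → ℝ} (hg : GenObj a ∅ c)
    (hli : ∀ J : Finset ι, J.card ≤ n → LinearIndependent ℝ fun j : J => a j)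
    (hcard : n ≤ Fintype.card ι + 1) {J : Finset ι} (hJ : J.card + 1 ≤ n) :
    LinearIndependent ℝ (fun o : Option J => (o.elim c fun j => a j : Fin n → ℝ)) := by
  classical
  rw [linearIndependent_option]
  refine ⟨hli J (by omega), ?_⟩
  obtain ⟨J', hJJ', -, hJ'c⟩ := Finset.exists_subsuperset_card_eq (Finset.subset_univ J)
    (n := n - 1) (by omega) (by rw [Finset.card_univ]; omega)
  intro hmem
  refine hg J' (Finset.empty_subset _) (by omega) (Submodule.span_mono ?_ hmem)
  rintro _ ⟨j, rfl⟩
  exact ⟨j.1, Finset.mem_coe.2 (hJJ' j.2), rfl⟩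

end Det

/-- General position of the chart. -/
theorem gp_chart {m n : ℕ} (hnm : n ≤ m) {a : Fin m → Fin n → ℝ} {b : Fin m → ℝ}
    {N : Fin (n + 1) → ℝ}
    (hli : ∀ J : Finset (Option (Fin m)), J.card ≤ n + 1 →
      LinearIndependent ℝ fun j : J => SHirsch.Gr a b j)
    (hN : GenObj (SHirsch.Gr a b) ∅ N) : GP (chA a b N) (chB m) {none} := by
  classical
  -- pulling a set of chart rows back to rows of the cone
  have hpull : ∀ K : Finset (Option (Option (Fin m))), none ∉ K →
      ∃ J : Finset (Option (Fin m)), J.map ⟨some, Option.some_injective _⟩ = K := by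
    intro K hK
    refine ⟨K.eraseNone, ?_⟩
    ext o
    match o with
    | none => simp [hK]
    | some o => simp
  constructor
  · intro y hy
    have hNy : N ⬝ᵥ y = 1 := hy none (Finset.mem_singleton_self _)
    have hy0 : y ≠ 0 := by
      rintro rfl
      rw [dotProduct_zero] at hNy
      exact zero_ne_one hNy
    by_contra hcon
    push Not at hcon
    obtain ⟨K, hKs, hKc⟩ := Finset.exists_subset_card_eq
      (s := (tt (chA a b N) (chB m) Finset.univ y).erase none) (n := n + 1) (by
        have := Finset.pred_card_le_card_erase (s := tt (chA a b N) (chB m) Finset.univ y)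
          (a := none)
        omega)
    obtain ⟨J, rfl⟩ := hpull K (fun h => (Finset.mem_erase.1 (hKs h)).1 rfl)
    rw [Finset.card_map] at hKc
    have h1 := hli J hKc.le
    have hcard : Fintype.card J = Module.finrank ℝ (Fin (n + 1) → ℝ) := by
      rw [Fintype.card_coe, hKc, Module.finrank_fintype_fun_eq_card, Fintype.card_fin]
    have h2 := h1.span_eq_top_of_card_eq_finrank' hcard
    have h3 : ∀ z ∈ Submodule.span ℝ (Set.range fun j : J => SHirsch.Gr a b j), z ⬝ᵥ y = 0 := by
      intro z hz
      induction hz using Submodule.span_induction with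
      | mem z hz =>
        obtain ⟨j, rfl⟩ := hz
        have h4 := (mem_tt.1 (Finset.mem_erase.1 (hKs (Finset.mem_map_of_mem _ j.2))).2).2
        exact h4
      | zero => exact zero_dotProduct _
      | add z w _ _ hz hw => rw [add_dotProduct, hz, hw, add_zero]
      | smul r z _ hz => rw [smul_dotProduct, hz, smul_zero]
    have h4 := h3 y (by rw [h2]; exact Submodule.mem_top)
    exact hy0 (dotProduct_self_eq_zero.1 h4)
  · intro K hK
    by_cases hnone : none ∈ K
    · obtain ⟨J, hJ⟩ := hpull (K.erase none) (Finset.notMem_erase _ _)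
      have hJc : J.card + 1 ≤ n + 1 := by
        have h1 : J.card = (K.erase none).card := by rw [← hJ, Finset.card_map]
        have h2 := Finset.card_erase_add_one hnone
        omega
      have hli' := li_of_genObj hN hli (by
        rw [Fintype.card_option, Fintype.card_fin]; omega) hJc
      -- transport along an equivalence `K ≃ Option J`
      have hKJ : ∀ o : Option (Option (Fin m)), o ∈ K ↔ o = none ∨ ∃ j ∈ J, some j = o := by
        intro o
        by_cases ho : o = none
        · subst ho
          simp [hnone]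
        · have h1 : o ∈ K ↔ o ∈ K.erase none := by
            rw [Finset.mem_erase]
            exact ⟨fun h => ⟨ho, h⟩, fun h => h.2⟩
          rw [h1, ← hJ, Finset.mem_map]
          constructor
          · rintro ⟨j, hj, rfl⟩
            exact Or.inr ⟨j, hj, rfl⟩
          · rintro (h | ⟨j, hj, rfl⟩)
            · exact absurd h ho
            · exact ⟨j, hj, rfl⟩
      let f : K → Option J := fun o => match h : o.1 with
        | none => none
        | some j => some ⟨j, by
            have h1 := (hKJ o.1).1 o.2
            rw [h] at h1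
            rcases h1 with h1 | ⟨j', hj', h1⟩
            · exact absurd h1 (by simp)
            · rw [Option.some.inj h1] at hj'
              exact hj'⟩
      have hf : ∀ o : K, chA a b N o.1 =
          ((f o).elim N fun j => SHirsch.Gr a b j : Fin (n + 1) → ℝ) := by
        rintro ⟨o, ho⟩
        match o with
        | none => rfl
        | some j => rfl
      have hfi : Function.Injective f := by
        rintro ⟨o, ho⟩ ⟨o', ho'⟩ h
        match o, o' with
        | none, none => rfl
        | none, some j => exact absurd h (by simp [f])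
        | some j, none => exact absurd h (by simp [f])
        | some j, some j' =>
          have h1 : (⟨j, _⟩ : J) = ⟨j', _⟩ := Option.some.inj h
          have h2 : j = j' := congrArg Subtype.val h1
          subst h2
          rfl
      have h5 := hli'.comp f hfi
      have h6 : (fun o : K => chA a b N o) =
          (fun o : Option J => (o.elim N fun j => SHirsch.Gr a b j : Fin (n + 1) → ℝ)) ∘ f := by
        funext o
        exact hf o
      rw [h6]
      exact h5
    · obtain ⟨J, rfl⟩ := hpull K hnone
      rw [Finset.card_map] at hK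
      have h1 := hli J hK
      let f : (J.map ⟨some, Option.some_injective _⟩ : Finset (Option (Option (Fin m)))) → J :=
        fun o => match h : o.1 with
        | none => absurd (h ▸ o.2) hnone
        | some j => ⟨j, by
            have h2 := o.2
            rw [h, Finset.mem_map] at h2
            obtain ⟨j', hj', h3⟩ := h2
            rw [show j' = j from Option.some.inj h3] at hj'
            exact hj'⟩
      have hf : ∀ o : (J.map ⟨some, Option.some_injective _⟩ : Finset (Option (Option (Fin m)))),
          chA a b N o.1 = SHirsch.Gr a b (f o).1 := by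
        rintro ⟨o, ho⟩
        match o with
        | none => exact absurd ho hnone
        | some j => rfl
      have hfi : Function.Injective f := by
        rintro ⟨o, ho⟩ ⟨o', ho'⟩ h
        match o, o' with
        | none, _ => exact absurd ho hnone
        | _, none => exact absurd ho' hnone
        | some j, some j' =>
          have h2 : j = j' := congrArg Subtype.val h
          subst h2
          rfl
      have h5 := h1.comp f hfi
      have h6 : (fun o : (J.map ⟨some, Option.some_injective _⟩ :
          Finset (Option (Option (Fin m)))) => chA a b N o) =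
          (fun j : J => SHirsch.Gr a b j) ∘ f := by
        funext o
        exact hf o
      rw [h6]
      exact h5

/-- Replacing the coordinates in `M`. -/
def glue {κ : Type*} (M : κ → Prop) [DecidablePred M] (x : {i // M i} → ℝ) (ω : κ → ℝ) : κ → ℝ :=
  fun i => if h : M i then x ⟨i, h⟩ else ω i

/-- A vector affine in Gaussian coins avoids the span of few rows almost surely. -/
theorem ae_li_option {κ : Type*} [Fintype κ] (c : κ → ℝ) (v : κ → ℝ≥0) (hv : ∀ i, v i ≠ 0)
    (M : κ → Prop) [DecidablePred M] {d : ℕ} {J : Type*} [Fintype J]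
    (A : (κ → ℝ) → J → Fin d → ℝ) (hA : ∀ i j, Measurable fun ω => A ω i j)
    (C : (κ → ℝ) → Fin d → ℝ) (hC : ∀ j, Measurable fun ω => C ω j)
    (C0 : (κ → ℝ) → Fin d → ℝ) (W : (κ → ℝ) → {k // M k} → Fin d → ℝ)
    (hAg : ∀ ω x, A (glue M x ω) = A ω) (hCg : ∀ ω x, C (glue M x ω) = C0 ω + ∑ k, x k • W ω k)
    (hgood : ∀ᵐ ω ∂(Measure.pi fun i => gaussianReal (c i) (v i)),
      LinearIndependent ℝ (A ω) ∧ ∃ k, W ω k ∉ Submodule.span ℝ (Set.range (A ω))) :
    ∀ᵐ ω ∂(Measure.pi fun i => gaussianReal (c i) (v i)),
      LinearIndependent ℝ (fun o : Option J => (o.elim (C ω) fun j => A ω j : Fin d → ℝ)) := by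
  refine ae_pi_of_slice (fun i => gaussianReal (c i) (v i)) M
    {ω | LinearIndependent ℝ (fun o : Option J => (o.elim (C ω) fun j => A ω j : Fin d → ℝ))}
    ?_ ?_
  · refine measurableSet_li
      (fun ω => fun o : Option J => (o.elim (C ω) fun j => A ω j : Fin d → ℝ)) ?_
    rintro (_ | j) k
    · exact hC k
    · exact hA j k
  · filter_upwards [hgood] with ω hω
    obtain ⟨hli, hk⟩ := hω
    have h1 := ae_notMem (fun k : {k // M k} => c k) (fun k => v k) (fun k => hv k) (W ω) (C0 ω)
      (Submodule.span ℝ (Set.range (A ω))) hk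
    filter_upwards [h1] with x hx
    show LinearIndependent ℝ (fun o : Option J =>
      (o.elim (C (glue M x ω)) fun j => A (glue M x ω) j : Fin d → ℝ))
    rw [hAg, hCg, linearIndependent_option]
    exact ⟨hli, hx⟩

/-- An objective affine in Gaussian coins is generic almost surely. -/
theorem ae_genObj {κ : Type*} [Fintype κ] (c : κ → ℝ) (v : κ → ℝ≥0) (hv : ∀ i, v i ≠ 0)
    (M : κ → Prop) [DecidablePred M] {d : ℕ} {ι : Type} [Finite ι] (P : Finset ι)
    (A : (κ → ℝ) → ι → Fin d → ℝ) (hA : ∀ i j, Measurable fun ω => A ω i j)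
    (C : (κ → ℝ) → Fin d → ℝ) (hC : ∀ j, Measurable fun ω => C ω j)
    (C0 : (κ → ℝ) → Fin d → ℝ) (W : (κ → ℝ) → {k // M k} → Fin d → ℝ)
    (hAg : ∀ ω x, A (glue M x ω) = A ω) (hCg : ∀ ω x, C (glue M x ω) = C0 ω + ∑ k, x k • W ω k)
    (hgood : ∀ᵐ ω ∂(Measure.pi fun i => gaussianReal (c i) (v i)),
      (∀ J : Finset ι, J.card ≤ d → LinearIndependent ℝ fun j : J => A ω j) ∧
      Submodule.span ℝ (Set.range (W ω)) ⊔ Submodule.span ℝ (A ω '' (P : Set ι)) = ⊤) :
    ∀ᵐ ω ∂(Measure.pi fun i => gaussianReal (c i) (v i)), GenObj (A ω) P (C ω) := by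
  unfold GenObj
  rw [ae_all_iff]
  intro J
  by_cases hPJ : P ⊆ J
  swap
  · exact Filter.Eventually.of_forall fun ω h => absurd h hPJ
  by_cases hJc : J.card + 1 = d
  swap
  · exact Filter.Eventually.of_forall fun ω _ h => absurd h hJc
  have h1 := ae_li_option c v hv M (fun ω => fun j : J => A ω j) (fun j k => hA j k) C hC C0 W
    (fun ω x => by
      funext j
      show A (glue M x ω) j = A ω j
      rw [hAg]) hCg (by
      filter_upwards [hgood] with ω hω
      refine ⟨hω.1 J (by omega), ?_⟩
      by_contra hcon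
      push Not at hcon
      have hrange : Set.range (fun j : J => A ω j) = A ω '' (J : Set ι) := by
        ext z
        constructor
        · rintro ⟨j, rfl⟩
          exact ⟨j.1, Finset.mem_coe.2 j.2, rfl⟩
        · rintro ⟨j, hj, rfl⟩
          exact ⟨⟨j, Finset.mem_coe.1 hj⟩, rfl⟩
      have htop : Submodule.span ℝ (Set.range (fun j : J => A ω j)) = ⊤ := by
        rw [eq_top_iff, ← hω.2]
        refine sup_le (Submodule.span_le.2 ?_) (Submodule.span_mono ?_)
        · rintro _ ⟨k, rfl⟩
          exact hcon k
        · rw [hrange]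
          exact Set.image_mono (by exact_mod_cast hPJ)
      have h2 := finrank_range_le_card (R := ℝ) (fun j : J => A ω j)
      unfold Set.finrank at h2
      rw [htop, finrank_top, Module.finrank_fintype_fun_eq_card, Fintype.card_fin,
        Fintype.card_coe] at h2
      omega)
  filter_upwards [h1] with ω hω _ _
  rw [linearIndependent_option] at hω
  intro hmem
  refine hω.2 (Submodule.span_mono ?_ hmem)
  rintro _ ⟨j, hj, rfl⟩
  exact ⟨⟨j, Finset.mem_coe.1 hj⟩, rfl⟩

end Pool.Agent.Lib.S3
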