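import Pool.Agent.Lib.SHirsch.GBas
import Pool.Agent.Lib.SHirsch.PProd

/-!
# Hazard: conditional smallness of a slack

`gauss_hazard`: a real Gaussian `X` of mean `μ`, variance `σ²`:
`P (-η ≤ X ≤ 0) ≤ 3 η (1/σ + 2|μ|/σ²) P (X ≤ 0)`.
`row_hazard`: the same for `v ⬝ᵥ y`, `y` a vector of length `r`, `v` a Gaussian vector.
`cond_events`: events that are independent given the coordinates outside `D`.
-/

set_option autoImplicit false

open MeasureTheory ProbabilityTheory Set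
open scoped ENNReal NNReal

namespace Pool.Agent.Lib.S3

open Pool.Agent.Lib.SHirsch

private theorem pdf_form {m σ : ℝ} (hσ : 0 < σ) (x : ℝ) :
    gaussianPDFReal m (σ ^ 2).toNNReal x =
      (Real.sqrt (2 * Real.pi * σ ^ 2))⁻¹ * Real.exp (-(x - m) ^ 2 / (2 * σ ^ 2)) := by
  rw [gaussianPDFReal_def]
  have h : ((σ ^ 2).toNNReal : ℝ) = σ ^ 2 := Real.coe_toNNReal _ (by positivity)
  simp only [h]

private theorem var_ne {σ : ℝ} (hσ : 0 < σ) : (σ ^ 2).toNNReal ≠ 0 := by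
  have : 0 < σ ^ 2 := by positivity
  exact (Real.toNNReal_pos.mpr this).ne'

/-- The comparison of two pieces of the mass of a Gaussian. -/
private theorem compare {m σ η p h c : ℝ} (hσ : 0 < σ) (hη : 0 ≤ η) (hh : 0 < h) (hc : 0 < c)
    (hp : p + h ≤ 0)
    (h1 : ∀ x ∈ Icc (-η) 0, gaussianPDFReal m (σ ^ 2).toNNReal x ≤ c)
    (h2 : ∀ x ∈ Icc p (p + h), c / 3 ≤ gaussianPDFReal m (σ ^ 2).toNNReal x) :
    gaussianReal m (σ ^ 2).toNNReal (Icc (-η) 0) ≤
      ENNReal.ofReal (3 * η / h) * gaussianReal m (σ ^ 2).toNNReal (Iic 0) := by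
  have e1 : gaussianReal m (σ ^ 2).toNNReal (Icc (-η) 0) ≤ ENNReal.ofReal (c * η) := by
    rw [gaussianReal_apply _ (var_ne hσ)]
    calc ∫⁻ x in Icc (-η) 0, gaussianPDF m (σ ^ 2).toNNReal x
        ≤ ∫⁻ _ in Icc (-η) 0, ENNReal.ofReal c := by
          apply setLIntegral_mono' measurableSet_Icc
          intro x hx
          exact ENNReal.ofReal_le_ofReal (h1 x hx)
      _ = ENNReal.ofReal (c * η) := by
          rw [setLIntegral_const, Real.volume_Icc, ← ENNReal.ofReal_mul hc.le]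
          congr 1
          ring
  have e2 : ENNReal.ofReal (c / 3 * h) ≤ gaussianReal m (σ ^ 2).toNNReal (Iic 0) := by
    rw [gaussianReal_apply _ (var_ne hσ)]
    calc ENNReal.ofReal (c / 3 * h) = ∫⁻ _ in Icc p (p + h), ENNReal.ofReal (c / 3) := by
          rw [setLIntegral_const, Real.volume_Icc, ← ENNReal.ofReal_mul (by positivity)]
          congr 1
          ring
      _ ≤ ∫⁻ x in Icc p (p + h), gaussianPDF m (σ ^ 2).toNNReal x := by
          apply setLIntegral_mono' measurableSet_Icc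
          intro x hx
          exact ENNReal.ofReal_le_ofReal (h2 x hx)
      _ ≤ ∫⁻ x in Iic 0, gaussianPDF m (σ ^ 2).toNNReal x :=
          lintegral_mono_set (fun x hx => hx.2.trans hp)
  calc gaussianReal m (σ ^ 2).toNNReal (Icc (-η) 0) ≤ ENNReal.ofReal (c * η) := e1
    _ = ENNReal.ofReal (3 * η / h) * ENNReal.ofReal (c / 3 * h) := by
        rw [← ENNReal.ofReal_mul (by positivity)]
        congr 1
        field_simp
    _ ≤ _ := mul_le_mul_right e2 _

/-- The hazard rate of a Gaussian. -/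
theorem gauss_hazard {m σ η : ℝ} (hσ : 0 < σ) (hη : 0 ≤ η) :
    gaussianReal m (σ ^ 2).toNNReal (Icc (-η) 0) ≤
      ENNReal.ofReal (3 * η * (1 / σ + 2 * |m| / σ ^ 2)) *
        gaussianReal m (σ ^ 2).toNNReal (Iic 0) := by
  have he1 : (1 : ℝ) / 3 ≤ Real.exp (-1) := by
    rw [Real.exp_neg]
    have := Real.exp_one_lt_d9
    rw [one_div]
    exact inv_anti₀ (Real.exp_pos _) (by linarith)
  have hs : 0 < (Real.sqrt (2 * Real.pi * σ ^ 2))⁻¹ := by positivity
  rcases le_or_gt 0 m with hm | hm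
  · -- the mean is nonnegative
    have hh : 0 < σ ^ 2 / (σ + 2 * m) := by positivity
    have hh1 : σ ^ 2 / (σ + 2 * m) ≤ σ := by
      rw [div_le_iff₀ (by positivity)]
      nlinarith
    have hh2 : σ ^ 2 / (σ + 2 * m) * (2 * m) ≤ σ ^ 2 := by
      rw [div_mul_eq_mul_div, div_le_iff₀ (by positivity)]
      nlinarith [sq_nonneg σ]
    have key := compare (m := m) (σ := σ) (η := η) (p := -(σ ^ 2 / (σ + 2 * m)))
      (h := σ ^ 2 / (σ + 2 * m))
      (c := (Real.sqrt (2 * Real.pi * σ ^ 2))⁻¹ * Real.exp (-(0 - m) ^ 2 / (2 * σ ^ 2)))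
      hσ hη hh (by positivity) (by linarith) ?_ ?_
    · refine key.trans (le_of_eq ?_)
      congr 2
      rw [abs_of_nonneg hm]
      field_simp
    · intro x hx
      rw [pdf_form hσ]
      apply mul_le_mul_of_nonneg_left _ hs.le
      apply Real.exp_le_exp.mpr
      apply div_le_div_of_nonneg_right _ (by positivity)
      have : x ≤ 0 := hx.2
      nlinarith
    · intro x hx
      rw [pdf_form hσ, mul_div_assoc]
      apply mul_le_mul_of_nonneg_left _ hs.le
      have hx1 : -(σ ^ 2 / (σ + 2 * m)) ≤ x := hx.1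
      have hx2 : x ≤ 0 := by have := hx.2; linarith
      have h3 : (-(0 - m) ^ 2 / (2 * σ ^ 2)) + (-1) ≤ -(x - m) ^ 2 / (2 * σ ^ 2) := by
        have hsq : (0 : ℝ) < 2 * σ ^ 2 := by positivity
        rw [div_add' _ _ _ hsq.ne']
        apply div_le_div_of_nonneg_right _ hsq.le
        have h4 : x ^ 2 ≤ σ ^ 2 := by nlinarith
        have h5 : (-x) * (2 * m) ≤ σ ^ 2 := by
          refine le_trans ?_ hh2
          apply mul_le_mul_of_nonneg_right _ (by linarith)
          linarith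
        nlinarith
      calc Real.exp (-(0 - m) ^ 2 / (2 * σ ^ 2)) / 3
          = Real.exp (-(0 - m) ^ 2 / (2 * σ ^ 2)) * (1 / 3) := by ring
        _ ≤ Real.exp (-(0 - m) ^ 2 / (2 * σ ^ 2)) * Real.exp (-1) :=
            mul_le_mul_of_nonneg_left he1 (Real.exp_pos _).le
        _ = Real.exp ((-(0 - m) ^ 2 / (2 * σ ^ 2)) + (-1)) := (Real.exp_add _ _).symm
        _ ≤ _ := Real.exp_le_exp.mpr h3
  · -- the mean is negative
    have key := compare (m := m) (σ := σ) (η := η) (p := m - σ) (h := σ)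
      (c := (Real.sqrt (2 * Real.pi * σ ^ 2))⁻¹) hσ hη hσ hs (by linarith) ?_ ?_
    · refine key.trans (mul_le_mul_left ?_ _)
      apply ENNReal.ofReal_le_ofReal
      rw [div_eq_mul_one_div]
      apply mul_le_mul_of_nonneg_left _ (by positivity)
      have : 0 ≤ 2 * |m| / σ ^ 2 := by positivity
      linarith
    · intro x _
      rw [pdf_form hσ]
      refine mul_le_of_le_one_right hs.le ?_
      apply Real.exp_le_one_iff.mpr
      apply div_nonpos_of_nonpos_of_nonneg _ (by positivity)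
      nlinarith [sq_nonneg (x - m)]
    · intro x hx
      rw [pdf_form hσ, div_eq_mul_one_div]
      apply mul_le_mul_of_nonneg_left _ hs.le
      refine he1.trans (Real.exp_le_exp.mpr ?_)
      rw [le_div_iff₀ (by positivity)]
      have h1 : m - σ ≤ x := hx.1
      have h2 : x ≤ m := by have := hx.2; linarith
      nlinarith

theorem dot_measurable {Ω : Type*} [MeasurableSpace Ω] {d : ℕ} {u w : Ω → Fin d → ℝ}
    (hu : Measurable u) (hw : Measurable w) : Measurable (fun ω => u ω ⬝ᵥ w ω) := by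
  simp only [dotProduct]
  exact Finset.measurable_sum _ (fun i _ =>
    ((measurable_pi_apply i).comp hu).mul ((measurable_pi_apply i).comp hw))

theorem nrm_measurable {Ω : Type*} [MeasurableSpace Ω] {d : ℕ} {u : Ω → Fin d → ℝ}
    (hu : Measurable u) : Measurable (fun ω => nrm (u ω)) := by
  unfold nrm
  exact (dot_measurable hu hu).sqrt

theorem nrm_pos_of_ne {d : ℕ} {u : Fin d → ℝ} (hu : u ≠ 0) : 0 < nrm u := by
  unfold nrm
  apply Real.sqrt_pos.mpr
  have h1 : 0 ≤ u ⬝ᵥ u := by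
    simp only [dotProduct]
    exact Finset.sum_nonneg (fun i _ => mul_self_nonneg _)
  have h2 : u ⬝ᵥ u ≠ 0 := by
    intro h
    exact hu (dotProduct_self_eq_zero.mp h)
  exact lt_of_le_of_ne h1 (Ne.symm h2)

/-- The hazard bound for a Gaussian row. -/
theorem row_hazard {d : ℕ} (ρ : Fin d → ℝ) {σ R : ℝ} (hσ : 0 < σ) (hR : 0 ≤ R)
    (hρ : ∑ j, ρ j ^ 2 ≤ R ^ 2) (y : Fin d → ℝ) (hy : y ≠ 0) {η : ℝ} (hη : 0 ≤ η) :
    (Measure.pi (fun j => gaussianReal (ρ j) (σ ^ 2).toNNReal))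
        {v | -(η * nrm y) ≤ v ⬝ᵥ y ∧ v ⬝ᵥ y ≤ 0} ≤
      ENNReal.ofReal (3 * η * (1 / σ + 2 * R / σ ^ 2)) *
        (Measure.pi (fun j => gaussianReal (ρ j) (σ ^ 2).toNNReal)) {v | v ⬝ᵥ y ≤ 0} := by
  have hn := nrm_pos_of_ne hy
  set z : Fin d → ℝ := (nrm y)⁻¹ • y with hz
  have hyy : nrm y * nrm y = y ⬝ᵥ y := by
    unfold nrm
    apply Real.mul_self_sqrt
    simp only [dotProduct]
    exact Finset.sum_nonneg (fun i _ => mul_self_nonneg _)
  have hzz : z ⬝ᵥ z = 1 := by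
    rw [hz, smul_dotProduct, dotProduct_smul, smul_eq_mul, smul_eq_mul, ← hyy]
    field_simp
  have hvz : ∀ v : Fin d → ℝ, v ⬝ᵥ y = nrm y * (v ⬝ᵥ z) := by
    intro v
    rw [hz, dotProduct_smul, smul_eq_mul]
    field_simp
  have hlaw := dot_law ρ (σ ^ 2).toNNReal z hzz
  have hdm : Measurable (fun v : Fin d → ℝ => v ⬝ᵥ z) :=
    dot_measurable measurable_id measurable_const
  have s1 : {v : Fin d → ℝ | -(η * nrm y) ≤ v ⬝ᵥ y ∧ v ⬝ᵥ y ≤ 0} =
      (fun v => v ⬝ᵥ z) ⁻¹' Icc (-η) 0 := by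
    ext v
    simp only [mem_ofPred_eq, mem_preimage, mem_Icc, hvz v]
    constructor
    · rintro ⟨h1, h2⟩
      constructor
      · by_contra h
        rw [not_le] at h
        nlinarith
      · by_contra h
        rw [not_le] at h
        nlinarith
    · rintro ⟨h1, h2⟩
      constructor
      · nlinarith
      · nlinarith
  have s2 : {v : Fin d → ℝ | v ⬝ᵥ y ≤ 0} = (fun v => v ⬝ᵥ z) ⁻¹' Iic 0 := by
    ext v
    simp only [mem_ofPred_eq, mem_preimage, mem_Iic, hvz v]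
    constructor
    · intro h2
      by_contra h
      rw [not_le] at h
      nlinarith
    · intro h2
      nlinarith
  rw [s1, s2, ← Measure.map_apply hdm measurableSet_Icc, ← Measure.map_apply hdm measurableSet_Iic,
    hlaw]
  refine (gauss_hazard hσ hη).trans (mul_le_mul_left ?_ _)
  apply ENNReal.ofReal_le_ofReal
  apply mul_le_mul_of_nonneg_left _ (by positivity)
  have hcs : |ρ ⬝ᵥ z| ≤ R := by
    have h1 : (ρ ⬝ᵥ z) ^ 2 ≤ (∑ j, ρ j ^ 2) * (∑ j, z j ^ 2) :=
      Finset.sum_mul_sq_le_sq_mul_sq Finset.univ ρ z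
    have h2 : ∑ j, z j ^ 2 = 1 := by
      rw [← hzz]
      simp [dotProduct, pow_two]
    rw [h2, mul_one] at h1
    exact abs_le_of_sq_le_sq (h1.trans hρ) hR
  have : 2 * |ρ ⬝ᵥ z| / σ ^ 2 ≤ 2 * R / σ ^ 2 := by
    apply div_le_div_of_nonneg_right _ (by positivity)
    linarith
  linarith

/-- Given the coordinates outside `D`, the events on the coordinates in `D` are independent. -/
theorem cond_events {ι : Type} [Fintype ι] [DecidableEq ι] {V : Type} [MeasurableSpace V]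
    (ν : ι → Measure V) [∀ i, IsProbabilityMeasure (ν i)] (D : Finset ι)
    (E : Set (ι → V)) (hE : MeasurableSet E)
    (hED : ∀ ω ω' : ι → V, (∀ i ∉ D, ω i = ω' i) → (ω ∈ E ↔ ω' ∈ E))
    (H G : ι → Set ((ι → V) × V)) (hH : ∀ i, MeasurableSet (H i)) (hG : ∀ i, MeasurableSet (G i))
    (hHD : ∀ i v, ∀ ω ω' : ι → V, (∀ j ∉ D, ω j = ω' j) → ((ω, v) ∈ H i ↔ (ω', v) ∈ H i))
    (hGD : ∀ i v, ∀ ω ω' : ι → V, (∀ j ∉ D, ω j = ω' j) → ((ω, v) ∈ G i ↔ (ω', v) ∈ G i))
    (c : ℝ≥0∞) (hc : c ≠ ⊤)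
    (hle : ∀ i ∈ D, ∀ ω ∈ E, ν i {v | (ω, v) ∈ H i} ≤ c * ν i {v | (ω, v) ∈ G i}) :
    (Measure.pi ν) {ω | ω ∈ E ∧ ∀ i ∈ D, (ω, ω i) ∈ H i} ≤
      c ^ D.card * (Measure.pi ν) {ω | ω ∈ E ∧ ∀ i ∈ D, (ω, ω i) ∈ G i} := by
  classical
  set f : (ι → V) → ℝ≥0∞ := E.indicator 1 with hf
  have hfm : Measurable f := measurable_one.indicator hE
  have hfT : ∀ ω ω' : ι → V, (∀ i ∈ Dᶜ, ω i = ω' i) → f ω = f ω' := by
    intro ω ω' h
    have := hED ω ω' (fun i hi => h i (Finset.mem_compl.2 hi))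
    simp only [hf, Set.indicator_apply, this]
    rfl
  have hdisj : Disjoint Dᶜ D := disjoint_compl_left
  have key : ∀ (A : ι → Set ((ι → V) × V)), (∀ i, MeasurableSet (A i)) →
      (∀ i v, ∀ ω ω' : ι → V, (∀ j ∉ D, ω j = ω' j) → ((ω, v) ∈ A i ↔ (ω', v) ∈ A i)) →
      (Measure.pi ν) {ω | ω ∈ E ∧ ∀ i ∈ D, (ω, ω i) ∈ A i} =
        ∫⁻ ω, f ω * ∏ i ∈ D, ν i {v | (ω, v) ∈ A i} ∂(Measure.pi ν) := by
    intro A hA hAD
    have hp := prod_lemma ν Dᶜ D hdisj f hfm hfT
      (fun i ω v => (A i).indicator (fun _ => (1 : ℝ≥0∞)) (ω, v))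
      (fun i => measurable_const.indicator (hA i)) (by
        intro i v ω ω' h
        have := hAD i v ω ω' (fun j hj => h j (Finset.mem_compl.2 hj))
        simp only [Set.indicator_apply, this])
    have h1 : ∀ i ω, ∫⁻ v, (A i).indicator (fun _ => (1 : ℝ≥0∞)) (ω, v) ∂(ν i) =
        ν i {v | (ω, v) ∈ A i} := by
      intro i ω
      have hm : MeasurableSet {v : V | (ω, v) ∈ A i} := measurable_prodMk_left (hA i)
      rw [← lintegral_indicator_one hm]
      rfl
    simp only [h1] at hp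
    rw [← hp]
    have hm : MeasurableSet {ω : ι → V | ω ∈ E ∧ ∀ i ∈ D, (ω, ω i) ∈ A i} := by
      have h2 : {ω : ι → V | ω ∈ E ∧ ∀ i ∈ D, (ω, ω i) ∈ A i} =
          E ∩ ⋂ i ∈ D, {ω : ι → V | (ω, ω i) ∈ A i} := by
        ext ω
        simp
      rw [h2]
      exact hE.inter (Finset.measurableSet_biInter _ fun i _ =>
        (measurable_id.prodMk (measurable_pi_apply i)) (hA i))
    rw [← lintegral_indicator_one hm]
    apply lintegral_congr
    intro ω
    by_cases hω : ω ∈ E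
    · by_cases hall : ∀ i ∈ D, (ω, ω i) ∈ A i
      · rw [Set.indicator_of_mem (show ω ∈ {ω : ι → V | ω ∈ E ∧ ∀ i ∈ D, (ω, ω i) ∈ A i} from
          ⟨hω, hall⟩), hf, Set.indicator_of_mem hω]
        rw [Finset.prod_congr rfl (fun i hi => Set.indicator_of_mem (hall i hi) _)]
        simp
      · rw [Set.indicator_of_notMem (fun h => hall h.2)]
        push Not at hall
        obtain ⟨i, hi, hn⟩ := hall
        rw [Finset.prod_eq_zero hi (Set.indicator_of_notMem hn _), mul_zero]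
    · rw [Set.indicator_of_notMem (fun h => hω h.1), hf, Set.indicator_of_notMem hω, zero_mul]
  rw [key H hH hHD, key G hG hGD, ← Finset.prod_const, ← lintegral_const_mul']
  · apply lintegral_mono
    intro ω
    by_cases hω : ω ∈ E
    · show f ω * ∏ i ∈ D, ν i {v | (ω, v) ∈ H i} ≤
        (∏ _i ∈ D, c) * (f ω * ∏ i ∈ D, ν i {v | (ω, v) ∈ G i})
      rw [mul_left_comm, ← Finset.prod_mul_distrib]
      exact mul_le_mul_right (Finset.prod_le_prod' fun i hi => hle i hi ω hω) _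
    · show f ω * ∏ i ∈ D, ν i {v | (ω, v) ∈ H i} ≤
        (∏ _i ∈ D, c) * (f ω * ∏ i ∈ D, ν i {v | (ω, v) ∈ G i})
      rw [hf, Set.indicator_of_notMem hω, zero_mul]
      exact zero_le
  · exact ENNReal.prod_ne_top fun _ _ => hc

end Pool.Agent.Lib.S3
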