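import Pool.Agent.Lib.S3.DeepFace

/-! The points `p_i` in the homogeneous chart `N = 1`, with all quantitative hypotheses explicit. -/

set_option autoImplicit false

open Module

namespace Pool.Agent.Lib.S3

/-- Walls of a chart basis: few rows `W` make all rows bounded combinations. -/
theorem exists_weak_N {κ : Type} [Fintype κ] [DecidableEq κ] {n : ℕ}
    (ρ : κ → Fin (n + 1) → ℝ) (N : Fin (n + 1) → ℝ) (J : Fin n → κ) (Mb ε : ℝ) (w : ℕ)
    (hMb : 0 ≤ Mb) (hρ : ∀ r j, |ρ r j| ≤ Mb) (hN : ∀ j, |N j| ≤ Mb) (hε0 : 0 < ε) (hε1 : ε ≤ 1)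
    (hdet : ((n + 1).factorial : ℝ) * Mb ^ (n + 1) * ε ^ (w + 1) <
      |(Matrix.of (Fin.cons N (fun k => ρ (J k)) : Fin (n + 1) → Fin (n + 1) → ℝ)).det|) :
    ∃ W : Finset κ, (∀ r ∈ W, ∀ k, J k ≠ r) ∧ W.card ≤ w ∧
      ∀ r, ∃ (α : κ → ℝ) (c0 : ℝ) (c : Fin n → ℝ), (∀ s, |α s| ≤ 1) ∧ |c0| ≤ 1 / ε ∧
        (∀ j, |c j| ≤ 1 / ε) ∧
        ρ r = ∑ s ∈ W, α s • ρ s + c0 • N + ∑ j, c j • ρ (J j) := by
  classical
  let a : Option κ → Fin (n + 1) → ℝ := fun o => Option.elim o N ρ
  let e : Fin (n + 1) → Option κ := Fin.cons none (fun k => some (J k))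
  have hae : (fun k => a (e k)) = (Fin.cons N (fun k => ρ (J k)) : Fin (n + 1) → Fin (n + 1) → ℝ) := by
    funext k
    refine Fin.cases ?_ (fun k => ?_) k
    · simp [a, e]
    · simp [a, e]
  have hdetE : (Pi.basisFun ℝ (Fin (n + 1))).det (fun k => a (e k)) =
      (Matrix.of (Fin.cons N (fun k => ρ (J k)) : Fin (n + 1) → Fin (n + 1) → ℝ)).det := by
    rw [Pi.basisFun_det_apply, hae]
  have hpos : 0 < |(Matrix.of (Fin.cons N (fun k => ρ (J k)) :
      Fin (n + 1) → Fin (n + 1) → ℝ)).det| := lt_of_le_of_lt (by positivity) hdet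
  obtain ⟨W, hW1, hW2, hW3⟩ := exists_weak (Pi.basisFun ℝ (Fin (n + 1))) a e ε hε0 hε1 (by
    rw [hdetE]
    exact abs_pos.1 hpos)
  have hWnone : none ∉ W := by
    intro h
    exact hW1 none h 0 (by simp [e])
  let W' : Finset κ := Finset.univ.filter (fun r => some r ∈ W)
  have hWW : W = W'.image (fun r => (some r : Option κ)) := by
    ext o
    constructor
    · intro ho
      cases o with
      | none => exact absurd ho hWnone
      | some r => exact Finset.mem_image.2 ⟨r, Finset.mem_filter.2 ⟨Finset.mem_univ _, ho⟩, rfl⟩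
    · intro ho
      obtain ⟨r, hr, hro⟩ := Finset.mem_image.1 ho
      rw [← hro]
      exact (Finset.mem_filter.1 hr).2
  have hcard : W.card = W'.card := by
    rw [hWW]
    exact Finset.card_image_of_injective _ (Option.some_injective κ)
  refine ⟨W', ?_, ?_, ?_⟩
  · intro r hr k hk
    apply hW1 (some r) (Finset.mem_filter.1 hr).2 k.succ
    simp [e, hk]
  · rw [← hcard]
    by_contra hlt
    push Not at hlt
    have h1 : ε ^ W.card ≤ ε ^ (w + 1) := pow_le_pow_of_le_one hε0.le hε1 hlt
    have h2 : mdet (Pi.basisFun ℝ (Fin (n + 1))) a Finset.univ ≤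
        ((n + 1).factorial : ℝ) * Mb ^ (n + 1) := by
      apply mdet_pi_le a Finset.univ Mb hMb
      intro o _ j
      cases o with
      | none => exact hN j
      | some r => exact hρ r j
    rw [hdetE] at hW2
    have h3 : ε ^ W.card * mdet (Pi.basisFun ℝ (Fin (n + 1))) a Finset.univ ≤
        ε ^ (w + 1) * (((n + 1).factorial : ℝ) * Mb ^ (n + 1)) :=
      mul_le_mul h1 h2 (mdet_nonneg _ _ _) (by positivity)
    nlinarith
  · intro r
    obtain ⟨α, c, hα, hc, har⟩ := hW3 (some r)
    refine ⟨fun s => α (some s), c 0, fun j => c j.succ, fun s => hα _, hc 0, fun j => hc _, ?_⟩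
    rw [Fin.sum_univ_succ] at har
    have h1 : a (some r) = ρ r := rfl
    have h2 : ∑ w ∈ W, α w • a w = ∑ s ∈ W', α (some s) • ρ s := by
      rw [hWW, Finset.sum_image (fun _ _ _ _ h => Option.some_injective κ h)]
      rfl
    have h3 : a (e 0) = N := by simp [a, e]
    have h4 : ∀ j : Fin n, a (e j.succ) = ρ (J j) := by
      intro j
      simp [a, e]
    rw [h1, h2, h3] at har
    simp only [h4] at har
    rw [har]
    abel

/-- Deep points of all faces which contain the protected rows, homogeneous chart. -/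
theorem points_N {κ : Type} [Fintype κ] [DecidableEq κ] {n : ℕ}
    (ρ : κ → Fin (n + 1) → ℝ) (N : Fin (n + 1) → ℝ) (J : Fin n → κ) (u X : Fin (n + 1) → ℝ)
    (D : Finset κ) (Mb ε γ η θ : ℝ) (w : ℕ)
    (hMb : 0 ≤ Mb) (hρ : ∀ r j, |ρ r j| ≤ Mb) (hN : ∀ j, |N j| ≤ Mb) (hε0 : 0 < ε) (hε1 : ε ≤ 1)
    (hdet : ((n + 1).factorial : ℝ) * Mb ^ (n + 1) * ε ^ (w + 1) <
      |(Matrix.of (Fin.cons N (fun k => ρ (J k)) : Fin (n + 1) → Fin (n + 1) → ℝ)).det|)
    (hNu : N ⬝ᵥ u = 1) (hu : ∀ k, ρ (J k) ⬝ᵥ u = 0) (hfu : ∀ r, 0 ≤ ρ r ⬝ᵥ u)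
    (hD : ∀ r, r ∉ D → (∀ k, J k ≠ r) → η ≤ ρ r ⬝ᵥ u)
    (hNX : N ⬝ᵥ X = 1) (hγ : 0 < γ) (hX : ∀ r, γ ≤ ρ r ⬝ᵥ X) (hXB : ∑ k, ρ (J k) ⬝ᵥ X ≤ 1)
    (hθ0 : 0 < θ) (hθ1 : θ ≤ 1 / 2) (hθ : 4 * θ ≤ η * ε) :
    ∃ Y : Finset κ, (∀ y ∈ Y, ∃ k, J k = y) ∧ Y.card ≤ 2 * (D.card + w + 1) ∧
      ∀ A : Finset κ, Y ⊆ A → ∃ p : Fin (n + 1) → ℝ, N ⬝ᵥ p = 1 ∧
        (∀ k, J k ∉ A → ρ (J k) ⬝ᵥ p = 0) ∧
        (∀ k, J k ∈ A → θ * γ / (4 * ((n : ℝ) + 1)) ≤ ρ (J k) ⬝ᵥ p) ∧
        (∀ r, (∀ k, J k ≠ r) → θ * γ ≤ ρ r ⬝ᵥ p) ∧ ∑ k, ρ (J k) ⬝ᵥ p ≤ 1 := by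
  classical
  obtain ⟨W, hW1, hW2, hW3⟩ := exists_weak_N ρ N J Mb ε w hMb hρ hN hε0 hε1 hdet
  let a : Option κ → Fin (n + 1) → ℝ := fun o => Option.elim o N (fun r => - ρ r)
  let b : Option κ → ℝ := fun o => Option.elim o 1 (fun _ => 0)
  let e : Fin (n + 1) → Option κ := Fin.cons none (fun k => some (J k))
  let T0 : Finset (Option κ) := {none}
  have hpos : 0 < |(Matrix.of (Fin.cons N (fun k => ρ (J k)) :
      Fin (n + 1) → Fin (n + 1) → ℝ)).det| := lt_of_le_of_lt (by positivity) hdet
  have hdet' : (Matrix.of (fun k => a (e k))).det ≠ 0 := by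
    have h1 : Matrix.of (fun k => a (e k)) =
        Matrix.of (fun k j => (Fin.cons 1 (fun _ => (-1 : ℝ)) : Fin (n + 1) → ℝ) k *
          Matrix.of (Fin.cons N (fun k => ρ (J k)) : Fin (n + 1) → Fin (n + 1) → ℝ) k j) := by
      ext k j
      refine Fin.cases ?_ (fun k => ?_) k
      · simp [a, e]
      · simp [a, e]
    rw [h1, Matrix.det_mul_column]
    apply mul_ne_zero
    · rw [Finset.prod_ne_zero_iff]
      intro k _
      refine Fin.cases ?_ (fun k => ?_) k
      · simp
      · simp
    · exact abs_pos.1 hpos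
  have hsome : ∀ x : Fin (n + 1) → ℝ, ∀ r, b (some r) - a (some r) ⬝ᵥ x = ρ r ⬝ᵥ x := by
    intro x r
    simp [a, b, neg_dotProduct]
  have he0 : e 0 = none := rfl
  have hes : ∀ k : Fin n, e k.succ = some (J k) := fun k => rfl
  have hεinv : 0 ≤ 1 / ε := by positivity
  have hη : 0 < η := by
    by_contra hneg
    push Not at hneg
    nlinarith [mul_nonpos_of_nonpos_of_nonneg hneg hε0.le]
  obtain ⟨Y, hY1, hY2, hY3⟩ := deep_face a b T0 (D.image some) (W.image some) e hdet'
    (by
      intro r hr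
      rw [Finset.mem_singleton] at hr
      exact ⟨0, by rw [hr, he0]⟩)
    u X γ η (1 / ε) 1 θ
    (by
      intro k
      refine Fin.cases ?_ (fun k => ?_) k
      · rw [he0]
        exact hNu
      · rw [hes]
        have := hsome u (J k)
        rw [hu k] at this
        linarith)
    (by
      intro o
      cases o with
      | none => exact hNu.le
      | some r =>
        have := hsome u r
        linarith [hfu r])
    (by
      intro o hoD hoe
      cases o with
      | none => exact absurd he0 (hoe 0)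
      | some r =>
        rw [hsome u r]
        apply hD
        · intro h
          exact hoD (Finset.mem_image.2 ⟨r, h, rfl⟩)
        · intro k hk
          apply hoe k.succ
          rw [hes, hk])
    (by
      intro o ho k hk
      obtain ⟨r, hr, hro⟩ := Finset.mem_image.1 ho
      revert hk
      refine Fin.cases ?_ (fun k => ?_) k
      · rw [he0, ← hro]
        exact fun h => nomatch h
      · rw [hes, ← hro]
        intro h
        exact hW1 r hr k (Option.some_injective κ h))
    (by
      intro o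
      cases o with
      | none =>
        refine ⟨fun _ => 0, fun j => if j = 0 then 1 else 0, ?_, ?_⟩
        · intro j
          by_cases hj : j = 0
          · simp only [if_pos hj, abs_one]
            rw [le_div_iff₀ hε0, one_mul]
            exact hε1
          · simp only [if_neg hj, abs_zero]
            exact hεinv
        · simp [he0]
      | some r =>
        obtain ⟨α, c0, c, _, hc0, hc, hr⟩ := hW3 r
        refine ⟨fun o => Option.elim o 0 α, Fin.cons (-c0) c, ?_, ?_⟩
        · intro j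
          refine Fin.cases ?_ (fun k => ?_) j
          · simpa using hc0
          · simpa using hc k
        · rw [Finset.sum_image (fun _ _ _ _ h => Option.some_injective κ h), Fin.sum_univ_succ]
          simp only [he0, hes, Fin.cons_zero, Fin.cons_succ, Option.elim, a]
          rw [hr]
          simp only [smul_neg, Finset.sum_neg_distrib, neg_smul]
          abel)
    (by
      intro o ho
      rw [Finset.mem_singleton] at ho
      rw [ho]
      exact hNX)
    (by
      intro o ho
      cases o with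
      | none => exact absurd (Finset.mem_singleton.2 rfl) ho
      | some r =>
        rw [hsome X r]
        exact hX r)
    (by
      rw [Fin.sum_univ_succ]
      simp only [he0, hes, hsome]
      have h0 : b none - a none ⬝ᵥ X = 0 := by
        show (1 : ℝ) - N ⬝ᵥ X = 0
        rw [hNX, sub_self]
      rw [h0, zero_add]
      exact hXB)
    hγ hεinv hθ0 hθ1
    (by
      have h1 : θ * (2 * (1 / ε) * 1) = 2 * θ / ε := by ring
      rw [h1, div_le_iff₀ hε0]
      linarith)
  let Y' : Finset κ := Finset.univ.filter (fun r => some r ∈ Y)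
  have hYY : ∀ o ∈ Y, ∃ r, o = some r ∧ r ∈ Y' := by
    intro o ho
    cases o with
    | none => exact absurd (Finset.mem_singleton.2 rfl) (hY1 none ho).1
    | some r => exact ⟨r, rfl, Finset.mem_filter.2 ⟨Finset.mem_univ _, ho⟩⟩
  refine ⟨Y', ?_, ?_, ?_⟩
  · intro y hy
    obtain ⟨_, k, hk⟩ := hY1 (some y) (Finset.mem_filter.1 hy).2
    revert hk
    refine Fin.cases ?_ (fun k => ?_) k
    · rw [he0]
      exact fun h => nomatch h
    · rw [hes]
      intro h
      exact ⟨k, Option.some_injective κ h⟩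
  · have h1 : Y'.card ≤ Y.card := by
      have h2 : (Y'.image (fun r => (some r : Option κ))).card = Y'.card :=
        Finset.card_image_of_injective _ (Option.some_injective κ)
      rw [← h2]
      apply Finset.card_le_card
      intro o ho
      obtain ⟨r, hr, hro⟩ := Finset.mem_image.1 ho
      rw [← hro]
      exact (Finset.mem_filter.1 hr).2
    have h2 : (D.image (some : κ → Option κ) ∪ W.image (some : κ → Option κ)).card
        ≤ D.card + W.card := by
      refine le_trans (Finset.card_union_le _ _) ?_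
      exact Nat.add_le_add Finset.card_image_le Finset.card_image_le
    omega
  · intro A hYA
    obtain ⟨p, hp1, hp2, hp3, hp4, hp5⟩ := hY3 (A.image some) (by
      intro o ho
      obtain ⟨r, hr, hrY⟩ := hYY o ho
      exact Finset.mem_image.2 ⟨r, hYA hrY, hr.symm⟩)
    have hmem : ∀ r, (some r : Option κ) ∈ A.image some ↔ r ∈ A := by
      intro r
      constructor
      · intro h
        obtain ⟨s, hs, hsr⟩ := Finset.mem_image.1 h
        rw [← Option.some_injective κ hsr]
        exact hs
      · intro h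
        exact Finset.mem_image.2 ⟨r, h, rfl⟩
    refine ⟨p, ?_, ?_, ?_, ?_, ?_⟩
    · exact hp1 none (Finset.mem_singleton.2 rfl)
    · intro k hk
      have h1 := hp2 k.succ (by
        rw [hes, hmem]
        exact hk)
      rw [hes] at h1
      have h2 := hsome p (J k)
      linarith
    · intro k hk
      have h1 := hp3 k.succ (by
        rw [hes]
        intro h
        have h' : (some (J k) : Option κ) = none := Finset.mem_singleton.1 h
        exact nomatch h') (by
        rw [hes, hmem]
        exact hk)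
      rw [hes, hsome p (J k)] at h1
      have h2 : ((n + 1 : ℕ) : ℝ) = (n : ℝ) + 1 := by push_cast; ring
      rw [h2] at h1
      exact h1
    · intro r hr
      have h1 := hp4 (some r) (by
        intro k
        refine Fin.cases ?_ (fun k => ?_) k
        · rw [he0]
          exact fun h => nomatch h
        · rw [hes]
          intro h
          exact hr k (Option.some_injective κ h))
      rw [hsome p r] at h1
      exact h1
    · rw [Fin.sum_univ_succ] at hp5
      simp only [he0, hes, hsome] at hp5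
      have h0 : b none - a none ⬝ᵥ p = 0 := by
        have := hp1 none (Finset.mem_singleton.2 rfl)
        linarith
      rw [h0, zero_add] at hp5
      exact hp5

end Pool.Agent.Lib.S3
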