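import Pool.Agent.Lib.S3.PayLight

/-!
# Few small multipliers at a minimiser (MP_4a5c02_co)

`Γ` has private coins `q r` on the rows `r ∈ C`. Outside a small event fewer than `p` rows of `C`
are tight at the minimiser with a multiplier at most `τ`. Everything is relative to a set `F` that
the coins do not see (for instance feasibility with a size box).
-/

set_option autoImplicit false

open Matrix MeasureTheory ProbabilityTheory
open scoped ENNReal NNReal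

namespace Pool.Agent.Lib.S3.Cert

open Classical in
/-- At least `p` rows of `C` are tight at the minimiser on the face `T` and have multipliers at
most `τ`. -/
def ManyLight {ι : Type*} {n : ℕ} (ρ : ι → Fin (n + 1) → ℝ) (N Γ : Fin (n + 1) → ℝ) (T : Set ι)
    (C : Finset ι) (τ : ℝ) (p : ℕ) : Prop :=
  ∃ J : Fin n → ι, Crt ρ N Γ T J ∧
    p ≤ (C.filter fun o => o ∉ T ∧ ∃ k, J k = o ∧ lam ρ N Γ J k ≤ τ).card

/-- Many light rows give a light event for a subset of `C` with exactly `p` elements. -/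
theorem ManyLight.exists_sub {ι : Type*} {n : ℕ} {ρ : ι → Fin (n + 1) → ℝ}
    {N Γ : Fin (n + 1) → ℝ} {T : Set ι} {C : Finset ι} {τ : ℝ} {p : ℕ}
    (h : ManyLight ρ N Γ T C τ p) :
    ∃ D ∈ C.powersetCard p, ∃ J : Fin n → ι, Light ρ N Γ T D τ J := by
  classical
  obtain ⟨J, hc, hp⟩ := h
  obtain ⟨D, hD, hDc⟩ := Finset.exists_subset_card_eq hp
  refine ⟨D, Finset.mem_powersetCard.mpr ⟨hD.trans (Finset.filter_subset _ _), hDc⟩, J, hc,
    fun o ho => ?_⟩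
  have := (Finset.mem_filter.mp (hD ho)).2
  exact this

/-- Few small multipliers. -/
theorem many_light_bound {κ : Type*} [Fintype κ] [DecidableEq κ] {ι : Type*} [Fintype ι] {n : ℕ}
    (c : κ → ℝ) (v : κ → ℝ≥0) (hv : ∀ i, v i ≠ 0)
    (ρ : (κ → ℝ) → ι → Fin (n + 1) → ℝ) (N Γ : (κ → ℝ) → Fin (n + 1) → ℝ)
    (hρm : ∀ o k, Measurable fun ω => ρ ω o k) (hNm : ∀ k, Measurable fun ω => N ω k)
    (hΓm : ∀ k, Measurable fun ω => Γ ω k)
    (T : Set ι) (C : Finset ι) (q : ι → κ) (hq : Set.InjOn q C) (φ τ W R : ℝ) (hφ : 0 < φ)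
    (hW : 0 < W) (hτ : 0 ≤ τ) (hR : 0 ≤ R) (p : ℕ)
    (hρs : ∀ D ⊆ C, ∀ t ω, ρ (ω + csh q D t) = ρ ω) (hNs : ∀ D ⊆ C, ∀ t ω,
      N (ω + csh q D t) = N ω)
    (hΓs : ∀ D ⊆ C, ∀ t ω, Γ (ω + csh q D t) = Γ ω + φ • ∑ r ∈ D, t r • ρ ω r)
    (F F' : Set (κ → ℝ)) (hF : MeasurableSet F) (hF' : MeasurableSet F')
    (hinv : ∀ D ⊆ C, ∀ t : ι → ℝ, (∀ r ∈ D, 0 ≤ t r ∧ t r ≤ W) → ∀ ω, ω + csh q D t ∈ F → ω ∈ F')
    (hbox : ∀ ω ∈ F, ∀ r ∈ C, |ω (q r) - c (q r)| ≤ R)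
    (K : ℝ) (hK : ∀ D ⊆ C, D.card = p → ∑ r ∈ D, W * (2 * R + W) / (2 * v (q r)) ≤ K) :
    Measure.pi (fun i => gaussianReal (c i) (v i))
        ({ω | ManyLight (ρ ω) (N ω) (Γ ω) T C τ p} ∩ F) ≤
      (Fintype.card ι : ℝ≥0∞) ^ p * ENNReal.ofReal (Real.exp K * (2 * τ / φ / W) ^ p) *
        Measure.pi (fun i => gaussianReal (c i) (v i)) F' := by
  classical
  set μ := Measure.pi (fun i => gaussianReal (c i) (v i)) with hμ
  have hsub : {ω | ManyLight (ρ ω) (N ω) (Γ ω) T C τ p} ∩ F ⊆ ⋃ D ∈ C.powersetCard p,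
      ({ω | ∃ J : Fin n → ι, Light (ρ ω) (N ω) (Γ ω) T D τ J} ∩ F) := by
    rintro ω ⟨h1, h2⟩
    obtain ⟨D, hD, hJ⟩ := h1.exists_sub
    exact Set.mem_biUnion (Finset.mem_coe.mpr hD) ⟨hJ, h2⟩
  have h1 : ∀ D ∈ C.powersetCard p,
      μ ({ω | ∃ J : Fin n → ι, Light (ρ ω) (N ω) (Γ ω) T D τ J} ∩ F) ≤
        ENNReal.ofReal (Real.exp K * (2 * τ / φ / W) ^ p) * μ F' := by
    intro D hD
    obtain ⟨hDC, hDp⟩ := Finset.mem_powersetCard.mp hD
    have := pay_light c v hv ρ N Γ hρm hNm hΓm T D q (hq.mono (by exact_mod_cast hDC)) φ τ W R hφ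
      hW hτ hR (hρs D hDC) (hNs D hDC) (hΓs D hDC) F F' hF hF' (hinv D hDC)
      (fun ω hω r hr => hbox ω hω r (hDC hr)) K (hK D hDC hDp)
    rwa [hDp] at this
  calc μ ({ω | ManyLight (ρ ω) (N ω) (Γ ω) T C τ p} ∩ F)
      ≤ μ (⋃ D ∈ C.powersetCard p,
        ({ω | ∃ J : Fin n → ι, Light (ρ ω) (N ω) (Γ ω) T D τ J} ∩ F)) := measure_mono hsub
    _ ≤ ∑ D ∈ C.powersetCard p,
        μ ({ω | ∃ J : Fin n → ι, Light (ρ ω) (N ω) (Γ ω) T D τ J} ∩ F) :=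
      measure_biUnion_finset_le _ _
    _ ≤ ∑ _D ∈ C.powersetCard p,
        ENNReal.ofReal (Real.exp K * (2 * τ / φ / W) ^ p) * μ F' := Finset.sum_le_sum h1
    _ = ((C.powersetCard p).card : ℝ≥0∞) *
        (ENNReal.ofReal (Real.exp K * (2 * τ / φ / W) ^ p) * μ F') := by
      rw [Finset.sum_const, nsmul_eq_mul]
    _ ≤ (Fintype.card ι : ℝ≥0∞) ^ p *
        (ENNReal.ofReal (Real.exp K * (2 * τ / φ / W) ^ p) * μ F') := by
      gcongr
      rw [Finset.card_powersetCard]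
      have h2 : C.card.choose p ≤ (Fintype.card ι) ^ p :=
        (Nat.choose_le_pow _ _).trans (Nat.pow_le_pow_left (Finset.card_le_univ C) p)
      exact_mod_cast h2
    _ = _ := by rw [mul_assoc]

end Pool.Agent.Lib.S3.Cert
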