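import Pool.Agent.Lib.SHirsch.KKl

/-!
# Larman's bound for simple polyhedra (S3, smoothed Hirsch)

`larman`: two vertices of a `d`-dimensional face with at most `s` inequality rows are at distance
at most `4 ^ d * s`. Proof: levels = distances from `u`; the rows tight on a level form intervals of
levels; in a cover of all levels by the smallest number of rows every row meets at most `3` of the
chosen ones; each chosen row `i` spans at most `4 ^ (d-1) * #N i` levels by induction.
-/

set_option autoImplicit false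

namespace Pool.Agent.Lib.S3

open Pool.Agent.Lib.SHirsch

/-- A family of intervals covering `0, .., D` has a subfamily which still covers, and such that every
member of the family meets at most three members of the subfamily. -/
theorem interval_cover {ι : Type} [DecidableEq ι] (S : Finset ι) (D : ℕ) (Lam : ι → Finset ℕ)
    (hint : ∀ i ∈ S, ∀ k1 ∈ Lam i, ∀ k2 ∈ Lam i, ∀ k, k1 ≤ k → k ≤ k2 → k ∈ Lam i)
    (hcov : ∀ k ≤ D, ∃ i ∈ S, k ∈ Lam i) :
    ∃ sel ⊆ S, (∀ k ≤ D, ∃ i ∈ sel, k ∈ Lam i) ∧
      ∀ j ∈ S, (sel.filter (fun i => (Lam i ∩ Lam j).Nonempty)).card ≤ 3 := by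
  classical
  set Fam := S.powerset.filter (fun A => ∀ k ≤ D, ∃ i ∈ A, k ∈ Lam i) with hFam
  have hne : Fam.Nonempty := ⟨S, by
    rw [hFam, Finset.mem_filter]
    exact ⟨Finset.mem_powerset_self S, hcov⟩⟩
  obtain ⟨sel, hsel, hmin⟩ := Finset.exists_min_image Fam Finset.card hne
  rw [hFam, Finset.mem_filter, Finset.mem_powerset] at hsel
  obtain ⟨hselS, hselc⟩ := hsel
  refine ⟨sel, hselS, hselc, ?_⟩
  intro j hj
  by_contra hcon
  rw [not_le] at hcon
  set M := sel.filter (fun i => (Lam i ∩ Lam j).Nonempty) with hM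
  have hMne : M.Nonempty := Finset.card_pos.1 (by omega)
  have hMS : M ⊆ sel := Finset.filter_subset _ _
  -- the member reaching lowest
  obtain ⟨α, hα, hαmin⟩ := Finset.exists_min_image M (fun i => sInf (Lam i : Set ℕ)) hMne
  obtain ⟨β, hβ, hβmax⟩ := Finset.exists_max_image M (fun i => (Lam i).sup id) hMne
  have hmeet : ∀ i ∈ M, ∃ k, k ∈ Lam i ∧ k ∈ Lam j := by
    intro i hi
    rw [hM, Finset.mem_filter] at hi
    obtain ⟨k, hk⟩ := hi.2
    rw [Finset.mem_inter] at hk
    exact ⟨k, hk.1, hk.2⟩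
  have hinS : ∀ i ∈ M, i ∈ S := fun i hi => hselS (hMS hi)
  -- the union of the members of `M` is covered by `α`, `β`, `j`
  have hcover : ∀ i ∈ M, ∀ k ∈ Lam i, k ∈ Lam α ∨ k ∈ Lam β ∨ k ∈ Lam j := by
    intro i hi k hk
    obtain ⟨x, hxi, hxj⟩ := hmeet i hi
    obtain ⟨y, hyα, hyj⟩ := hmeet α hα
    obtain ⟨z, hzβ, hzj⟩ := hmeet β hβ
    have hlowα : sInf (Lam α : Set ℕ) ∈ (Lam α : Set ℕ) := Nat.sInf_mem ⟨y, hyα⟩
    have hlow : sInf (Lam α : Set ℕ) ≤ k := (hαmin i hi).trans (Nat.sInf_le hk)
    have hupβ : (Lam β).sup id ∈ Lam β := by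
      obtain ⟨t, ht, hteq⟩ := Finset.exists_mem_eq_sup (Lam β) ⟨z, hzβ⟩ id
      rw [hteq]; exact ht
    have hup : k ≤ (Lam β).sup id := (Finset.le_sup (f := id) hk).trans (hβmax i hi)
    rcases le_or_gt k y with h1 | h1
    · left
      exact hint α (hinS α hα) _ hlowα y hyα k hlow h1
    · rcases le_or_gt z k with h2 | h2
      · right; left
        exact hint β (hinS β hβ) z hzβ _ hupβ k h2 hup
      · right; right
        exact hint j hj y hyj z hzj k h1.le h2.le
  set sel' := (sel \ M) ∪ {α, β, j} with hsel'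
  have hsel'S : sel' ⊆ S := by
    intro i hi
    rw [hsel', Finset.mem_union] at hi
    rcases hi with hi | hi
    · exact hselS (Finset.mem_sdiff.1 hi).1
    · rw [Finset.mem_insert, Finset.mem_insert, Finset.mem_singleton] at hi
      rcases hi with hi | hi | hi
      · rw [hi]; exact hinS α hα
      · rw [hi]; exact hinS β hβ
      · rw [hi]; exact hj
  have hsel'c : ∀ k ≤ D, ∃ i ∈ sel', k ∈ Lam i := by
    intro k hk
    obtain ⟨i, hi, hki⟩ := hselc k hk
    by_cases hiM : i ∈ M
    · rcases hcover i hiM k hki with h | h | h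
      · exact ⟨α, by rw [hsel']; simp, h⟩
      · exact ⟨β, by rw [hsel']; simp, h⟩
      · exact ⟨j, by rw [hsel']; simp, h⟩
    · exact ⟨i, by rw [hsel', Finset.mem_union, Finset.mem_sdiff]; exact Or.inl ⟨hi, hiM⟩, hki⟩
  have hle : sel.card ≤ sel'.card := by
    refine hmin sel' ?_
    rw [hFam, Finset.mem_filter, Finset.mem_powerset]
    exact ⟨hsel'S, hsel'c⟩
  have h1 : sel'.card ≤ (sel \ M).card + 3 := by
    refine (Finset.card_union_le _ _).trans ?_
    have : ({α, β, j} : Finset ι).card ≤ 3 := Finset.card_le_three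
    omega
  have h2 : (sel \ M).card + M.card = sel.card := by
    rw [Finset.card_sdiff_add_card_eq_card hMS]
  omega

/-- The bound inside one facet. -/
theorem facet_bound {m n : ℕ} {a : Fin m → Fin n → ℝ} {b : Fin m → ℝ} (hG : GPos a b) (d : ℕ)
    (ih : ∀ (T S : Finset (Fin m)), T.card + d = n → Disjoint T S → ∀ u v : Fin n → ℝ,
      Vert a b T S u → Vert a b T S v → Reach a b T S (4 ^ d * S.card) u v)
    {T S N : Finset (Fin m)} (hT : T.card + (d + 1) = n) (hTS : Disjoint T S) {i : Fin m}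
    (hi : i ∈ S) (hN : N ⊆ S.erase i)
    (hNt : ∀ w, Vert a b T S w → a i ⬝ᵥ w = b i → ∀ j ∈ S, j ≠ i → a j ⬝ᵥ w = b j → j ∈ N)
    {u v : Fin n → ℝ} (hu : Vert a b T S u) (hv : Vert a b T S v) (hiu : a i ⬝ᵥ u = b i)
    (hiv : a i ⬝ᵥ v = b i) : Reach a b T S (4 ^ d * N.card) u v := by
  classical
  have hiT : i ∉ T := fun h => Finset.disjoint_left.1 hTS h hi
  have hvert : ∀ w, Vert a b T S w → a i ⬝ᵥ w = b i → Vert a b (insert i T) N w := by
    intro w hw hwi
    have hP : w ∈ Pol a b (insert i T) N := by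
      have := (vert_face hw hi hwi).1
      exact ⟨this.1, fun j hj => this.2 j (hN hj)⟩
    refine (vert_of_subset hG hP (I := tt a b (T ∪ S) w) ?_ (le_of_eq hw.2.symm)).1
    intro j hj
    obtain ⟨hj1, hj2⟩ := mem_tt.1 hj
    rcases Finset.mem_union.1 hj1 with h | h
    · exact mem_tt.2 ⟨Finset.mem_union_left _ (Finset.mem_insert_of_mem h), hj2⟩
    · by_cases hji : j = i
      · subst hji
        exact mem_tt.2 ⟨Finset.mem_union_left _ (Finset.mem_insert_self _ _), hj2⟩
      · exact mem_tt.2 ⟨Finset.mem_union_right _ (hNt w hw hwi j h hji hj2), hj2⟩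
  have h1 := ih (insert i T) N (by rw [Finset.card_insert_of_notMem hiT]; omega)
    (by
      rw [Finset.disjoint_insert_left]
      exact ⟨fun h => Finset.notMem_erase i S (hN h),
        Finset.disjoint_of_subset_right (hN.trans (Finset.erase_subset i S)) hTS⟩)
    u v (hvert u hu hiu) (hvert v hv hiv)
  have h2 := stay hG (T := insert i T) (S := S.erase i) (F' := N) hN (v := u)
    (r0 := 4 ^ d * N.card)
    (fun j hj w hw ht => by
      have hwT : Reach a b T S (4 ^ d * N.card) u w := reach_face hi hw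
      have hwv := reach_vert hw
      exact hNt w (reach_vert hwT) (hwv.1.1 i (Finset.mem_insert_self _ _)) j
        (Finset.mem_of_mem_erase hj) (Finset.ne_of_mem_erase hj) ht)
    (vert_face hu hi hiu) (4 ^ d * N.card) le_rfl v h1
  exact reach_face hi h2

/-- Larman's bound. -/
theorem larman_card {m n : ℕ} {a : Fin m → Fin n → ℝ} {b : Fin m → ℝ} (hG : GPos a b) (d : ℕ) :
    ∀ (T S : Finset (Fin m)), T.card + d = n → Disjoint T S → ∀ u v : Fin n → ℝ,
      Vert a b T S u → Vert a b T S v → Reach a b T S (4 ^ d * S.card) u v := by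
  classical
  induction d with
  | zero =>
    intro T S hT hTS u v hu hv
    have huv : u = v := by
      refine eq_of_tight hG (I := T) (by omega) (fun i hi => ?_)
      rw [hu.1.1 i hi, hv.1.1 i hi]
    have h0 : Reach a b T S 0 u v := ⟨hu, huv⟩
    exact reach_mono (Nat.zero_le _) h0
  | succ d ih =>
    intro T S hT hTS u v hu hv
    -- levels
    let L : (Fin n → ℝ) → ℕ := fun w => sInf {r | Reach a b T S r u w}
    have hLr : ∀ w, Vert a b T S w → Reach a b T S (L w) u w := by
      intro w hw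
      exact Nat.sInf_mem (s := {r | Reach a b T S r u w}) (conn hG hu hw)
    have hLle : ∀ w r, Reach a b T S r u w → L w ≤ r := fun w r h => Nat.sInf_le h
    have hLadd : ∀ w w' r, Vert a b T S w → Reach a b T S r w w' → L w' ≤ L w + r := by
      intro w w' r hw h
      exact hLle _ _ (reach_trans (hLr w hw) h)
    set D := L v with hD
    have hK : ∀ w, Vert a b T S w → L w ≤ KB (d + 1) S.card := fun w hw =>
      hLle w _ (kalai_kleitman hG (d + 1) S.card T S hT hTS le_rfl u w hu hw)
    -- rows sharing a vertex with `i`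
    let N : Fin m → Finset (Fin m) := fun i =>
      (S.erase i).filter (fun j => ∃ w, Vert a b T S w ∧ a i ⬝ᵥ w = b i ∧ a j ⬝ᵥ w = b j)
    let Lam : Fin m → Finset ℕ := fun i =>
      (Finset.range (KB (d + 1) S.card + 1)).filter
        (fun k => ∃ w, Vert a b T S w ∧ a i ⬝ᵥ w = b i ∧ L w = k)
    have hfac : ∀ i ∈ S, ∀ w w', Vert a b T S w → Vert a b T S w' → a i ⬝ᵥ w = b i →
        a i ⬝ᵥ w' = b i → Reach a b T S (4 ^ d * (N i).card) w w' := by
      intro i hi w w' hw hw' h1 h2
      refine facet_bound hG d ih hT hTS hi (Finset.filter_subset _ _) ?_ hw hw' h1 h2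
      intro z hz hzi j hj hji hzj
      exact Finset.mem_filter.2 ⟨Finset.mem_erase.2 ⟨hji, hj⟩, z, hz, hzi, hzj⟩
    -- every level is hit
    have hlev : ∀ k w, Vert a b T S w → L w = k → ∀ k' ≤ k, ∃ w', Vert a b T S w' ∧ L w' = k' := by
      intro k
      induction k with
      | zero =>
        intro w hw hk k' hk'
        exact ⟨w, hw, by omega⟩
      | succ k ihk =>
        intro w hw hk k' hk'
        by_cases hkk : k' = k + 1
        · exact ⟨w, hw, by omega⟩
        · have h := hLr w hw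
          rw [hk] at h
          obtain ⟨z, hz, hwv, hor⟩ := h
          have hzV := reach_vert hz
          have hz1 : L z ≤ k := hLle z k hz
          have hstep : Reach a b T S 1 z w := ⟨z, ⟨hzV, rfl⟩, hw, hor⟩
          have hz2 : L w ≤ L z + 1 := hLadd z w 1 hzV hstep
          exact ihk z hzV (by omega) k' (by omega)
    have hcov : ∀ k ≤ D, ∃ i ∈ S, k ∈ Lam i := by
      intro k hk
      obtain ⟨w, hw, hwk⟩ := hlev D v hv rfl k hk
      have hex : ∃ i ∈ tt a b (T ∪ S) w, i ∉ T := by
        by_contra hcon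
        have h1 : (tt a b (T ∪ S) w).card ≤ T.card :=
          Finset.card_le_card (fun i hi => by_contra fun h => hcon ⟨i, hi, h⟩)
        have h2 := hw.2
        omega
      obtain ⟨i, hi, hiT⟩ := hex
      obtain ⟨hi1, hi2⟩ := mem_tt.1 hi
      rcases Finset.mem_union.1 hi1 with h | h
      · exact absurd h hiT
      · refine ⟨i, h, Finset.mem_filter.2 ⟨Finset.mem_range.2 ?_, w, hw, hi2, hwk⟩⟩
        have := hK w hw
        omega
    have hint : ∀ i ∈ S, ∀ k1 ∈ Lam i, ∀ k2 ∈ Lam i, ∀ k, k1 ≤ k → k ≤ k2 → k ∈ Lam i := by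
      intro i hi k1 hk1 k2 hk2 k h1 h2
      obtain ⟨_, w1, hw1, hw1i, hw1k⟩ := Finset.mem_filter.1 hk1
      obtain ⟨hk2D, w2, hw2, hw2i, hw2k⟩ := Finset.mem_filter.1 hk2
      have hk2D' := Finset.mem_range.1 hk2D
      obtain ⟨r, hr⟩ := conn hG (vert_face hw1 hi hw1i) (vert_face hw2 hi hw2i)
      have key : ∀ r w, Reach a b (insert i T) (S.erase i) r w1 w → k ≤ L w →
          ∃ z, Vert a b T S z ∧ a i ⬝ᵥ z = b i ∧ L z = k := by
        intro r
        induction r with
        | zero =>
          intro w hw hkw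
          obtain ⟨_, h4⟩ := hw
          subst h4
          exact ⟨w1, hw1, hw1i, by omega⟩
        | succ r ihr =>
          intro w hw hkw
          have hw' := hw
          obtain ⟨z, hz, hwv, hor⟩ := hw
          by_cases hkz : k ≤ L z
          · exact ihr z hz hkz
          · have hzV : Vert a b T S z := reach_vert (reach_face hi hz)
            have hwV : Vert a b T S w := reach_vert (reach_face hi hw')
            have hzw : Reach a b (insert i T) (S.erase i) 1 z w :=
              ⟨z, ⟨reach_vert hz, rfl⟩, hwv, hor⟩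
            have h5 := hLadd z w 1 hzV (reach_face hi hzw)
            exact ⟨w, hwV, hwv.1.1 i (Finset.mem_insert_self _ _), by omega⟩
      obtain ⟨z, hz, hzi, hzk⟩ := key r w2 hr (by omega)
      exact Finset.mem_filter.2 ⟨Finset.mem_range.2 (by omega), z, hz, hzi, hzk⟩
    obtain ⟨sel, hselS, hselc, hsel3⟩ := interval_cover S D Lam hint hcov
    -- the number of levels of one row
    have hLamc : ∀ i ∈ S, (Lam i).card ≤ 4 ^ d * (N i).card + 1 := by
      intro i hi
      rcases (Lam i).eq_empty_or_nonempty with he | hne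
      · rw [he]; simp
      · have hsub : Lam i ⊆ Finset.Icc (sInf (Lam i : Set ℕ))
            (sInf (Lam i : Set ℕ) + 4 ^ d * (N i).card) := by
          intro k hk
          have h0 : sInf (Lam i : Set ℕ) ∈ (Lam i : Set ℕ) := Nat.sInf_mem hne
          rw [Finset.mem_Icc]
          refine ⟨Nat.sInf_le hk, ?_⟩
          obtain ⟨_, w1, hw1, hw1i, hw1k⟩ := Finset.mem_filter.1 (Finset.mem_coe.1 h0)
          obtain ⟨_, w2, hw2, hw2i, hw2k⟩ := Finset.mem_filter.1 hk
          have h6 := hLadd w1 w2 _ hw1 (hfac i hi w1 w2 hw1 hw2 hw1i hw2i)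
          omega
        refine (Finset.card_le_card hsub).trans ?_
        rw [Nat.card_Icc]
        omega
    have hsum1 : D + 1 ≤ ∑ i ∈ sel, (Lam i).card := by
      have hsub : Finset.range (D + 1) ⊆ sel.biUnion Lam := by
        intro k hk
        obtain ⟨i, hi, hki⟩ := hselc k (by have := Finset.mem_range.1 hk; omega)
        exact Finset.mem_biUnion.2 ⟨i, hi, hki⟩
      have h7 := (Finset.card_le_card hsub).trans Finset.card_biUnion_le
      rwa [Finset.card_range] at h7
    have hsum2 : ∑ i ∈ sel, (N i).card ≤ 3 * S.card := by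
      have h8 : ∀ i ∈ sel, (N i).card = ∑ j ∈ S, if j ∈ N i then 1 else 0 := by
        intro i _
        rw [Finset.sum_boole, Nat.cast_id]
        congr 1
        ext j
        simp only [Finset.mem_filter]
        constructor
        · intro h
          exact ⟨Finset.mem_of_mem_erase (Finset.mem_filter.1 h).1, h⟩
        · exact fun h => h.2
      rw [Finset.sum_congr rfl h8, Finset.sum_comm]
      have h9 : ∀ j ∈ S, (∑ i ∈ sel, if j ∈ N i then 1 else 0) ≤ 3 := by
        intro j hj
        refine le_trans ?_ (hsel3 j hj)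
        rw [Finset.sum_boole, Nat.cast_id]
        refine Finset.card_le_card ?_
        intro i hi
        rw [Finset.mem_filter] at hi ⊢
        refine ⟨hi.1, ?_⟩
        obtain ⟨_, w, hw, hwi, hwj⟩ := Finset.mem_filter.1 hi.2
        have hwK := hK w hw
        exact ⟨L w, Finset.mem_inter.2
          ⟨Finset.mem_filter.2 ⟨Finset.mem_range.2 (by omega), w, hw, hwi, rfl⟩,
            Finset.mem_filter.2 ⟨Finset.mem_range.2 (by omega), w, hw, hwj, rfl⟩⟩⟩
      calc ∑ j ∈ S, (∑ i ∈ sel, if j ∈ N i then 1 else 0) ≤ ∑ j ∈ S, 3 := Finset.sum_le_sum h9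
        _ = 3 * S.card := by rw [Finset.sum_const, smul_eq_mul, mul_comm]
    have hsum3 : D + 1 ≤ ∑ i ∈ sel, (4 ^ d * (N i).card + 1) :=
      hsum1.trans (Finset.sum_le_sum (fun i hi => hLamc i (hselS hi)))
    rw [Finset.sum_add_distrib, ← Finset.mul_sum, Finset.sum_const, smul_eq_mul, mul_one] at hsum3
    have h10 : sel.card ≤ S.card := Finset.card_le_card hselS
    have h11 : 1 ≤ 4 ^ d := Nat.one_le_pow _ _ (by norm_num)
    have h12 : 4 ^ d * ∑ i ∈ sel, (N i).card ≤ 4 ^ d * (3 * S.card) := Nat.mul_le_mul_left _ hsum2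
    have h13 : S.card ≤ 4 ^ d * S.card := Nat.le_mul_of_pos_left _ (by omega)
    have h14 : D ≤ 4 ^ (d + 1) * S.card := by
      have : 4 ^ (d + 1) * S.card = 4 ^ d * (3 * S.card) + 4 ^ d * S.card := by ring
      omega
    exact reach_mono h14 (hLr v hv)

/-- Larman's bound with a bound on the number of inequality rows. -/
theorem larman {m n : ℕ} {a : Fin m → Fin n → ℝ} {b : Fin m → ℝ} (hG : GPos a b) (d s : ℕ)
    (T S : Finset (Fin m)) (hT : T.card + d = n) (hTS : Disjoint T S) (hS : S.card ≤ s)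
    (u v : Fin n → ℝ) (hu : Vert a b T S u) (hv : Vert a b T S v) :
    Reach a b T S (4 ^ d * s) u v :=
  reach_mono (Nat.mul_le_mul_left _ hS) (larman_card hG d T S hT hTS u v hu hv)

/-- Vertices and walks of a face `T' ⊇ T` are vertices and walks of the polyhedron. -/
theorem reach_of_face {m n : ℕ} {a : Fin m → Fin n → ℝ} {b : Fin m → ℝ}
    {T S T' : Finset (Fin m)} (h1 : T ⊆ T') (h2 : T' ⊆ T ∪ S) {r : ℕ} {x y : Fin n → ℝ}
    (h : Reach a b T' (S \ T') r x y) : Reach a b T S r x y := by
  classical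
  have hun : T' ∪ (S \ T') = T ∪ S := by
    ext i
    simp only [Finset.mem_union, Finset.mem_sdiff]
    constructor
    · rintro (h | h)
      · exact Finset.mem_union.1 (h2 h)
      · exact Or.inr h.1
    · rintro (h | h)
      · exact Or.inl (h1 h)
      · by_cases hi : i ∈ T'
        · exact Or.inl hi
        · exact Or.inr ⟨h, hi⟩
  have hvert : ∀ z, Vert a b T' (S \ T') z → Vert a b T S z := by
    intro z hz
    obtain ⟨⟨g1, g2⟩, g3⟩ := hz
    rw [hun] at g3
    refine ⟨⟨fun j hj => g1 j (h1 hj), fun j hj => ?_⟩, g3⟩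
    by_cases hi : j ∈ T'
    · exact (g1 j hi).le
    · exact g2 j (Finset.mem_sdiff.2 ⟨hj, hi⟩)
  induction r generalizing y with
  | zero => exact ⟨hvert _ h.1, h.2⟩
  | succ r ih =>
    obtain ⟨z, g1, g2, g3⟩ := h
    refine ⟨z, ih g1, hvert _ g2, ?_⟩
    rcases g3 with g3 | g3
    · exact Or.inl g3
    · right
      obtain ⟨g4, g5⟩ := g3
      rw [hun] at g5
      exact ⟨g4, g5⟩

/-- Two vertices which share all but at most `h` of their tight rows are at distance at most
`4 ^ h * s`. -/
theorem larman_common {m n : ℕ} {a : Fin m → Fin n → ℝ} {b : Fin m → ℝ} (hG : GPos a b)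
    (T S : Finset (Fin m)) (u v : Fin n → ℝ) (hu : Vert a b T S u) (hv : Vert a b T S v) (h s : ℕ)
    (hS : S.card ≤ s) (hc : n ≤ (tt a b (T ∪ S) u ∩ tt a b (T ∪ S) v).card + h) :
    Reach a b T S (4 ^ h * s) u v := by
  classical
  set T' := tt a b (T ∪ S) u ∩ tt a b (T ∪ S) v with hT'
  have h1 : T ⊆ T' := by
    intro i hi
    rw [hT', Finset.mem_inter]
    exact ⟨mem_tt.2 ⟨Finset.mem_union_left _ hi, hu.1.1 i hi⟩,
      mem_tt.2 ⟨Finset.mem_union_left _ hi, hv.1.1 i hi⟩⟩
  have h2 : T' ⊆ T ∪ S := by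
    intro i hi
    rw [hT', Finset.mem_inter] at hi
    exact (mem_tt.1 hi.1).1
  have hcard : T'.card ≤ n := by
    have := Finset.card_le_card (Finset.inter_subset_left (s₁ := tt a b (T ∪ S) u)
      (s₂ := tt a b (T ∪ S) v))
    rw [hu.2] at this
    exact this
  have hun : T' ∪ (S \ T') = T ∪ S := by
    ext i
    simp only [Finset.mem_union, Finset.mem_sdiff]
    constructor
    · rintro (h | h)
      · exact Finset.mem_union.1 (h2 h)
      · exact Or.inr h.1
    · rintro (h | h)
      · exact Or.inl (h1 h)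
      · by_cases hi : i ∈ T'
        · exact Or.inl hi
        · exact Or.inr ⟨h, hi⟩
  have hvert : ∀ z, Vert a b T S z → (∀ i ∈ T', a i ⬝ᵥ z = b i) → Vert a b T' (S \ T') z := by
    intro z hz hzt
    refine ⟨⟨hzt, fun j hj => hz.1.2 j (Finset.mem_sdiff.1 hj).1⟩, ?_⟩
    rw [hun]; exact hz.2
  have hu' := hvert u hu (fun i hi => by
    rw [hT', Finset.mem_inter] at hi; exact (mem_tt.1 hi.1).2)
  have hv' := hvert v hv (fun i hi => by
    rw [hT', Finset.mem_inter] at hi; exact (mem_tt.1 hi.2).2)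
  have hd : n - T'.card ≤ h := by omega
  have hR := larman hG (n - T'.card) s T' (S \ T') (by omega)
    Finset.disjoint_sdiff ((Finset.card_le_card Finset.sdiff_subset).trans hS) u v hu' hv'
  exact reach_mono (Nat.mul_le_mul_right _ (Nat.pow_le_pow_right (by norm_num) hd))
    (reach_of_face h1 h2 hR)

end Pool.Agent.Lib.S3
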