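import Mathlib

/-!
# Localisation (smoothed Hirsch, MP_4a5c02)

A Gaussian vector of variance `v₁ + v₂` is the sum of independent Gaussian vectors of variances
`v₁` and `v₂`. If an event `A` survives, as membership in `F`, every perturbation of size `ρ`,
then it is enough to bound `A` for an arbitrary centre and variance `v₂`.
-/

set_option autoImplicit false

open MeasureTheory ProbabilityTheory
open scoped ENNReal NNReal

namespace Pool.Agent.Lib.S3.Local

/-- The sum of two independent Gaussian vectors. -/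
theorem pi_gauss_split {ι : Type*} [Fintype ι] (c : ι → ℝ) (v₁ v₂ : ι → ℝ≥0) :
    Measure.pi (fun i => gaussianReal (c i) (v₁ i + v₂ i)) =
      ((Measure.pi fun i => gaussianReal (c i) (v₁ i)).prod
        (Measure.pi fun i => gaussianReal 0 (v₂ i))).map (fun p => p.1 + p.2) := by
  have h1 := (measurePreserving_arrowProdEquivProdArrow ℝ ℝ ι
    (fun i => gaussianReal (c i) (v₁ i)) (fun i => gaussianReal 0 (v₂ i))).map_eq
  rw [← h1, Measure.map_map (by fun_prop) (MeasurableEquiv.measurable _)]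
  have h2 : ((fun p : (ι → ℝ) × (ι → ℝ) => p.1 + p.2) ∘
      (MeasurableEquiv.arrowProdEquivProdArrow ℝ ℝ ι)) =
      fun (x : ι → ℝ × ℝ) i => (fun q : ℝ × ℝ => q.1 + q.2) (x i) := by
    funext x
    rfl
  rw [h2, Measure.pi_map_pi (f := fun _ (q : ℝ × ℝ) => q.1 + q.2)
    (fun i => by fun_prop)]
  congr 1
  funext i
  have h3 := gaussianReal_conv_gaussianReal (m₁ := c i) (m₂ := 0) (v₁ := v₁ i) (v₂ := v₂ i)
  rw [add_zero] at h3
  rw [← h3]
  rfl

/-- The localisation inequality, abstract form: `μ` is the law of `x + z`. -/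
theorem local_abs {X : Type*} [MeasurableSpace X] [Add X] [MeasurableAdd₂ X]
    (μ₁ μ₂ : Measure X) [IsProbabilityMeasure μ₁] [IsProbabilityMeasure μ₂]
    (A F : Set X) (hA : MeasurableSet A) (hF : MeasurableSet F)
    (S K : Set X) (hK : MeasurableSet K)
    (hsurv : ∀ x z, x + z ∈ A → z ∈ S → ∀ z' ∈ S, x + z' ∈ F)
    (hS : 1 / 2 ≤ μ₂ S) (τ τ' η : ℝ≥0∞) (hSc : μ₂ Sᶜ ≤ τ) (hKc : μ₁ Kᶜ ≤ τ')
    (hη : ∀ x ∈ K, μ₂ {z | x + z ∈ A} ≤ η) :
    ((μ₁.prod μ₂).map (fun p => p.1 + p.2)) A ≤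
      2 * η * ((μ₁.prod μ₂).map (fun p => p.1 + p.2)) F + τ + τ' := by
  have hadd : Measurable (fun p : X × X => p.1 + p.2) := measurable_add
  rw [Measure.map_apply hadd hA, Measure.map_apply hadd hF,
    Measure.prod_apply (hadd hA), Measure.prod_apply (hadd hF)]
  set φ : X → ℝ≥0∞ := fun x => μ₂ (Prod.mk x ⁻¹' ((fun p : X × X => p.1 + p.2) ⁻¹' F)) with hφ
  have hφm : Measurable φ := measurable_measure_prodMk_left (hadd hF)
  set G : Set X := {x | 1 / 2 ≤ φ x} with hG
  have hGm : MeasurableSet G := measurableSet_le measurable_const hφm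
  -- pointwise bound
  have hpt : ∀ x, μ₂ (Prod.mk x ⁻¹' ((fun p : X × X => p.1 + p.2) ⁻¹' A)) ≤
      G.indicator (fun _ => η) x + τ + Kᶜ.indicator (fun _ => 1) x := by
    intro x
    by_cases hxK : x ∈ K
    · by_cases hxG : x ∈ G
      · rw [Set.indicator_of_mem hxG]
        exact (hη x hxK).trans (by
          rw [add_assoc]
          exact le_self_add)
      · have hsub : Prod.mk x ⁻¹' ((fun p : X × X => p.1 + p.2) ⁻¹' A) ⊆ Sᶜ := by
          intro z hz hzS
          apply hxG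
          change 1 / 2 ≤ φ x
          refine hS.trans (measure_mono fun z' hz' => ?_)
          exact hsurv x z hz hzS z' hz'
        refine (measure_mono hsub).trans (hSc.trans ?_)
        rw [add_comm (G.indicator _ x) τ, add_assoc]
        exact le_self_add
    · have : Kᶜ.indicator (fun _ => (1 : ℝ≥0∞)) x = 1 := Set.indicator_of_mem hxK _
      rw [this]
      exact prob_le_one.trans le_add_self
  refine (lintegral_mono hpt).trans ?_
  rw [lintegral_add_right _ (measurable_const.indicator hK.compl),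
    lintegral_add_right _ measurable_const, lintegral_indicator_const hGm,
    lintegral_indicator_const hK.compl, lintegral_const, measure_univ, mul_one, one_mul]
  refine add_le_add (add_le_add ?_ le_rfl) hKc
  -- Markov
  have hM : 1 / 2 * μ₁ G ≤ ∫⁻ x, φ x ∂μ₁ := mul_meas_ge_le_lintegral hφm (1 / 2)
  have h4 : μ₁ G ≤ 2 * ∫⁻ x, φ x ∂μ₁ := by
    calc μ₁ G = 2 * (1 / 2 * μ₁ G) := by
          rw [← mul_assoc, ENNReal.mul_div_cancel (by simp) (by simp), one_mul]
      _ ≤ _ := by gcongr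
  calc η * μ₁ G ≤ η * (2 * ∫⁻ x, φ x ∂μ₁) := by gcongr
    _ = 2 * η * ∫⁻ x, φ x ∂μ₁ := by ring

/-- Localisation for Gaussian vectors: every coordinate `i` has variance `v₁ i + v₂ i`; it is
enough to bound `A` for the variances `v₂` around an arbitrary centre in `K`. -/
theorem local_gauss {ι : Type*} [Fintype ι] (c : ι → ℝ) (v₁ v₂ : ι → ℝ≥0)
    (A F : Set (ι → ℝ)) (hA : MeasurableSet A) (hF : MeasurableSet F) (ρ : ℝ)
    (K : Set (ι → ℝ)) (hK : MeasurableSet K)
    (hsurv : ∀ x ∈ A, ∀ z : ι → ℝ, (∀ i, |z i| ≤ 2 * ρ) → x + z ∈ F)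
    (τ τ' η : ℝ≥0∞) (hτ : τ ≤ 1 / 2)
    (hSc : Measure.pi (fun i => gaussianReal 0 (v₂ i)) {z | ∃ i, ρ < |z i|} ≤ τ)
    (hKc : Measure.pi (fun i => gaussianReal (c i) (v₁ i)) Kᶜ ≤ τ')
    (hη : ∀ x ∈ K, Measure.pi (fun i => gaussianReal (x i) (v₂ i)) A ≤ η) :
    Measure.pi (fun i => gaussianReal (c i) (v₁ i + v₂ i)) A ≤
      2 * η * Measure.pi (fun i => gaussianReal (c i) (v₁ i + v₂ i)) F + τ + τ' := by
  rw [pi_gauss_split]
  have hc : {z : ι → ℝ | ∃ i, ρ < |z i|} = {z : ι → ℝ | ∀ i, |z i| ≤ ρ}ᶜ := by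
    ext z
    simp [not_forall]
  rw [hc] at hSc
  have hSm : MeasurableSet {z : ι → ℝ | ∀ i, |z i| ≤ ρ} := by
    rw [Set.ofPred_forall]
    exact MeasurableSet.iInter fun i => measurableSet_le (by fun_prop) measurable_const
  refine local_abs _ _ A F hA hF {z | ∀ i, |z i| ≤ ρ} K hK ?_ ?_ τ τ' η hSc hKc ?_
  · intro x z hx hz z' hz'
    have h1 : x + z' = (x + z) + (z' - z) := by abel
    rw [h1]
    refine hsurv _ hx _ fun i => ?_
    have h2 := hz i
    have h3 := hz' i
    rw [Pi.sub_apply]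
    calc |z' i - z i| ≤ |z' i| + |z i| := abs_sub _ _
      _ ≤ 2 * ρ := by linarith
  · have h5 := prob_add_prob_compl (μ := Measure.pi (fun i => gaussianReal (0 : ℝ) (v₂ i))) hSm
    have h6 : (1 : ℝ≥0∞) ≤ Measure.pi (fun i => gaussianReal (0 : ℝ) (v₂ i))
        {z : ι → ℝ | ∀ i, |z i| ≤ ρ} + 1 / 2 := by
      refine h5.symm.le.trans ?_
      gcongr
      exact hSc.trans hτ
    have h7 : (1 : ℝ≥0∞) / 2 + 1 / 2 = 1 := ENNReal.add_halves 1
    have h8 : (1 : ℝ≥0∞) / 2 ≠ ⊤ := by simp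
    have h9 : (1 : ℝ≥0∞) / 2 + 1 / 2 ≤ Measure.pi (fun i => gaussianReal (0 : ℝ) (v₂ i))
        {z : ι → ℝ | ∀ i, |z i| ≤ ρ} + 1 / 2 := by rw [h7]; exact h6
    exact (ENNReal.add_le_add_iff_right h8).mp h9
  · intro x hx
    refine le_trans (le_of_eq ?_) (hη x hx)
    -- translation
    have h8 : Measure.pi (fun i => gaussianReal (x i) (v₂ i)) =
        (Measure.pi (fun i => gaussianReal 0 (v₂ i))).map (fun z => x + z) := by
      have h9 : (fun z : ι → ℝ => x + z) = fun (z : ι → ℝ) i => (fun y : ℝ => x i + y) (z i) := by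
        funext z; rfl
      rw [h9, Measure.pi_map_pi (f := fun i (y : ℝ) => x i + y) (fun i => by fun_prop)]
      congr 1
      funext i
      rw [gaussianReal_map_const_add]
      simp
    rw [h8, Measure.map_apply (by fun_prop) hA]
    rfl

end Pool.Agent.Lib.S3.Local
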