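import Mathlib

/-! Maximal determinant bases: in a finite family of vectors of a real vector space there is a
basis of the span such that all members of the family have coordinates of absolute value at most
one. Quantitative versions used to count walls in the exit argument for smoothed polyhedra. -/

set_option autoImplicit false

open Module

namespace Pool.Agent.Lib.S3

variable {ι V : Type} [Fintype ι] [AddCommGroup V] [Module ℝ V]

/-- Cramer: replacing the `j`-th member of a family by a combination multiplies the determinant by
the `j`-th coefficient. -/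
theorem det_update_comb {r : ℕ} {W : Type} [AddCommGroup W] [Module ℝ W]
    (b : Basis (Fin r) ℝ W) (v : Fin r → W) (α : Fin r → ℝ) (j : Fin r) :
    b.det (Function.update v j (∑ k, α k • v k)) = α j * b.det v := by
  classical
  rw [AlternatingMap.map_update_sum]
  rw [Finset.sum_eq_single j]
  · rw [AlternatingMap.map_update_smul, Function.update_eq_self, smul_eq_mul]
  · intro k _ hk
    rw [AlternatingMap.map_update_smul]
    have : b.det (Function.update v j (v k)) = 0 := by
      apply AlternatingMap.map_update_self
      exact fun h => hk h.symm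
    rw [this, smul_zero]
  · intro h
    exact absurd (Finset.mem_univ j) h

/-- A maximal determinant basis of the span of a finite family. -/
theorem exists_maxdet (h : ι → V) :
    ∃ (r : ℕ) (E : Fin r → ι), LinearIndependent ℝ (h ∘ E) ∧
      ∀ i, ∃ α : Fin r → ℝ, (∀ j, |α j| ≤ 1) ∧ h i = ∑ j, α j • h (E j) := by
  classical
  set W := Submodule.span ℝ (Set.range h) with hW
  have hfin : FiniteDimensional ℝ W := FiniteDimensional.span_of_finite ℝ (Set.finite_range h)
  let r := finrank ℝ W
  let b0 : Basis (Fin r) ℝ W := Module.finBasis ℝ W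
  have hmem : ∀ i, h i ∈ W := fun i => Submodule.subset_span ⟨i, rfl⟩
  let h' : ι → W := fun i => ⟨h i, hmem i⟩
  -- a basis extracted from the family
  have hspan : Submodule.span ℝ (Set.range h') = ⊤ := by
    rw [eq_top_iff]
    have h1 : Submodule.map W.subtype (Submodule.span ℝ (Set.range h')) =
        Submodule.map W.subtype ⊤ := by
      rw [Submodule.map_span, Submodule.map_top, Submodule.range_subtype, ← Set.range_comp]
      rfl
    have h2 := Submodule.map_injective_of_injective (f := W.subtype) W.injective_subtype h1
    rw [h2]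
  obtain ⟨E0, hE0⟩ : ∃ E0 : Fin r → ι, b0.det (h' ∘ E0) ≠ 0 := by
    obtain ⟨s, hs1, hs2, hs3⟩ := exists_linearIndependent ℝ (Set.range h')
    rw [hspan] at hs2
    let bs : Basis s ℝ W := Basis.mk hs3 (by rw [Subtype.range_coe]; exact hs2.ge)
    have : Fintype s := FiniteDimensional.fintypeBasisIndex bs
    have hcard : Fintype.card s = r := (finrank_eq_card_basis bs).symm
    let e : Fin r ≃ s := (Fintype.equivFinOfCardEq hcard).symm
    have hch : ∀ x : s, ∃ i, h' i = x := fun x => hs1 x.2
    choose f hf using hch
    refine ⟨fun j => f (e j), ?_⟩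
    have h3 : h' ∘ (fun j => f (e j)) = (bs.reindex e.symm) := by
      funext j
      simp only [Function.comp]
      rw [hf]
      simp [bs]
    rw [h3]
    exact (Basis.isUnit_det b0 (bs.reindex e.symm)).ne_zero
  have hne : Nonempty (Fin r → ι) := ⟨E0⟩
  obtain ⟨E, hE⟩ := Finite.exists_max (fun E : Fin r → ι => |b0.det (h' ∘ E)|)
  have hEpos : 0 < |b0.det (h' ∘ E)| := lt_of_lt_of_le (abs_pos.2 hE0) (hE E0)
  have hEne : b0.det (h' ∘ E) ≠ 0 := abs_pos.1 hEpos
  have hunit : IsUnit (b0.det (h' ∘ E)) := isUnit_iff_ne_zero.2 hEne
  have hb := (Module.Basis.is_basis_iff_det b0 (v := h' ∘ E)).2 hunit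
  refine ⟨r, E, ?_, ?_⟩
  · have h4 : LinearIndependent ℝ (W.subtype ∘ (h' ∘ E)) :=
      hb.1.map' W.subtype (by rw [Submodule.ker_subtype])
    exact h4
  · intro i
    let bE : Basis (Fin r) ℝ W := Basis.mk hb.1 hb.2.ge
    have hbE : ∀ j, bE j = h' (E j) := by
      intro j
      simp [bE]
    refine ⟨fun j => bE.repr (h' i) j, ?_, ?_⟩
    · intro j
      have h5 : h' i = ∑ k, (bE.repr (h' i) k) • (h' ∘ E) k := by
        conv_lhs => rw [← bE.sum_repr (h' i)]
        apply Finset.sum_congr rfl
        intro k _
        rw [hbE]
        rfl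
      have h6 := det_update_comb b0 (h' ∘ E) (fun k => bE.repr (h' i) k) j
      have h7 : Function.update (h' ∘ E) j (∑ k, (bE.repr (h' i) k) • (h' ∘ E) k) =
          h' ∘ (Function.update E j i) := by
        rw [← h5, Function.comp_update]
      rw [h7] at h6
      have h8 := hE (Function.update E j i)
      rw [h6, abs_mul] at h8
      have h9 : |bE.repr (h' i) j| * |b0.det (h' ∘ E)| ≤ 1 * |b0.det (h' ∘ E)| := by
        rw [one_mul]
        exact h8
      exact le_of_mul_le_mul_right h9 hEpos
    · have h5 : h' i = ∑ k, (bE.repr (h' i) k) • h' (E k) := by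
        conv_lhs => rw [← bE.sum_repr (h' i)]
        apply Finset.sum_congr rfl
        intro k _
        rw [hbE]
      have h10 := congrArg (W.subtype) h5
      rw [map_sum] at h10
      simpa [h'] using h10

end Pool.Agent.Lib.S3
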