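import Pool.Agent.Lib.SHirsch.Pay

/-!
# The payment engine: linear families of skew shifts of a Gaussian product

`pay_lin`: all coordinates are independent Gaussians. The event `E` is moved by the family of maps
`ω ↦ ω + ∑ k, t k • A k ω`, `t` in a cube `[0, W] ^ κ`, where `A k ω` has entries only on the
moved coordinates `M` and depends only on the other coordinates. If every map carries `E` back
into `E'` and if on every orbit the parameters leading into `E` are confined to length `eps`, then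
the probability of `E` is at most `exp K * (2 eps / W) ^ card κ` times the probability of `E'`.
-/

set_option autoImplicit false

open MeasureTheory ProbabilityTheory
open scoped ENNReal NNReal

namespace Pool.Agent.Lib.S3.PayLin

open Pool.Agent.Lib.SHirsch.Pay

/-- The shift. -/
def shift {ι κ : Type*} [Fintype κ] (A : κ → (ι → ℝ) → ι → ℝ) (t : κ → ℝ) (ω : ι → ℝ) : ι → ℝ :=
  fun i => ω i + ∑ k, t k * A k ω i

theorem shift_apply {ι κ : Type*} [Fintype κ] (A : κ → (ι → ℝ) → ι → ℝ) (t : κ → ℝ)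
    (ω : ι → ℝ) (i : ι) : shift A t ω i = ω i + ∑ k, t k * A k ω i := rfl

theorem shift_of_not {ι κ : Type*} [Fintype κ] {M : ι → Prop} {A : κ → (ι → ℝ) → ι → ℝ}
    (hsupp : ∀ k ω i, ¬ M i → A k ω i = 0) (t : κ → ℝ) (ω : ι → ℝ) (i : ι) (hi : ¬ M i) :
    shift A t ω i = ω i := by
  rw [shift_apply, Finset.sum_eq_zero, add_zero]
  intro k _
  rw [hsupp k ω i hi, mul_zero]

theorem coef_shift {ι κ : Type*} [Fintype κ] {M : ι → Prop} {A : κ → (ι → ℝ) → ι → ℝ}
    (hdep : ∀ k ω ω', (∀ i, ¬ M i → ω i = ω' i) → A k ω = A k ω')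
    (hsupp : ∀ k ω i, ¬ M i → A k ω i = 0) (t : κ → ℝ) (ω : ι → ℝ) (k : κ) :
    A k (shift A t ω) = A k ω :=
  hdep k _ _ fun i hi => shift_of_not hsupp t ω i hi

/-- Two shifts of one orbit. -/
theorem shift_shift {ι κ : Type*} [Fintype κ] {M : ι → Prop} {A : κ → (ι → ℝ) → ι → ℝ}
    (hdep : ∀ k ω ω', (∀ i, ¬ M i → ω i = ω' i) → A k ω = A k ω')
    (hsupp : ∀ k ω i, ¬ M i → A k ω i = 0) (t s : κ → ℝ) (ω : ι → ℝ) :
    shift A s (shift A t ω) = shift A (fun k => t k + s k) ω := by
  funext i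
  simp only [shift_apply, coef_shift hdep hsupp]
  rw [add_assoc, ← Finset.sum_add_distrib]
  congr 1
  exact Finset.sum_congr rfl fun k _ => by rw [add_mul]

theorem shift_zero {ι κ : Type*} [Fintype κ] (A : κ → (ι → ℝ) → ι → ℝ) (ω : ι → ℝ) :
    shift A (fun _ => 0) ω = ω := by
  funext i
  simp [shift_apply]

theorem measurable_shift {ι κ : Type*} [Fintype κ] (A : κ → (ι → ℝ) → ι → ℝ)
    (hA : ∀ k, Measurable (A k)) :
    Measurable (fun p : (κ → ℝ) × (ι → ℝ) => shift A p.1 p.2) := by
  refine measurable_pi_lambda _ fun i => ?_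
  simp only [shift_apply]
  refine Measurable.add ((measurable_pi_apply i).comp measurable_snd) ?_
  refine Finset.measurable_sum _ fun k _ => ?_
  refine Measurable.mul ((measurable_pi_apply k).comp measurable_fst) ?_
  exact (measurable_pi_apply i).comp ((hA k).comp measurable_snd)

/-- The payment engine. -/
theorem pay_lin {ι κ : Type*} [Fintype ι] [Fintype κ] (c : ι → ℝ) (v : ι → ℝ≥0)
    (hv : ∀ i, v i ≠ 0) (M : ι → Prop) [DecidablePred M]
    (A : κ → (ι → ℝ) → ι → ℝ) (hA : ∀ k, Measurable (A k))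
    (hdep : ∀ k ω ω', (∀ i, ¬ M i → ω i = ω' i) → A k ω = A k ω')
    (hsupp : ∀ k ω i, ¬ M i → A k ω i = 0)
    (W eps : ℝ) (hW : 0 < W)
    (E E' : Set (ι → ℝ)) (hE : MeasurableSet E) (hE' : MeasurableSet E')
    (R H : ι → ℝ)
    (hR : ∀ ω ∈ E, ∀ i, M i → |ω i - c i| ≤ R i)
    (hH : ∀ ω ∈ E, ∀ k i, M i → |A k ω i| ≤ H i)
    (hinv : ∀ t : κ → ℝ, (∀ k, 0 ≤ t k ∧ t k ≤ W) → ∀ ω, shift A t ω ∈ E → ω ∈ E')
    (hconf : ∀ t t' : κ → ℝ, (∀ k, 0 ≤ t k ∧ t k ≤ W) → (∀ k, 0 ≤ t' k ∧ t' k ≤ W) →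
      ∀ ω, shift A t ω ∈ E → shift A t' ω ∈ E → ∀ k, |t k - t' k| ≤ eps)
    (K : ℝ) (hK : ∑ i, (if M i then (Fintype.card κ * W * H i) *
      (2 * R i + Fintype.card κ * W * H i) / (2 * v i) else 0) ≤ K) :
    Measure.pi (fun i => gaussianReal (c i) (v i)) E ≤
      ENNReal.ofReal (Real.exp K * (2 * eps / W) ^ Fintype.card κ) *
        Measure.pi (fun i => gaussianReal (c i) (v i)) E' := by
  rcases E.eq_empty_or_nonempty with hempty | ⟨ω₀, hω₀⟩
  · rw [hempty, measure_empty]; exact zero_le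
  have hH0 : ∀ (_ : κ) i, M i → 0 ≤ H i := fun k i hi => (abs_nonneg _).trans (hH ω₀ hω₀ k i hi)
  have hR0 : ∀ i, M i → 0 ≤ R i := fun i hi => (abs_nonneg _).trans (hR ω₀ hω₀ i hi)
  have heps : ∀ _ : κ, 0 ≤ eps := by
    intro k
    have h0 : ∀ _ : κ, (0 : ℝ) ≤ 0 ∧ (0 : ℝ) ≤ W := fun _ => ⟨le_rfl, hW.le⟩
    have := hconf (fun _ => 0) (fun _ => 0) h0 h0 ω₀ (by rw [shift_zero]; exact hω₀)
      (by rw [shift_zero]; exact hω₀) k
    simpa using this
  set μ := Measure.pi (fun i => gaussianReal (c i) (v i)) with hμ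
  set B : Set (κ → ℝ) := Set.Icc (fun _ => 0) (fun _ => W) with hB
  have hBm : MeasurableSet B := measurableSet_Icc
  have hmem : ∀ t ∈ B, ∀ k, 0 ≤ t k ∧ t k ≤ W := fun t ht k => ⟨ht.1 k, ht.2 k⟩
  have hmeas : MeasurableSet {p : (κ → ℝ) × (ι → ℝ) | shift A p.1 p.2 ∈ E} :=
    measurable_shift A hA hE
  have key := pay μ (volume : Measure (κ → ℝ)) (shift A) E E' B hBm hE' hmeas
    (ENNReal.ofReal (Real.exp K)) (ENNReal.ofReal (∏ _k : κ, (2 * eps))) ?_ ?_ ?_
  · have hvB : volume B = ENNReal.ofReal (W ^ Fintype.card κ) := by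
      rw [hB, Real.volume_Icc_pi]
      simp only [sub_zero]
      rw [Finset.prod_const, Finset.card_univ, ← ENNReal.ofReal_pow hW.le]
    rw [hvB] at key
    rw [Finset.prod_const, Finset.card_univ] at key
    have hWp : 0 < W ^ Fintype.card κ := pow_pos hW _
    have h1 : μ E = ENNReal.ofReal ((W ^ Fintype.card κ)⁻¹) *
        (ENNReal.ofReal (W ^ Fintype.card κ) * μ E) := by
      rw [← mul_assoc, ← ENNReal.ofReal_mul (by positivity), inv_mul_cancel₀ hWp.ne',
        ENNReal.ofReal_one, one_mul]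
    rw [h1]
    refine (mul_le_mul_right key _).trans (le_of_eq ?_)
    rw [← mul_assoc, ← mul_assoc]
    congr 1
    rcases Nat.eq_zero_or_pos (Fintype.card κ) with h0 | hpos
    · rw [h0]
      simp
    · have hne : Nonempty κ := Fintype.card_pos_iff.mp hpos
      have he := heps hne.some
      rw [← ENNReal.ofReal_mul (by positivity), ← ENNReal.ofReal_mul (by positivity)]
      congr 1
      rw [div_pow]
      field_simp
  · intro t ht
    refine gauss_quasi c v hv M (fun ω i => ∑ k, t k * A k ω i) ?_ ?_ ?_ E hE R K ?_ ?_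
    · refine measurable_pi_lambda _ fun i => ?_
      refine Finset.measurable_sum _ fun k _ => ?_
      exact measurable_const.mul ((measurable_pi_apply i).comp (hA k))
    · intro ω ω' h
      funext i
      exact Finset.sum_congr rfl fun k _ => by rw [hdep k ω ω' h]
    · intro ω i hi
      exact Finset.sum_eq_zero fun k _ => by rw [hsupp k ω i hi, mul_zero]
    · intro ω hω i hi
      by_cases hMi : M i
      · exact hR _ hω i hMi
      · exfalso
        exact hi (Finset.sum_eq_zero fun k _ => by rw [hsupp k ω i hMi, mul_zero])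
    · intro ω hω
      refine le_trans (Finset.sum_le_sum fun i _ => ?_) hK
      have hvi : (0 : ℝ) < v i := by
        have := pos_iff_ne_zero.mpr (hv i)
        exact_mod_cast this
      by_cases hMi : M i
      · rw [if_pos hMi]
        have hω' : shift A t ω ∈ E := hω
        have hb : |∑ k, t k * A k ω i| ≤ Fintype.card κ * W * H i := by
          refine (Finset.abs_sum_le_sum_abs _ _).trans ?_
          have : ∀ k ∈ (Finset.univ : Finset κ), |t k * A k ω i| ≤ W * H i := by
            intro k _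
            rw [abs_mul, abs_of_nonneg (hmem t ht k).1]
            refine mul_le_mul (hmem t ht k).2 ?_ (abs_nonneg _) hW.le
            have := hH _ hω' k i hMi
            rwa [coef_shift hdep hsupp] at this
          refine (Finset.sum_le_card_nsmul _ _ _ this).trans (le_of_eq ?_)
          rw [nsmul_eq_mul, Finset.card_univ, mul_assoc]
        have h0 := abs_nonneg (∑ k, t k * A k ω i)
        have hRi := hR0 i hMi
        refine div_le_div_of_nonneg_right ?_ (by positivity)
        refine mul_le_mul hb (by linarith) (by positivity) (h0.trans hb)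
      · rw [if_neg hMi]
        have : ∑ k, t k * A k ω i = 0 :=
          Finset.sum_eq_zero fun k _ => by rw [hsupp k ω i hMi, mul_zero]
        rw [this]
        simp
  · intro t ht ω hω
    exact hinv t (hmem t ht) ω hω
  · intro ω _
    refine box_slice _ (fun _ => eps) ?_
    rintro t ⟨ht, hS⟩ t' ⟨ht', hS'⟩ k
    exact hconf t t' (hmem t ht) (hmem t' ht') ω hS hS' k

end Pool.Agent.Lib.S3.PayLin
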