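import Pool.Agent.Lib.S3.CertMeas
import Pool.Agent.Lib.SHirsch.Pay

/-!
# The payment of a light failure (MP_4a5c02_co)

At the minimiser of `Γ` on a face the rows `D` are tight and have multipliers at most `τ`. Shifting
private coins `q r`, `r ∈ D`, moves `Γ` by `φ ∑ t_r ρ_r`, hence the multipliers by `φ t_r`.
-/

set_option autoImplicit false

open Matrix MeasureTheory ProbabilityTheory
open scoped ENNReal NNReal

namespace Pool.Agent.Lib.S3.Cert

/-- The shift of the coordinates `q r`, `r ∈ D`. -/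
noncomputable def csh {κ ι : Type*} [DecidableEq κ] (q : ι → κ) (D : Finset ι) (t : ι → ℝ) :
    κ → ℝ := ∑ r ∈ D, t r • Pi.single (q r) (1 : ℝ)

theorem csh_apply_of_mem {κ ι : Type*} [DecidableEq κ] {q : ι → κ} {D : Finset ι}
    (hq : Set.InjOn q D) (t : ι → ℝ) {r : ι} (hr : r ∈ D) : csh q D t (q r) = t r := by
  unfold csh
  rw [Finset.sum_apply, Finset.sum_eq_single_of_mem r hr]
  · simp
  · intro s hs hne
    rw [Pi.smul_apply, Pi.single_eq_of_ne, smul_zero]
    exact fun h => hne (hq hs hr h.symm)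

theorem csh_apply_of_notMem {κ ι : Type*} [DecidableEq κ] {q : ι → κ} {D : Finset ι}
    (t : ι → ℝ) {i : κ} (hi : ∀ r ∈ D, q r ≠ i) : csh q D t i = 0 := by
  unfold csh
  rw [Finset.sum_apply]
  refine Finset.sum_eq_zero fun s hs => ?_
  rw [Pi.smul_apply, Pi.single_eq_of_ne, smul_zero]
  exact fun h => hi s hs h.symm

/-- From the product form of a payment to the ratio form. -/
theorem ratio_of_prod {p : ℕ} {W η ρ : ℝ} (hW : 0 < W) (hρ : 0 ≤ ρ) {x y : ℝ≥0∞}
    (h : ENNReal.ofReal (W ^ p) * x ≤ ENNReal.ofReal ρ * ENNReal.ofReal (η ^ p) * y) :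
    x ≤ ENNReal.ofReal (ρ * (η / W) ^ p) * y := by
  have hWp : 0 < W ^ p := pow_pos hW p
  have h1 : x = ENNReal.ofReal (W ^ p)⁻¹ * (ENNReal.ofReal (W ^ p) * x) := by
    rw [← mul_assoc, ← ENNReal.ofReal_mul (inv_nonneg.mpr hWp.le), inv_mul_cancel₀ hWp.ne',
      ENNReal.ofReal_one, one_mul]
  rw [h1]
  refine (mul_le_mul_right h _).trans (le_of_eq ?_)
  rw [← mul_assoc, ← ENNReal.ofReal_mul hρ, ← ENNReal.ofReal_mul (inv_nonneg.mpr hWp.le)]
  congr 2
  rw [div_pow]
  field_simp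

/-- The payment of a light failure. -/
theorem pay_light {κ : Type*} [Fintype κ] [DecidableEq κ] {ι : Type*} [Finite ι] {n : ℕ}
    (c : κ → ℝ) (v : κ → ℝ≥0) (hv : ∀ i, v i ≠ 0)
    (ρ : (κ → ℝ) → ι → Fin (n + 1) → ℝ) (N Γ : (κ → ℝ) → Fin (n + 1) → ℝ)
    (hρm : ∀ o k, Measurable fun ω => ρ ω o k) (hNm : ∀ k, Measurable fun ω => N ω k)
    (hΓm : ∀ k, Measurable fun ω => Γ ω k)
    (T : Set ι) (D : Finset ι) (q : ι → κ) (hq : Set.InjOn q D) (φ τ W R : ℝ) (hφ : 0 < φ)
    (hW : 0 < W) (hτ : 0 ≤ τ) (hR : 0 ≤ R)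
    (hρs : ∀ t ω, ρ (ω + csh q D t) = ρ ω) (hNs : ∀ t ω, N (ω + csh q D t) = N ω)
    (hΓs : ∀ t ω, Γ (ω + csh q D t) = Γ ω + φ • ∑ r ∈ D, t r • ρ ω r)
    (F F' : Set (κ → ℝ)) (hF : MeasurableSet F) (hF' : MeasurableSet F')
    (hinv : ∀ t : ι → ℝ, (∀ r ∈ D, 0 ≤ t r ∧ t r ≤ W) → ∀ ω, ω + csh q D t ∈ F → ω ∈ F')
    (hbox : ∀ ω ∈ F, ∀ r ∈ D, |ω (q r) - c (q r)| ≤ R)
    (K : ℝ) (hK : ∑ r ∈ D, W * (2 * R + W) / (2 * v (q r)) ≤ K) :
    Measure.pi (fun i => gaussianReal (c i) (v i))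
        ({ω | ∃ J : Fin n → ι, Light (ρ ω) (N ω) (Γ ω) T D τ J} ∩ F) ≤
      ENNReal.ofReal (Real.exp K * (2 * τ / φ / W) ^ D.card) *
        Measure.pi (fun i => gaussianReal (c i) (v i)) F' := by
  classical
  set μ := Measure.pi (fun i => gaussianReal (c i) (v i)) with hμ
  set E : Set (κ → ℝ) := {ω | ∃ J : Fin n → ι, Light (ρ ω) (N ω) (Γ ω) T D τ J} ∩ F with hE
  have hEm : MeasurableSet E := (measurableSet_light hρm hNm hΓm T D τ).inter hF
  -- extension of a parameter on `D`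
  let ex : (D → ℝ) → ι → ℝ := fun t r => if h : r ∈ D then t ⟨r, h⟩ else 0
  have hex : ∀ (t : D → ℝ) (r : D), ex t r = t r := fun t r => by simp [ex]
  have hexm : ∀ r, Measurable fun t : D → ℝ => ex t r := by
    intro r
    by_cases h : r ∈ D
    · simp only [ex, h, dite_true]
      exact measurable_pi_apply _
    · simp only [ex, h, dite_false]
      exact measurable_const
  let S : (D → ℝ) → (κ → ℝ) → (κ → ℝ) := fun t ω => ω + csh q D (ex t)
  have hSm : Measurable fun p : (D → ℝ) × (κ → ℝ) => S p.1 p.2 := by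
    refine measurable_snd.add ?_
    refine measurable_pi_lambda _ fun i => ?_
    have e : (fun p : (D → ℝ) × (κ → ℝ) => csh q D (ex p.1) i) =
        fun p => ∑ r ∈ D, ex p.1 r * (Pi.single (q r) (1 : ℝ) : κ → ℝ) i := by
      funext p
      simp [csh, Finset.sum_apply]
    rw [e]
    exact Finset.measurable_sum _ fun r _ => ((hexm r).comp measurable_fst).mul_const _
  let B : Set (D → ℝ) := Set.univ.pi fun _ => Set.Icc 0 W
  have hB : MeasurableSet B := MeasurableSet.univ_pi fun _ => measurableSet_Icc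
  have hBt : ∀ t ∈ B, ∀ r ∈ D, 0 ≤ ex t r ∧ ex t r ≤ W := by
    intro t ht r hr
    have h1 := ht ⟨r, hr⟩ (Set.mem_univ _)
    rw [← hex t ⟨r, hr⟩] at h1
    exact h1
  have hvol : volume B = ENNReal.ofReal (W ^ D.card) := by
    change volume (Set.univ.pi fun _ : D => Set.Icc (0 : ℝ) W) = _
    rw [volume_pi_pi]
    simp [ENNReal.ofReal_pow hW.le]
  have key := SHirsch.Pay.pay μ (volume : Measure (D → ℝ)) S E F' B hB hF'
    (hSm hEm) (ENNReal.ofReal (Real.exp K)) (ENNReal.ofReal ((2 * τ / φ) ^ D.card))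
    (fun t ht => ?_) (fun t ht ω hω => hinv (ex t) (hBt t ht) ω hω.2) (fun ω _ => ?_)
  · rw [hvol] at key
    exact ratio_of_prod hW (Real.exp_nonneg K) key
  · -- density ratio
    refine SHirsch.Pay.gauss_quasi c v hv (fun i => ∃ r ∈ D, q r = i)
      (fun _ => csh q D (ex t)) measurable_const (fun _ _ _ => rfl) (fun _ i hi => ?_) E hEm
      (fun _ => R) K (fun ω hω i hi => ?_) (fun ω hω => ?_)
    · exact csh_apply_of_notMem _ fun r hr h => hi ⟨r, hr, h⟩
    · by_cases h : ∃ r ∈ D, q r = i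
      · obtain ⟨r, hr, rfl⟩ := h
        exact hbox _ hω.2 r hr
      · exact absurd (csh_apply_of_notMem _ fun r hr h' => h ⟨r, hr, h'⟩) hi
    · refine le_trans ?_ hK
      have e1 : ∀ i, i ∉ D.image q →
          |csh q D (ex t) i| * (2 * R + |csh q D (ex t) i|) / (2 * (v i : ℝ)) = 0 := by
        intro i hi
        rw [csh_apply_of_notMem _ fun r hr h => hi (Finset.mem_image.mpr ⟨r, hr, h⟩)]
        simp
      rw [← Finset.sum_subset (Finset.subset_univ (D.image q)) fun i _ hi => e1 i hi,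
        Finset.sum_image fun a ha b hb h => hq ha hb h]
      refine Finset.sum_le_sum fun r hr => ?_
      rw [csh_apply_of_mem hq _ hr, abs_of_nonneg (hBt t ht r hr).1]
      have h1 := (hBt t ht r hr).1
      have h2 := (hBt t ht r hr).2
      have hv' : (0 : ℝ) < v (q r) := by
        have := pos_iff_ne_zero.mpr (hv (q r))
        exact_mod_cast this
      gcongr
  · -- slices
    refine (SHirsch.Pay.box_slice _ (fun _ => τ / φ) fun t ht t' ht' r => ?_).trans
      (le_of_eq ?_)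
    · obtain ⟨-, ⟨J, hc, hl⟩, -⟩ := ht
      obtain ⟨-, ⟨J', hc', hl'⟩, -⟩ := ht'
      change Crt (ρ (ω + csh q D (ex t))) (N (ω + csh q D (ex t)))
        (Γ (ω + csh q D (ex t))) T J at hc
      change Crt (ρ (ω + csh q D (ex t'))) (N (ω + csh q D (ex t')))
        (Γ (ω + csh q D (ex t'))) T J' at hc'
      change ∀ o ∈ D, o ∉ T ∧ ∃ k, J k = o ∧ lam (ρ (ω + csh q D (ex t)))
        (N (ω + csh q D (ex t))) (Γ (ω + csh q D (ex t))) J k ≤ τ at hl
      change ∀ o ∈ D, o ∉ T ∧ ∃ k, J' k = o ∧ lam (ρ (ω + csh q D (ex t')))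
        (N (ω + csh q D (ex t'))) (Γ (ω + csh q D (ex t'))) J' k ≤ τ at hl'
      rw [hρs, hNs] at hc hc'
      rw [hρs, hNs] at hl hl'
      have hΓ : Γ (ω + csh q D (ex t')) = Γ (ω + csh q D (ex t)) +
          ∑ o ∈ D, (φ * (ex t' o - ex t o)) • ρ ω o := by
        rw [hΓs, hΓs, add_assoc, Finset.smul_sum, Finset.smul_sum, ← Finset.sum_add_distrib]
        congr 1
        refine Finset.sum_congr rfl fun o _ => ?_
        rw [smul_smul, smul_smul, ← add_smul]
        congr 1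
        ring
      have hs := same_point_shift hc hc' hΓ
        (fun o ho => by obtain ⟨-, k, hk, -⟩ := hl o ho; exact ⟨k, hk⟩)
        (fun o ho => by obtain ⟨-, k, hk, -⟩ := hl' o ho; exact ⟨k, hk⟩)
      obtain ⟨hoT, k, hk, hlk⟩ := hl r.1 r.2
      obtain ⟨-, k', hk', hlk'⟩ := hl' r.1 r.2
      have h2 := hs.2 k k' (hk ▸ r.2) (hk'.trans hk.symm)
      rw [hk] at h2
      have p1 := hc.lam k (by rw [hk]; exact hoT)
      have p2 := hc'.lam k' (by rw [hk']; exact hoT)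
      rw [← hex t r, ← hex t' r, le_div_iff₀ hφ]
      have h3 : |ex t r - ex t' r| * φ = |φ * (ex t' r - ex t r)| := by
        rw [abs_mul, abs_of_pos hφ, abs_sub_comm]
        ring
      rw [h3, abs_le]
      constructor <;> linarith
    · rw [Finset.prod_const, Finset.card_univ, Fintype.card_coe]
      congr 2
      ring

end Pool.Agent.Lib.S3.Cert
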