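import Mathlib

/-!
# S3 / RMDet: the negative half moment of the determinant of a matrix with independent entries

`nh y = |y| ^ (-1/2)` with values in `[0, ∞]`.  If every entry of a square matrix of order `k` is
independent of the others and its law `ν` satisfies `∫⁻ nh (x + c) ∂ν ≤ K` for every `c`, then
`∫⁻ nh (det A) ≤ K ^ k`.  For the Gaussian law with standard deviation `σ` one can take
`K = 3 / √σ`.  Hence `P (|det A| ≤ ε) ≤ √ε * K ^ k` (arbitrary means).
-/

set_option autoImplicit false

open MeasureTheory ProbabilityTheory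
open scoped ENNReal

namespace Pool.Agent.Lib.S3

/-- `|y| ^ (-1/2)`, equal to `∞` at `0`. -/
noncomputable def nh (y : ℝ) : ℝ≥0∞ := (ENNReal.ofReal |y|) ^ (-(1 / 2 : ℝ))

theorem nh_measurable : Measurable nh := by
  unfold nh
  exact (ENNReal.measurable_ofReal.comp measurable_norm).pow_const _

theorem nh_zero : nh 0 = ⊤ := by
  unfold nh
  rw [abs_zero, ENNReal.ofReal_zero, ENNReal.zero_rpow_of_neg (by norm_num)]

theorem nh_neg (y : ℝ) : nh (-y) = nh y := by
  unfold nh; rw [abs_neg]

theorem nh_mul (x y : ℝ) (hx : x ≠ 0) (hy : y ≠ 0) : nh (x * y) = nh x * nh y := by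
  unfold nh
  rw [abs_mul, ENNReal.ofReal_mul (abs_nonneg x), ENNReal.mul_rpow_of_ne_zero]
  · simpa using hx
  · simpa using hy

theorem nh_mul_le (x y : ℝ) (hx : x ≠ 0) : nh (x * y) = nh x * nh y := by
  by_cases hy : y = 0
  · subst hy
    rw [mul_zero, nh_zero, ENNReal.mul_top]
    unfold nh
    intro h
    rw [ENNReal.rpow_eq_zero_iff] at h
    rcases h with h | h
    · exact absurd h.2 (by norm_num)
    · exact ENNReal.ofReal_ne_top h.1
  · exact nh_mul x y hx hy

theorem nh_anti {x y : ℝ} (h : |x| ≤ |y|) : nh y ≤ nh x := by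
  unfold nh
  rw [ENNReal.rpow_neg, ENNReal.rpow_neg]
  exact ENNReal.inv_le_inv.2
    (ENNReal.rpow_le_rpow (ENNReal.ofReal_le_ofReal h) (by norm_num))

/-- The small ball property of a law on the line. -/
def SB (ν : Measure ℝ) (K : ℝ≥0∞) : Prop := ∀ c : ℝ, ∫⁻ x, nh (x + c) ∂ν ≤ K

/-- One entry: `∫⁻ nh (x m + c) ≤ K nh m`. -/
theorem SB.affine {ν : Measure ℝ} {K : ℝ≥0∞} (h : SB ν K) (hK : K ≠ 0) (m c : ℝ) :
    ∫⁻ x, nh (x * m + c) ∂ν ≤ K * nh m := by
  by_cases hm : m = 0
  · subst hm
    rw [nh_zero, ENNReal.mul_top hK]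
    exact le_top
  · have h1 : ∀ x, nh (x * m + c) = nh m * nh (x + c / m) := by
      intro x
      rw [← nh_mul_le m _ hm]
      congr 1
      field_simp
    simp_rw [h1]
    have h2 : Measurable (fun x : ℝ => nh (x + c / m)) :=
      nh_measurable.comp (measurable_id.add_const _)
    rw [lintegral_const_mul _ h2, mul_comm]
    exact mul_le_mul_left (h _) _

theorem det_meas {k : ℕ} : Measurable (fun A : Fin k → Fin k → ℝ => (Matrix.of A).det) := by
  simp only [Matrix.det_apply]
  refine Finset.measurable_sum _ (fun s _ => ?_)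
  refine Measurable.const_smul ?_ _
  refine Finset.measurable_prod _ (fun i _ => ?_)
  exact (measurable_pi_apply i).comp (measurable_pi_apply (s i))

/-- The negative half moment of a determinant; only the laws of the diagonal entries matter. -/
theorem det_moment_diag : ∀ (k : ℕ) (ν : Fin k → Fin k → Measure ℝ) (K : Fin k → ℝ≥0∞)
    [∀ i j, IsProbabilityMeasure (ν i j)], (∀ i, K i ≠ 0) → (∀ i, SB (ν i i) (K i)) →
    ∫⁻ A : Fin k → Fin k → ℝ, nh (Matrix.of A).det
      ∂(Measure.pi fun i => Measure.pi fun j => ν i j) ≤ ∏ i, K i := by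
  intro k
  induction k with
  | zero =>
    intro ν K _ _ _
    simp only [Matrix.det_isEmpty, Finset.univ_eq_empty, Finset.prod_empty]
    have : nh 1 = 1 := by unfold nh; simp
    rw [this]
    simp
  | succ k ih =>
    intro ν K _ hK hν
    -- split the rows
    have hrows := (measurePreserving_piFinSuccAbove
      (fun i : Fin (k + 1) => Measure.pi fun j => ν i j) 0)
    have hmeas : Measurable (fun A : Fin (k + 1) → Fin (k + 1) → ℝ => nh (Matrix.of A).det) :=
      nh_measurable.comp det_meas
    rw [← hrows.symm.lintegral_comp hmeas]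
    refine (lintegral_prod_symm' _ (hmeas.comp (MeasurableEquiv.measurable _))).trans_le ?_
    -- the inner integral over the first row
    have hin : ∀ B : (i : Fin k) → Fin (k + 1) → ℝ,
        ∫⁻ r : Fin (k + 1) → ℝ, nh (Matrix.of
          ((MeasurableEquiv.piFinSuccAbove (fun _ : Fin (k + 1) => Fin (k + 1) → ℝ) 0).symm
            (r, B))).det ∂(Measure.pi fun j => ν 0 j)
        ≤ K 0 * nh (Matrix.of (fun i j => B i j.succ : Fin k → Fin k → ℝ)).det := by
      intro B
      have hm2 : Measurable (fun r : Fin (k + 1) → ℝ => nh (Matrix.of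
          ((MeasurableEquiv.piFinSuccAbove (fun _ : Fin (k + 1) => Fin (k + 1) → ℝ) 0).symm
            (r, B))).det) :=
        hmeas.comp ((MeasurableEquiv.measurable _).comp (measurable_prodMk_right))
      have hcol := (measurePreserving_piFinSuccAbove (fun j : Fin (k + 1) => ν 0 j) 0)
      rw [← hcol.symm.lintegral_comp hm2]
      refine (lintegral_prod_symm' _ (hm2.comp (MeasurableEquiv.measurable _))).trans_le ?_
      have hlast : ∀ t : (j : Fin k) → ℝ,
          ∫⁻ x : ℝ, nh (Matrix.of
            ((MeasurableEquiv.piFinSuccAbove (fun _ : Fin (k + 1) => Fin (k + 1) → ℝ) 0).symm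
              ((MeasurableEquiv.piFinSuccAbove (fun _ : Fin (k + 1) => ℝ) 0).symm (x, t), B))).det
              ∂(ν 0 0)
          ≤ K 0 * nh (Matrix.of (fun i j => B i j.succ : Fin k → Fin k → ℝ)).det := by
        intro t
        have hdet : ∀ x : ℝ, (Matrix.of
            ((MeasurableEquiv.piFinSuccAbove (fun _ : Fin (k + 1) => Fin (k + 1) → ℝ) 0).symm
              ((MeasurableEquiv.piFinSuccAbove (fun _ : Fin (k + 1) => ℝ) 0).symm (x, t), B))).det
            = x * (Matrix.of (fun i j => B i j.succ : Fin k → Fin k → ℝ)).det +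
              ∑ j : Fin k, (-1) ^ ((j.succ : Fin (k + 1)) : ℕ) * t j *
                (Matrix.of (fun (i : Fin k) (j' : Fin k) => B i (j.succ.succAbove j'))).det := by
          intro x
          rw [Matrix.det_succ_row_zero, Fin.sum_univ_succ]
          congr 1
          · have : (Matrix.of
              ((MeasurableEquiv.piFinSuccAbove (fun _ : Fin (k + 1) => Fin (k + 1) → ℝ) 0).symm
              ((MeasurableEquiv.piFinSuccAbove (fun _ : Fin (k + 1) => ℝ) 0).symm (x, t),
                B))) 0 0 = x := rfl
            rw [this]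
            simp only [Fin.val_zero, pow_zero, one_mul]
            congr 1
        rw [lintegral_congr (fun x => by rw [hdet x])]
        exact (hν 0).affine (hK 0) _ _
      calc _ ≤ ∫⁻ _ : (j : Fin k) → ℝ,
            K 0 * nh (Matrix.of (fun i j => B i j.succ : Fin k → Fin k → ℝ)).det
              ∂(Measure.pi fun j : Fin k => ν 0 (Fin.succAbove 0 j)) := lintegral_mono hlast
        _ = _ := by simp
    refine (lintegral_mono hin).trans ?_
    have hdm : Measurable (fun B : (i : Fin k) → Fin (k + 1) → ℝ =>
        nh (Matrix.of (fun i j => B i j.succ : Fin k → Fin k → ℝ)).det) := by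
      refine nh_measurable.comp (det_meas.comp ?_)
      refine measurable_pi_lambda _ (fun i => measurable_pi_lambda _ (fun j => ?_))
      exact (measurable_pi_apply _).comp (measurable_pi_apply i)
    rw [lintegral_const_mul _ hdm, Fin.prod_univ_succ]
    refine mul_le_mul_right ?_ _
    -- drop the first column
    have hdrop : ∀ i : Fin k, MeasurePreserving (fun r : Fin (k + 1) → ℝ => fun j : Fin k => r j.succ)
        (Measure.pi fun j => ν i.succ j) (Measure.pi fun j : Fin k => ν i.succ j.succ) := by
      intro i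
      have h := (measurePreserving_piFinSuccAbove (fun j : Fin (k + 1) => ν i.succ j) 0)
      exact (measurePreserving_snd.comp h)
    have hall := measurePreserving_pi
      (fun i : Fin k => Measure.pi fun j => ν i.succ j)
      (fun i : Fin k => Measure.pi fun j : Fin k => ν i.succ j.succ) hdrop
    have hgoal := ih (fun i j => ν i.succ j.succ) (fun i => K i.succ) (fun i => hK _)
      (fun i => hν _)
    have h2 := hall.lintegral_comp (f := fun A : Fin k → Fin k → ℝ => nh (Matrix.of A).det)
      (nh_measurable.comp det_meas)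
    calc _ = _ := h2
      _ ≤ _ := hgoal

/-- The negative half moment of a determinant, uniform constant. -/
theorem det_moment {K : ℝ≥0∞} (hK : K ≠ 0) (k : ℕ) (ν : Fin k → Fin k → Measure ℝ)
    [∀ i j, IsProbabilityMeasure (ν i j)] (h : ∀ i j, SB (ν i j) K) :
    ∫⁻ A : Fin k → Fin k → ℝ, nh (Matrix.of A).det
      ∂(Measure.pi fun i => Measure.pi fun j => ν i j) ≤ K ^ k := by
  have := det_moment_diag k ν (fun _ => K) (fun _ => hK) (fun i => h i i)
  simpa using this

end Pool.Agent.Lib.S3
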