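import Mathlib
import Pool.Agent.Lib.S3.RMDet

/-!
# S3 / RMGauss: the small ball property of the Gaussian law and the determinant tail
-/

set_option autoImplicit false

open MeasureTheory ProbabilityTheory
open scoped ENNReal

namespace Pool.Agent.Lib.S3

private theorem pdf_le {m σ : ℝ} (hσ : 0 < σ) (x : ℝ) :
    gaussianPDF m (σ ^ 2).toNNReal x ≤ ENNReal.ofReal (1 / (2 * σ)) := by
  unfold gaussianPDF gaussianPDFReal
  apply ENNReal.ofReal_le_ofReal
  have hv : (((σ ^ 2).toNNReal : NNReal) : ℝ) = σ ^ 2 := Real.coe_toNNReal _ (sq_nonneg σ)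
  rw [hv]
  have h1 : Real.exp (-(x - m) ^ 2 / (2 * σ ^ 2)) ≤ 1 := by
    rw [Real.exp_le_one_iff]
    apply div_nonpos_of_nonpos_of_nonneg
    · nlinarith [sq_nonneg (x - m)]
    · positivity
  have h2 : 2 * σ ≤ Real.sqrt (2 * Real.pi * σ ^ 2) := by
    apply Real.le_sqrt_of_sq_le
    nlinarith [Real.pi_gt_three, sq_nonneg σ, sq_pos_of_pos hσ]
  have h3 : 0 < Real.sqrt (2 * Real.pi * σ ^ 2) := lt_of_lt_of_le (by positivity) h2
  calc (Real.sqrt (2 * Real.pi * σ ^ 2))⁻¹ * Real.exp (-(x - m) ^ 2 / (2 * σ ^ 2))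
      ≤ (Real.sqrt (2 * Real.pi * σ ^ 2))⁻¹ * 1 :=
        mul_le_mul_of_nonneg_left h1 (inv_nonneg.2 h3.le)
    _ = (Real.sqrt (2 * Real.pi * σ ^ 2))⁻¹ := mul_one _
    _ ≤ (2 * σ)⁻¹ := inv_anti₀ (by positivity) h2
    _ = 1 / (2 * σ) := (one_div _).symm

private theorem lint_Ioc {σ : ℝ} (hσ : 0 < σ) :
    ∫⁻ x in Set.Ioc 0 σ, nh x ≤ ENNReal.ofReal (2 * Real.sqrt σ) := by
  have h1 : ∫⁻ x in Set.Ioc 0 σ, nh x =
      ∫⁻ x in Set.Ioc 0 σ, ENNReal.ofReal (x ^ (-(1 / 2 : ℝ))) := by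
    refine setLIntegral_congr_fun measurableSet_Ioc (fun x hx => ?_)
    unfold nh
    rw [abs_of_pos hx.1, ENNReal.ofReal_rpow_of_pos hx.1]
  rw [h1]
  have hi : IntervalIntegrable (fun x : ℝ => x ^ (-(1 / 2 : ℝ))) volume 0 σ :=
    intervalIntegral.intervalIntegrable_rpow' (by norm_num)
  have hi' : IntegrableOn (fun x : ℝ => x ^ (-(1 / 2 : ℝ))) (Set.Ioc 0 σ) :=
    (intervalIntegrable_iff_integrableOn_Ioc_of_le hσ.le).1 hi
  rw [← ofReal_integral_eq_lintegral_ofReal hi'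
    ((ae_restrict_iff' measurableSet_Ioc).2 (Filter.Eventually.of_forall
      (fun x hx => Real.rpow_nonneg hx.1.le _)))]
  apply ENNReal.ofReal_le_ofReal
  rw [← intervalIntegral.integral_of_le hσ.le, integral_rpow (Or.inl (by norm_num))]
  rw [Real.zero_rpow (by norm_num), Real.sqrt_eq_rpow]
  norm_num
  linarith

private theorem lint_Icc {σ : ℝ} (hσ : 0 < σ) :
    ∫⁻ x in Set.Icc (-σ) σ, nh x ≤ ENNReal.ofReal (4 * Real.sqrt σ) := by
  have hneg : ∫⁻ x in Set.Ico (-σ) 0, nh x = ∫⁻ x in Set.Ioc 0 σ, nh x := by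
    have h := (Measure.measurePreserving_neg (volume : Measure ℝ)).setLIntegral_comp_preimage
      (s := Set.Ioc 0 σ) measurableSet_Ioc nh_measurable
    rw [← h]
    have hpre : Neg.neg ⁻¹' Set.Ioc 0 σ = Set.Ico (-σ) 0 := by
      ext x
      simp only [Set.mem_preimage, Set.mem_Ioc, Set.mem_Ico]
      constructor <;> intro h <;> constructor <;> linarith [h.1, h.2]
    rw [hpre]
    exact setLIntegral_congr_fun measurableSet_Ico (fun x _ => (nh_neg x).symm)
  have hsub : Set.Icc (-σ) σ ⊆ Set.Ico (-σ) 0 ∪ ({0} ∪ Set.Ioc 0 σ) := by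
    intro x hx
    rcases lt_trichotomy x 0 with h | h | h
    · exact Or.inl ⟨hx.1, h⟩
    · exact Or.inr (Or.inl h)
    · exact Or.inr (Or.inr ⟨h, hx.2⟩)
  calc ∫⁻ x in Set.Icc (-σ) σ, nh x
      ≤ ∫⁻ x in Set.Ico (-σ) 0 ∪ ({0} ∪ Set.Ioc 0 σ), nh x := lintegral_mono_set hsub
    _ ≤ (∫⁻ x in Set.Ico (-σ) 0, nh x) + ∫⁻ x in ({0} ∪ Set.Ioc 0 σ), nh x :=
        lintegral_union_le _ _ _
    _ ≤ (∫⁻ x in Set.Ico (-σ) 0, nh x) + ((∫⁻ x in {0}, nh x) + ∫⁻ x in Set.Ioc 0 σ, nh x) := by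
        gcongr
        exact lintegral_union_le _ _ _
    _ = (∫⁻ x in Set.Ioc 0 σ, nh x) + ∫⁻ x in Set.Ioc 0 σ, nh x := by
        rw [hneg, Measure.restrict_singleton]
        simp
    _ ≤ ENNReal.ofReal (2 * Real.sqrt σ) + ENNReal.ofReal (2 * Real.sqrt σ) :=
        add_le_add (lint_Ioc hσ) (lint_Ioc hσ)
    _ = ENNReal.ofReal (4 * Real.sqrt σ) := by
        rw [← ENNReal.ofReal_add (by positivity) (by positivity)]
        congr 1
        ring

/-- The Gaussian law has the small ball property with constant `3 / √σ`. -/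
theorem SB_gauss (m : ℝ) {σ : ℝ} (hσ : 0 < σ) :
    SB (gaussianReal m (σ ^ 2).toNNReal) (ENNReal.ofReal (3 / Real.sqrt σ)) := by
  intro c
  have hv : (σ ^ 2).toNNReal ≠ 0 := by
    have : 0 < (σ ^ 2).toNNReal := Real.toNNReal_pos.2 (by positivity)
    exact this.ne'
  have hshift : ∫⁻ x, nh (x + c) ∂(gaussianReal m (σ ^ 2).toNNReal) =
      ∫⁻ x, nh x ∂(gaussianReal (m + c) (σ ^ 2).toNNReal) := by
    rw [← gaussianReal_map_add_const]
    exact (lintegral_map nh_measurable (measurable_id.add_const c)).symm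
  rw [hshift]
  set μ := gaussianReal (m + c) (σ ^ 2).toNNReal with hμ
  have hpt : ∀ x, nh x ≤ (Set.Icc (-σ) σ).indicator nh x + ENNReal.ofReal (1 / Real.sqrt σ) := by
    intro x
    by_cases hx : x ∈ Set.Icc (-σ) σ
    · rw [Set.indicator_of_mem hx]
      exact le_self_add
    · rw [Set.indicator_of_notMem hx, zero_add]
      have hx' : |σ| ≤ |x| := by
        rw [abs_of_pos hσ]
        by_contra hcon
        exact hx (abs_le.1 (not_le.1 hcon).le)
      refine (nh_anti hx').trans (le_of_eq ?_)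
      unfold nh
      rw [abs_of_pos hσ, ENNReal.ofReal_rpow_of_pos hσ, Real.rpow_neg hσ.le, Real.sqrt_eq_rpow,
        one_div]
      congr 2
      rw [one_div]
  calc ∫⁻ x, nh x ∂μ
      ≤ ∫⁻ x, ((Set.Icc (-σ) σ).indicator nh x + ENNReal.ofReal (1 / Real.sqrt σ)) ∂μ :=
        lintegral_mono hpt
    _ = (∫⁻ x, (Set.Icc (-σ) σ).indicator nh x ∂μ) + ENNReal.ofReal (1 / Real.sqrt σ) := by
        rw [lintegral_add_right _ measurable_const, lintegral_const, measure_univ, mul_one]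
    _ ≤ ENNReal.ofReal (1 / (2 * σ)) * ENNReal.ofReal (4 * Real.sqrt σ) +
        ENNReal.ofReal (1 / Real.sqrt σ) := by
        gcongr
        rw [hμ, gaussianReal_of_var_ne_zero _ hv, lintegral_withDensity_eq_lintegral_mul _
          (measurable_gaussianPDF _ _) (nh_measurable.indicator measurableSet_Icc)]
        calc _ ≤ ∫⁻ x, ENNReal.ofReal (1 / (2 * σ)) * (Set.Icc (-σ) σ).indicator nh x := by
              refine lintegral_mono (fun x => ?_)
              simp only [Pi.mul_apply]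
              gcongr
              exact pdf_le hσ x
          _ = ENNReal.ofReal (1 / (2 * σ)) * ∫⁻ x in Set.Icc (-σ) σ, nh x := by
              rw [lintegral_const_mul _ (nh_measurable.indicator measurableSet_Icc),
                lintegral_indicator measurableSet_Icc]
          _ ≤ _ := by gcongr; exact lint_Icc hσ
    _ = ENNReal.ofReal (3 / Real.sqrt σ) := by
        rw [← ENNReal.ofReal_mul (by positivity), ← ENNReal.ofReal_add (by positivity)
          (by positivity)]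
        congr 1
        have h := Real.mul_self_sqrt hσ.le
        have hs : 0 < Real.sqrt σ := Real.sqrt_pos.2 hσ
        have h2 : 1 / (2 * σ) * (4 * Real.sqrt σ) = 2 / Real.sqrt σ := by
          rw [div_mul_eq_mul_div, div_eq_div_iff (by positivity) hs.ne']
          nlinarith
        rw [h2, ← add_div]
        norm_num

/-- Markov: `{|y| ≤ ε}` has measure at most `√ε * ∫ nh`. -/
theorem markov_nh {Ω : Type*} [MeasurableSpace Ω] (μ : Measure Ω) {f : Ω → ℝ} (hf : Measurable f)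
    {ε : ℝ} (hε : 0 < ε) :
    μ {ω | |f ω| ≤ ε} ≤ ENNReal.ofReal (Real.sqrt ε) * ∫⁻ ω, nh (f ω) ∂μ := by
  have h1 : {ω | |f ω| ≤ ε} ⊆ {ω | ENNReal.ofReal (1 / Real.sqrt ε) ≤ nh (f ω)} := by
    intro ω hω
    change ENNReal.ofReal (1 / Real.sqrt ε) ≤ nh (f ω)
    replace hω : |f ω| ≤ ε := hω
    have h2 : |f ω| ≤ |ε| := by rw [abs_of_pos hε]; exact hω
    refine le_trans (le_of_eq ?_) (nh_anti h2)
    unfold nh
    rw [abs_of_pos hε, ENNReal.ofReal_rpow_of_pos hε, Real.rpow_neg hε.le, Real.sqrt_eq_rpow,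
      one_div]
  have h3 := mul_meas_ge_le_lintegral (μ := μ) (nh_measurable.comp hf)
    (ENNReal.ofReal (1 / Real.sqrt ε))
  have hs : 0 < Real.sqrt ε := Real.sqrt_pos.2 hε
  calc μ {ω | |f ω| ≤ ε} ≤ μ {ω | ENNReal.ofReal (1 / Real.sqrt ε) ≤ nh (f ω)} :=
        measure_mono h1
    _ = ENNReal.ofReal (Real.sqrt ε) * (ENNReal.ofReal (1 / Real.sqrt ε) *
          μ {ω | ENNReal.ofReal (1 / Real.sqrt ε) ≤ nh (f ω)}) := by
        rw [← mul_assoc, ← ENNReal.ofReal_mul hs.le, mul_one_div_cancel hs.ne',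
          ENNReal.ofReal_one, one_mul]
    _ ≤ _ := by gcongr; exact h3

/-- The lower tail of the determinant of a Gaussian matrix with arbitrary means. -/
theorem det_tail {k : ℕ} (B : Fin k → Fin k → ℝ) {σ ε : ℝ} (hσ : 0 < σ) (hε : 0 < ε) :
    (Measure.pi fun i => Measure.pi fun j => gaussianReal (B i j) (σ ^ 2).toNNReal)
      {A : Fin k → Fin k → ℝ | |(Matrix.of A).det| ≤ ε} ≤
    ENNReal.ofReal (Real.sqrt ε * (3 / Real.sqrt σ) ^ k) := by
  have hs : 0 < Real.sqrt σ := Real.sqrt_pos.2 hσ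
  have hK : ENNReal.ofReal (3 / Real.sqrt σ) ≠ 0 := by
    rw [Ne, ENNReal.ofReal_eq_zero, not_le]
    positivity
  refine (markov_nh _ det_meas hε).trans ?_
  rw [ENNReal.ofReal_mul (Real.sqrt_nonneg _), ENNReal.ofReal_pow (by positivity)]
  gcongr
  exact det_moment hK k _ (fun i j => SB_gauss (B i j) hσ)

end Pool.Agent.Lib.S3
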