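import Pool.Agent.Lib.S3.Wall

/-! Measurable selection of the coefficients of a representable row.

`Rep a c S R v` says that `v` is a combination of the rows of `S` with coefficients at most `c`
outside the free rows `R`. Here we show that then Cramer coefficients in some frame (basis inside
`S`) are at most `c * card S` outside `R`; frames are finitely many, and the average over all good
frames is a measurable choice of coefficients, which depends only on the rows. -/

set_option autoImplicit false
set_option linter.unusedSectionVars false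

open Module MeasureTheory

namespace Pool.Agent.Lib.S3

section Frame

variable {ι V : Type} [Fintype ι] [DecidableEq ι] [AddCommGroup V] [Module ℝ V] {n : ℕ}

/-- A frame in which `v` has coefficients at most `C` outside the free rows. -/
def GoodFrame (b0 : Basis (Fin n) ℝ V) (a : ι → V) (S R : Finset ι) (C : ℝ) (v : V)
    (E : Fin n → ι) : Prop :=
  (∀ k, E k ∈ S) ∧ b0.det (fun k => a (E k)) ≠ 0 ∧
    ∀ k, E k ∉ R → |b0.det (Function.update (fun k => a (E k)) k v)| ≤
      C * |b0.det (fun k => a (E k))|

/-- A representable row has a good frame. -/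
theorem exists_goodFrame (b0 : Basis (Fin n) ℝ V) (a : ι → V) (S R : Finset ι) (c : ℝ)
    (hc : 0 ≤ c) (v : V) (hpos : 0 < mdet b0 a S) (h : Rep a c S R v) :
    ∃ E, GoodFrame b0 a S R (c * S.card) v E := by
  classical
  -- frames
  let P : Finset (Fin n → ι) := Finset.univ.filter
    (fun E => (∀ k, E k ∈ S) ∧ b0.det (fun k => a (E k)) ≠ 0)
  have hP : P.Nonempty := by
    obtain ⟨E, hES, hE⟩ := exists_mdet b0 a S hpos
    refine ⟨E, ?_⟩
    simp only [P, Finset.mem_filter, Finset.mem_univ, true_and]
    refine ⟨hES, ?_⟩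
    rw [← hE] at hpos
    exact abs_pos.1 hpos
  -- first maximise the number of free rows
  let cnt : (Fin n → ι) → ℕ := fun E => (Finset.univ.filter (fun k => E k ∈ R)).card
  obtain ⟨E1, hE1, hmax1⟩ := Finset.exists_max_image P cnt hP
  let Q : Finset (Fin n → ι) := P.filter (fun E => cnt E = cnt E1)
  have hQ : Q.Nonempty := ⟨E1, by simp only [Q, Finset.mem_filter]; exact ⟨hE1, trivial⟩⟩
  obtain ⟨E, hE, hmax⟩ := Finset.exists_max_image Q (fun E => |b0.det (fun k => a (E k))|) hQ
  simp only [Q, Finset.mem_filter] at hE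
  have hEP : (∀ k, E k ∈ S) ∧ b0.det (fun k => a (E k)) ≠ 0 := by
    have := hE.1
    simpa only [P, Finset.mem_filter, Finset.mem_univ, true_and] using this
  have hdpos : 0 < |b0.det (fun k => a (E k))| := abs_pos.2 hEP.2
  have hupd : ∀ (k : Fin n) (i : ι), Function.update (fun k => a (E k)) k (a i) =
      fun l => a (Function.update E k i l) := by
    intro k i
    funext l
    by_cases hl : l = k
    · subst hl
      simp
    · simp [Function.update_of_ne hl]
  -- a frame after one exchange
  have hexP : ∀ (k : Fin n) (i : ι), i ∈ S →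
      b0.det (Function.update (fun k => a (E k)) k (a i)) ≠ 0 → Function.update E k i ∈ P := by
    intro k i hi hd
    simp only [P, Finset.mem_filter, Finset.mem_univ, true_and]
    refine ⟨?_, ?_⟩
    · intro l
      by_cases hl : l = k
      · subst hl
        simpa using hi
      · rw [Function.update_of_ne hl]
        exact hEP.1 l
    · rw [← hupd]
      exact hd
  have hcnt : ∀ (k : Fin n) (i : ι), E k ∉ R → i ∉ R → cnt (Function.update E k i) = cnt E := by
    intro k i hk hi
    simp only [cnt]
    congr 1
    ext l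
    simp only [Finset.mem_filter, Finset.mem_univ, true_and]
    by_cases hl : l = k
    · subst hl
      simp [hk, hi]
    · rw [Function.update_of_ne hl]
  have hcnt' : ∀ (k : Fin n) (i : ι), E k ∉ R → i ∈ R → cnt E < cnt (Function.update E k i) := by
    intro k i hk hi
    simp only [cnt]
    apply Finset.card_lt_card
    rw [Finset.ssubset_iff_of_subset]
    · refine ⟨k, ?_, ?_⟩
      · simp [hi]
      · simp [hk]
    · intro l hl
      simp only [Finset.mem_filter, Finset.mem_univ, true_and] at hl ⊢
      by_cases hl' : l = k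
      · subst hl'
        exact absurd hl hk
      · rw [Function.update_of_ne hl']
        exact hl
  -- exchange bounds
  have hB : ∀ (k : Fin n) (i : ι), E k ∉ R → i ∈ S → i ∉ R →
      |b0.det (Function.update (fun k => a (E k)) k (a i))| ≤ |b0.det (fun k => a (E k))| := by
    intro k i hk hiS hi
    by_cases hd : b0.det (Function.update (fun k => a (E k)) k (a i)) = 0
    · rw [hd, abs_zero]
      exact abs_nonneg _
    · have h1 := hexP k i hiS hd
      have h2 : Function.update E k i ∈ Q := by
        simp only [Q, Finset.mem_filter]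
        exact ⟨h1, by rw [hcnt k i hk hi, hE.2]⟩
      have h3 := hmax _ h2
      rw [hupd]
      exact h3
  have hB' : ∀ (k : Fin n) (i : ι), E k ∉ R → i ∈ S → i ∈ R →
      b0.det (Function.update (fun k => a (E k)) k (a i)) = 0 := by
    intro k i hk hiS hi
    by_contra hd
    have h1 := hexP k i hiS hd
    have h2 := hmax1 _ h1
    have h3 := hcnt' k i hk hi
    rw [hE.2] at h3
    exact absurd h3 (not_lt.2 h2)
  refine ⟨E, hEP.1, hEP.2, ?_⟩
  intro k hk
  obtain ⟨x, hx, hv⟩ := h
  rw [hv, AlternatingMap.map_update_sum]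
  refine (Finset.abs_sum_le_sum_abs _ _).trans ?_
  have h4 : ∀ i ∈ S, |b0.det (Function.update (fun k => a (E k)) k (x i • a i))| ≤
      c * |b0.det (fun k => a (E k))| := by
    intro i hi
    rw [AlternatingMap.map_update_smul, smul_eq_mul, abs_mul]
    by_cases hiR : i ∈ R
    · rw [hB' k i hk hi hiR, abs_zero, mul_zero]
      positivity
    · exact mul_le_mul (hx i hi hiR) (hB k i hk hi hiR) (abs_nonneg _) hc
  refine (Finset.sum_le_sum h4).trans ?_
  rw [Finset.sum_const, nsmul_eq_mul]
  exact le_of_eq (by ring)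

/-- The coefficients of `v` in the frame `E`, as a function on the rows. -/
noncomputable def frameCoef (b0 : Basis (Fin n) ℝ V) (a : ι → V) (v : V) (E : Fin n → ι)
    (j : ι) : ℝ :=
  ∑ k, if E k = j then b0.det (Function.update (fun k => a (E k)) k v) /
    b0.det (fun k => a (E k)) else 0

theorem frameCoef_sum (b0 : Basis (Fin n) ℝ V) (a : ι → V) (S : Finset ι) (v : V)
    (E : Fin n → ι) (hS : ∀ k, E k ∈ S) (hd : b0.det (fun k => a (E k)) ≠ 0) :
    ∑ j ∈ S, frameCoef b0 a v E j • a j = v := by
  classical
  obtain ⟨α, hα, hdet⟩ := cramer_comb b0 (fun k => a (E k)) hd v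
  have h1 : ∀ k, b0.det (Function.update (fun k => a (E k)) k v) /
      b0.det (fun k => a (E k)) = α k := by
    intro k
    rw [hdet k, mul_div_assoc, div_self hd, mul_one]
  have h2 : ∀ j, frameCoef b0 a v E j = ∑ k, if E k = j then α k else 0 := by
    intro j
    simp only [frameCoef, h1]
  simp only [h2, Finset.sum_smul]
  rw [Finset.sum_comm]
  conv_rhs => rw [hα]
  refine Finset.sum_congr rfl fun k _ => ?_
  rw [Finset.sum_eq_single (E k)]
  · rw [if_pos rfl]
  · intro j _ hj
    rw [if_neg (Ne.symm hj), zero_smul]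
  · intro h
    exact absurd (hS k) h

theorem frameCoef_zero (b0 : Basis (Fin n) ℝ V) (a : ι → V) (S : Finset ι) (v : V)
    (E : Fin n → ι) (hS : ∀ k, E k ∈ S) (j : ι) (hj : j ∉ S) : frameCoef b0 a v E j = 0 := by
  refine Finset.sum_eq_zero fun k _ => ?_
  rw [if_neg]
  exact fun h => hj (h ▸ hS k)

theorem frameCoef_le (b0 : Basis (Fin n) ℝ V) (a : ι → V) (S R : Finset ι) (C : ℝ) (hC : 0 ≤ C)
    (v : V) (E : Fin n → ι) (hE : GoodFrame b0 a S R C v E) (j : ι) (hj : j ∉ R) :
    |frameCoef b0 a v E j| ≤ C := by
  classical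
  by_cases hjE : ∃ k, E k = j
  · obtain ⟨k, hk⟩ := hjE
    have hinj : Function.Injective E := by
      intro k l hkl
      by_contra hkl'
      apply hE.2.1
      exact b0.det.map_eq_zero_of_eq _ (by rw [hkl]) hkl'
    have h1 : frameCoef b0 a v E j = b0.det (Function.update (fun k => a (E k)) k v) /
        b0.det (fun k => a (E k)) := by
      unfold frameCoef
      rw [Finset.sum_eq_single k]
      · rw [if_pos hk]
      · intro l _ hl
        rw [if_neg]
        intro h
        exact hl (hinj (h.trans hk.symm))
      · intro h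
        exact absurd (Finset.mem_univ k) h
    rw [h1, abs_div, div_le_iff₀ (abs_pos.2 hE.2.1)]
    exact hE.2.2 k (by rw [hk]; exact hj)
  · push Not at hjE
    have : frameCoef b0 a v E j = 0 := Finset.sum_eq_zero fun k _ => if_neg (hjE k)
    rw [this, abs_zero]
    exact hC

open Classical in
/-- The average of the coefficients over all good frames. -/
noncomputable def repCoef (b0 : Basis (Fin n) ℝ V) (a : ι → V) (S R : Finset ι) (C : ℝ) (v : V)
    (j : ι) : ℝ :=
  (∑ E : Fin n → ι, if GoodFrame b0 a S R C v E then frameCoef b0 a v E j else 0) /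
    (∑ E : Fin n → ι, if GoodFrame b0 a S R C v E then 1 else 0)

theorem repCoef_zero (b0 : Basis (Fin n) ℝ V) (a : ι → V) (S R : Finset ι) (C : ℝ) (v : V)
    (j : ι) (hj : j ∉ S) : repCoef b0 a S R C v j = 0 := by
  classical
  unfold repCoef
  rw [Finset.sum_eq_zero, zero_div]
  intro E _
  split_ifs with h
  · exact frameCoef_zero b0 a S v E h.1 j hj
  · rfl

theorem repCoef_le (b0 : Basis (Fin n) ℝ V) (a : ι → V) (S R : Finset ι) (C : ℝ) (hC : 0 ≤ C)
    (v : V) (j : ι) (hj : j ∉ R) : |repCoef b0 a S R C v j| ≤ C := by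
  classical
  unfold repCoef
  set D : ℝ := ∑ E : Fin n → ι, if GoodFrame b0 a S R C v E then (1 : ℝ) else 0 with hD
  have hD0 : 0 ≤ D := Finset.sum_nonneg fun E _ => by split_ifs <;> norm_num
  rcases hD0.eq_or_lt with h0 | hpos
  · rw [← h0, div_zero, abs_zero]
    exact hC
  · rw [abs_div, abs_of_pos hpos, div_le_iff₀ hpos, hD, Finset.mul_sum]
    refine (Finset.abs_sum_le_sum_abs _ _).trans (Finset.sum_le_sum fun E _ => ?_)
    split_ifs with h
    · rw [mul_one]
      exact frameCoef_le b0 a S R C hC v E h j hj
    · simp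

theorem repCoef_sum (b0 : Basis (Fin n) ℝ V) (a : ι → V) (S R : Finset ι) (C : ℝ) (v : V)
    (h : ∃ E, GoodFrame b0 a S R C v E) :
    ∑ j ∈ S, repCoef b0 a S R C v j • a j = v := by
  classical
  obtain ⟨E0, hE0⟩ := h
  unfold repCoef
  set D : ℝ := ∑ E : Fin n → ι, if GoodFrame b0 a S R C v E then (1 : ℝ) else 0 with hD
  have hpos : 0 < D := by
    have h1 : (1 : ℝ) ≤ D := by
      rw [hD]
      have h2 := Finset.single_le_sum (f := fun E : Fin n → ι =>
        if GoodFrame b0 a S R C v E then (1 : ℝ) else 0)
        (fun E _ => by split_ifs <;> norm_num) (Finset.mem_univ E0)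
      simpa [hE0] using h2
    linarith
  have h3 : ∀ j ∈ S, ((∑ E : Fin n → ι, if GoodFrame b0 a S R C v E then
      frameCoef b0 a v E j else 0) / D) • a j =
      D⁻¹ • ∑ E : Fin n → ι, if GoodFrame b0 a S R C v E then
        frameCoef b0 a v E j • a j else 0 := by
    intro j _
    rw [div_eq_inv_mul, mul_smul, Finset.sum_smul]
    congr 1
    refine Finset.sum_congr rfl fun E _ => ?_
    split_ifs
    · rfl
    · rw [zero_smul]
  rw [Finset.sum_congr rfl h3, ← Finset.smul_sum, Finset.sum_comm]
  have h4 : ∀ E : Fin n → ι, (∑ j ∈ S, if GoodFrame b0 a S R C v E then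
      frameCoef b0 a v E j • a j else 0) =
      (if GoodFrame b0 a S R C v E then (1 : ℝ) else 0) • v := by
    intro E
    by_cases hE : GoodFrame b0 a S R C v E
    · simp only [if_pos hE, one_smul]
      exact frameCoef_sum b0 a S v E hE.1 hE.2.1
    · simp only [if_neg hE, zero_smul, Finset.sum_const_zero]
  rw [Finset.sum_congr rfl (fun E _ => h4 E), ← Finset.sum_smul, ← hD, smul_smul,
    inv_mul_cancel₀ hpos.ne', one_smul]

end Frame

section Meas

variable {ι Ω : Type} [Fintype ι] [DecidableEq ι] [MeasurableSpace Ω] {d : ℕ}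

theorem measurable_basis_det {κ : Type} [Fintype κ] [DecidableEq κ] (f : Ω → κ → κ → ℝ)
    (hf : ∀ i j, Measurable fun ω => f ω i j) :
    Measurable fun ω => (Pi.basisFun ℝ κ).det (f ω) := by
  have h1 : ∀ ω, (Pi.basisFun ℝ κ).det (f ω) = ∑ σ : Equiv.Perm κ,
      (Equiv.Perm.sign σ : ℝ) * ∏ i, f ω (σ i) i := by
    intro ω
    rw [Pi.basisFun_det]
    exact Matrix.det_apply' (Matrix.of (f ω))
  simp only [h1]
  exact Finset.measurable_sum _ fun σ _ => (Finset.measurable_prod _ fun i _ => hf _ _).const_mul _

variable (a : Ω → ι → Fin d → ℝ) (v : Ω → Fin d → ℝ)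

theorem measurable_det_rows (ha : ∀ i j, Measurable fun ω => a ω i j) (E : Fin d → ι) :
    Measurable fun ω => (Pi.basisFun ℝ (Fin d)).det (fun k => a ω (E k)) :=
  measurable_basis_det _ fun i j => ha (E i) j

theorem measurable_det_update (ha : ∀ i j, Measurable fun ω => a ω i j)
    (hv : ∀ j, Measurable fun ω => v ω j) (E : Fin d → ι) (k : Fin d) :
    Measurable fun ω => (Pi.basisFun ℝ (Fin d)).det
      (Function.update (fun k => a ω (E k)) k (v ω)) := by
  refine measurable_basis_det _ fun i j => ?_
  by_cases hi : i = k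
  · subst hi
    simpa using hv j
  · simpa [Function.update_of_ne hi] using ha (E i) j

theorem measurableSet_goodFrame (ha : ∀ i j, Measurable fun ω => a ω i j)
    (hv : ∀ j, Measurable fun ω => v ω j) (S R : Finset ι) (C : ℝ) (E : Fin d → ι) :
    MeasurableSet {ω | GoodFrame (Pi.basisFun ℝ (Fin d)) (a ω) S R C (v ω) E} := by
  unfold GoodFrame
  refine MeasurableSet.inter (MeasurableSet.const _) (MeasurableSet.inter ?_ ?_)
  · exact (measurable_det_rows a ha E (measurableSet_singleton 0)).compl
  · have : {ω | ∀ k, E k ∉ R → |(Pi.basisFun ℝ (Fin d)).det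
        (Function.update (fun k => a ω (E k)) k (v ω))| ≤
        C * |(Pi.basisFun ℝ (Fin d)).det (fun k => a ω (E k))|} =
        ⋂ k, {ω | E k ∉ R → |(Pi.basisFun ℝ (Fin d)).det
        (Function.update (fun k => a ω (E k)) k (v ω))| ≤
        C * |(Pi.basisFun ℝ (Fin d)).det (fun k => a ω (E k))|} := by
      ext ω
      simp
    change MeasurableSet {ω | ∀ k, E k ∉ R → |(Pi.basisFun ℝ (Fin d)).det
        (Function.update (fun k => a ω (E k)) k (v ω))| ≤
        C * |(Pi.basisFun ℝ (Fin d)).det (fun k => a ω (E k))|}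
    rw [this]
    refine MeasurableSet.iInter fun k => ?_
    by_cases hk : E k ∈ R
    · have : {ω | E k ∉ R → |(Pi.basisFun ℝ (Fin d)).det
        (Function.update (fun k => a ω (E k)) k (v ω))| ≤
        C * |(Pi.basisFun ℝ (Fin d)).det (fun k => a ω (E k))|} = Set.univ := by
        ext ω
        simp [hk]
      rw [this]
      exact MeasurableSet.univ
    · have : {ω | E k ∉ R → |(Pi.basisFun ℝ (Fin d)).det
        (Function.update (fun k => a ω (E k)) k (v ω))| ≤
        C * |(Pi.basisFun ℝ (Fin d)).det (fun k => a ω (E k))|} =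
        {ω | |(Pi.basisFun ℝ (Fin d)).det
        (Function.update (fun k => a ω (E k)) k (v ω))| ≤
        C * |(Pi.basisFun ℝ (Fin d)).det (fun k => a ω (E k))|} := by
        ext ω
        simp [hk]
      rw [this]
      exact measurableSet_le (measurable_det_update a v ha hv E k).abs
        ((measurable_det_rows a ha E).abs.const_mul C)

theorem measurable_frameCoef (ha : ∀ i j, Measurable fun ω => a ω i j)
    (hv : ∀ j, Measurable fun ω => v ω j) (E : Fin d → ι) (j : ι) :
    Measurable fun ω => frameCoef (Pi.basisFun ℝ (Fin d)) (a ω) (v ω) E j := by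
  unfold frameCoef
  refine Finset.measurable_sum _ fun k _ => ?_
  by_cases h : E k = j
  · simp only [if_pos h]
    exact (measurable_det_update a v ha hv E k).div (measurable_det_rows a ha E)
  · simp only [if_neg h]
    exact measurable_const

theorem measurable_repCoef (ha : ∀ i j, Measurable fun ω => a ω i j)
    (hv : ∀ j, Measurable fun ω => v ω j) (S R : Finset ι) (C : ℝ) (j : ι) :
    Measurable fun ω => repCoef (Pi.basisFun ℝ (Fin d)) (a ω) S R C (v ω) j := by
  classical
  unfold repCoef
  refine Measurable.div (Finset.measurable_sum _ fun E _ => ?_)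
    (Finset.measurable_sum _ fun E _ => ?_)
  · exact Measurable.ite (measurableSet_goodFrame a v ha hv S R C E)
      (measurable_frameCoef a v ha hv E j) measurable_const
  · exact Measurable.ite (measurableSet_goodFrame a v ha hv S R C E)
      measurable_const measurable_const

/-- Measurable selection of the coefficients of a representable row: `x = repCoef` depends only on
the rows `a ω` and on `v ω`. -/
theorem repCoef_spec (b0 : Basis (Fin d) ℝ (Fin d → ℝ)) (a : ι → Fin d → ℝ) (S R : Finset ι)
    (c : ℝ) (hc : 0 ≤ c) (v : Fin d → ℝ) (hpos : 0 < mdet b0 a S) (h : Rep a c S R v) :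
    v = ∑ j ∈ S, repCoef b0 a S R (c * S.card) v j • a j :=
  (repCoef_sum b0 a S R (c * S.card) v (exists_goodFrame b0 a S R c hc v hpos h)).symm

end Meas

end Pool.Agent.Lib.S3
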