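import Pool.Agent.Lib.S3.Geo.Opt

/-!
# Strict optimal bases

`SOpt a b T S c J x l`: `J` is a basis of rows containing the equality rows `T`, `x` is the point
which is tight exactly on `J`, and the multipliers `l` of the objective `c` on `J` are positive
outside `T` (and `l = 0` outside `J`). Then `x` is the unique optimum of `c` over `Pol a b T S`.

* `SOpt.isOpt`, `SOpt.vert`, `SOpt.unique`, `SOpt.of_opt`;
* `SOpt.delete`: deleting rows outside `J`; `SOpt.add_rows`: adding rows that are not tight;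
* `SOpt.shift`: adding `Σ t_r a_r`, `t ≥ 0`, to the objective; `SOpt.slice_mult`: the slice lemma for
  small multipliers;
* `SOpt.mod_T`: the objective modulo the equality rows;
* `SOpt.shear`: exact invariance under shears by an equality row;
* `SOpt.slice_near`: the slice lemma for near tight rows;
* `measurableSet_sopt`: measurability of events given by strict optimal bases.
-/

set_option autoImplicit false
set_option linter.unusedSectionVars false
set_option linter.unusedVariables false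

open MeasureTheory

namespace Pool.Agent.Lib.S3.Geo

variable {ι : Type} [Fintype ι] [DecidableEq ι] {n : ℕ}

/-- A strict optimal basis. -/
structure SOpt (a : ι → Fin n → ℝ) (b : ι → ℝ) (T S : Finset ι) (c : Fin n → ℝ)
    (J : Finset ι) (x : Fin n → ℝ) (l : ι → ℝ) : Prop where
  TJ : T ⊆ J
  JS : J ⊆ T ∪ S
  card : J.card = n
  li : LinearIndependent ℝ (fun i : J => a i)
  tight : ∀ i ∈ J, a i ⬝ᵥ x = b i
  strict : ∀ i ∈ S, i ∉ J → a i ⬝ᵥ x < b i
  mult : IsMult a J c l
  pos : ∀ i ∈ J, i ∉ T → 0 < l i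
  off : ∀ i, i ∉ J → l i = 0

/-- Two points which agree on a basis of rows are equal. -/
theorem eq_of_li {a : ι → Fin n → ℝ} {J : Finset ι} (hJ : J.card = n)
    (hli : LinearIndependent ℝ (fun i : J => a i)) {x y : Fin n → ℝ}
    (h : ∀ i ∈ J, a i ⬝ᵥ x = a i ⬝ᵥ y) : x = y := by
  have hcard : Fintype.card J = Module.finrank ℝ (Fin n → ℝ) := by
    rw [Fintype.card_coe, hJ, Module.finrank_fintype_fun_eq_card, Fintype.card_fin]
  have hsp := hli.span_eq_top_of_card_eq_finrank' hcard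
  have h1 : ∀ v : Fin n → ℝ, v ⬝ᵥ x = v ⬝ᵥ y := by
    intro v
    have hv : v ∈ Submodule.span ℝ (Set.range fun i : J => a i) := by
      rw [hsp]; exact Submodule.mem_top
    induction hv using Submodule.span_induction with
    | mem w hw =>
      obtain ⟨i, rfl⟩ := hw
      exact h i i.2
    | zero => rw [zero_dotProduct, zero_dotProduct]
    | add u w _ _ hu hw => rw [add_dotProduct, add_dotProduct, hu, hw]
    | smul t u _ hu => rw [smul_dotProduct, smul_dotProduct, hu]
  funext i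
  have := h1 (Pi.single i 1)
  simpa using this

/-- Multipliers on independent rows are unique. -/
theorem mult_unique_li {a : ι → Fin n → ℝ} {J : Finset ι}
    (hli : LinearIndependent ℝ (fun i : J => a i)) {c : Fin n → ℝ} {l l' : ι → ℝ}
    (h : IsMult a J c l) (h' : IsMult a J c l') {i : ι} (hi : i ∈ J) : l i = l' i := by
  rw [Fintype.linearIndependent_iff] at hli
  have h2 := hli (fun i => l i - l' i) (by
    have h3 : ∑ i ∈ J, (l i - l' i) • a i = 0 := by
      simp only [sub_smul, Finset.sum_sub_distrib]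
      rw [← h, ← h', sub_self]
    rw [← Finset.sum_coe_sort J] at h3
    exact h3) ⟨i, hi⟩
  exact sub_eq_zero.1 h2

variable {a a' : ι → Fin n → ℝ} {b b' : ι → ℝ} {T S J J' D : Finset ι} {c c' x x' : Fin n → ℝ}
  {l l' : ι → ℝ}

theorem SOpt.mem (h : SOpt a b T S c J x l) : x ∈ Pol a b T S := by
  refine ⟨fun i hi => h.tight i (h.TJ hi), fun i hi => ?_⟩
  by_cases hJ : i ∈ J
  · exact (h.tight i hJ).le
  · exact (h.strict i hi hJ).le

theorem SOpt.tt_eq (h : SOpt a b T S c J x l) : tt a b (T ∪ S) x = J := by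
  ext i
  rw [mem_tt]
  constructor
  · rintro ⟨h1, h2⟩
    by_contra hJ
    rcases Finset.mem_union.1 h1 with h3 | h3
    · exact hJ (h.TJ h3)
    · exact absurd h2 (h.strict i h3 hJ).ne
  · intro hi
    exact ⟨h.JS hi, h.tight i hi⟩

theorem SOpt.vert (h : SOpt a b T S c J x l) : Vert a b T S x :=
  ⟨h.mem, by rw [h.tt_eq, h.card]⟩

theorem SOpt.isOpt (h : SOpt a b T S c J x l) : IsOpt a b T S c x :=
  opt_of_mult h.mult h.mem h.tight
    (fun i hi => Finset.mem_union.1 (h.JS hi))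
    (fun i hi hT => (h.pos i hi hT).le)

/-- An optimum equals the strict optimum. -/
theorem SOpt.eq_opt (h : SOpt a b T S c J x l) {z : Fin n → ℝ} (hz : IsOpt a b T S c z) :
    z = x := by
  have h1 := dual_id h.mult h.tight z
  have h2 := hz.2 x h.mem
  have hnn : ∀ i ∈ J, 0 ≤ l i * (b i - a i ⬝ᵥ z) := by
    intro i hi
    by_cases hiT : i ∈ T
    · rw [hz.1.1 i hiT, sub_self, mul_zero]
    · refine mul_nonneg (h.pos i hi hiT).le ?_
      have := hz.1.2 i ((Finset.mem_union.1 (h.JS hi)).resolve_left hiT)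
      linarith
  have h3 : ∑ i ∈ J, l i * (b i - a i ⬝ᵥ z) = 0 :=
    le_antisymm (by linarith) (Finset.sum_nonneg hnn)
  have h4 := (Finset.sum_eq_zero_iff_of_nonneg hnn).1 h3
  refine (eq_of_li h.card h.li fun i hi => ?_).symm
  rw [h.tight i hi]
  by_cases hiT : i ∈ T
  · exact (hz.1.1 i hiT).symm
  · have h5 := h4 i hi
    rcases mul_eq_zero.1 h5 with h6 | h6
    · exact absurd h6 (h.pos i hi hiT).ne'
    · linarith

/-- Uniqueness of the strict optimal basis. -/
theorem SOpt.unique (h : SOpt a b T S c J x l) (h' : SOpt a b T S c J' x' l') :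
    J = J' ∧ x = x' ∧ l = l' := by
  have hx : x' = x := h.eq_opt h'.isOpt
  have hJ : J = J' := by rw [← h.tt_eq, ← h'.tt_eq, hx]
  refine ⟨hJ, hx.symm, ?_⟩
  funext i
  by_cases hi : i ∈ J
  · have h1 : IsMult a J c l' := by rw [hJ]; exact h'.mult
    exact mult_unique_li h.li h.mult h1 hi
  · rw [h.off i hi, h'.off i (hJ ▸ hi)]

/-- From an optimal vertex in general position with nonzero multipliers. -/
theorem SOpt.of_opt {T0 : Finset ι} (hG : GP a b T0) (hT0 : T0 ⊆ T) (hx : Vert a b T S x)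
    (hopt : IsOpt a b T S c x)
    (hne : ∀ l : ι → ℝ, IsMult a (tt a b (T ∪ S) x) c l → ∀ i ∈ tt a b (T ∪ S) x, i ∉ T → l i ≠ 0) :
    ∃ l, SOpt a b T S c (tt a b (T ∪ S) x) x l := by
  classical
  obtain ⟨l, hl⟩ := exists_mult hG hx.2 c
  let l' : ι → ℝ := fun i => if i ∈ tt a b (T ∪ S) x then l i else 0
  have hl' : IsMult a (tt a b (T ∪ S) x) c l' := by
    unfold IsMult at hl ⊢
    rw [hl]
    refine Finset.sum_congr rfl fun i hi => ?_
    simp only [l', if_pos hi]
  refine ⟨l', ?_, ?_, hx.2, hG.be _ hx.2.le, ?_, ?_, hl', ?_, ?_⟩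
  · intro i hi
    exact mem_tt.2 ⟨Finset.mem_union_left _ hi, hx.1.1 i hi⟩
  · intro i hi
    exact (mem_tt.1 hi).1
  · intro i hi
    exact (mem_tt.1 hi).2
  · intro i hi hit
    refine lt_of_le_of_ne (hx.1.2 i hi) fun h => hit ?_
    exact mem_tt.2 ⟨Finset.mem_union_right _ hi, h⟩
  · intro i hi hiT
    exact lt_of_le_of_ne (mult_nonneg hG hT0 hx hopt hl' hi hiT) (hne l' hl' i hi hiT).symm
  · intro i hi
    simp only [l', if_neg hi]

/-- Deleting rows outside the basis. -/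
theorem SOpt.delete (h : SOpt a b T S c J x l) (hD : Disjoint D J) :
    SOpt a b T (S \ D) c J x l := by
  refine ⟨h.TJ, ?_, h.card, h.li, h.tight, ?_, h.mult, h.pos, h.off⟩
  · intro i hi
    rcases Finset.mem_union.1 (h.JS hi) with h1 | h1
    · exact Finset.mem_union_left _ h1
    · exact Finset.mem_union_right _ (Finset.mem_sdiff.2 ⟨h1,
        fun h2 => Finset.disjoint_left.1 hD h2 hi⟩)
  · intro i hi
    exact h.strict i (Finset.mem_sdiff.1 hi).1

/-- Adding rows which are not tight. -/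
theorem SOpt.add_rows (h : SOpt a b T (S \ D) c J x l) (hD : ∀ i ∈ D, i ∈ S → a i ⬝ᵥ x < b i) :
    SOpt a b T S c J x l := by
  refine ⟨h.TJ, ?_, h.card, h.li, h.tight, ?_, h.mult, h.pos, h.off⟩
  · intro i hi
    rcases Finset.mem_union.1 (h.JS hi) with h1 | h1
    · exact Finset.mem_union_left _ h1
    · exact Finset.mem_union_right _ (Finset.mem_sdiff.1 h1).1
  · intro i hi hiJ
    by_cases hiD : i ∈ D
    · exact hD i hiD hi
    · exact h.strict i (Finset.mem_sdiff.2 ⟨hi, hiD⟩) hiJ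

/-- The rows outside `T ∪ S` do not matter. -/
theorem SOpt.congr (h : SOpt a b T S c J x l) (ha : ∀ i ∈ T ∪ S, a' i = a i)
    (hb : ∀ i ∈ T ∪ S, b' i = b i) : SOpt a' b' T S c J x l := by
  have hJa : ∀ i ∈ J, a' i = a i := fun i hi => ha i (h.JS hi)
  have hJb : ∀ i ∈ J, b' i = b i := fun i hi => hb i (h.JS hi)
  refine ⟨h.TJ, h.JS, h.card, ?_, ?_, ?_, ?_, h.pos, h.off⟩
  · have : (fun i : J => a' i) = fun i : J => a i := by
      funext i
      exact hJa i i.2
    rw [this]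
    exact h.li
  · intro i hi
    rw [hJa i hi, hJb i hi]
    exact h.tight i hi
  · intro i hi hiJ
    rw [ha i (Finset.mem_union_right _ hi), hb i (Finset.mem_union_right _ hi)]
    exact h.strict i hi hiJ
  · unfold IsMult
    rw [h.mult]
    refine Finset.sum_congr rfl fun i hi => ?_
    rw [hJa i hi]

/-- The objective modulo the equality rows. -/
theorem SOpt.mod_T (h : SOpt a b T S c J x l) (m : ι → ℝ)
    (hc : c' = c + ∑ j ∈ T, m j • a j) :
    SOpt a b T S c' J x (fun i => l i + if i ∈ T then m i else 0) := by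
  refine ⟨h.TJ, h.JS, h.card, h.li, h.tight, h.strict, ?_, ?_, ?_⟩
  · rw [hc]
    exact mult_shift h.mult h.TJ m
  · intro i hi hiT
    simp only [if_neg hiT, add_zero]
    exact h.pos i hi hiT
  · intro i hi
    have : i ∉ T := fun h1 => hi (h.TJ h1)
    simp only [if_neg this, add_zero]
    exact h.off i hi

/-- Adding a nonnegative combination of rows of the basis to the objective. -/
theorem SOpt.shift (h : SOpt a b T S c J x l) (hD : D ⊆ J) (t : ι → ℝ)
    (ht : ∀ r ∈ D, 0 ≤ t r) :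
    SOpt a b T S (c + ∑ r ∈ D, t r • a r) J x (fun i => l i + if i ∈ D then t i else 0) := by
  refine ⟨h.TJ, h.JS, h.card, h.li, h.tight, h.strict, mult_shift h.mult hD t, ?_, ?_⟩
  · intro i hi hiT
    have h1 := h.pos i hi hiT
    split_ifs with h2
    · have := ht i h2
      linarith
    · linarith
  · intro i hi
    have : i ∉ D := fun h1 => hi (hD h1)
    simp only [if_neg this, add_zero]
    exact h.off i hi

/-- Slice lemma for small multipliers: the objectives `c - Σ t_r a_r` and `c - Σ t'_r a_r` (modulo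
the equality rows) have multipliers at most `τ` on `D`; then `t` and `t'` differ by at most `τ`. -/
theorem SOpt.slice_mult {c₁ c₂ : Fin n → ℝ} {m₁ m₂ t t' : ι → ℝ} {τ : ℝ}
    (h : SOpt a b T S c₁ J x l) (h' : SOpt a b T S c₂ J' x' l')
    (h1 : c = c₁ + ∑ r ∈ D, t r • a r + ∑ j ∈ T, m₁ j • a j)
    (h2 : c = c₂ + ∑ r ∈ D, t' r • a r + ∑ j ∈ T, m₂ j • a j)
    (hDJ : D ⊆ J) (hDJ' : D ⊆ J') (hDT : Disjoint D T)
    (ht : ∀ r ∈ D, 0 ≤ t r) (ht' : ∀ r ∈ D, 0 ≤ t' r)
    (hl : ∀ r ∈ D, l r ≤ τ) (hl' : ∀ r ∈ D, l' r ≤ τ) :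
    ∀ r ∈ D, |t r - t' r| ≤ τ := by
  have e1 := (h.shift hDJ t ht).mod_T m₁ h1
  have e2 := (h'.shift hDJ' t' ht').mod_T m₂ h2
  obtain ⟨_, _, hll⟩ := e1.unique e2
  intro r hr
  have h3 := congrFun hll r
  have hrT : r ∉ T := Finset.disjoint_left.1 hDT hr
  simp only [if_pos hr, if_neg hrT, add_zero] at h3
  have p1 := h.pos r (hDJ hr) hrT
  have p2 := h'.pos r (hDJ' hr) hrT
  have q1 := hl r hr
  have q2 := hl' r hr
  rw [abs_le]
  constructor <;> linarith

/-- Exact invariance under shears by an equality row. -/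
theorem SOpt.shear (h : SOpt a b T S c J x l) {i₀ : ι} (hi : i₀ ∈ T) {s : ι → ℝ} (hs : s i₀ = 0)
    (ha : ∀ r, a' r = a r + s r • a i₀) (hb : ∀ r, b' r = b r + s r * b i₀) {m : ℝ}
    (hc : c' = c + m • a i₀) :
    SOpt a' b' T S c' J x
      (fun i => if i = i₀ then l i₀ - (∑ r ∈ J, l r * s r) + m else l i) := by
  have hiJ : i₀ ∈ J := h.TJ hi
  have hai : a' i₀ = a i₀ := by rw [ha, hs, zero_smul, add_zero]
  have htx : a i₀ ⬝ᵥ x = b i₀ := h.tight i₀ hiJ
  refine ⟨h.TJ, h.JS, h.card, ?_, ?_, ?_, ?_, ?_, ?_⟩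
  · -- linear independence
    have h0 := h.li
    rw [Fintype.linearIndependent_iff] at h0 ⊢
    intro g hg
    let f : ι → ℝ := fun i => if hh : i ∈ J then g ⟨i, hh⟩ else 0
    have hfg : ∀ i : J, f i = g i := by
      intro i
      simp only [f, dif_pos i.2]
    have h1 : ∑ i ∈ J, f i • a' i = 0 := by
      rw [← Finset.sum_coe_sort J]
      simp only [hfg]
      exact hg
    have h2 : ∑ i ∈ J, (f i + if i = i₀ then ∑ r ∈ J, f r * s r else 0) • a i = 0 := by
      have e1 : ∑ i ∈ J, f i • a' i = ∑ i ∈ J, f i • a i + (∑ r ∈ J, f r * s r) • a i₀ := by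
        rw [Finset.sum_smul, ← Finset.sum_add_distrib]
        refine Finset.sum_congr rfl fun i _ => ?_
        rw [ha i, smul_add, smul_smul]
      have e2 : ∑ i ∈ J, (f i + if i = i₀ then ∑ r ∈ J, f r * s r else 0) • a i =
          ∑ i ∈ J, f i • a i + (∑ r ∈ J, f r * s r) • a i₀ := by
        simp only [add_smul, Finset.sum_add_distrib, ite_smul, zero_smul]
        congr 1
        rw [Finset.sum_ite_eq' J i₀, if_pos hiJ]
      rw [e2, ← e1, h1]
    have h3 := h0 (fun i => f i + if (i : ι) = i₀ then ∑ r ∈ J, f r * s r else 0) (by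
      rw [← Finset.sum_coe_sort J] at h2
      exact h2)
    have h4 : ∀ i ∈ J, i ≠ i₀ → f i = 0 := by
      intro i hiJ' hne
      have := h3 ⟨i, hiJ'⟩
      simpa [hne] using this
    have h5 : ∑ r ∈ J, f r * s r = 0 := by
      refine Finset.sum_eq_zero fun r hr => ?_
      by_cases hr0 : r = i₀
      · rw [hr0, hs, mul_zero]
      · rw [h4 r hr hr0, zero_mul]
    have h6 : f i₀ = 0 := by
      have := h3 ⟨i₀, hiJ⟩
      simpa [h5] using this
    intro i
    rw [← hfg]
    by_cases hi0 : (i : ι) = i₀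
    · rw [hi0]; exact h6
    · exact h4 i i.2 hi0
  · intro i hi'
    rw [ha, hb, add_dotProduct, smul_dotProduct, h.tight i hi', htx, smul_eq_mul]
  · intro i hi' hiJ'
    rw [ha, hb, add_dotProduct, smul_dotProduct, htx, smul_eq_mul]
    have := h.strict i hi' hiJ'
    linarith
  · unfold IsMult
    have e1 : ∑ i ∈ J, (if i = i₀ then l i₀ - (∑ r ∈ J, l r * s r) + m else l i) • a' i =
        ∑ i ∈ J, l i • a' i + (m - ∑ r ∈ J, l r * s r) • a i₀ := by
      rw [← Finset.add_sum_erase J _ hiJ, ← Finset.add_sum_erase J (fun i => l i • a' i) hiJ]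
      rw [if_pos rfl, hai]
      have : ∑ i ∈ J.erase i₀, (if i = i₀ then l i₀ - (∑ r ∈ J, l r * s r) + m else l i) • a' i =
          ∑ i ∈ J.erase i₀, l i • a' i := by
        refine Finset.sum_congr rfl fun i hi' => ?_
        rw [if_neg (Finset.ne_of_mem_erase hi')]
      rw [this]
      module
    have e2 : ∑ i ∈ J, l i • a' i = ∑ i ∈ J, l i • a i + (∑ r ∈ J, l r * s r) • a i₀ := by
      rw [Finset.sum_smul, ← Finset.sum_add_distrib]
      refine Finset.sum_congr rfl fun i _ => ?_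
      rw [ha i, smul_add, smul_smul]
    have e3 : c = ∑ i ∈ J, l i • a i := h.mult
    rw [e1, e2, hc, e3]
    module
  · intro i hiJ' hiT
    have : i ≠ i₀ := fun h1 => hiT (h1 ▸ hi)
    simp only [if_neg this]
    exact h.pos i hiJ' hiT
  · intro i hiJ'
    have : i ≠ i₀ := fun h1 => hiJ' (h1 ▸ hiJ)
    simp only [if_neg this]
    exact h.off i hiJ'

/-- Slice lemma for near tight rows. The rows of `D` are `a r - t_r a i₀`, the optimum over the
other rows has slack at most `ε` times the slack of `i₀` on `D`; then the parameters are confined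
to an interval of length `ε`. -/
theorem SOpt.slice_near {a₁ a₂ : ι → Fin n → ℝ} {b₁ b₂ : ι → ℝ} {c₁ c₂ : Fin n → ℝ}
    {m₁ m₂ t t' : ι → ℝ} {ε : ℝ} {i₀ : ι} (hi₀ : i₀ ∉ D)
    (h : SOpt a₁ b₁ T (S \ D) c₁ J x l) (h' : SOpt a₂ b₂ T (S \ D) c₂ J' x' l')
    (hDT : Disjoint D T)
    (ha₁ : ∀ r, r ∉ D → a₁ r = a r) (hb₁ : ∀ r, r ∉ D → b₁ r = b r)
    (ha₂ : ∀ r, r ∉ D → a₂ r = a r) (hb₂ : ∀ r, r ∉ D → b₂ r = b r)
    (hD₁ : ∀ r ∈ D, a₁ r = a r - t r • a i₀) (hDb₁ : ∀ r ∈ D, b₁ r = b r - t r * b i₀)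
    (hD₂ : ∀ r ∈ D, a₂ r = a r - t' r • a i₀) (hDb₂ : ∀ r ∈ D, b₂ r = b r - t' r * b i₀)
    (h1 : c₁ = c + ∑ j ∈ T, m₁ j • a j) (h2 : c₂ = c + ∑ j ∈ T, m₂ j • a j)
    (hn₁ : ∀ r ∈ D, 0 < b₁ r - a₁ r ⬝ᵥ x ∧ b₁ r - a₁ r ⬝ᵥ x ≤ ε * (b₁ i₀ - a₁ i₀ ⬝ᵥ x))
    (hn₂ : ∀ r ∈ D, 0 < b₂ r - a₂ r ⬝ᵥ x' ∧ b₂ r - a₂ r ⬝ᵥ x' ≤ ε * (b₂ i₀ - a₂ i₀ ⬝ᵥ x'))
    (hpos : 0 < b₁ i₀ - a₁ i₀ ⬝ᵥ x) :
    ∀ r ∈ D, |t r - t' r| ≤ ε := by
  have hTS : ∀ i ∈ T ∪ (S \ D), i ∉ D := by
    intro i hi hiD
    rcases Finset.mem_union.1 hi with h3 | h3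
    · exact Finset.disjoint_left.1 hDT hiD h3
    · exact (Finset.mem_sdiff.1 h3).2 hiD
  have e1 : SOpt a b T (S \ D) c₁ J x l :=
    h.congr (fun i hi => (ha₁ i (hTS i hi)).symm) (fun i hi => (hb₁ i (hTS i hi)).symm)
  have e2 : SOpt a b T (S \ D) c₂ J' x' l' :=
    h'.congr (fun i hi => (ha₂ i (hTS i hi)).symm) (fun i hi => (hb₂ i (hTS i hi)).symm)
  have e3 : SOpt a b T (S \ D) c J x (fun i => l i + if i ∈ T then -m₁ i else 0) := by
    refine e1.mod_T (fun j => -m₁ j) ?_
    rw [h1, add_assoc, ← Finset.sum_add_distrib]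
    have : ∑ i ∈ T, (m₁ i • a i + -m₁ i • a i) = 0 := by
      refine Finset.sum_eq_zero fun i _ => ?_
      rw [← add_smul, add_neg_cancel, zero_smul]
    rw [this, add_zero]
  have e4 : SOpt a b T (S \ D) c J' x' (fun i => l' i + if i ∈ T then -m₂ i else 0) := by
    refine e2.mod_T (fun j => -m₂ j) ?_
    rw [h2, add_assoc, ← Finset.sum_add_distrib]
    have : ∑ i ∈ T, (m₂ i • a i + -m₂ i • a i) = 0 := by
      refine Finset.sum_eq_zero fun i _ => ?_
      rw [← add_smul, add_neg_cancel, zero_smul]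
    rw [this, add_zero]
  have hx : x = x' := (e3.unique e4).2.1
  subst hx
  intro r hr
  obtain ⟨p1, p2⟩ := hn₁ r hr
  obtain ⟨p3, p4⟩ := hn₂ r hr
  rw [ha₁ i₀ hi₀, hb₁ i₀ hi₀] at p2 hpos
  rw [ha₂ i₀ hi₀, hb₂ i₀ hi₀] at p4
  rw [hD₁ r hr, hDb₁ r hr, sub_dotProduct, smul_dotProduct, smul_eq_mul] at p1 p2
  rw [hD₂ r hr, hDb₂ r hr, sub_dotProduct, smul_dotProduct, smul_eq_mul] at p3 p4
  rw [abs_le]
  constructor
  · by_contra hcon
    push Not at hcon
    have : (t' r - t r) * (b i₀ - a i₀ ⬝ᵥ x) > ε * (b i₀ - a i₀ ⬝ᵥ x) := by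
      apply mul_lt_mul_of_pos_right _ hpos
      linarith
    nlinarith
  · by_contra hcon
    push Not at hcon
    have : (t r - t' r) * (b i₀ - a i₀ ⬝ᵥ x) > ε * (b i₀ - a i₀ ⬝ᵥ x) := by
      apply mul_lt_mul_of_pos_right _ hpos
      linarith
    nlinarith

/-! ### Measurability -/

section Meas

variable {Ω : Type} [MeasurableSpace Ω]

theorem measurable_matrix_det' {k : ℕ} (f : Ω → Matrix (Fin k) (Fin k) ℝ)
    (hf : ∀ i j, Measurable fun ω => f ω i j) : Measurable fun ω => (f ω).det := by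
  have h1 : ∀ ω, (f ω).det = ∑ σ : Equiv.Perm (Fin k),
      (Equiv.Perm.sign σ : ℝ) * ∏ i, f ω (σ i) i := fun ω => Matrix.det_apply' (f ω)
  simp only [h1]
  exact Finset.measurable_sum _ fun σ _ => (Finset.measurable_prod _ fun i _ => hf _ _).const_mul _

theorem measurable_matrix_inv {k : ℕ} (f : Ω → Matrix (Fin k) (Fin k) ℝ)
    (hf : ∀ i j, Measurable fun ω => f ω i j) (i j : Fin k) :
    Measurable fun ω => (f ω)⁻¹ i j := by
  have h1 : ∀ ω, (f ω)⁻¹ i j = ((f ω).det)⁻¹ * ((f ω).updateRow j (Pi.single i 1)).det := by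
    intro ω
    rw [Matrix.inv_def, Matrix.smul_apply, Ring.inverse_eq_inv', smul_eq_mul,
      Matrix.adjugate_apply]
  simp only [h1]
  refine (measurable_matrix_det' f hf).inv.mul (measurable_matrix_det' _ fun p q => ?_)
  by_cases hp : p = j
  · subst hp
    simp only [Matrix.updateRow_self]
    exact measurable_const
  · simp only [Matrix.updateRow_ne hp]
    exact hf p q

/-- Events given by strict optimal bases are measurable. -/
theorem measurableSet_sopt (a : Ω → ι → Fin n → ℝ) (b : Ω → ι → ℝ) (c : Ω → Fin n → ℝ)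
    (ha : ∀ i j, Measurable fun ω => a ω i j) (hb : ∀ i, Measurable fun ω => b ω i)
    (hc : ∀ j, Measurable fun ω => c ω j) (T S : Finset ι)
    (C : Finset ι → Set (Ω × (Fin n → ℝ) × (ι → ℝ))) (hC : ∀ J, MeasurableSet (C J)) :
    MeasurableSet {ω | ∃ J x l, SOpt (a ω) (b ω) T S (c ω) J x l ∧ (ω, x, l) ∈ C J} := by
  have h0 : {ω | ∃ J x l, SOpt (a ω) (b ω) T S (c ω) J x l ∧ (ω, x, l) ∈ C J} =
      ⋃ J : Finset ι, {ω | ∃ x l, SOpt (a ω) (b ω) T S (c ω) J x l ∧ (ω, x, l) ∈ C J} := by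
    ext ω
    simp
  rw [h0]
  refine MeasurableSet.iUnion fun J => ?_
  by_cases hJ : J.card = n ∧ T ⊆ J ∧ J ⊆ T ∪ S
  swap
  · have : {ω | ∃ x l, SOpt (a ω) (b ω) T S (c ω) J x l ∧ (ω, x, l) ∈ C J} = ∅ := by
      ext ω
      simp only [Set.mem_ofPred_eq, Set.mem_empty_iff_false, iff_false]
      rintro ⟨x, l, h, -⟩
      exact hJ ⟨h.card, h.TJ, h.JS⟩
    rw [this]
    exact MeasurableSet.empty
  obtain ⟨hJn, hTJ, hJS⟩ := hJ
  have hcard : Fintype.card J = n := by rw [Fintype.card_coe, hJn]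
  let e : J ≃ Fin n := Fintype.equivFinOfCardEq hcard
  let A : Ω → Matrix (Fin n) (Fin n) ℝ := fun ω => Matrix.of fun k => a ω (e.symm k)
  have hA : ∀ i j, Measurable fun ω => A ω i j := fun i j => ha _ j
  let X : Ω → Fin n → ℝ := fun ω => (A ω)⁻¹.mulVec fun k => b ω (e.symm k)
  let L : Ω → ι → ℝ := fun ω i => if h : i ∈ J then Matrix.vecMul (c ω) (A ω)⁻¹ (e ⟨i, h⟩) else 0
  have hX : Measurable X := by
    refine measurable_pi_lambda _ fun j => ?_
    simp only [X, Matrix.mulVec, dotProduct]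
    exact Finset.measurable_sum _ fun k _ => (measurable_matrix_inv A hA j k).mul (hb _)
  have hL : Measurable L := by
    refine measurable_pi_lambda _ fun i => ?_
    by_cases hi : i ∈ J
    · simp only [L, dif_pos hi, Matrix.vecMul, dotProduct]
      exact Finset.measurable_sum _ fun k _ => (hc k).mul (measurable_matrix_inv A hA k _)
    · simp only [L, dif_neg hi]
      exact measurable_const
  have hdot : ∀ i, Measurable fun ω => a ω i ⬝ᵥ X ω := by
    intro i
    simp only [dotProduct]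
    exact Finset.measurable_sum _ fun k _ => (ha i k).mul ((measurable_pi_apply k).comp hX)
  -- the determinant condition is linear independence
  have hli : ∀ ω, LinearIndependent ℝ (fun i : J => a ω i) ↔ (A ω).det ≠ 0 := by
    intro ω
    have h1 : (fun i : J => a ω i) = (A ω).row ∘ e := by
      funext i
      change a ω i = a ω (e.symm (e i))
      rw [Equiv.symm_apply_apply]
    rw [h1, linearIndependent_equiv e, Matrix.linearIndependent_rows_iff_isUnit,
      Matrix.isUnit_iff_isUnit_det, isUnit_iff_ne_zero]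
  -- the point and the multipliers
  have hxy : ∀ ω, (A ω).det ≠ 0 → ∀ x : Fin n → ℝ,
      (∀ i ∈ J, a ω i ⬝ᵥ x = b ω i) ↔ x = X ω := by
    intro ω hd x
    have hu : IsUnit (A ω).det := isUnit_iff_ne_zero.2 hd
    constructor
    · intro h
      have h1 : (A ω).mulVec x = fun k => b ω (e.symm k) := by
        funext k
        exact h _ (e.symm k).2
      simp only [X]
      rw [← h1, Matrix.mulVec_mulVec, Matrix.nonsing_inv_mul _ hu, Matrix.one_mulVec]
    · intro h i hi
      have h1 : (A ω).mulVec x = fun k => b ω (e.symm k) := by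
        rw [h]
        simp only [X]
        rw [Matrix.mulVec_mulVec, Matrix.mul_nonsing_inv _ hu, Matrix.one_mulVec]
      have h2 := congrFun h1 (e ⟨i, hi⟩)
      simp only [A, Matrix.mulVec, Matrix.of_apply, Equiv.symm_apply_apply] at h2
      exact h2
  have hly : ∀ ω, (A ω).det ≠ 0 → ∀ l : ι → ℝ,
      (IsMult (a ω) J (c ω) l ∧ ∀ i, i ∉ J → l i = 0) ↔ l = L ω := by
    intro ω hd l
    have hu : IsUnit (A ω).det := isUnit_iff_ne_zero.2 hd
    have key : ∀ l : ι → ℝ, IsMult (a ω) J (c ω) l ↔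
        c ω = Matrix.vecMul (fun k => l (e.symm k)) (A ω) := by
      intro l
      have h1 : ∑ i ∈ J, l i • a ω i = Matrix.vecMul (fun k => l (e.symm k)) (A ω) := by
        rw [← Finset.sum_coe_sort J, ← e.symm.sum_comp]
        funext j
        simp only [Finset.sum_apply, Pi.smul_apply, smul_eq_mul, Matrix.vecMul, dotProduct, A,
          Matrix.of_apply]
      unfold IsMult
      rw [h1]
    constructor
    · rintro ⟨h1, h2⟩
      funext i
      by_cases hi : i ∈ J
      · rw [key] at h1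
        simp only [L, dif_pos hi]
        rw [h1, Matrix.vecMul_vecMul, Matrix.mul_nonsing_inv _ hu, Matrix.vecMul_one]
        simp
      · simp only [L, dif_neg hi]
        exact h2 i hi
    · intro h
      constructor
      · rw [key]
        have h1 : (fun k => l (e.symm k)) = Matrix.vecMul (c ω) (A ω)⁻¹ := by
          funext k
          rw [h]
          simp only [L, dif_pos (e.symm k).2, Subtype.coe_eta, Equiv.apply_symm_apply]
        rw [h1, Matrix.vecMul_vecMul, Matrix.nonsing_inv_mul _ hu, Matrix.vecMul_one]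
      · intro i hi
        rw [h]
        simp only [L, dif_neg hi]
  have h1 : {ω | ∃ x l, SOpt (a ω) (b ω) T S (c ω) J x l ∧ (ω, x, l) ∈ C J} =
      {ω | (A ω).det ≠ 0} ∩ ({ω | ∀ i ∈ S, i ∉ J → a ω i ⬝ᵥ X ω < b ω i} ∩
        ({ω | ∀ i ∈ J, i ∉ T → 0 < L ω i} ∩ {ω | (ω, X ω, L ω) ∈ C J})) := by
    ext ω
    simp only [Set.mem_ofPred_eq, Set.mem_inter_iff]
    constructor
    · rintro ⟨x, l, h, hCJ⟩
      have hd := (hli ω).1 h.li
      have e1 := (hxy ω hd x).1 h.tight
      have e2 := (hly ω hd l).1 ⟨h.mult, h.off⟩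
      subst e1
      subst e2
      exact ⟨hd, h.strict, h.pos, hCJ⟩
    · rintro ⟨hd, h2, h3, h4⟩
      have e2 := (hly ω hd (L ω)).2 rfl
      exact ⟨X ω, L ω, ⟨hTJ, hJS, hJn, (hli ω).2 hd, (hxy ω hd (X ω)).2 rfl, h2, e2.1, h3, e2.2⟩,
        h4⟩
  rw [h1]
  refine MeasurableSet.inter ?_ (MeasurableSet.inter ?_ (MeasurableSet.inter ?_ ?_))
  · exact (measurable_matrix_det' A hA (measurableSet_singleton 0)).compl
  · have : {ω | ∀ i ∈ S, i ∉ J → a ω i ⬝ᵥ X ω < b ω i} =
        ⋂ i ∈ S \ J, {ω | a ω i ⬝ᵥ X ω < b ω i} := by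
      ext ω
      simp only [Set.mem_ofPred_eq, Set.mem_iInter, Finset.mem_sdiff, and_imp]
    rw [this]
    exact Finset.measurableSet_biInter _ fun i _ => measurableSet_lt (hdot i) (hb i)
  · have : {ω | ∀ i ∈ J, i ∉ T → 0 < L ω i} = ⋂ i ∈ J \ T, {ω | 0 < L ω i} := by
      ext ω
      simp only [Set.mem_ofPred_eq, Set.mem_iInter, Finset.mem_sdiff, and_imp]
    rw [this]
    exact Finset.measurableSet_biInter _ fun i _ =>
      measurableSet_lt measurable_const ((measurable_pi_apply i).comp hL)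
  · exact (measurable_id.prodMk (hX.prodMk hL)) (hC J)

end Meas

end Pool.Agent.Lib.S3.Geo
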