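import Mathlib

/-!
# Union over strings of moves (smoothed Hirsch, MP_4a5c02_co)

`strings_union`: moves of size `0` have total weight at most `p`, moves of size `j ≥ 1` have total
weight at most `A ^ j`; then the union over the strings of length `N` and total size at most `K`
has measure at most `2 ^ (N + K) * A ^ K * p ^ (N - K)` times `P0`.
-/

set_option autoImplicit false

open MeasureTheory
open scoped ENNReal

namespace Pool.Agent.Lib.S3

/-- Geometric sum. -/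
theorem geom_half_le (p : ℝ≥0∞) (hp : p ≤ 1) (J : ℕ) :
    ∑ j ∈ Finset.range J, (p / 2) ^ (j + 1) ≤ p := by
  have h1 : ∀ j, (p / 2) ^ (j + 1) ≤ p * (2⁻¹ : ℝ≥0∞) ^ (j + 1) := by
    intro j
    rw [div_eq_mul_inv, mul_pow]
    gcongr
    calc p ^ (j + 1) ≤ p ^ 1 := pow_le_pow_right_of_le_one' hp (by omega)
      _ = p := pow_one p
  calc ∑ j ∈ Finset.range J, (p / 2) ^ (j + 1)
      ≤ ∑ j ∈ Finset.range J, p * (2⁻¹ : ℝ≥0∞) ^ (j + 1) := Finset.sum_le_sum fun j _ => h1 j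
    _ = p * ∑ j ∈ Finset.range J, (2⁻¹ : ℝ≥0∞) ^ (j + 1) := by rw [Finset.mul_sum]
    _ ≤ p * 1 := by
        gcongr
        calc ∑ j ∈ Finset.range J, (2⁻¹ : ℝ≥0∞) ^ (j + 1) ≤ ∑' j : ℕ, (2⁻¹ : ℝ≥0∞) ^ (j + 1) :=
              ENNReal.sum_le_tsum _
          _ = 1 := by
              rw [ENNReal.tsum_geometric_add_one, ENNReal.one_sub_inv_two, inv_inv]
              exact ENNReal.inv_mul_cancel (by norm_num) (by norm_num)
    _ = p := mul_one p

/-- The generating sum of the weights of one move. -/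
theorem one_move {Mv : Type*} [Fintype Mv] (w : Mv → ℝ≥0∞) (sz : Mv → ℕ) (p A : ℝ≥0∞)
    (hp : p ≤ 1) (hA0 : A ≠ 0) (hAt : A ≠ ⊤)
    (h0 : ∑ x with sz x = 0, w x ≤ p)
    (h1 : ∀ j : ℕ, 1 ≤ j → ∑ x with sz x = j, w x ≤ A ^ j) :
    ∑ x, w x * (p / (2 * A)) ^ sz x ≤ 2 * p := by
  classical
  set θ : ℝ≥0∞ := p / (2 * A) with hθ
  obtain ⟨J, hJ⟩ : ∃ J : ℕ, ∀ x, sz x < J + 1 := by
    refine ⟨Finset.univ.sup sz, fun x => ?_⟩
    have : sz x ≤ Finset.univ.sup sz := Finset.le_sup (f := sz) (Finset.mem_univ x)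
    omega
  have hmaps : ∀ x ∈ (Finset.univ : Finset Mv), sz x ∈ Finset.range (J + 1) := fun x _ =>
    Finset.mem_range.mpr (hJ x)
  rw [← Finset.sum_fiberwise_of_maps_to hmaps]
  have h2 : ∀ j, ∑ x with sz x = j, w x * θ ^ sz x = (∑ x with sz x = j, w x) * θ ^ j := by
    intro j
    rw [Finset.sum_mul]
    refine Finset.sum_congr rfl fun x hx => ?_
    rw [(Finset.mem_filter.mp hx).2]
  rw [Finset.sum_congr rfl fun j _ => h2 j, Finset.sum_range_succ']
  have h3 : ∀ j, (∑ x with sz x = j + 1, w x) * θ ^ (j + 1) ≤ (p / 2) ^ (j + 1) := by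
    intro j
    calc (∑ x with sz x = j + 1, w x) * θ ^ (j + 1) ≤ A ^ (j + 1) * θ ^ (j + 1) := by
          gcongr
          exact h1 (j + 1) (by omega)
      _ = (A * θ) ^ (j + 1) := (mul_pow _ _ _).symm
      _ = (p / 2) ^ (j + 1) := by
          congr 1
          rw [hθ, ENNReal.div_eq_inv_mul, ENNReal.div_eq_inv_mul,
            ENNReal.mul_inv (Or.inl (by norm_num)) (Or.inl (by norm_num))]
          rw [← mul_assoc, ← mul_assoc, mul_comm A, mul_assoc (2⁻¹ : ℝ≥0∞),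
            ENNReal.mul_inv_cancel hA0 hAt, mul_one]
  calc (∑ j ∈ Finset.range J, (∑ x with sz x = j + 1, w x) * θ ^ (j + 1)) +
        (∑ x with sz x = 0, w x) * θ ^ 0
      ≤ (∑ j ∈ Finset.range J, (p / 2) ^ (j + 1)) + p * 1 := by
        gcongr with j
        · exact h3 j
        · simp
    _ ≤ p + p := by
        rw [mul_one]
        gcongr
        exact geom_half_le p hp J
    _ = 2 * p := (two_mul p).symm

/-- Total weight of the strings of length `N` and total size at most `K`. -/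
theorem strings_weight {Mv : Type*} [Fintype Mv] (w : Mv → ℝ≥0∞) (sz : Mv → ℕ)
    (p A : ℝ≥0∞) (hp0 : p ≠ 0) (hp : p ≤ 1) (hA : 1 ≤ A) (hAt : A ≠ ⊤)
    (h0 : ∑ x with sz x = 0, w x ≤ p)
    (h1 : ∀ j : ℕ, 1 ≤ j → ∑ x with sz x = j, w x ≤ A ^ j) (N K : ℕ) (hKN : K ≤ N) :
    ∑ s : Fin N → Mv with ∑ k, sz (s k) ≤ K, ∏ k, w (s k) ≤ 2 ^ (N + K) * A ^ K * p ^ (N - K) := by
  classical
  have hA0 : A ≠ 0 := by
    rintro rfl
    simp at hA
  have hpt : p ≠ ⊤ := ne_top_of_le_ne_top ENNReal.one_ne_top hp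
  set θ : ℝ≥0∞ := p / (2 * A) with hθ
  have h2A0 : (2 * A : ℝ≥0∞) ≠ 0 := mul_ne_zero (by norm_num) hA0
  have h2At : (2 * A : ℝ≥0∞) ≠ ⊤ := ENNReal.mul_ne_top (by norm_num) hAt
  have hθ1 : θ ≤ 1 := by
    rw [hθ]
    refine ENNReal.div_le_of_le_mul ?_
    rw [one_mul]
    calc p ≤ 1 := hp
      _ ≤ 2 * A := by
        calc (1 : ℝ≥0∞) = 1 * 1 := (one_mul 1).symm
          _ ≤ 2 * A := by gcongr; norm_num
  have hinv : θ * ((2 * A) / p) = 1 := by
    rw [hθ, ENNReal.div_eq_inv_mul, ENNReal.div_eq_inv_mul]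
    calc (2 * A)⁻¹ * p * (p⁻¹ * (2 * A)) = ((2 * A)⁻¹ * (2 * A)) * (p * p⁻¹) := by ring
      _ = 1 := by rw [ENNReal.inv_mul_cancel h2A0 h2At, ENNReal.mul_inv_cancel hp0 hpt, one_mul]
  have hone : ∀ e ≤ K, (1 : ℝ≥0∞) ≤ θ ^ e * ((2 * A) / p) ^ K := by
    intro e he
    calc (1 : ℝ≥0∞) = (θ * ((2 * A) / p)) ^ K := by rw [hinv, one_pow]
      _ = θ ^ K * ((2 * A) / p) ^ K := mul_pow _ _ _
      _ ≤ θ ^ e * ((2 * A) / p) ^ K := by
          gcongr ?_ * _
          exact pow_le_pow_right_of_le_one' hθ1 he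
  calc ∑ s : Fin N → Mv with ∑ k, sz (s k) ≤ K, ∏ k, w (s k)
      ≤ ∑ s : Fin N → Mv with ∑ k, sz (s k) ≤ K,
          (∏ k, (w (s k) * θ ^ sz (s k))) * ((2 * A) / p) ^ K := by
        refine Finset.sum_le_sum fun s hs => ?_
        rw [Finset.prod_mul_distrib, Finset.prod_pow_eq_pow_sum, mul_assoc]
        calc ∏ k, w (s k) = (∏ k, w (s k)) * 1 := (mul_one _).symm
          _ ≤ _ := by
            gcongr
            exact hone _ (Finset.mem_filter.mp hs).2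
    _ ≤ ∑ s : Fin N → Mv, (∏ k, (w (s k) * θ ^ sz (s k))) * ((2 * A) / p) ^ K :=
        Finset.sum_le_sum_of_subset (Finset.filter_subset _ _)
    _ = (∑ x, w x * θ ^ sz x) ^ N * ((2 * A) / p) ^ K := by
        rw [← Finset.sum_mul]
        congr 1
        have := Finset.prod_univ_sum (fun _ : Fin N => (Finset.univ : Finset Mv))
          (fun _ x => w x * θ ^ sz x)
        simp only [Finset.prod_const, Finset.card_univ, Fintype.card_fin,
          Fintype.piFinset_univ] at this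
        exact this.symm
    _ ≤ (2 * p) ^ N * ((2 * A) / p) ^ K := by
        gcongr
        exact one_move w sz p A hp hA0 hAt h0 h1
    _ = 2 ^ (N + K) * A ^ K * p ^ (N - K) := by
        obtain ⟨d, rfl⟩ := Nat.exists_eq_add_of_le hKN
        rw [Nat.add_sub_cancel_left, ENNReal.div_eq_inv_mul, mul_pow, mul_pow, mul_pow, pow_add p]
        have e1 : p ^ K * (p⁻¹) ^ K = 1 := by
          rw [← mul_pow, ENNReal.mul_inv_cancel hp0 hpt, one_pow]
        calc 2 ^ (K + d) * (p ^ K * p ^ d) * (p⁻¹ ^ K * (2 ^ K * A ^ K))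
            = 2 ^ (K + d) * 2 ^ K * A ^ K * p ^ d * (p ^ K * p⁻¹ ^ K) := by ring
          _ = 2 ^ (K + d + K) * A ^ K * p ^ d := by rw [e1, mul_one, pow_add 2 (K + d) K]

/-- Union over the strings of length `N` and total size at most `K`. -/
theorem strings_union {Ω : Type*} [MeasurableSpace Ω] (μ : Measure Ω) {Mv : Type*} [Fintype Mv]
    (w : Mv → ℝ≥0∞) (sz : Mv → ℕ) (Ev : List Mv → Set Ω) (P0 : ℝ≥0∞)
    (p A : ℝ≥0∞) (hp0 : p ≠ 0) (hp : p ≤ 1) (hA : 1 ≤ A) (hAt : A ≠ ⊤)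
    (h0 : ∑ x with sz x = 0, w x ≤ p)
    (h1 : ∀ j : ℕ, 1 ≤ j → ∑ x with sz x = j, w x ≤ A ^ j) (N K : ℕ) (hKN : K ≤ N)
    (hEv : ∀ s : List Mv, s.length = N → (s.map sz).sum ≤ K → μ (Ev s) ≤ (s.map w).prod * P0) :
    μ (⋃ s : List Mv, ⋃ _ : s.length = N ∧ (s.map sz).sum ≤ K, Ev s) ≤
      2 ^ (N + K) * A ^ K * p ^ (N - K) * P0 := by
  classical
  have hsub : (⋃ s : List Mv, ⋃ _ : s.length = N ∧ (s.map sz).sum ≤ K, Ev s) ⊆
      ⋃ s ∈ (Finset.univ.filter fun s : Fin N → Mv => ∑ k, sz (s k) ≤ K), Ev (List.ofFn s) := by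
    intro ω hω
    simp only [Set.mem_iUnion] at hω
    obtain ⟨s, ⟨hs1, hs2⟩, hs3⟩ := hω
    subst hs1
    simp only [Set.mem_iUnion]
    refine ⟨s.get, ?_, ?_⟩
    · rw [Finset.mem_filter]
      refine ⟨Finset.mem_univ _, ?_⟩
      have : (List.ofFn fun k => sz (s.get k)) = s.map sz := by
        conv_rhs => rw [← List.ofFn_get s]
        rw [List.map_ofFn]
        rfl
      rw [← List.sum_ofFn, this]
      exact hs2
    · rw [List.ofFn_get]
      exact hs3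
  calc μ (⋃ s : List Mv, ⋃ _ : s.length = N ∧ (s.map sz).sum ≤ K, Ev s)
      ≤ μ (⋃ s ∈ (Finset.univ.filter fun s : Fin N → Mv => ∑ k, sz (s k) ≤ K),
          Ev (List.ofFn s)) := measure_mono hsub
    _ ≤ ∑ s : Fin N → Mv with ∑ k, sz (s k) ≤ K, μ (Ev (List.ofFn s)) :=
        measure_biUnion_finset_le _ _
    _ ≤ ∑ s : Fin N → Mv with ∑ k, sz (s k) ≤ K, (∏ k, w (s k)) * P0 := by
        refine Finset.sum_le_sum fun s hs => ?_
        have h := hEv (List.ofFn s) (List.length_ofFn) (by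
          rw [List.map_ofFn, List.sum_ofFn]
          exact (Finset.mem_filter.mp hs).2)
        rw [List.map_ofFn, List.prod_ofFn] at h
        exact h
    _ = (∑ s : Fin N → Mv with ∑ k, sz (s k) ≤ K, ∏ k, w (s k)) * P0 := by
        rw [Finset.sum_mul]
    _ ≤ 2 ^ (N + K) * A ^ K * p ^ (N - K) * P0 := by
        gcongr
        exact strings_weight w sz p A hp0 hp hA hAt h0 h1 N K hKN

end Pool.Agent.Lib.S3
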