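import Pool.Agent.Lib.S3.MaxDet

/-! The maximal determinant of a set of rows as a potential which counts walls.

A row is representable by the rows of `S`, with free rows `R`, when it is a combination of the rows
of `S` with coefficients of absolute value at most `c` outside `R`. Adding a row which is not
representable multiplies the maximal determinant by at least `c`. -/

set_option autoImplicit false

open Module

namespace Pool.Agent.Lib.S3

variable {ι V : Type} [AddCommGroup V] [Module ℝ V] {n : ℕ}

/-- Maximal absolute value of the determinant of `n` rows of `S`. -/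
noncomputable def mdet (b0 : Basis (Fin n) ℝ V) (a : ι → V) (S : Finset ι) : ℝ :=
  ⨆ E : Fin n → S, |b0.det (fun k => a (E k))|

/-- `v` is a combination of the rows of `S` with coefficients at most `c` outside `R`. -/
def Rep (a : ι → V) (c : ℝ) (S R : Finset ι) (v : V) : Prop :=
  ∃ x : ι → ℝ, (∀ j ∈ S, j ∉ R → |x j| ≤ c) ∧ v = ∑ j ∈ S, x j • a j

theorem mdet_bdd (b0 : Basis (Fin n) ℝ V) (a : ι → V) (S : Finset ι) :
    BddAbove (Set.range (fun E : Fin n → S => |b0.det (fun k => a (E k))|)) :=
  Set.finite_range _ |>.bddAbove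

theorem mdet_nonneg (b0 : Basis (Fin n) ℝ V) (a : ι → V) (S : Finset ι) : 0 ≤ mdet b0 a S :=
  Real.iSup_nonneg (fun _ => abs_nonneg _)

theorem le_mdet (b0 : Basis (Fin n) ℝ V) (a : ι → V) (S : Finset ι) (E : Fin n → ι)
    (hE : ∀ k, E k ∈ S) : |b0.det (fun k => a (E k))| ≤ mdet b0 a S :=
  le_ciSup (mdet_bdd b0 a S) (fun k => (⟨E k, hE k⟩ : S))

theorem mdet_mono (b0 : Basis (Fin n) ℝ V) (a : ι → V) {S T : Finset ι} (h : S ⊆ T) :
    mdet b0 a S ≤ mdet b0 a T := by
  apply Real.iSup_le _ (mdet_nonneg b0 a T)
  intro E
  exact le_mdet b0 a T (fun k => (E k : ι)) (fun k => h (E k).2)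

theorem mdet_le (b0 : Basis (Fin n) ℝ V) (a : ι → V) (S : Finset ι) (U : ℝ) (hU : 0 ≤ U)
    (h : ∀ E : Fin n → ι, (∀ k, E k ∈ S) → |b0.det (fun k => a (E k))| ≤ U) :
    mdet b0 a S ≤ U := by
  apply Real.iSup_le _ hU
  intro E
  exact h _ (fun k => (E k).2)

theorem exists_mdet (b0 : Basis (Fin n) ℝ V) (a : ι → V) (S : Finset ι)
    (hpos : 0 < mdet b0 a S) :
    ∃ E : Fin n → ι, (∀ k, E k ∈ S) ∧ |b0.det (fun k => a (E k))| = mdet b0 a S := by
  have hne : Nonempty (Fin n → S) := by
    by_contra hemp
    rw [not_nonempty_iff] at hemp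
    unfold mdet at hpos
    rw [Real.iSup_of_isEmpty] at hpos
    exact lt_irrefl _ hpos
  obtain ⟨E, hE⟩ := exists_eq_ciSup_of_finite (f := fun E : Fin n → S =>
    |b0.det (fun k => a (E k))|)
  exact ⟨fun k => E k, fun k => (E k).2, hE⟩

/-- A family with nonzero determinant represents every vector, with Cramer coefficients. -/
theorem cramer_comb (b0 : Basis (Fin n) ℝ V) (v : Fin n → V) (hv : b0.det v ≠ 0) (w : V) :
    ∃ α : Fin n → ℝ, w = ∑ k, α k • v k ∧
      ∀ k, b0.det (Function.update v k w) = α k * b0.det v := by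
  have hb := (Module.Basis.is_basis_iff_det b0 (v := v)).2 (isUnit_iff_ne_zero.2 hv)
  let bE : Basis (Fin n) ℝ V := Basis.mk hb.1 hb.2.ge
  have hbE : ∀ j, bE j = v j := by
    intro j
    simp [bE]
  have h5 : w = ∑ k, (bE.repr w k) • v k := by
    conv_lhs => rw [← bE.sum_repr w]
    apply Finset.sum_congr rfl
    intro k _
    rw [hbE]
  refine ⟨fun k => bE.repr w k, h5, ?_⟩
  intro k
  have h6 := det_update_comb b0 v (fun k => bE.repr w k) k
  rw [← h5] at h6
  exact h6

/-- Adding a row which is not representable multiplies the maximal determinant by `c`. -/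
theorem mdet_wall [DecidableEq ι] (b0 : Basis (Fin n) ℝ V) (a : ι → V) (c : ℝ) (S R T : Finset ι)
    (i : ι) (hc : 0 ≤ c) (hST : S ⊆ T) (hi : i ∈ T) (hrep : ¬ Rep a c S R (a i)) :
    c * mdet b0 a S ≤ mdet b0 a T := by
  classical
  rcases (mdet_nonneg b0 a S).eq_or_lt with h0 | hpos
  · rw [← h0, mul_zero]
    exact mdet_nonneg b0 a T
  obtain ⟨E, hES, hE⟩ := exists_mdet b0 a S hpos
  have hne : b0.det (fun k => a (E k)) ≠ 0 := by
    rw [← hE] at hpos
    exact abs_pos.1 hpos
  obtain ⟨α, hα, hdet⟩ := cramer_comb b0 (fun k => a (E k)) hne (a i)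
  -- some coefficient is large
  have hlarge : ∃ k, c < |α k| := by
    by_contra hall
    push Not at hall
    apply hrep
    -- the family is injective
    have hinj : Function.Injective E := by
      intro k l hkl
      by_contra hkl'
      apply hne
      exact b0.det.map_eq_zero_of_eq _ (by rw [hkl]) hkl'
    let x : ι → ℝ := fun j => ∑ k, if E k = j then α k else 0
    have hx : ∀ k, x (E k) = α k := by
      intro k
      simp only [x]
      rw [Finset.sum_eq_single k]
      · simp
      · intro l _ hl
        rw [if_neg]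
        exact fun h => hl (hinj h)
      · intro h
        exact absurd (Finset.mem_univ k) h
    have hx0 : ∀ j, (∀ k, E k ≠ j) → x j = 0 := by
      intro j hj
      simp only [x]
      apply Finset.sum_eq_zero
      intro k _
      rw [if_neg (hj k)]
    refine ⟨x, ?_, ?_⟩
    · intro j hj _
      by_cases hjE : ∃ k, E k = j
      · obtain ⟨k, hk⟩ := hjE
        rw [← hk, hx]
        exact hall k
      · push Not at hjE
        rw [hx0 j hjE, abs_zero]
        exact hc
    · rw [hα]
      have h1 : ∑ j ∈ S, x j • a j = ∑ j ∈ Finset.univ.image E, x j • a j := by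
        symm
        apply Finset.sum_subset
        · intro j hj
          rw [Finset.mem_image] at hj
          obtain ⟨k, _, hk⟩ := hj
          rw [← hk]
          exact hES k
        · intro j _ hj
          rw [hx0 j, zero_smul]
          intro k hk
          exact hj (Finset.mem_image.2 ⟨k, Finset.mem_univ _, hk⟩)
      rw [h1, Finset.sum_image (fun k _ l _ h => hinj h)]
      apply Finset.sum_congr rfl
      intro k _
      rw [hx]
  obtain ⟨k, hk⟩ := hlarge
  have h2 := hdet k
  have h3 : Function.update (fun k => a (E k)) k (a i) =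
      fun l => a (Function.update E k i l) := by
    funext l
    by_cases hl : l = k
    · subst hl
      simp
    · simp [Function.update_of_ne hl]
  rw [h3] at h2
  have h4 := le_mdet b0 a T (Function.update E k i) (by
    intro l
    by_cases hl : l = k
    · subst hl
      simpa using hi
    · rw [Function.update_of_ne hl]
      exact hST (hES l))
  rw [h2, abs_mul, hE] at h4
  exact le_trans (mul_le_mul_of_nonneg_right hk.le hpos.le) h4

/-- Counting walls along an increasing sequence of sets of rows. -/
theorem wall_chain [DecidableEq ι] (b0 : Basis (Fin n) ℝ V) (a : ι → V) (c : ℝ) (hc : 1 ≤ c)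
    (S : ℕ → Finset ι) (N : ℕ) (hS : ∀ l < N, S l ⊆ S (l + 1)) (W : Finset ℕ)
    (hW : ∀ l ∈ W, l < N ∧ ∃ i ∈ S (l + 1), ∃ R : Finset ι, ¬ Rep a c (S l) R (a i)) :
    c ^ W.card * mdet b0 a (S 0) ≤ mdet b0 a (S N) := by
  classical
  have hc0 : 0 ≤ c := le_trans zero_le_one hc
  have key : ∀ M ≤ N, c ^ (W.filter (fun l => l < M)).card * mdet b0 a (S 0) ≤
      mdet b0 a (S M) := by
    intro M
    induction M with
    | zero =>
      intro _
      have : W.filter (fun l => l < 0) = ∅ := by
        ext l
        simp
      rw [this, Finset.card_empty, pow_zero, one_mul]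
    | succ M ih =>
      intro hM
      have hM' : M ≤ N := by omega
      by_cases hMW : M ∈ W
      · have h1 : W.filter (fun l => l < M + 1) = insert M (W.filter (fun l => l < M)) := by
          ext l
          simp only [Finset.mem_filter, Finset.mem_insert]
          constructor
          · rintro ⟨h1, h2⟩
            rcases Nat.lt_succ_iff_lt_or_eq.1 h2 with h3 | h3
            · exact Or.inr ⟨h1, h3⟩
            · exact Or.inl h3
          · rintro (h1 | ⟨h1, h2⟩)
            · subst h1
              exact ⟨hMW, Nat.lt_succ_self _⟩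
            · exact ⟨h1, by omega⟩
        rw [h1, Finset.card_insert_of_notMem (by simp)]
        obtain ⟨_, i, hi, R, hrep⟩ := hW M hMW
        have h2 := mdet_wall b0 a c (S M) R (S (M + 1)) i hc0 (hS M (by omega)) hi hrep
        have h3 := ih hM'
        calc c ^ ((W.filter (fun l => l < M)).card + 1) * mdet b0 a (S 0)
            = c * (c ^ (W.filter (fun l => l < M)).card * mdet b0 a (S 0)) := by
              rw [pow_succ]; ring
          _ ≤ c * mdet b0 a (S M) := mul_le_mul_of_nonneg_left h3 hc0
          _ ≤ _ := h2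
      · have h1 : W.filter (fun l => l < M + 1) = W.filter (fun l => l < M) := by
          ext l
          simp only [Finset.mem_filter]
          constructor
          · rintro ⟨h1, h2⟩
            refine ⟨h1, ?_⟩
            rcases Nat.lt_succ_iff_lt_or_eq.1 h2 with h3 | h3
            · exact h3
            · subst h3
              exact absurd h1 hMW
          · rintro ⟨h1, h2⟩
            exact ⟨h1, by omega⟩
        rw [h1]
        exact le_trans (ih hM') (mdet_mono b0 a (hS M (by omega)))
  have h1 := key N le_rfl
  have h2 : W.filter (fun l => l < N) = W := by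
    rw [Finset.filter_eq_self]
    intro l hl
    exact (hW l hl).1
  rw [h2] at h1
  exact h1

/-- Representability is monotone in the set of rows (more rows, and more free rows). -/
theorem Rep.mono {a : ι → V} {c c' : ℝ} {S T R R' : Finset ι} {v : V} (h : Rep a c S R v)
    (hST : S ⊆ T) (hR : R ⊆ R') (hc : c ≤ c') (hc' : 0 ≤ c') : Rep a c' T R' v := by
  classical
  obtain ⟨x, hx, hv⟩ := h
  refine ⟨fun j => if j ∈ S then x j else 0, ?_, ?_⟩
  · intro j _ hj
    by_cases hjS : j ∈ S
    · simp only [if_pos hjS]
      exact le_trans (hx j hjS (fun h => hj (hR h))) hc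
    · simp only [if_neg hjS, abs_zero]
      exact hc'
  · rw [hv]
    rw [← Finset.sum_subset hST (f := fun j => (if j ∈ S then x j else 0) • a j)]
    · apply Finset.sum_congr rfl
      intro j hj
      rw [if_pos hj]
    · intro j _ hj
      rw [if_neg hj, zero_smul]

/-- Representability does not change when multiples of a free row `a i` are added to the other
rows. -/
theorem Rep.shear [DecidableEq ι] {a a' : ι → V} {c : ℝ} {S R : Finset ι} {v v' : V} {i : ι}
    (hiS : i ∈ S) (hiR : i ∈ R) (t : ι → ℝ) (ha : ∀ j, a' j = a j + t j • a i) (hti : t i = 0)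
    (s : ℝ) (hv : v' = v + s • a i) (h : Rep a c S R v) : Rep a' c S R v' := by
  obtain ⟨x, hx, hv'⟩ := h
  have hai : a' i = a i := by rw [ha, hti, zero_smul, add_zero]
  refine ⟨fun j => if j = i then x i + s - ∑ k ∈ S, x k * t k else x j, ?_, ?_⟩
  · intro j hj hjR
    have hji : j ≠ i := fun h => hjR (h ▸ hiR)
    simp only [if_neg hji]
    exact hx j hj hjR
  · have h1 : ∑ j ∈ S, (if j = i then x i + s - ∑ k ∈ S, x k * t k else x j) • a' j =
        ∑ j ∈ S, x j • a' j + (s - ∑ k ∈ S, x k * t k) • a i := by
      rw [← Finset.add_sum_erase S _ hiS, ← Finset.add_sum_erase S (fun j => x j • a' j) hiS]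
      rw [if_pos rfl, hai]
      have h2 : ∑ j ∈ S.erase i, (if j = i then x i + s - ∑ k ∈ S, x k * t k else x j) • a' j =
          ∑ j ∈ S.erase i, x j • a' j := by
        apply Finset.sum_congr rfl
        intro j hj
        rw [if_neg (Finset.ne_of_mem_erase hj)]
      rw [h2]
      module
    rw [h1, hv, hv']
    have h3 : ∑ j ∈ S, x j • a' j = ∑ j ∈ S, x j • a j + (∑ k ∈ S, x k * t k) • a i := by
      rw [Finset.sum_smul, ← Finset.sum_add_distrib]
      apply Finset.sum_congr rfl
      intro j _
      rw [ha j, smul_add, smul_smul]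
    rw [h3]
    module

end Pool.Agent.Lib.S3
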