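import Pool.Agent.Lib.S3.WallN

/-! Walls defined by the determinant potential, with measurable representation coefficients.

`IsWall ρ N c S i`: adding the row `i` to `S` multiplies the potential `MD` by at least `c`. A row
which is not a wall is a combination of the maximal tuple `mtup` of `{N} ∪ S` with Cramer
coefficients `mcoef` of absolute value less than `c`. The maximal tuple and the coefficients are
measurable functions of the rows. -/

set_option autoImplicit false

open Module MeasureTheory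

namespace Pool.Agent.Lib.S3

variable {κ : Type} {n : ℕ}

/-- The rows together with the chart row. -/
def nrow (ρ : κ → Fin (n + 1) → ℝ) (N : Fin (n + 1) → ℝ) (o : Option κ) : Fin (n + 1) → ℝ :=
  Option.elim o N ρ

/-- Determinant of a tuple of rows. -/
noncomputable def tdet (ρ : κ → Fin (n + 1) → ℝ) (N : Fin (n + 1) → ℝ)
    (E : Fin (n + 1) → Option κ) : ℝ :=
  (Matrix.of (fun k => nrow ρ N (E k))).det

/-- Wall: the potential grows by a factor at least `c`. -/
def IsWall [DecidableEq κ] (ρ : κ → Fin (n + 1) → ℝ) (N : Fin (n + 1) → ℝ) (c : ℝ) (S : Finset κ)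
    (i : κ) : Prop :=
  c * MD ρ N S ≤ MD ρ N (insert i S)

theorem tdet_le_MD (ρ : κ → Fin (n + 1) → ℝ) (N : Fin (n + 1) → ℝ) (S : Finset κ)
    (E : Fin (n + 1) → Option κ) (hE : ∀ k, E k ∈ Finset.insertNone S) :
    |tdet ρ N E| ≤ MD ρ N S := by
  have h := le_mdet (Pi.basisFun ℝ (Fin (n + 1))) (fun o : Option κ => Option.elim o N ρ)
    (Finset.insertNone S) E hE
  rw [Pi.basisFun_det_apply] at h
  exact h

/-- Counting walls in the sense of `IsWall`. -/
theorem isWall_count [DecidableEq κ] (ρ : κ → Fin (n + 1) → ℝ) (N : Fin (n + 1) → ℝ) (c Mb : ℝ)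
    (hc : 1 ≤ c) (hMb : 0 ≤ Mb) (S : ℕ → Finset κ) (K : ℕ) (hS : ∀ l < K, S l ⊆ S (l + 1))
    (hρ : ∀ r ∈ S K, ∀ j, |ρ r j| ≤ Mb) (hN : ∀ j, |N j| ≤ Mb) (J : Fin n → κ)
    (hJ : ∀ k, J k ∈ S 0) (W : Finset ℕ)
    (hW : ∀ l ∈ W, l < K ∧ ∃ i ∈ S (l + 1), IsWall ρ N c (S l) i) :
    c ^ W.card *
      |(Matrix.of (Fin.cons N (fun k => ρ (J k)) : Fin (n + 1) → Fin (n + 1) → ℝ)).det| ≤
      ((n + 1).factorial : ℝ) * Mb ^ (n + 1) := by
  have hc0 : 0 ≤ c := le_trans zero_le_one hc
  refine le_trans (mul_le_mul_of_nonneg_left (le_MD ρ N (S 0) J hJ) (by positivity)) ?_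
  refine le_trans ?_ (MD_le ρ N (S K) Mb hMb hρ hN)
  have key : ∀ M ≤ K, c ^ (W.filter (fun l => l < M)).card * MD ρ N (S 0) ≤ MD ρ N (S M) := by
    intro M
    induction M with
    | zero =>
      intro _
      have : W.filter (fun l => l < 0) = ∅ := by
        ext l
        simp
      rw [this, Finset.card_empty, pow_zero, one_mul]
    | succ M ih =>
      intro hM
      have hM' : M ≤ K := by omega
      by_cases hMW : M ∈ W
      · have h1 : W.filter (fun l => l < M + 1) = insert M (W.filter (fun l => l < M)) := by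
          ext l
          simp only [Finset.mem_filter, Finset.mem_insert]
          constructor
          · rintro ⟨h1, h2⟩
            rcases Nat.lt_succ_iff_lt_or_eq.1 h2 with h3 | h3
            · exact Or.inr ⟨h1, h3⟩
            · exact Or.inl h3
          · rintro (h1 | ⟨h1, h2⟩)
            · subst h1
              exact ⟨hMW, Nat.lt_succ_self _⟩
            · exact ⟨h1, by omega⟩
        rw [h1, Finset.card_insert_of_notMem (by simp)]
        obtain ⟨_, i, hi, hw⟩ := hW M hMW
        have h2 : c * MD ρ N (S M) ≤ MD ρ N (S (M + 1)) := by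
          refine le_trans hw (MD_mono ρ N ?_)
          intro x hx
          rcases Finset.mem_insert.1 hx with h | h
          · rw [h]
            exact hi
          · exact hS M (by omega) h
        have h3 := ih hM'
        calc c ^ ((W.filter (fun l => l < M)).card + 1) * MD ρ N (S 0)
            = c * (c ^ (W.filter (fun l => l < M)).card * MD ρ N (S 0)) := by
              rw [pow_succ]; ring
          _ ≤ c * MD ρ N (S M) := mul_le_mul_of_nonneg_left h3 hc0
          _ ≤ _ := h2
      · have h1 : W.filter (fun l => l < M + 1) = W.filter (fun l => l < M) := by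
          ext l
          simp only [Finset.mem_filter]
          constructor
          · rintro ⟨h1, h2⟩
            refine ⟨h1, ?_⟩
            rcases Nat.lt_succ_iff_lt_or_eq.1 h2 with h3 | h3
            · exact h3
            · subst h3
              exact absurd h1 hMW
          · rintro ⟨h1, h2⟩
            exact ⟨h1, by omega⟩
        rw [h1]
        exact le_trans (ih hM') (MD_mono ρ N (hS M (by omega)))
  have h1 := key K le_rfl
  have h2 : W.filter (fun l => l < K) = W := by
    rw [Finset.filter_eq_self]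
    intro l hl
    exact (hW l hl).1
  rw [h2] at h1
  exact h1

/-- `E` is a maximal tuple of `{N} ∪ S` with nonzero determinant. -/
def IsMax (ρ : κ → Fin (n + 1) → ℝ) (N : Fin (n + 1) → ℝ) (S : Finset κ)
    (E : Fin (n + 1) → Option κ) : Prop :=
  (∀ k, E k ∈ Finset.insertNone S) ∧ tdet ρ N E ≠ 0 ∧ |tdet ρ N E| = MD ρ N S

theorem exists_isMax (ρ : κ → Fin (n + 1) → ℝ) (N : Fin (n + 1) → ℝ) (S : Finset κ)
    (hpos : 0 < MD ρ N S) : ∃ E, IsMax ρ N S E := by
  obtain ⟨E, hE1, hE2⟩ := exists_mdet (Pi.basisFun ℝ (Fin (n + 1)))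
    (fun o : Option κ => Option.elim o N ρ) (Finset.insertNone S) hpos
  rw [Pi.basisFun_det_apply] at hE2
  refine ⟨E, hE1, ?_, hE2⟩
  intro h0
  have h1 : |tdet ρ N E| = MD ρ N S := hE2
  rw [h0, abs_zero] at h1
  rw [← h1] at hpos
  exact lt_irrefl _ hpos

/-- Cramer coefficients with respect to a tuple. -/
noncomputable def mcoef (ρ : κ → Fin (n + 1) → ℝ) (N : Fin (n + 1) → ℝ)
    (E : Fin (n + 1) → Option κ) (i : κ) (k : Fin (n + 1)) : ℝ :=
  tdet ρ N (Function.update E k (some i)) / tdet ρ N E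

theorem nrow_eq_sum_mcoef (ρ : κ → Fin (n + 1) → ℝ) (N : Fin (n + 1) → ℝ)
    (E : Fin (n + 1) → Option κ) (hE : tdet ρ N E ≠ 0) (i : κ) :
    ρ i = ∑ k, mcoef ρ N E i k • nrow ρ N (E k) := by
  have hdet : (Pi.basisFun ℝ (Fin (n + 1))).det (fun k => nrow ρ N (E k)) ≠ 0 := by
    rw [Pi.basisFun_det_apply]
    exact hE
  obtain ⟨α, hα, hup⟩ := cramer_comb (Pi.basisFun ℝ (Fin (n + 1)))
    (fun k => nrow ρ N (E k)) hdet (ρ i)
  have h1 : ∀ k, α k = mcoef ρ N E i k := by
    intro k
    have h2 := hup k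
    have h3 : Function.update (fun k => nrow ρ N (E k)) k (ρ i) =
        fun l => nrow ρ N (Function.update E k (some i) l) := by
      funext l
      by_cases hl : l = k
      · subst hl
        simp [nrow]
      · simp [Function.update_of_ne hl]
    rw [h3, Pi.basisFun_det_apply, Pi.basisFun_det_apply] at h2
    unfold mcoef
    rw [eq_div_iff hE]
    exact h2.symm
  conv_lhs => rw [hα]
  apply Finset.sum_congr rfl
  intro k _
  rw [h1]

/-- A row which is not a wall has coefficients less than `c`. -/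
theorem mcoef_lt [DecidableEq κ] (ρ : κ → Fin (n + 1) → ℝ) (N : Fin (n + 1) → ℝ) (c : ℝ)
    (S : Finset κ) (i : κ) (E : Fin (n + 1) → Option κ) (hE : IsMax ρ N S E)
    (hw : ¬ IsWall ρ N c S i) (k : Fin (n + 1)) : |mcoef ρ N E i k| < c := by
  obtain ⟨h1, h2, h3⟩ := hE
  unfold IsWall at hw
  push Not at hw
  have hpos : 0 < |tdet ρ N E| := abs_pos.2 h2
  unfold mcoef
  rw [abs_div, div_lt_iff₀ hpos, h3]
  refine lt_of_le_of_lt ?_ hw
  apply tdet_le_MD
  intro l
  by_cases hl : l = k
  · subst hl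
    simp
  · rw [Function.update_of_ne hl]
    have h4 := h1 l
    rw [Finset.mem_insertNone] at h4 ⊢
    intro a ha
    exact Finset.mem_insert_of_mem (h4 a ha)

/-! ### Measurability -/

section meas

variable {Ω : Type} [MeasurableSpace Ω]

theorem measurable_tdet (ρ : Ω → κ → Fin (n + 1) → ℝ) (N : Ω → Fin (n + 1) → ℝ)
    (hρ : ∀ r j, Measurable (fun ω => ρ ω r j)) (hN : ∀ j, Measurable (fun ω => N ω j))
    (E : Fin (n + 1) → Option κ) : Measurable (fun ω => tdet (ρ ω) (N ω) E) := by
  unfold tdet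
  simp only [Matrix.det_apply]
  apply Finset.measurable_sum
  intro σ _
  apply Measurable.const_smul
  apply Finset.measurable_prod
  intro k _
  simp only [Matrix.of_apply]
  cases hE : E (σ k) with
  | none => simpa [nrow, hE] using hN k
  | some r => simpa [nrow, hE] using hρ r k

theorem measurable_MD [Finite κ] (ρ : Ω → κ → Fin (n + 1) → ℝ) (N : Ω → Fin (n + 1) → ℝ)
    (hρ : ∀ r j, Measurable (fun ω => ρ ω r j)) (hN : ∀ j, Measurable (fun ω => N ω j))
    (S : Finset κ) : Measurable (fun ω => MD (ρ ω) (N ω) S) := by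
  unfold MD mdet
  apply Measurable.iSup
  intro E
  have h := (measurable_tdet ρ N hρ hN (fun k => (E k : Option κ))).abs
  have h2 : (fun ω => |(Pi.basisFun ℝ (Fin (n + 1))).det
      (fun k => (fun o : Option κ => Option.elim o (N ω) (ρ ω)) (E k))|) =
      fun ω => |tdet (ρ ω) (N ω) (fun k => (E k : Option κ))| := by
    funext ω
    rw [Pi.basisFun_det_apply]
    rfl
  rw [h2]
  exact h

theorem measurableSet_isWall [Finite κ] [DecidableEq κ] (ρ : Ω → κ → Fin (n + 1) → ℝ)
    (N : Ω → Fin (n + 1) → ℝ)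
    (hρ : ∀ r j, Measurable (fun ω => ρ ω r j)) (hN : ∀ j, Measurable (fun ω => N ω j))
    (c : ℝ) (S : Finset κ) (i : κ) : MeasurableSet {ω | IsWall (ρ ω) (N ω) c S i} :=
  measurableSet_le ((measurable_MD ρ N hρ hN S).const_mul c) (measurable_MD ρ N hρ hN _)

theorem measurableSet_isMax [Finite κ] (ρ : Ω → κ → Fin (n + 1) → ℝ)
    (N : Ω → Fin (n + 1) → ℝ)
    (hρ : ∀ r j, Measurable (fun ω => ρ ω r j)) (hN : ∀ j, Measurable (fun ω => N ω j))
    (S : Finset κ) (E : Fin (n + 1) → Option κ) :
    MeasurableSet {ω | IsMax (ρ ω) (N ω) S E} := by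
  unfold IsMax
  have h1 := measurable_tdet ρ N hρ hN E
  have h2 := measurable_MD ρ N hρ hN S
  apply MeasurableSet.inter
  · exact MeasurableSet.const _
  · apply MeasurableSet.inter
    · exact (measurableSet_eq_fun h1 measurable_const).compl
    · exact measurableSet_eq_fun h1.abs h2

theorem measurable_mcoef (ρ : Ω → κ → Fin (n + 1) → ℝ) (N : Ω → Fin (n + 1) → ℝ)
    (hρ : ∀ r j, Measurable (fun ω => ρ ω r j)) (hN : ∀ j, Measurable (fun ω => N ω j))
    (E : Fin (n + 1) → Option κ) (i : κ) (k : Fin (n + 1)) :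
    Measurable (fun ω => mcoef (ρ ω) (N ω) E i k) :=
  (measurable_tdet ρ N hρ hN _).div (measurable_tdet ρ N hρ hN _)

end meas

end Pool.Agent.Lib.S3
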