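import Pool.Agent.Lib.S3.PointsN

/-! Walls in the homogeneous chart: representability modulo the chart row `N` and the free rows
`R`, the determinant potential, and its exact invariance under row shears. -/

set_option autoImplicit false

open Module

namespace Pool.Agent.Lib.S3

variable {κ : Type} {n : ℕ}

/-- `v` is a combination of the chart row, and of the rows of `S`, with coefficients at most `c`
outside the free rows `R`. -/
def RepN (ρ : κ → Fin (n + 1) → ℝ) (N : Fin (n + 1) → ℝ) (c : ℝ) (S R : Finset κ)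
    (v : Fin (n + 1) → ℝ) : Prop :=
  ∃ (x : κ → ℝ) (y : ℝ), (∀ j ∈ S, j ∉ R → |x j| ≤ c) ∧ v = y • N + ∑ j ∈ S, x j • ρ j

/-- The determinant potential of a set of rows, in the chart. -/
noncomputable def MD (ρ : κ → Fin (n + 1) → ℝ) (N : Fin (n + 1) → ℝ) (S : Finset κ) : ℝ :=
  mdet (Pi.basisFun ℝ (Fin (n + 1))) (fun o : Option κ => Option.elim o N ρ) (Finset.insertNone S)

theorem MD_nonneg (ρ : κ → Fin (n + 1) → ℝ) (N : Fin (n + 1) → ℝ) (S : Finset κ) :
    0 ≤ MD ρ N S := mdet_nonneg _ _ _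

theorem MD_mono (ρ : κ → Fin (n + 1) → ℝ) (N : Fin (n + 1) → ℝ) {S T : Finset κ} (h : S ⊆ T) :
    MD ρ N S ≤ MD ρ N T :=
  mdet_mono _ _ (Finset.insertNone.monotone h)

/-- Start value of the potential. -/
theorem le_MD (ρ : κ → Fin (n + 1) → ℝ) (N : Fin (n + 1) → ℝ) (S : Finset κ) (J : Fin n → κ)
    (hJ : ∀ k, J k ∈ S) :
    |(Matrix.of (Fin.cons N (fun k => ρ (J k)) : Fin (n + 1) → Fin (n + 1) → ℝ)).det| ≤
      MD ρ N S := by
  have h := le_mdet (Pi.basisFun ℝ (Fin (n + 1))) (fun o : Option κ => Option.elim o N ρ)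
    (Finset.insertNone S) (Fin.cons none (fun k => some (J k))) (by
      intro k
      refine Fin.cases ?_ (fun k => ?_) k
      · simp
      · simp [hJ])
  have h2 : (fun k => (fun o : Option κ => Option.elim o N ρ)
      ((Fin.cons none (fun k => some (J k)) : Fin (n + 1) → Option κ) k)) =
      (Fin.cons N (fun k => ρ (J k)) : Fin (n + 1) → Fin (n + 1) → ℝ) := by
    funext k
    refine Fin.cases ?_ (fun k => ?_) k
    · simp
    · simp
  rw [h2, Pi.basisFun_det_apply] at h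
  exact h

/-- End value of the potential. -/
theorem MD_le (ρ : κ → Fin (n + 1) → ℝ) (N : Fin (n + 1) → ℝ) (S : Finset κ) (Mb : ℝ)
    (hMb : 0 ≤ Mb) (hρ : ∀ r ∈ S, ∀ j, |ρ r j| ≤ Mb) (hN : ∀ j, |N j| ≤ Mb) :
    MD ρ N S ≤ ((n + 1).factorial : ℝ) * Mb ^ (n + 1) := by
  apply mdet_le _ _ _ _ (by positivity)
  intro E hE
  rw [Pi.basisFun_det_apply]
  have h1 := Matrix.det_le
    (A := Matrix.of (fun k => (fun o : Option κ => Option.elim o N ρ) (E k)))
    (abv := AbsoluteValue.abs) (x := Mb) (by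
      intro i j
      have h2 := hE i
      show |(Option.elim (E i) N ρ) j| ≤ Mb
      cases hEi : E i with
      | none => exact hN j
      | some r =>
        rw [hEi] at h2
        exact hρ r (by simpa using h2) j)
  simpa [Fintype.card_fin] using h1

/-- A wall multiplies the potential by `c`. -/
theorem MD_wall [DecidableEq κ] (ρ : κ → Fin (n + 1) → ℝ) (N : Fin (n + 1) → ℝ) (c : ℝ)
    (hc : 0 ≤ c) (S R T : Finset κ) (i : κ) (hST : S ⊆ T) (hi : i ∈ T)
    (hrep : ¬ RepN ρ N c S R (ρ i)) : c * MD ρ N S ≤ MD ρ N T := by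
  apply mdet_wall (Pi.basisFun ℝ (Fin (n + 1))) (fun o : Option κ => Option.elim o N ρ) c
    (Finset.insertNone S) (Finset.insertNone R) (Finset.insertNone T) (some i) hc
    (Finset.insertNone.monotone hST) (by simpa using hi)
  rintro ⟨x, hx, hv⟩
  apply hrep
  refine ⟨fun j => x (some j), x none, ?_, ?_⟩
  · intro j hj hjR
    exact hx (some j) (by simpa using hj) (by simpa using hjR)
  · have h1 : ρ i = ∑ j ∈ Finset.insertNone S, x j • (Option.elim j N ρ) := hv
    rw [h1, Finset.sum_insertNone]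
    rfl

/-- Counting walls along an increasing sequence of sets of rows, chart form. -/
theorem MD_chain [DecidableEq κ] (ρ : κ → Fin (n + 1) → ℝ) (N : Fin (n + 1) → ℝ) (c : ℝ)
    (hc : 1 ≤ c) (S : ℕ → Finset κ) (K : ℕ) (hS : ∀ l < K, S l ⊆ S (l + 1)) (W : Finset ℕ)
    (hW : ∀ l ∈ W, l < K ∧ ∃ i ∈ S (l + 1), ∃ R : Finset κ, ¬ RepN ρ N c (S l) R (ρ i)) :
    c ^ W.card * MD ρ N (S 0) ≤ MD ρ N (S K) := by
  apply wall_chain (Pi.basisFun ℝ (Fin (n + 1))) (fun o : Option κ => Option.elim o N ρ) c hc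
    (fun l => Finset.insertNone (S l)) K (fun l hl => Finset.insertNone.monotone (hS l hl)) W
  intro l hl
  obtain ⟨h1, i, hi, R, hrep⟩ := hW l hl
  refine ⟨h1, some i, by simpa using hi, Finset.insertNone R, ?_⟩
  rintro ⟨x, hx, hv⟩
  apply hrep
  refine ⟨fun j => x (some j), x none, ?_, ?_⟩
  · intro j hj hjR
    exact hx (some j) (by simpa using hj) (by simpa using hjR)
  · have h1 : ρ i = ∑ j ∈ Finset.insertNone (S l), x j • (Option.elim j N ρ) := hv
    rw [h1, Finset.sum_insertNone]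
    rfl

/-- The number of walls on an increasing sequence of sets of rows which starts with the basis. -/
theorem wall_count [DecidableEq κ] (ρ : κ → Fin (n + 1) → ℝ) (N : Fin (n + 1) → ℝ) (c Mb : ℝ)
    (hc : 1 ≤ c) (hMb : 0 ≤ Mb) (S : ℕ → Finset κ) (K : ℕ) (hS : ∀ l < K, S l ⊆ S (l + 1))
    (hρ : ∀ r ∈ S K, ∀ j, |ρ r j| ≤ Mb) (hN : ∀ j, |N j| ≤ Mb) (J : Fin n → κ)
    (hJ : ∀ k, J k ∈ S 0) (W : Finset ℕ)
    (hW : ∀ l ∈ W, l < K ∧ ∃ i ∈ S (l + 1), ∃ R : Finset κ, ¬ RepN ρ N c (S l) R (ρ i)) :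
    c ^ W.card *
      |(Matrix.of (Fin.cons N (fun k => ρ (J k)) : Fin (n + 1) → Fin (n + 1) → ℝ)).det| ≤
      ((n + 1).factorial : ℝ) * Mb ^ (n + 1) := by
  refine le_trans (mul_le_mul_of_nonneg_left (le_MD ρ N (S 0) J hJ) (by positivity)) ?_
  exact le_trans (MD_chain ρ N c hc S K hS W hW) (MD_le ρ N (S K) Mb hMb hρ hN)

/-- More rows and more free rows. -/
theorem RepN.mono {ρ : κ → Fin (n + 1) → ℝ} {N : Fin (n + 1) → ℝ} {c c' : ℝ}
    {S T R R' : Finset κ} {v : Fin (n + 1) → ℝ} (h : RepN ρ N c S R v) (hST : S ⊆ T)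
    (hR : R ⊆ R') (hc : c ≤ c') (hc' : 0 ≤ c') : RepN ρ N c' T R' v := by
  classical
  obtain ⟨x, y, hx, hv⟩ := h
  refine ⟨fun j => if j ∈ S then x j else 0, y, ?_, ?_⟩
  · intro j _ hj
    by_cases hjS : j ∈ S
    · simp only [if_pos hjS]
      exact le_trans (hx j hjS (fun h => hj (hR h))) hc
    · simp only [if_neg hjS, abs_zero]
      exact hc'
  · rw [hv]
    congr 1
    rw [← Finset.sum_subset hST (f := fun j => (if j ∈ S then x j else 0) • ρ j)]
    · apply Finset.sum_congr rfl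
      intro j hj
      rw [if_pos hj]
    · intro j _ hj
      rw [if_neg hj, zero_smul]

/-- Representability is exactly invariant under shears by a free row `i` which fix `N`. -/
theorem RepN.shear [DecidableEq κ] {ρ ρ' : κ → Fin (n + 1) → ℝ} {N : Fin (n + 1) → ℝ} {c : ℝ}
    {S R : Finset κ} {v v' : Fin (n + 1) → ℝ} {i : κ} (hiS : i ∈ S) (hiR : i ∈ R) (t : κ → ℝ)
    (hρ : ∀ j, ρ' j = ρ j + t j • ρ i) (hti : t i = 0) (s : ℝ) (hv : v' = v + s • ρ i)
    (h : RepN ρ N c S R v) : RepN ρ' N c S R v' := by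
  obtain ⟨x, y, hx, hv'⟩ := h
  have h1 : Rep ρ c S R (v - y • N) := ⟨x, hx, by rw [hv']; abel⟩
  obtain ⟨x', hx', h2⟩ := Rep.shear hiS hiR t hρ hti s (v' := v' - y • N) (by rw [hv]; abel) h1
  exact ⟨x', y, hx', by rw [← h2]; abel⟩

/-- Reverse direction. -/
theorem RepN.shear_iff [DecidableEq κ] {ρ ρ' : κ → Fin (n + 1) → ℝ} {N : Fin (n + 1) → ℝ} {c : ℝ}
    {S R : Finset κ} {v v' : Fin (n + 1) → ℝ} {i : κ} (hiS : i ∈ S) (hiR : i ∈ R) (t : κ → ℝ)
    (hρ : ∀ j, ρ' j = ρ j + t j • ρ i) (hti : t i = 0) (s : ℝ) (hv : v' = v + s • ρ i) :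
    RepN ρ N c S R v ↔ RepN ρ' N c S R v' := by
  have hi : ρ' i = ρ i := by rw [hρ, hti, zero_smul, add_zero]
  constructor
  · exact RepN.shear hiS hiR t hρ hti s hv
  · apply RepN.shear hiS hiR (fun j => - t j) _ (by simp [hti]) (-s)
    · rw [hv, hi]
      module
    · intro j
      rw [hρ, hi]
      module

/-- Batch payment coefficients: a representable row is an exact combination of the chart row, of the
rows of `S`, and the coefficients off `R` are bounded; rows of `R` are invisible on their face. -/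
theorem RepN.dot {ρ : κ → Fin (n + 1) → ℝ} {N : Fin (n + 1) → ℝ} {c : ℝ} {S R : Finset κ}
    {v : Fin (n + 1) → ℝ} (h : RepN ρ N c S R v) :
    ∃ (x : κ → ℝ) (y : ℝ), (∀ j ∈ S, j ∉ R → |x j| ≤ c) ∧
      ∀ p : Fin (n + 1) → ℝ, N ⬝ᵥ p = 1 → v ⬝ᵥ p = y + ∑ j ∈ S, x j * (ρ j ⬝ᵥ p) := by
  obtain ⟨x, y, hx, hv⟩ := h
  refine ⟨x, y, hx, fun p hp => ?_⟩
  rw [hv, add_dotProduct, smul_dotProduct, hp, sum_dotProduct, smul_eq_mul, mul_one]
  congr 1
  apply Finset.sum_congr rfl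
  intro j _
  rw [smul_dotProduct, smul_eq_mul]

end Pool.Agent.Lib.S3
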