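import Pool.Agent.Lib.S3.Wall

/-! Weak rows at a vertex: a basis whose determinant is not too small represents every row with
bounded coefficients after adding a few rows. -/

set_option autoImplicit false

open Module

namespace Pool.Agent.Lib.S3

variable {ι V : Type} [AddCommGroup V] [Module ℝ V] {n : ℕ}

/-- Scaling some members of a family. -/
theorem det_scale (b0 : Basis (Fin n) ℝ V) (v : Fin n → V) (s : Fin n → ℝ) :
    b0.det (fun k => s k • v k) = (∏ k, s k) * b0.det v := by
  rw [AlternatingMap.map_smul_univ, smul_eq_mul]

/-- There are few rows `W` such that every row is a combination of the rows of `W`, with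
coefficients at most one, and of the rows of the basis, with coefficients at most `1 / ε`. -/
theorem exists_weak [Fintype ι] [DecidableEq ι] (b0 : Basis (Fin n) ℝ V) (a : ι → V)
    (e : Fin n → ι) (ε : ℝ) (hε0 : 0 < ε) (hε1 : ε ≤ 1)
    (he : b0.det (fun k => a (e k)) ≠ 0) :
    ∃ W : Finset ι, (∀ w ∈ W, ∀ k, e k ≠ w) ∧
      |b0.det (fun k => a (e k))| ≤ ε ^ W.card * mdet b0 a Finset.univ ∧
      ∀ r, ∃ (α : ι → ℝ) (ρ : Fin n → ℝ), (∀ w, |α w| ≤ 1) ∧ (∀ j, |ρ j| ≤ 1 / ε) ∧
        a r = ∑ w ∈ W, α w • a w + ∑ j, ρ j • a (e j) := by
  classical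
  let J : Finset ι := Finset.univ.image e
  have hJ : ∀ i, i ∈ J ↔ ∃ k, e k = i := by
    intro i
    simp [J]
  let s : ι → ℝ := fun i => if i ∈ J then 1 else ε
  have hs0 : ∀ i, 0 < s i := by
    intro i
    by_cases h : i ∈ J
    · simp [s, h]
    · simp [s, h, hε0]
  let h : ι → V := fun i => s i • a i
  have hhe : (fun k => h (e k)) = fun k => a (e k) := by
    funext k
    have : e k ∈ J := (hJ _).2 ⟨k, rfl⟩
    simp [h, s, this]
  have hpos : 0 < mdet b0 h Finset.univ := by
    have h1 := le_mdet b0 h Finset.univ e (fun _ => Finset.mem_univ _)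
    rw [hhe] at h1
    exact lt_of_lt_of_le (abs_pos.2 he) h1
  obtain ⟨E, _, hE⟩ := exists_mdet b0 h Finset.univ hpos
  have hEne : b0.det (fun k => h (E k)) ≠ 0 := by
    rw [← hE] at hpos
    exact abs_pos.1 hpos
  have hinj : Function.Injective E := by
    intro k l hkl
    by_contra hkl'
    apply hEne
    exact b0.det.map_eq_zero_of_eq _ (by rw [hkl]) hkl'
  have heinj : Function.Injective e := by
    intro k l hkl
    by_contra hkl'
    apply he
    exact b0.det.map_eq_zero_of_eq _ (by rw [hkl]) hkl'
  let K : Finset (Fin n) := Finset.univ.filter (fun k => E k ∉ J)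
  have hK : ∀ k, k ∈ K ↔ E k ∉ J := by
    intro k
    simp [K]
  let W : Finset ι := K.image E
  have hcard : W.card = K.card := Finset.card_image_of_injective K hinj
  have hprod : ∏ k, s (E k) = ε ^ W.card := by
    rw [hcard, ← Finset.prod_const]
    rw [← Finset.prod_filter_mul_prod_filter_not Finset.univ (fun k => E k ∉ J)]
    have h1 : ∏ k ∈ Finset.univ.filter (fun k => ¬ (E k ∉ J)), s (E k) = 1 := by
      apply Finset.prod_eq_one
      intro k hk
      have : E k ∈ J := by
        simpa using (Finset.mem_filter.1 hk).2
      simp [s, this]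
    rw [h1, mul_one]
    apply Finset.prod_congr rfl
    intro k hk
    have : E k ∉ J := (hK k).1 hk
    simp [s, this]
  refine ⟨W, ?_, ?_, ?_⟩
  · intro w hw k hkw
    obtain ⟨l, hl, hlw⟩ := Finset.mem_image.1 hw
    apply (hK l).1 hl
    rw [hlw]
    exact (hJ w).2 ⟨k, hkw⟩
  · have h1 := le_mdet b0 h Finset.univ e (fun _ => Finset.mem_univ _)
    rw [hhe, ← hE] at h1
    have h2 : b0.det (fun k => h (E k)) = (∏ k, s (E k)) * b0.det (fun k => a (E k)) :=
      det_scale b0 _ _
    rw [h2, hprod, abs_mul, abs_of_nonneg (pow_nonneg hε0.le _)] at h1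
    refine le_trans h1 ?_
    apply mul_le_mul_of_nonneg_left _ (pow_nonneg hε0.le _)
    exact le_mdet b0 a Finset.univ E (fun _ => Finset.mem_univ _)
  · intro r
    have h1ε : (1 : ℝ) ≤ 1 / ε := by
      rw [le_div_iff₀ hε0, one_mul]
      exact hε1
    by_cases hr : r ∈ J
    · obtain ⟨k, hk⟩ := (hJ r).1 hr
      refine ⟨fun _ => 0, fun j => if j = k then 1 else 0, by simp, ?_, ?_⟩
      · intro j
        by_cases hj : j = k
        · simp only [if_pos hj, abs_one]
          exact h1ε
        · simp only [if_neg hj, abs_zero]
          exact le_trans zero_le_one h1ε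
      · simp [hk]
    · obtain ⟨α, hα, hdet⟩ := cramer_comb b0 (fun k => h (E k)) hEne (h r)
      have hα1 : ∀ k, |α k| ≤ 1 := by
        intro k
        have h2 := hdet k
        have h3 : Function.update (fun k => h (E k)) k (h r) =
            fun l => h (Function.update E k r l) := by
          funext l
          by_cases hl : l = k
          · subst hl
            simp
          · simp [Function.update_of_ne hl]
        rw [h3] at h2
        have h4 := le_mdet b0 h Finset.univ (Function.update E k r) (fun _ => Finset.mem_univ _)
        rw [h2, abs_mul, hE] at h4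
        have h5 : |α k| * mdet b0 h Finset.univ ≤ 1 * mdet b0 h Finset.univ := by
          rw [one_mul]
          exact h4
        exact le_of_mul_le_mul_right h5 hpos
      have hsr : s r = ε := by simp [s, hr]
      -- coefficients on W
      let α' : ι → ℝ := fun w => ∑ k, if E k = w then α k else 0
      have hα' : ∀ k, α' (E k) = α k := by
        intro k
        simp only [α']
        rw [Finset.sum_eq_single k]
        · simp
        · intro l _ hl
          rw [if_neg]
          exact fun h => hl (hinj h)
        · intro h
          exact absurd (Finset.mem_univ k) h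
      have hα'0 : ∀ j, (∀ k, E k ≠ j) → α' j = 0 := by
        intro j hj
        simp only [α']
        apply Finset.sum_eq_zero
        intro k _
        rw [if_neg (hj k)]
      have hα'1 : ∀ w, |α' w| ≤ 1 := by
        intro w
        by_cases hw : ∃ k, E k = w
        · obtain ⟨k, hk⟩ := hw
          rw [← hk, hα']
          exact hα1 k
        · push Not at hw
          rw [hα'0 w hw, abs_zero]
          exact zero_le_one
      refine ⟨α', fun j => α' (e j) / ε, hα'1, ?_, ?_⟩
      · intro j
        rw [abs_div, abs_of_pos hε0]
        exact div_le_div_of_nonneg_right (hα'1 _) hε0.le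
      · have h6 : ε • a r = ∑ k, α k • h (E k) := by
          rw [← hα]
          simp only [h, hsr]
        have h7 : ∑ k, α k • h (E k) = ∑ k ∈ K, α k • h (E k) +
            ∑ k ∈ Finset.univ.filter (fun k => ¬ (E k ∉ J)), α k • h (E k) := by
          rw [Finset.sum_filter_add_sum_filter_not]
        have h8 : ∑ k ∈ K, α k • h (E k) = ε • ∑ w ∈ W, α' w • a w := by
          rw [Finset.sum_image (fun k _ l _ h => hinj h), Finset.smul_sum]
          apply Finset.sum_congr rfl
          intro k hk
          have : E k ∉ J := (hK k).1 hk
          rw [hα']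
          simp only [h, s, this, if_false]
          rw [smul_smul, smul_smul, mul_comm]
        have h9 : ∑ k ∈ Finset.univ.filter (fun k => ¬ (E k ∉ J)), α k • h (E k) =
            ∑ j, α' (e j) • a (e j) := by
          have h10 : ∑ j, α' (e j) • a (e j) = ∑ i ∈ J, α' i • a i := by
            rw [Finset.sum_image (fun k _ l _ h => heinj h)]
          rw [h10]
          have h11 : ∑ k ∈ Finset.univ.filter (fun k => ¬ (E k ∉ J)), α k • h (E k) =
              ∑ i ∈ (Finset.univ.filter (fun k => ¬ (E k ∉ J))).image E, α' i • a i := by
            rw [Finset.sum_image (fun k _ l _ h => hinj h)]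
            apply Finset.sum_congr rfl
            intro k hk
            have : E k ∈ J := by
              simpa using (Finset.mem_filter.1 hk).2
            rw [hα']
            simp [h, s, this]
          rw [h11]
          apply Finset.sum_subset
          · intro i hi
            obtain ⟨k, hk, hki⟩ := Finset.mem_image.1 hi
            rw [← hki]
            simpa using (Finset.mem_filter.1 hk).2
          · intro i hiJ hi
            rw [hα'0, zero_smul]
            intro k hk
            apply hi
            refine Finset.mem_image.2 ⟨k, ?_, hk⟩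
            rw [Finset.mem_filter]
            refine ⟨Finset.mem_univ _, ?_⟩
            rw [not_not, hk]
            exact hiJ
        rw [h7, h8, h9] at h6
        have h12 : a r = ε⁻¹ • (ε • a r) := by
          rw [smul_smul, inv_mul_cancel₀ hε0.ne', one_smul]
        rw [h12, h6, smul_add, smul_smul, inv_mul_cancel₀ hε0.ne', one_smul, Finset.smul_sum]
        congr 1
        apply Finset.sum_congr rfl
        intro j _
        rw [smul_smul]
        congr 1
        ring

/-- Determinants of rows with bounded entries. -/
theorem mdet_pi_le [Fintype ι] (a : ι → Fin n → ℝ) (S : Finset ι) (M : ℝ) (hM : 0 ≤ M)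
    (ha : ∀ i ∈ S, ∀ j, |a i j| ≤ M) :
    mdet (Pi.basisFun ℝ (Fin n)) a S ≤ (n.factorial : ℝ) * M ^ n := by
  apply mdet_le
  · positivity
  · intro E hE
    rw [Pi.basisFun_det_apply]
    have h1 := Matrix.det_le (A := Matrix.of (fun k => a (E k))) (abv := AbsoluteValue.abs)
      (x := M) (by
        intro i j
        exact ha _ (hE i) j)
    simpa [Fintype.card_fin] using h1

end Pool.Agent.Lib.S3
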